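import Mathlib

/-!
# Basic definitions: frameworks, global rigidity, stresses
-/

set_option autoImplicit false

namespace Pool.Agent.Lib.P6a51b6

open scoped Matrix

/-- `Free S a`: the derivations of `ℝ` killing `S` take arbitrary values on the family `a`. -/
def Free (S : Set ℝ) {ι : Type*} (a : ι → ℝ) : Prop :=
  ∀ b : ι → ℝ, ∃ D : Derivation ℚ ℝ ℝ, (∀ x ∈ S, D x = 0) ∧ ∀ i, D (a i) = b i

section

variable {V : Type*} {d : ℕ}

/-- squared length -/
def sq (x : Fin d → ℝ) : ℝ := x ⬝ᵥ x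

/-- `q` has the same edge lengths as `p`. -/
def EquivFw (G : SimpleGraph V) (p q : V → Fin d → ℝ) : Prop :=
  ∀ u v, G.Adj u v → sq (q u - q v) = sq (p u - p v)

/-- `q` is congruent to `p`. -/
def CongrFw (p q : V → Fin d → ℝ) : Prop := ∀ u v, sq (q u - q v) = sq (p u - p v)

/-- the framework `(G,p)` is globally rigid. -/
def GRAt (G : SimpleGraph V) (p : V → Fin d → ℝ) : Prop := ∀ q, EquivFw G p q → CongrFw p q

/-- generic placements -/
def Generic (p : V → Fin d → ℝ) : Prop :=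
  AlgebraicIndependent ℚ (fun x : V × Fin d => p x.1 x.2)

/-- `G` is globally rigid in dimension `d`. -/
def GR (G : SimpleGraph V) (d : ℕ) : Prop := ∀ p : V → Fin d → ℝ, Generic p → GRAt G p

/-- infinitesimal motion -/
def IsMotion (G : SimpleGraph V) (p m : V → Fin d → ℝ) : Prop :=
  ∀ u v, G.Adj u v → (p u - p v) ⬝ᵥ (m u - m v) = 0

/-- infinitesimal rigidity -/
def InfRigid (G : SimpleGraph V) (p : V → Fin d → ℝ) : Prop :=
  ∀ m : V → Fin d → ℝ, IsMotion G p m → ∀ u v, (p u - p v) ⬝ᵥ (m u - m v) = 0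

/-- `p` affinely spans. -/
def AffSpan (p : V → Fin d → ℝ) : Prop :=
  ∀ (b : Fin d → ℝ) (β : ℝ), (∀ u, b ⬝ᵥ p u + β = 0) → b = 0

/-- `G` minus the set `Z` is connected (or empty): every predicate preserved along the edges outside
`Z` is constant outside `Z`. -/
def ConnOff (G : SimpleGraph V) (Z : Set V) : Prop :=
  ∀ P : V → Prop, (∀ a b, a ∉ Z → b ∉ Z → G.Adj a b → P a → P b) →
    ∀ a b, a ∉ Z → b ∉ Z → P a → P b

/-- `G` (on `Option V`, with `v₁ = some v` and `v₂ = none`) is the `d`-dimensional vertex split of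
`H` at `v` with parts `A₁, C, A₂`. -/
structure IsSplit (H : SimpleGraph V) (v : V) (A₁ C A₂ : Finset V) (G : SimpleGraph (Option V))
    (d : ℕ) : Prop where
  nbr : ∀ u, H.Adj v u ↔ u ∈ A₁ ∨ u ∈ C ∨ u ∈ A₂
  disj₁ : ∀ u ∈ A₁, u ∉ C
  disj₂ : ∀ u ∈ A₂, u ∉ C
  disj₃ : ∀ u ∈ A₁, u ∉ A₂
  card : C.card + 1 = d
  bridge : G.Adj none (some v)
  adj₁ : ∀ u, u ≠ v → (G.Adj (some v) (some u) ↔ u ∈ A₁ ∨ u ∈ C)
  adj₂ : ∀ u, u ≠ v → (G.Adj none (some u) ↔ u ∈ A₂ ∨ u ∈ C)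
  adj₃ : ∀ u w, u ≠ v → w ≠ v → (G.Adj (some u) (some w) ↔ H.Adj u w)

variable [Fintype V]

/-- weighted Laplacian of a function -/
def Lap (w : V → V → ℝ) (x : V → ℝ) : V → ℝ := fun u => ∑ v, w u v * (x u - x v)

/-- equilibrium stresses, as symmetric weights supported on the edges -/
structure IsStress (G : SimpleGraph V) (p : V → Fin d → ℝ) (w : V → V → ℝ) : Prop where
  symm : ∀ u v, w u v = w v u
  supp : ∀ u v, ¬ G.Adj u v → w u v = 0
  eq : ∀ i, Lap w (fun v => p v i) = 0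

/-- The stress matrix has the smallest possible kernel: only affine functions of `p`. -/
def MaxStress (p : V → Fin d → ℝ) (w : V → V → ℝ) : Prop :=
  ∀ x : V → ℝ, Lap w x = 0 → ∃ (b : Fin d → ℝ) (β : ℝ), ∀ u, x u = b ⬝ᵥ p u + β

end

end Pool.Agent.Lib.P6a51b6
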