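import Pool.Agent.Lib.P6a51b6.DLin

/-!
# Linear algebra tools: coordinate sets, separation, Gram determinants, trivial motions
-/

set_option autoImplicit false

namespace Pool.Agent.Lib.P6a51b6

open scoped Matrix

section

variable {I : Type*} [Fintype I] [DecidableEq I]

/-- A coordinate set for a subspace of `ℝ^I`. -/
theorem exists_coord (A : Submodule ℝ (I → ℝ)) :
    ∃ J : Finset I, (∀ x ∈ A, (∀ j ∈ J, x j = 0) → x = 0) ∧
      (∀ c : I → ℝ, ∃ x ∈ A, ∀ j ∈ J, x j = c j) := by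
  classical
  have hex : ∃ n, ∃ J : Finset I, J.card = n ∧ (∀ x ∈ A, (∀ j ∈ J, x j = 0) → x = 0) :=
    ⟨_, Finset.univ, rfl, fun x _ hx => funext fun j => hx j (Finset.mem_univ j)⟩
  obtain ⟨J, hJn, hJ⟩ := Nat.find_spec hex
  refine ⟨J, hJ, ?_⟩
  have hmin : ∀ j ∈ J, ∃ x ∈ A, x j = 1 ∧ ∀ i ∈ J, i ≠ j → x i = 0 := by
    intro j hj
    have hcard : (J.erase j).card < Nat.find hex := by
      rw [← hJn]
      exact Finset.card_erase_lt_of_mem hj
    have h1 := Nat.find_min hex hcard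
    have h2 : ¬ ∀ x ∈ A, (∀ i ∈ J.erase j, x i = 0) → x = 0 := fun h => h1 ⟨_, rfl, h⟩
    push Not at h2
    obtain ⟨x, hxA, hx, hx0⟩ := h2
    have hxj : x j ≠ 0 := by
      intro h
      apply hx0
      apply hJ x hxA
      intro i hi
      by_cases hij : i = j
      · rw [hij, h]
      · exact hx i (Finset.mem_erase.mpr ⟨hij, hi⟩)
    refine ⟨(x j)⁻¹ • x, A.smul_mem _ hxA, ?_, ?_⟩
    · simp [hxj]
    · intro i hi hij
      simp [hx i (Finset.mem_erase.mpr ⟨hij, hi⟩)]
  choose! x hxA hx1 hx2 using hmin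
  intro c
  refine ⟨∑ j ∈ J, c j • x j, A.sum_mem fun j hj => A.smul_mem _ (hxA j hj), ?_⟩
  intro i hi
  rw [Finset.sum_apply, Finset.sum_eq_single i]
  · simp [hx1 i hi]
  · intro j hj hji
    simp [hx2 j hj i hi (Ne.symm hji)]
  · intro h
    exact absurd hi h

/-- Separation of a point from a subspace. -/
theorem exists_sep {A : Submodule ℝ (I → ℝ)} {y : I → ℝ} (hy : y ∉ A) :
    ∃ z : I → ℝ, (∀ x ∈ A, z ⬝ᵥ x = 0) ∧ z ⬝ᵥ y ≠ 0 := by
  obtain ⟨f, hf, hfA⟩ := Submodule.exists_dual_map_eq_bot_of_notMem hy inferInstance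
  have hrep : ∀ x : I → ℝ, (fun i => f (Pi.single i 1)) ⬝ᵥ x = f x := by
    intro x
    have h1 : x = ∑ i, x i • (Pi.single i (1 : ℝ) : I → ℝ) := by
      funext j
      rw [Finset.sum_apply, Finset.sum_eq_single j]
      · simp
      · intro i _ hij
        simp [hij.symm]
      · intro h
        exact absurd (Finset.mem_univ j) h
    conv_rhs => rw [h1, map_sum]
    simp only [map_smul, smul_eq_mul, dotProduct]
    exact Finset.sum_congr rfl fun i _ => mul_comm _ _
  refine ⟨fun i => f (Pi.single i 1), ?_, ?_⟩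
  · intro x hx
    rw [hrep]
    have : f x ∈ A.map f := ⟨x, hx, rfl⟩
    rw [hfA] at this
    exact this
  · rw [hrep]
    exact hf

end

/-- Gram determinants detect injectivity. -/
theorem gram_det_ne_zero {m n : Type*} [Fintype m] [Fintype n] [DecidableEq n]
    (R : Matrix m n ℝ) : (Rᵀ * R).det ≠ 0 ↔ ∀ x, R *ᵥ x = 0 → x = 0 := by
  constructor
  · intro h x hx
    by_contra hx0
    apply h
    rw [← Matrix.exists_mulVec_eq_zero_iff]
    refine ⟨x, hx0, ?_⟩
    rw [← Matrix.mulVec_mulVec, hx, Matrix.mulVec_zero]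
  · intro h hdet
    rw [← Matrix.exists_mulVec_eq_zero_iff] at hdet
    obtain ⟨x, hx0, hx⟩ := hdet
    apply hx0
    apply h
    rw [← dotProduct_self_eq_zero]
    rw [← Matrix.mulVec_mulVec] at hx
    have h1 : x ⬝ᵥ Rᵀ *ᵥ (R *ᵥ x) = 0 := by rw [hx, dotProduct_zero]
    rw [Matrix.dotProduct_mulVec, Matrix.vecMul_transpose] at h1
    exact h1

section triv

variable {V : Type*} {d : ℕ}

theorem AffSpan.orth {p : V → Fin d → ℝ} (hp : AffSpan p) (v₀ : V) {f : Fin d → ℝ}
    (hf : ∀ u, f ⬝ᵥ (p u - p v₀) = 0) : f = 0 := by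
  refine hp f (- (f ⬝ᵥ p v₀)) fun u => ?_
  have := hf u
  rw [dotProduct_sub] at this
  linarith

/-- Trivial infinitesimal motions of an affinely spanning placement come from skew matrices and
translations. -/
theorem trivial_motion [Fintype V] {p : V → Fin d → ℝ} (hp : AffSpan p) {m : V → Fin d → ℝ}
    (hm : ∀ u v, (p u - p v) ⬝ᵥ (m u - m v) = 0) :
    ∃ (A : Matrix (Fin d) (Fin d) ℝ) (c : Fin d → ℝ), Aᵀ = -A ∧ ∀ u, m u = A *ᵥ p u + c := by
  classical
  rcases isEmpty_or_nonempty V with hV | ⟨⟨v₀⟩⟩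
  · exact ⟨0, 0, by simp, fun u => (hV.false u).elim⟩
  set y : V → Fin d → ℝ := fun u => p u - p v₀ with hy
  set μ : V → Fin d → ℝ := fun u => m u - m v₀ with hμ
  have hdiag : ∀ u, y u ⬝ᵥ μ u = 0 := fun u => hm u v₀
  have hpair : ∀ u w, y u ⬝ᵥ μ w + y w ⬝ᵥ μ u = 0 := by
    intro u w
    have h1 := hm u w
    have e1 : p u - p w = y u - y w := by simp [hy]
    have e2 : m u - m w = μ u - μ w := by simp [hμ]
    rw [e1, e2] at h1
    simp only [sub_dotProduct, dotProduct_sub] at h1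
    have h2 := hdiag u
    have h3 := hdiag w
    linarith
  have horth : ∀ f : Fin d → ℝ, (∀ u, f ⬝ᵥ y u = 0) → f = 0 := fun f hf => hp.orth v₀ hf
  have hspan : Submodule.span ℝ (Set.range y) = ⊤ := by
    by_contra hne
    have hlt : Submodule.span ℝ (Set.range y) < ⊤ := lt_top_iff_ne_top.mpr hne
    obtain ⟨x, -, hx⟩ := SetLike.exists_of_lt hlt
    obtain ⟨z, hz1, hz2⟩ := exists_sep hx
    apply hz2
    rw [horth z fun u => hz1 _ (Submodule.subset_span ⟨u, rfl⟩), zero_dotProduct]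
  have hcoef : ∀ i : Fin d, ∃ C : V → ℝ, ∑ u, C u • y u = (Pi.single i 1 : Fin d → ℝ) := by
    intro i
    have : (Pi.single i 1 : Fin d → ℝ) ∈ Submodule.span ℝ (Set.range y) := by rw [hspan]; trivial
    exact (Submodule.mem_span_range_iff_exists_fun ℝ).mp this
  choose C hC using hcoef
  -- the matrix
  let A : Matrix (Fin d) (Fin d) ℝ := Matrix.of fun j i => (∑ u, C i u • μ u) j
  have hAmul : ∀ x : Fin d → ℝ, A *ᵥ x = ∑ i, x i • ∑ u, C i u • μ u := by
    intro x
    funext j
    simp only [Matrix.mulVec, dotProduct, A, Matrix.of_apply, Finset.sum_apply, Pi.smul_apply,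
      smul_eq_mul]
    exact Finset.sum_congr rfl fun i _ => mul_comm _ _
  have hAdot : ∀ (x : Fin d → ℝ) (z : V), (A *ᵥ x) ⬝ᵥ y z = - (x ⬝ᵥ μ z) := by
    intro x z
    rw [hAmul, sum_dotProduct]
    have h1 : ∀ i, (x i • ∑ u, C i u • μ u) ⬝ᵥ y z = - (x i * μ z i) := by
      intro i
      rw [smul_dotProduct, sum_dotProduct]
      have h2 : ∀ u, (C i u • μ u) ⬝ᵥ y z = - ((C i u • y u) ⬝ᵥ μ z) := by
        intro u
        rw [smul_dotProduct, smul_dotProduct, dotProduct_comm (μ u)]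
        have := hpair u z
        simp only [smul_eq_mul]
        rw [← mul_neg]
        congr 1
        linarith
      rw [Finset.sum_congr rfl fun u _ => h2 u, Finset.sum_neg_distrib, ← sum_dotProduct, hC,
        single_dotProduct]
      simp
    rw [Finset.sum_congr rfl fun i _ => h1 i, Finset.sum_neg_distrib]
    rfl
  have hAy : ∀ w, A *ᵥ y w = μ w := by
    intro w
    rw [← sub_eq_zero]
    apply horth
    intro z
    rw [sub_dotProduct, hAdot, dotProduct_comm (μ w)]
    have := hpair w z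
    linarith
  refine ⟨A, m v₀ - A *ᵥ p v₀, ?_, fun u => ?_⟩
  · -- skewness
    have hskew : ∀ w z, y w ⬝ᵥ A *ᵥ y z + y z ⬝ᵥ A *ᵥ y w = 0 := by
      intro w z
      rw [hAy, hAy]
      exact hpair w z
    have h1 : ∀ z, (A + Aᵀ) *ᵥ y z = 0 := by
      intro z
      apply horth
      intro w
      rw [dotProduct_comm, Matrix.add_mulVec, dotProduct_add, Matrix.mulVec_transpose,
        dotProduct_comm (y w) (y z ᵥ* A), ← Matrix.dotProduct_mulVec]
      exact hskew w z
    have h2 : ∀ x, (A + Aᵀ) *ᵥ x = 0 := by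
      intro x
      have hx : x ∈ Submodule.span ℝ (Set.range y) := by rw [hspan]; trivial
      induction hx using Submodule.span_induction with
      | mem x hx =>
        obtain ⟨u, rfl⟩ := hx
        exact h1 u
      | zero => simp
      | add a b _ _ ha hb => rw [Matrix.mulVec_add, ha, hb, add_zero]
      | smul r a _ ha => rw [Matrix.mulVec_smul, ha, smul_zero]
    have h3 : A + Aᵀ = 0 := by
      ext i j
      have := congrFun (h2 (Pi.single j 1)) i
      simpa [Matrix.mulVec_single_one] using this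
    exact eq_neg_of_add_eq_zero_right h3
  · have h1 := hAy u
    have h2 : A *ᵥ p u = A *ᵥ p v₀ + μ u := by
      rw [← h1, hy]
      simp only [Matrix.mulVec_sub]
      abel
    rw [h2, hμ]
    simp only
    abel

end triv

end Pool.Agent.Lib.P6a51b6
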