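import Pool.Agent.Lib.P6a51b6.GenLin

/-!
# Derivations and linear algebra
-/

set_option autoImplicit false

namespace Pool.Agent.Lib.P6a51b6

open scoped Matrix

variable {n : Type*} [Fintype n]

theorem D_dot (D : Derivation ℚ ℝ ℝ) (a b : n → ℝ) :
    D (a ⬝ᵥ b) = (fun i => D (a i)) ⬝ᵥ b + a ⬝ᵥ (fun i => D (b i)) := by
  simp only [dotProduct, map_sum, Derivation.leibniz, smul_eq_mul]
  rw [← Finset.sum_add_distrib]
  exact Finset.sum_congr rfl (fun i _ => by ring)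

theorem D_mulVec (D : Derivation ℚ ℝ ℝ) (S : Matrix n n ℝ) (y : n → ℝ) :
    (fun i => D ((S *ᵥ y) i)) = (S.map D) *ᵥ y + S *ᵥ (fun i => D (y i)) := by
  funext i
  simp only [Matrix.mulVec, Pi.add_apply]
  rw [D_dot]
  rfl

theorem D_quad (D : Derivation ℚ ℝ ℝ) {S : Matrix n n ℝ} (hS : S.IsSymm) (y : n → ℝ) :
    D (y ⬝ᵥ S *ᵥ y) = y ⬝ᵥ (S.map D) *ᵥ y + 2 * (y ⬝ᵥ S *ᵥ (fun i => D (y i))) := by
  rw [D_dot, D_mulVec, dotProduct_add]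
  have h : (fun i => D (y i)) ⬝ᵥ S *ᵥ y = y ⬝ᵥ S *ᵥ (fun i => D (y i)) := by
    rw [Matrix.dotProduct_mulVec, ← Matrix.mulVec_transpose, hS.eq, dotProduct_comm]
  rw [h]
  ring

theorem symm_dot {S : Matrix n n ℝ} (hS : S.IsSymm) (x y : n → ℝ) :
    x ⬝ᵥ S *ᵥ y = y ⬝ᵥ S *ᵥ x := by
  rw [Matrix.dotProduct_mulVec, ← Matrix.mulVec_transpose, hS.eq, dotProduct_comm]

theorem map_isSymm (D : Derivation ℚ ℝ ℝ) {S : Matrix n n ℝ} (hS : S.IsSymm) :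
    (S.map D).IsSymm := by
  unfold Matrix.IsSymm
  rw [← Matrix.transpose_map, hS.eq]

end Pool.Agent.Lib.P6a51b6
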