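import Mathlib

/-!
# Derivations of the field of real numbers

Extension of derivations: if `a` is algebraically independent over a subfield `F` of `ℝ` then there
is an `F`-derivation of `ℝ` with prescribed values on `a`.
-/

set_option autoImplicit false

namespace Pool.Agent.Lib.P6a51b6

open MvPolynomial TensorProduct
open scoped IntermediateField.algebraAdjoinAdjoin

theorem formallyEtale_adjoin {F : Type*} [Field F] [Algebra F ℝ] {ι : Type*} {x : ι → ℝ}
    (ht : IsTranscendenceBasis F x) :
    Algebra.FormallyEtale (Algebra.adjoin F (Set.range x)) ℝ := by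
  classical
  have : CharZero F := by
    refine ⟨fun m n h => ?_⟩
    have h2 : (algebraMap F ℝ) (m : F) = (algebraMap F ℝ) (n : F) := by rw [h]
    simpa using h2
  have hfr : IsFractionRing (Algebra.adjoin F (Set.range x))
    (IntermediateField.adjoin F (Set.range x)) := inferInstance
  have h1 : Algebra.FormallyEtale (Algebra.adjoin F (Set.range x))
    (IntermediateField.adjoin F (Set.range x)) :=
    Algebra.FormallyEtale.of_isLocalization (nonZeroDivisors _)
  have hcz : CharZero (IntermediateField.adjoin F (Set.range x)) := inferInstance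
  have halg : Algebra.IsAlgebraic (IntermediateField.adjoin F (Set.range x)) ℝ :=
    ht.isAlgebraic_field
  have hsep : Algebra.IsSeparable (IntermediateField.adjoin F (Set.range x)) ℝ := inferInstance
  have h2 : Algebra.FormallyEtale (IntermediateField.adjoin F (Set.range x)) ℝ :=
    Algebra.FormallyEtale.of_isSeparable _ _
  exact Algebra.FormallyEtale.comp _ (IntermediateField.adjoin F (Set.range x)) _

theorem exists_derivation_basis {F : Type*} [Field F] [Algebra F ℝ] {ι : Type*} {x : ι → ℝ}
    (ht : IsTranscendenceBasis F x) (b : ι → ℝ) :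
    ∃ D : Derivation F ℝ ℝ, ∀ i, D (x i) = b i := by
  classical
  let A₀ := Algebra.adjoin F (Set.range x)
  let e : MvPolynomial ι F ≃ₐ[F] A₀ := ht.1.aevalEquiv
  have he : ∀ i, ((e (X i) : A₀) : ℝ) = x i := by
    intro i
    have := ht.1.algebraMap_aevalEquiv (X i)
    rw [aeval_X] at this
    exact this
  have hfe : Algebra.FormallyEtale A₀ ℝ := formallyEtale_adjoin ht
  -- derivation on the polynomial ring
  let _ : Algebra (MvPolynomial ι F) ℝ := (aeval x).toAlgebra
  have hsc : IsScalarTower F (MvPolynomial ι F) ℝ := by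
    refine IsScalarTower.of_algebraMap_eq fun r => ?_
    show algebraMap F ℝ r = aeval x (algebraMap F (MvPolynomial ι F) r)
    simp
  let D₁ : Derivation F (MvPolynomial ι F) ℝ := mkDerivation F b
  have hD₁ : ∀ i, D₁ (X i) = b i := fun i => mkDerivation_X _ _ _
  have hsm : ∀ (p : MvPolynomial ι F) (r : ℝ), p • r = aeval x p * r := fun p r => rfl
  have hesymm : ∀ a : A₀, aeval x (e.symm a) = (a : ℝ) := by
    intro a
    have := ht.1.algebraMap_aevalEquiv (e.symm a)
    rw [← this]
    show ((e (e.symm a) : A₀) : ℝ) = a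
    simp
  let D₀ : Derivation F A₀ ℝ := Derivation.mk' (D₁.toLinearMap ∘ₗ e.symm.toLinearMap) (by
    intro a b
    show D₁ (e.symm (a * b)) = _
    rw [map_mul, Derivation.leibniz]
    rw [hsm, hsm, hesymm, hesymm]
    rfl)
  have hD₀ : ∀ i, D₀ (e (X i)) = b i := by
    intro i
    show D₁ (e.symm (e (X i))) = b i
    rw [e.symm_apply_apply]
    exact hD₁ i
  have hbc : IsBaseChange ℝ (KaehlerDifferential.map F F A₀ ℝ) :=
    KaehlerDifferential.isBaseChange_of_formallyEtale F A₀ ℝ
  let l : Ω[ℝ⁄F] →ₗ[ℝ] ℝ := hbc.lift D₀.liftKaehlerDifferential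
  refine ⟨l.compDer (KaehlerDifferential.D F ℝ), fun i => ?_⟩
  show l (KaehlerDifferential.D F ℝ (x i)) = b i
  have h1 : KaehlerDifferential.D F ℝ (x i) =
      KaehlerDifferential.map F F A₀ ℝ (KaehlerDifferential.D F A₀ (e (X i))) := by
    rw [KaehlerDifferential.map_D]
    congr 1
    exact (he i).symm
  rw [h1, hbc.lift_eq]
  show D₀.liftKaehlerDifferential (KaehlerDifferential.D F A₀ (e (X i))) = b i
  rw [Derivation.liftKaehlerDifferential_comp_D]
  exact hD₀ i

theorem exists_derivation {F : Type*} [Field F] [Algebra F ℝ] {ι : Type*} {a : ι → ℝ}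
    (ha : AlgebraicIndependent F a) (b : ι → ℝ) :
    ∃ D : Derivation F ℝ ℝ, ∀ i, D (a i) = b i := by
  classical
  obtain ⟨t, hst, ht⟩ := exists_isTranscendenceBasis_superset (s := Set.range a) (R := F)
    (ha.coe_range)
  let b' : t → ℝ := fun y => if h : ∃ i, a i = y then b h.choose else 0
  obtain ⟨D, hD⟩ := exists_derivation_basis ht b'
  refine ⟨D, fun i => ?_⟩
  have h1 := hD ⟨a i, hst ⟨i, rfl⟩⟩
  rw [h1]
  have hex : ∃ j, a j = a i := ⟨i, rfl⟩
  simp only [b', hex, dif_pos]
  congr 1
  exact ha.injective hex.choose_spec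

end Pool.Agent.Lib.P6a51b6
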