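import Pool.Agent.Lib.P6a51b6.Coord

/-!
# Energy identities, duality between stresses and measurements
-/

set_option autoImplicit false

namespace Pool.Agent.Lib.P6a51b6

open scoped Matrix

variable {V : Type*} [Fintype V] {d : ℕ}

theorem Lap_add (w : V → V → ℝ) (x y : V → ℝ) : Lap w (x + y) = Lap w x + Lap w y := by
  funext u
  simp only [Lap, Pi.add_apply]
  rw [← Finset.sum_add_distrib]
  exact Finset.sum_congr rfl fun v _ => by ring

theorem Lap_smul (w : V → V → ℝ) (r : ℝ) (x : V → ℝ) : Lap w (r • x) = r • Lap w x := by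
  funext u
  simp only [Lap, Pi.smul_apply, smul_eq_mul]
  rw [Finset.mul_sum]
  exact Finset.sum_congr rfl fun v _ => by ring

theorem Lap_const (w : V → V → ℝ) (c : ℝ) : Lap w (fun _ => c) = 0 := by
  funext u
  simp [Lap]

/-- The kernel of the Laplacian. -/
def kerLap (w : V → V → ℝ) : Submodule ℝ (V → ℝ) where
  carrier := {x | Lap w x = 0}
  add_mem' := by
    intro x y hx hy
    simp only [Set.mem_ofPred_eq] at hx hy ⊢
    rw [Lap_add, hx, hy, add_zero]
  zero_mem' := by
    simp only [Set.mem_ofPred_eq]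
    exact Lap_const w 0
  smul_mem' := by
    intro r x hx
    simp only [Set.mem_ofPred_eq] at hx ⊢
    rw [Lap_smul, hx, smul_zero]

theorem mem_kerLap {w : V → V → ℝ} {x : V → ℝ} : x ∈ kerLap w ↔ Lap w x = 0 := Iff.rfl

theorem energy {w : V → V → ℝ} (hw : ∀ u v, w u v = w v u) (x y : V → ℝ) :
    ∑ u, ∑ v, w u v * ((x u - x v) * (y u - y v)) = 2 * ∑ u, y u * Lap w x u := by
  have h1 : ∑ u, ∑ v, w u v * ((x u - x v) * y u) = ∑ u, y u * Lap w x u := by
    refine Finset.sum_congr rfl fun u _ => ?_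
    simp only [Lap, Finset.mul_sum]
    exact Finset.sum_congr rfl fun v _ => by ring
  have h2 : ∑ u, ∑ v, w u v * ((x u - x v) * y v) = - ∑ u, y u * Lap w x u := by
    rw [Finset.sum_comm, ← Finset.sum_neg_distrib]
    refine Finset.sum_congr rfl fun u _ => ?_
    simp only [Lap, Finset.mul_sum]
    rw [← Finset.sum_neg_distrib]
    refine Finset.sum_congr rfl fun v _ => ?_
    rw [hw v u]
    ring
  have h3 : ∑ u, ∑ v, w u v * ((x u - x v) * (y u - y v)) =
      ∑ u, ∑ v, w u v * ((x u - x v) * y u) - ∑ u, ∑ v, w u v * ((x u - x v) * y v) := by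
    rw [← Finset.sum_sub_distrib]
    refine Finset.sum_congr rfl fun u _ => ?_
    rw [← Finset.sum_sub_distrib]
    exact Finset.sum_congr rfl fun v _ => by ring
  rw [h3, h1, h2]
  ring

theorem Lap_symm {w : V → V → ℝ} (hw : ∀ u v, w u v = w v u) (x y : V → ℝ) :
    ∑ u, y u * Lap w x u = ∑ u, x u * Lap w y u := by
  have h1 := energy hw x y
  have h2 := energy hw y x
  have h3 : ∑ u, ∑ v, w u v * ((x u - x v) * (y u - y v)) =
      ∑ u, ∑ v, w u v * ((y u - y v) * (x u - x v)) :=
    Finset.sum_congr rfl fun u _ => Finset.sum_congr rfl fun v _ => by ring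
  rw [h1, h2] at h3
  linarith

theorem D_Lap (D : Derivation ℚ ℝ ℝ) (w : V → V → ℝ) (x : V → ℝ) (u : V) :
    D (Lap w x u) = Lap (fun u v => D (w u v)) x u + Lap w (fun v => D (x v)) u := by
  simp only [Lap, map_sum, Derivation.leibniz, smul_eq_mul, map_sub]
  rw [← Finset.sum_add_distrib]
  exact Finset.sum_congr rfl fun v _ => by ring

/-- vector valued energy identity -/
theorem energy_vec {w : V → V → ℝ} (hw : ∀ u v, w u v = w v u) (p m : V → Fin d → ℝ) :
    ∑ u, ∑ v, w u v * ((p u - p v) ⬝ᵥ (m u - m v)) =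
      2 * ∑ i, ∑ u, m u i * Lap w (fun v => p v i) u := by
  have h1 : ∑ u, ∑ v, w u v * ((p u - p v) ⬝ᵥ (m u - m v)) =
      ∑ i, ∑ u, ∑ v, w u v * ((p u i - p v i) * (m u i - m v i)) := by
    rw [Finset.sum_comm (s := (Finset.univ : Finset (Fin d)))]
    refine Finset.sum_congr rfl fun u _ => ?_
    rw [Finset.sum_comm (s := (Finset.univ : Finset (Fin d)))]
    refine Finset.sum_congr rfl fun v _ => ?_
    simp only [dotProduct, Pi.sub_apply, Finset.mul_sum]
  rw [h1, Finset.mul_sum]
  refine Finset.sum_congr rfl fun i _ => ?_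
  exact energy hw (fun v => p v i) (fun v => m v i)

open scoped Classical in
/-- The polarised measurement map, as a function on pairs of vertices. -/
noncomputable def Bm (G : SimpleGraph V) (p m : V → Fin d → ℝ) : V × V → ℝ :=
  fun x => if G.Adj x.1 x.2 then (p x.1 - p x.2) ⬝ᵥ (m x.1 - m x.2) else 0

theorem Bm_adj {G : SimpleGraph V} {p m : V → Fin d → ℝ} {u v : V} (h : G.Adj u v) :
    Bm G p m (u, v) = (p u - p v) ⬝ᵥ (m u - m v) := by
  simp [Bm, h]

theorem Bm_not_adj {G : SimpleGraph V} {p m : V → Fin d → ℝ} {u v : V} (h : ¬ G.Adj u v) :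
    Bm G p m (u, v) = 0 := by
  simp [Bm, h]

theorem Bm_symm (G : SimpleGraph V) (p m : V → Fin d → ℝ) (u v : V) :
    Bm G p m (u, v) = Bm G p m (v, u) := by
  by_cases h : G.Adj u v
  · rw [Bm_adj h, Bm_adj h.symm, ← neg_sub (p u), ← neg_sub (m u), neg_dotProduct,
      dotProduct_neg, neg_neg]
  · rw [Bm_not_adj h, Bm_not_adj (fun h' => h h'.symm)]

theorem Bm_comm (G : SimpleGraph V) (p m : V → Fin d → ℝ) : Bm G p m = Bm G m p := by
  funext x
  by_cases h : G.Adj x.1 x.2
  · simp [Bm, h, dotProduct_comm]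
  · simp [Bm, h]

theorem Bm_add (G : SimpleGraph V) (p m m' : V → Fin d → ℝ) :
    Bm G p (m + m') = Bm G p m + Bm G p m' := by
  funext x
  by_cases h : G.Adj x.1 x.2
  · simp only [Bm, h, if_true, Pi.add_apply]
    rw [← dotProduct_add]
    congr 1
    abel
  · simp [Bm, h]

theorem Bm_smul (G : SimpleGraph V) (p m : V → Fin d → ℝ) (r : ℝ) :
    Bm G p (r • m) = r • Bm G p m := by
  funext x
  by_cases h : G.Adj x.1 x.2
  · simp only [Bm, h, if_true, Pi.smul_apply]
    rw [← dotProduct_smul, smul_sub]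
  · simp [Bm, h]

/-- The measurement map as a linear map. -/
noncomputable def BmL (G : SimpleGraph V) (p : V → Fin d → ℝ) :
    (V → Fin d → ℝ) →ₗ[ℝ] (V × V → ℝ) where
  toFun := Bm G p
  map_add' := Bm_add G p
  map_smul' := fun r m => Bm_smul G p m r

@[simp] theorem BmL_apply (G : SimpleGraph V) (p m : V → Fin d → ℝ) : BmL G p m = Bm G p m := rfl

theorem Bm_eq_zero_iff {G : SimpleGraph V} {p m : V → Fin d → ℝ} :
    Bm G p m = 0 ↔ IsMotion G p m := by
  constructor
  · intro h u v huv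
    rw [← Bm_adj huv, h]
    rfl
  · intro h
    funext x
    obtain ⟨u, v⟩ := x
    by_cases huv : G.Adj u v
    · rw [Bm_adj huv, h u v huv]
      rfl
    · rw [Bm_not_adj huv]
      rfl

/-- Pairing of a supported symmetric weight with a measurement. -/
theorem pair_Bm {G : SimpleGraph V} {w : V → V → ℝ} (hsymm : ∀ u v, w u v = w v u)
    (hsupp : ∀ u v, ¬ G.Adj u v → w u v = 0) (p m : V → Fin d → ℝ) :
    ∑ u, ∑ v, w u v * Bm G p m (u, v) = 2 * ∑ i, ∑ u, m u i * Lap w (fun v => p v i) u := by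
  rw [← energy_vec hsymm]
  refine Finset.sum_congr rfl fun u _ => Finset.sum_congr rfl fun v _ => ?_
  by_cases h : G.Adj u v
  · rw [Bm_adj h]
  · rw [hsupp u v h, zero_mul, zero_mul]

/-- Duality: a symmetric function supported on the edges and orthogonal to all stresses is a
measurement. -/
theorem exists_measurement [DecidableEq V] {G : SimpleGraph V} {p : V → Fin d → ℝ}
    {y : V × V → ℝ} (hsymm : ∀ u v, y (u, v) = y (v, u))
    (hsupp : ∀ u v, ¬ G.Adj u v → y (u, v) = 0)
    (horth : ∀ w, IsStress G p w → ∑ u, ∑ v, w u v * y (u, v) = 0) :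
    ∃ m : V → Fin d → ℝ, y = Bm G p m := by
  classical
  by_contra hcon
  have hy : y ∉ LinearMap.range (BmL G p) := by
    rintro ⟨m, hm⟩
    exact hcon ⟨m, hm.symm⟩
  obtain ⟨z, hz1, hz2⟩ := exists_sep hy
  set w : V → V → ℝ := fun u v => if G.Adj u v then z (u, v) + z (v, u) else 0 with hw
  have hwsymm : ∀ u v, w u v = w v u := by
    intro u v
    simp only [hw]
    by_cases h : G.Adj u v
    · rw [if_pos h, if_pos h.symm, add_comm]
    · rw [if_neg h, if_neg (fun h' => h h'.symm)]
  have hwsupp : ∀ u v, ¬ G.Adj u v → w u v = 0 := by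
    intro u v h
    simp [hw, h]
  have hpair : ∀ b : V × V → ℝ, (∀ u v, b (u, v) = b (v, u)) → (∀ u v, ¬ G.Adj u v → b (u, v) = 0) →
      ∑ u, ∑ v, w u v * b (u, v) = 2 * (z ⬝ᵥ b) := by
    intro b hb1 hb2
    have h1 : z ⬝ᵥ b = ∑ u, ∑ v, z (u, v) * b (u, v) := by
      rw [dotProduct, Fintype.sum_prod_type]
    have h2 : z ⬝ᵥ b = ∑ u, ∑ v, z (v, u) * b (u, v) := by
      rw [h1, Finset.sum_comm]
      refine Finset.sum_congr rfl fun u _ => Finset.sum_congr rfl fun v _ => ?_
      rw [hb1 v u]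
    have h3 : ∑ u, ∑ v, w u v * b (u, v) =
        ∑ u, ∑ v, z (u, v) * b (u, v) + ∑ u, ∑ v, z (v, u) * b (u, v) := by
      rw [← Finset.sum_add_distrib]
      refine Finset.sum_congr rfl fun u _ => ?_
      rw [← Finset.sum_add_distrib]
      refine Finset.sum_congr rfl fun v _ => ?_
      by_cases h : G.Adj u v
      · simp only [hw, h, if_true]
        ring
      · rw [hb2 u v h]
        ring
    rw [h3, ← h1, ← h2]
    ring
  have hstress : IsStress G p w := by
    refine ⟨hwsymm, hwsupp, fun i => ?_⟩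
    have hall : ∀ m : V → Fin d → ℝ, ∑ i, ∑ u, m u i * Lap w (fun v => p v i) u = 0 := by
      intro m
      have h1 := pair_Bm hwsymm hwsupp p m
      rw [hpair _ (Bm_symm G p m) (fun u v h => Bm_not_adj h)] at h1
      have h2 := hz1 (Bm G p m) ⟨m, rfl⟩
      rw [h2] at h1
      linarith
    funext u
    have h1 := hall (fun u' i' => if u' = u ∧ i' = i then 1 else 0)
    rw [Finset.sum_eq_single i, Finset.sum_eq_single u] at h1
    · simpa using h1
    · intro u' _ hu'
      simp [hu']
    · intro h; exact absurd (Finset.mem_univ _) h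
    · intro i' _ hi'
      simp [hi']
    · intro h; exact absurd (Finset.mem_univ _) h
  have h1 := horth w hstress
  rw [hpair y hsymm hsupp] at h1
  apply hz2
  linarith

end Pool.Agent.Lib.P6a51b6
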