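import Pool.Agent.Lib.P6a51b6.Slice

/-!
# Applying the fold lemma to the slice
-/

set_option autoImplicit false

namespace Pool.Agent.Lib.P6a51b6

open scoped Matrix

variable {V : Type*} [Fintype V] [DecidableEq V] {d : ℕ}
variable {G : SimpleGraph V} {p : V → Fin d → ℝ} {w : V → V → ℝ} {X₀ X₁ : Finset V}
  {P : V → V → ℝ}

/-- row of an index -/
def rowOf {X₁ : Finset V} : SIdx d X₁ → Fin d := Sum.elim (fun ij => ij.1.1) (fun ix => ix.1)

/-- the space of measurements -/
noncomputable def measL (G : SimpleGraph V) (p : V → Fin d → ℝ) (w : V → V → ℝ) :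
    Submodule ℝ (V × V → ℝ) where
  carrier := {y | ∃ m, InK w m ∧ y = Bm G p m}
  add_mem' := by
    rintro _ _ ⟨m, hm, rfl⟩ ⟨m', hm', rfl⟩
    exact ⟨m + m', hm.add hm', (Bm_add G p m m').symm⟩
  zero_mem' := ⟨0, fun i => Lap_const w 0, by
    have := Bm_smul G p (0 : V → Fin d → ℝ) 0
    rw [zero_smul, zero_smul] at this
    exact this.symm⟩
  smul_mem' := by
    rintro r _ ⟨m, hm, rfl⟩
    exact ⟨r • m, hm.smul r, (Bm_smul G p m r).symm⟩

theorem Frame.Bm_mem (F : Frame G p w X₀ X₁ P) {q r : V → Fin d → ℝ} (hq : InK w q)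
    (hr : InK w r) : Bm G q r ∈ measL G p w := by
  obtain ⟨m, hm, h⟩ := exists_inK F.gen F.stress F.der (y := Bm G q r) (Bm_symm G q r)
    (fun u v h => Bm_not_adj h) (deriv_orth F.stress hq hr)
  exact ⟨m, hm, h⟩

theorem Bm_sum_right {ι : Type*} (s : Finset ι) (G : SimpleGraph V) (p : V → Fin d → ℝ)
    (M : ι → ℝ) (Q : ι → V → Fin d → ℝ) :
    Bm G p (∑ a ∈ s, M a • Q a) = ∑ a ∈ s, M a • Bm G p (Q a) := by
  have := map_sum (BmL G p) (fun a => M a • Q a) s
  simp only [map_smul, BmL_apply] at this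
  exact this

theorem Bm_qM (q : V → Fin d → ℝ) (M : SIdx d X₁ → ℝ) :
    Bm G q (qM p X₁ P M) = ∑ a, M a • Bm G q (Qb p X₁ P a) :=
  Bm_sum_right _ _ _ _ _

theorem Frame.fold (F : Frame G p w X₀ X₁ P) (hd : 0 < d) :
    ∃ A B : SIdx d X₁ → ℝ, A ≠ B ∧
      Bm G (qM p X₁ P A) (qM p X₁ P A) = Bm G (qM p X₁ P B) (qM p X₁ P B) ∧
      Free (FrameS p w) A ∧ Free (FrameS p w) B ∧
      (∀ r : Fin d, ∃ a, rowOf a = r ∧ 0 < A a * B a) ∧
      (∀ m, InK w m → ∃ v : SIdx d X₁ → ℝ, Bm G p m = Bm G (qM p X₁ P A) (qM p X₁ P v)) := by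
  classical
  obtain ⟨J, hJinj, hJsurj⟩ := exists_coord (measL G p w)
  -- the linearised map at `p`
  let Θ : (SIdx d X₁ → ℝ) →ₗ[ℝ] (J → ℝ) :=
    { toFun := fun M j => Bm G p (qM p X₁ P M) j
      map_add' := by
        intro M N
        funext j
        rw [qM_add, Bm_add]
        rfl
      map_smul' := by
        intro r M
        funext j
        rw [qM_smul, Bm_smul]
        rfl }
  have hmem : ∀ M, Bm G p (qM p X₁ P M) ∈ measL G p w := fun M => ⟨_, F.inK_qM M, rfl⟩
  have hΘinj : Function.Injective Θ := by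
    rw [← LinearMap.ker_eq_bot, LinearMap.ker_eq_bot']
    intro M hM
    apply F.slice_inj
    exact hJinj _ (hmem M) fun j hj => congrFun hM ⟨j, hj⟩
  have hΘsurj : Function.Surjective Θ := by
    intro c
    obtain ⟨y, ⟨m, hm, rfl⟩, hy⟩ := hJsurj (fun j => if h : j ∈ J then c ⟨j, h⟩ else 0)
    obtain ⟨A, B, β, hAB⟩ := F.decomp hm
    obtain ⟨S, hS, hAS⟩ := exists_skew_slice (A₁ := (1 : Matrix (Fin d) (Fin d) ℝ))
      Matrix.blockTriangular_one (fun i => by simp) A
    rw [Matrix.mul_one] at hAS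
    refine ⟨fromAB X₁ (A - S) B, ?_⟩
    funext j
    have h1 : Bm G p (qM p X₁ P (fromAB X₁ (A - S) B)) = Bm G p m := by
      rw [qM_fromAB hAS]
      have h2 : m = qAB p X₁ P (A - S) B + (fun u => S *ᵥ p u + β) := by
        funext u
        rw [Pi.add_apply, hAB u]
        funext k
        simp only [qAB, Pi.add_apply, Matrix.sub_mulVec, Pi.sub_apply]
        ring
      have h3 : Bm G p (fun u => S *ᵥ p u + β) = 0 := by
        rw [Bm_eq_zero_iff]
        intro u v _
        have h4 : S *ᵥ p u + β - (S *ᵥ p v + β) = S *ᵥ (p u - p v) := by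
          rw [Matrix.mulVec_sub]; abel
        simp only [h4]
        have h5 : ∀ x : Fin d → ℝ, x ⬝ᵥ S *ᵥ x = 0 := by
          intro x
          have h6 : x ⬝ᵥ S *ᵥ x = - (x ⬝ᵥ S *ᵥ x) := by
            conv_lhs => rw [Matrix.dotProduct_mulVec, ← Matrix.mulVec_transpose, hS,
              Matrix.neg_mulVec, neg_dotProduct, dotProduct_comm]
          linarith
        exact h5 _
      rw [h2, Bm_add, h3, add_zero]
    show Bm G p (qM p X₁ P (fromAB X₁ (A - S) B)) j = c j
    rw [h1, hy j j.2]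
    simp
  have hcard : Fintype.card (SIdx d X₁) = Fintype.card J := by
    have h1 := (LinearEquiv.ofBijective Θ ⟨hΘinj, hΘsurj⟩).finrank_eq
    rwa [Module.finrank_fintype_fun_eq_card, Module.finrank_fintype_fun_eq_card] at h1
  let e : SIdx d X₁ ≃ J := Fintype.equivOfCardEq hcard
  -- coefficients
  let c : SIdx d X₁ → SIdx d X₁ → SIdx d X₁ → ℝ := fun k a b =>
    Bm G (Qb p X₁ P a) (Qb p X₁ P b) (e k)
  have hBmconst : ∀ a b x, Bm G (Qb p X₁ P a) (Qb p X₁ P b) x ∈ FS (FrameS p w) := by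
    intro a b x
    by_cases h : G.Adj x.1 x.2
    · simp only [Bm, h, if_true, dotProduct, Pi.sub_apply]
      exact Subfield.sum_mem _ fun i _ => Subfield.mul_mem _
        (Subfield.sub_mem _ (F.Qb_const _ _ _) (F.Qb_const _ _ _))
        (Subfield.sub_mem _ (F.Qb_const _ _ _) (F.Qb_const _ _ _))
    · simp only [Bm, h, if_false]
      exact Subfield.zero_mem _
  have hc : ∀ k i j, c k i j ∈ FS (FrameS p w) := fun k i j => hBmconst _ _ _
  have hqmap : ∀ M k, qmap c M k = Bm G (qM p X₁ P M) (qM p X₁ P M) (e k) := by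
    intro M k
    rw [Bm_qM, Finset.sum_apply]
    simp only [qmap, c]
    rw [Finset.sum_comm]
    refine Finset.sum_congr rfl fun b _ => ?_
    rw [Pi.smul_apply, Bm_comm, Bm_qM, Finset.sum_apply, smul_eq_mul, Finset.mul_sum]
    refine Finset.sum_congr rfl fun a _ => ?_
    rw [Pi.smul_apply, smul_eq_mul, Bm_comm]
    ring
  have hqjac : ∀ M k j, qjac c M k j = 2 * Bm G (qM p X₁ P M) (Qb p X₁ P j) (e k) := by
    intro M k j
    rw [Bm_comm, Bm_qM, Finset.sum_apply, Finset.mul_sum]
    simp only [qjac, Matrix.of_apply, c]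
    refine Finset.sum_congr rfl fun a _ => ?_
    rw [Pi.smul_apply, smul_eq_mul, Bm_comm G (Qb p X₁ P a)]
    ring
  have hqjacmul : ∀ M v k, (qjac c M *ᵥ v) k =
      2 * Bm G (qM p X₁ P M) (qM p X₁ P v) (e k) := by
    intro M v k
    rw [Bm_qM, Finset.sum_apply, Finset.mul_sum]
    simp only [Matrix.mulVec, dotProduct, hqjac]
    refine Finset.sum_congr rfl fun a _ => ?_
    rw [Pi.smul_apply, smul_eq_mul]
    ring
  -- regular point
  have hM₁ : (qjac c (fromAB X₁ 1 0)).det ≠ 0 := by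
    intro h
    rw [← Matrix.exists_mulVec_eq_zero_iff] at h
    obtain ⟨v, hv0, hv⟩ := h
    apply hv0
    apply hΘinj
    rw [map_zero]
    funext j
    obtain ⟨k, rfl⟩ := e.surjective j
    have h1 := congrFun hv k
    rw [hqjacmul, qM_fromAB Matrix.blockTriangular_one] at h1
    have h2 : qAB p X₁ P 1 0 = p := by
      funext u i
      simp [qAB]
    rw [h2] at h1
    show Bm G p (qM p X₁ P v) (e k) = 0
    simp only [Pi.zero_apply] at h1
    linarith
  -- index
  obtain ⟨x₁, hx₁⟩ := F.ne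
  have hk₀ : Nonempty (SIdx d X₁) := ⟨Sum.inr (⟨0, hd⟩, ⟨x₁, hx₁⟩)⟩
  obtain ⟨k₀⟩ := hk₀
  have hnonneg : ∀ (q : V → Fin d → ℝ) x, 0 ≤ Bm G q q x := by
    intro q x
    by_cases h : G.Adj x.1 x.2
    · simp only [Bm, h, if_true]
      exact Finset.sum_nonneg fun i _ => mul_self_nonneg _
    · simp [Bm, h]
  have hpos : ∀ M, 0 ≤ qmap c M k₀ := by
    intro M
    rw [hqmap]
    exact hnonneg _ _
  -- properness
  have hproper : ∀ R : ℝ, Bornology.IsBounded {M | ∀ k, |qmap c M k| ≤ R} := by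
    intro R
    -- recover all edge lengths
    choose z hzL hz using fun j : V × V => hJsurj (fun i => if i = j then 1 else 0)
    have hrec : ∀ y ∈ measL G p w, y = ∑ j ∈ J, y j • z j := by
      intro y hy
      rw [← sub_eq_zero]
      apply hJinj
      · exact Submodule.sub_mem _ hy (Submodule.sum_mem _ fun j _ =>
          Submodule.smul_mem _ _ (hzL j))
      · intro i hi
        rw [Pi.sub_apply, Finset.sum_apply, Finset.sum_eq_single i]
        · simp [hz i i hi]
        · intro j _ hji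
          rw [Pi.smul_apply, hz j i hi, if_neg (Ne.symm hji), smul_zero]
        · intro h; exact absurd hi h
    -- the injective difference map
    let Ξ : (SIdx d X₁ → ℝ) →ₗ[ℝ] (V × V → Fin d → ℝ) :=
      { toFun := fun M x => if G.Adj x.1 x.2 then qM p X₁ P M x.1 - qM p X₁ P M x.2 else 0
        map_add' := by
          intro M N
          funext x
          by_cases h : G.Adj x.1 x.2
          · simp only [h, if_true, qM_add, Pi.add_apply]
            abel
          · simp [h]
        map_smul' := by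
          intro r M
          funext x
          by_cases h : G.Adj x.1 x.2
          · simp only [h, if_true, qM_smul, Pi.smul_apply, RingHom.id_apply, smul_sub]
          · simp [h] }
    have hΞinj : LinearMap.ker Ξ = ⊥ := by
      rw [LinearMap.ker_eq_bot']
      intro M hM
      apply F.slice_inj
      rw [Bm_eq_zero_iff]
      intro u v huv
      have h1 := congrFun hM (u, v)
      simp only [Ξ, LinearMap.coe_mk, AddHom.coe_mk, huv, if_true, Pi.zero_apply] at h1
      rw [h1, dotProduct_zero]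
    obtain ⟨K, hK, hanti⟩ := LinearMap.exists_antilipschitzWith Ξ hΞinj
    set C : ℝ := ∑ j ∈ J, ∑ x, |R| * |z j x| with hC
    have hC0 : 0 ≤ C := Finset.sum_nonneg fun j _ => Finset.sum_nonneg fun x _ => by positivity
    have hbound : ∀ M ∈ {M | ∀ k, |qmap c M k| ≤ R}, ‖Ξ M‖ ≤ C + 1 := by
      intro M hM
      have hM : ∀ k, |qmap c M k| ≤ R := hM
      have hB : ∀ x, Bm G (qM p X₁ P M) (qM p X₁ P M) x ≤ C := by
        intro x
        have h1 := hrec _ (F.Bm_mem (F.inK_qM M) (F.inK_qM M))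
        rw [h1, Finset.sum_apply, hC]
        refine Finset.sum_le_sum fun j hj => ?_
        refine le_trans ?_ (Finset.single_le_sum (f := fun x => |R| * |z j x|)
          (fun x _ => by positivity) (Finset.mem_univ x))
        rw [Pi.smul_apply, smul_eq_mul]
        refine (le_abs_self _).trans ?_
        rw [abs_mul]
        refine mul_le_mul_of_nonneg_right ?_ (abs_nonneg _)
        obtain ⟨k, hk⟩ := e.surjective ⟨j, hj⟩
        have h2 := hM k
        rw [hqmap, hk] at h2
        exact h2.trans (le_abs_self R)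
      rw [pi_norm_le_iff_of_nonneg (by linarith)]
      intro x
      rw [pi_norm_le_iff_of_nonneg (by linarith)]
      intro i
      by_cases h : G.Adj x.1 x.2
      · have h1 := hB x
        simp only [Bm, h, if_true, dotProduct] at h1
        have h2 : ((qM p X₁ P M x.1 - qM p X₁ P M x.2) i) *
            ((qM p X₁ P M x.1 - qM p X₁ P M x.2) i) ≤ C :=
          (Finset.single_le_sum (f := fun i => ((qM p X₁ P M x.1 - qM p X₁ P M x.2) i) *
            ((qM p X₁ P M x.1 - qM p X₁ P M x.2) i))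
            (fun i _ => mul_self_nonneg _) (Finset.mem_univ i)).trans h1
        have h3 : Ξ M x i = (qM p X₁ P M x.1 - qM p X₁ P M x.2) i := by
          simp only [Ξ, LinearMap.coe_mk, AddHom.coe_mk, h, if_true]
        rw [h3, Real.norm_eq_abs]
        apply abs_le_of_sq_le_sq' _ (by linarith) |> abs_le.mpr
        nlinarith
      · have h3 : Ξ M x i = 0 := by
          simp only [Ξ, LinearMap.coe_mk, AddHom.coe_mk, h, if_false]
          rfl
        rw [h3, norm_zero]
        linarith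
    rw [Metric.isBounded_iff_subset_closedBall 0]
    refine ⟨K * (C + 1), fun M hM => ?_⟩
    rw [mem_closedBall_zero_iff]
    have h1 := hanti.le_mul_dist M 0
    rw [map_zero, dist_zero_right, dist_zero_right] at h1
    refine h1.trans ?_
    gcongr
    exact hbound M hM
  -- rows
  have hrow : ∀ r : Fin d, 2 ≤ (Finset.univ.filter (fun a : SIdx d X₁ => rowOf a = r)).card := by
    intro r
    rw [Nat.succ_le_iff, Finset.one_lt_card]
    exact ⟨Sum.inl ⟨(r, r), le_refl r⟩, Finset.mem_filter.mpr ⟨Finset.mem_univ _, rfl⟩,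
      Sum.inr (r, ⟨x₁, hx₁⟩), Finset.mem_filter.mpr ⟨Finset.mem_univ _, rfl⟩, by simp⟩
  obtain ⟨A, B, hAB, hgAB, hA, hB, hr⟩ := lemmaQ (FrameS_countable p w) hc hpos hproper hM₁
    (fun r : Fin d => Finset.univ.filter (fun a : SIdx d X₁ => rowOf a = r)) hrow
  refine ⟨A, B, hAB, ?_, hA, hB, ?_, ?_⟩
  · rw [← sub_eq_zero]
    apply hJinj
    · exact Submodule.sub_mem _ (F.Bm_mem (F.inK_qM A) (F.inK_qM A))
        (F.Bm_mem (F.inK_qM B) (F.inK_qM B))
    · intro j hj
      obtain ⟨k, hk⟩ := e.surjective ⟨j, hj⟩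
      have h1 := congrFun hgAB k
      rw [hqmap, hqmap, hk] at h1
      rw [Pi.sub_apply, sub_eq_zero]
      exact h1
  · intro r
    obtain ⟨a, ha, hpos⟩ := hr r
    exact ⟨a, by simpa using ha, hpos⟩
  · intro m hm
    have hdetPF : (fun M => (qjac c M).det) ∈ PF (FrameS p w) (SIdx d X₁) :=
      PF.det (fun k j => qjac_PF hc k j)
    have hdet : (qjac c A).det ≠ 0 := PF.ne_zero hdetPF hM₁ hA
    have hu : IsUnit (qjac c A).det := isUnit_iff_ne_zero.mpr hdet
    set y : SIdx d X₁ → ℝ := fun k => 2 * Bm G p m (e k) with hy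
    refine ⟨(qjac c A)⁻¹ *ᵥ y, ?_⟩
    have h1 : qjac c A *ᵥ ((qjac c A)⁻¹ *ᵥ y) = y := by
      rw [Matrix.mulVec_mulVec, Matrix.mul_nonsing_inv _ hu, Matrix.one_mulVec]
    rw [← sub_eq_zero]
    apply hJinj
    · exact Submodule.sub_mem _ ⟨m, hm, rfl⟩ (F.Bm_mem (F.inK_qM A) (F.inK_qM _))
    · intro j hj
      obtain ⟨k, hk⟩ := e.surjective ⟨j, hj⟩
      have h2 := congrFun h1 k
      have h3 : y k = 2 * Bm G p m j := by
        simp only [hy]
        rw [hk]
      rw [hqjacmul, h3, hk] at h2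
      rw [Pi.sub_apply, sub_eq_zero]
      linarith

end Pool.Agent.Lib.P6a51b6
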