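import Pool.Agent.Lib.P6a51b6.DLin

/-!
# A quadratic map between spaces of the same dimension folds along a generic line

Let `g : ℝ^ι → ℝ^ι` be a proper quadratic map with coefficients in the constants of `S`, one
coordinate of which is nonnegative, and whose derivative is somewhere invertible. Then there are two
distinct points, free over `S`, with the same image, and we can control the signs of coordinates.
-/

set_option autoImplicit false

namespace Pool.Agent.Lib.P6a51b6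

open scoped Matrix Topology

variable {ι : Type*} [Fintype ι] [DecidableEq ι]

/-- The quadratic map. -/
def qmap (c : ι → ι → ι → ℝ) (M : ι → ℝ) : ι → ℝ := fun k => ∑ i, ∑ j, c k i j * M i * M j

/-- Its Jacobian matrix. -/
def qjac (c : ι → ι → ι → ℝ) (M : ι → ℝ) : Matrix ι ι ℝ :=
  Matrix.of fun k j => ∑ i, (c k i j + c k j i) * M i

theorem hasStrictFDerivAt_qmap (c : ι → ι → ι → ℝ) (M : ι → ℝ) :
    HasStrictFDerivAt (qmap c) (LinearMap.toContinuousLinearMap (Matrix.toLin' (qjac c M))) M := by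
  rw [hasStrictFDerivAt_pi']
  intro k
  have h1 : ∀ i j : ι, HasStrictFDerivAt (fun M : ι → ℝ => c k i j * M i * M j)
      ((c k i j * M i) • (ContinuousLinearMap.proj (R := ℝ) (φ := fun _ : ι => ℝ) j) +
        M j • (c k i j • ContinuousLinearMap.proj (R := ℝ) (φ := fun _ : ι => ℝ) i)) M := by
    intro i j
    have hi : HasStrictFDerivAt (fun M : ι → ℝ => M i)
        (ContinuousLinearMap.proj (R := ℝ) (φ := fun _ : ι => ℝ) i) M :=
      (ContinuousLinearMap.proj (R := ℝ) (φ := fun _ : ι => ℝ) i).hasStrictFDerivAt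
    have hj : HasStrictFDerivAt (fun M : ι → ℝ => M j)
        (ContinuousLinearMap.proj (R := ℝ) (φ := fun _ : ι => ℝ) j) M :=
      (ContinuousLinearMap.proj (R := ℝ) (φ := fun _ : ι => ℝ) j).hasStrictFDerivAt
    exact (hi.const_mul (c k i j)).mul hj
  have h2 : HasStrictFDerivAt (fun M : ι → ℝ => ∑ i, ∑ j, c k i j * M i * M j)
      (∑ i, ∑ j, ((c k i j * M i) • (ContinuousLinearMap.proj (R := ℝ) (φ := fun _ : ι => ℝ) j) +
        M j • (c k i j • ContinuousLinearMap.proj (R := ℝ) (φ := fun _ : ι => ℝ) i))) M :=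
    HasStrictFDerivAt.fun_sum fun i _ => HasStrictFDerivAt.fun_sum fun j _ => h1 i j
  refine h2.congr_fderiv ?_
  ext v
  simp only [sum_apply, add_apply, smul_apply, ContinuousLinearMap.proj_apply, smul_eq_mul,
    ContinuousLinearMap.comp_apply, LinearMap.coe_toContinuousLinearMap', Matrix.toLin'_apply,
    Matrix.mulVec, dotProduct, qjac, Matrix.of_apply, Finset.sum_add_distrib, add_mul,
    Finset.sum_mul]
  congr 1
  · rw [Finset.sum_comm]
  · exact Finset.sum_congr rfl fun i _ => Finset.sum_congr rfl fun j _ => by ring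

theorem D_qmap {c : ι → ι → ι → ℝ} {S : Set ℝ} (hc : ∀ k i j, c k i j ∈ FS S)
    {D : Derivation ℚ ℝ ℝ} (hD : ∀ s ∈ S, D s = 0) (M : ι → ℝ) (k : ι) :
    D (qmap c M k) = (qjac c M *ᵥ (fun i => D (M i))) k := by
  simp only [qmap, qjac, Matrix.mulVec, dotProduct, Matrix.of_apply, map_sum,
    Derivation.leibniz, smul_eq_mul, Finset.sum_mul, add_mul, Finset.sum_add_distrib]
  have h0 : ∀ i j, D (c k i j) = 0 := fun i j => hc k i j D hD
  simp only [h0, mul_zero, add_zero]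
  congr 1
  · rw [Finset.sum_comm]
  · exact Finset.sum_congr rfl fun i _ => Finset.sum_congr rfl fun j _ => by ring

theorem continuous_qmap (c : ι → ι → ι → ℝ) : Continuous (qmap c) := by
  unfold qmap
  fun_prop

/-- Finite sums, products and determinants of polynomial functions. -/
theorem PF.det {S : Set ℝ} {κ n : Type*} [Fintype n] [DecidableEq n]
    {A : (κ → ℝ) → Matrix n n ℝ} (hA : ∀ i j, (fun x => A x i j) ∈ PF S κ) :
    (fun x => (A x).det) ∈ PF S κ := by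
  have h : (fun x => (A x).det) =
      ∑ σ : Equiv.Perm n, ((Equiv.Perm.sign σ : ℤ) : (κ → ℝ) → ℝ) *
        ∏ i, (fun x => A x (σ i) i) := by
    funext x
    rw [Matrix.det_apply']
    simp only [Finset.sum_apply, Pi.mul_apply, Finset.prod_apply]
    rfl
  rw [h]
  refine Subring.sum_mem _ fun σ _ => Subring.mul_mem _ ?_ (Subring.prod_mem _ fun i _ => hA _ _)
  exact intCast_mem _ _

theorem qjac_PF {c : ι → ι → ι → ℝ} {S : Set ℝ} (hc : ∀ k i j, c k i j ∈ FS S) (k j : ι) :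
    (fun M => qjac c M k j) ∈ PF S ι := by
  have h : (fun M => qjac c M k j) =
      ∑ i, (fun _ => c k i j + c k j i : (ι → ℝ) → ℝ) * (fun M => M i) := by
    funext M
    simp only [qjac, Matrix.of_apply, Finset.sum_apply, Pi.mul_apply]
  rw [h]
  exact Subring.sum_mem _ fun i _ => Subring.mul_mem _
    (PF.const (Subfield.add_mem _ (hc _ _ _) (hc _ _ _))) (PF.coord i)

/-- openness of the quadratic map at regular points -/
theorem qmap_open {c : ι → ι → ι → ℝ} {M : ι → ℝ} (h : (qjac c M).det ≠ 0) :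
    Filter.map (qmap c) (𝓝 M) = 𝓝 (qmap c M) := by
  apply (hasStrictFDerivAt_qmap c M).map_nhds_eq_of_surj
  rw [LinearMap.range_eq_top]
  intro y
  have hu : IsUnit (qjac c M).det := isUnit_iff_ne_zero.mpr h
  refine ⟨(qjac c M)⁻¹ *ᵥ y, ?_⟩
  show (Matrix.toLin' (qjac c M)) _ = _
  rw [Matrix.toLin'_apply, Matrix.mulVec_mulVec, Matrix.mul_nonsing_inv _ hu, Matrix.one_mulVec]

/-- The curve along which the map stays on a line, near a fold point. -/
theorem local_curve (c : ι → ι → ι → ℝ) {y₀ η Ms x : ι → ℝ} {ts : ℝ}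
    (hg : qmap c Ms = y₀ + ts • η) (hη : ∀ v, qjac c Ms *ᵥ v ≠ η) (hx0 : x ≠ 0)
    (hker : ∀ x', qjac c Ms *ᵥ x' = 0 → ∃ r : ℝ, x' = r • x) :
    ∃ ε > 0, ∃ (γ : ℝ → (ι → ℝ)) (τ : ℝ → ℝ) (ℓ : ι → ℝ),
      ContinuousOn γ (Set.Ioo (-ε) ε) ∧ ContinuousOn τ (Set.Ioo (-ε) ε) ∧ γ 0 = Ms ∧ τ 0 = ts ∧
      ∀ s ∈ Set.Ioo (-ε) ε, qmap c (γ s) = y₀ + τ s • η ∧ ℓ ⬝ᵥ (γ s - Ms) = s := by
  classical
  have hxx : x ⬝ᵥ x ≠ 0 := fun h => hx0 (dotProduct_self_eq_zero.mp h)
  set ℓ : ι → ℝ := (x ⬝ᵥ x)⁻¹ • x with hℓ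
  have hℓx : ℓ ⬝ᵥ x = 1 := by
    rw [hℓ, smul_dotProduct, smul_eq_mul]
    exact inv_mul_cancel₀ hxx
  -- linear functional
  let ℓL : (ι → ℝ) →ₗ[ℝ] ℝ :=
    { toFun := fun v => ℓ ⬝ᵥ v
      map_add' := fun _ _ => dotProduct_add _ _ _
      map_smul' := fun _ _ => dotProduct_smul _ _ _ }
  let ℓC : (ι → ℝ) →L[ℝ] ℝ := LinearMap.toContinuousLinearMap ℓL
  let JC : (ι → ℝ) →L[ℝ] (ι → ℝ) := LinearMap.toContinuousLinearMap (Matrix.toLin' (qjac c Ms))
  let F : (ι → ℝ) × ℝ → (ι → ℝ) × ℝ := fun z => (qmap c z.1 - y₀ - z.2 • η, ℓC (z.1 - Ms))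
  let F' : ((ι → ℝ) × ℝ) →L[ℝ] ((ι → ℝ) × ℝ) :=
    ((JC.comp (ContinuousLinearMap.fst ℝ (ι → ℝ) ℝ)) -
      (ContinuousLinearMap.snd ℝ (ι → ℝ) ℝ).smulRight η).prod
      (ℓC.comp (ContinuousLinearMap.fst ℝ (ι → ℝ) ℝ))
  have hF'app : ∀ z, F' z = (qjac c Ms *ᵥ z.1 - z.2 • η, ℓ ⬝ᵥ z.1) := by
    intro z
    rfl
  have hF : HasStrictFDerivAt F F' (Ms, ts) := by
    have h1 : HasStrictFDerivAt (fun z : (ι → ℝ) × ℝ => qmap c z.1)
        (JC.comp (ContinuousLinearMap.fst ℝ (ι → ℝ) ℝ)) (Ms, ts) :=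
      (hasStrictFDerivAt_qmap c Ms).comp (Ms, ts) hasStrictFDerivAt_fst
    have h2 : HasStrictFDerivAt (fun z : (ι → ℝ) × ℝ => z.2 • η)
        ((ContinuousLinearMap.snd ℝ (ι → ℝ) ℝ).smulRight η) (Ms, ts) :=
      hasStrictFDerivAt_snd.smul_const η
    have h3 : HasStrictFDerivAt (fun z : (ι → ℝ) × ℝ => ℓC (z.1 - Ms))
        (ℓC.comp (ContinuousLinearMap.fst ℝ (ι → ℝ) ℝ)) (Ms, ts) := by
      have h4 : HasStrictFDerivAt (fun z : (ι → ℝ) × ℝ => z.1 - Ms)
        (ContinuousLinearMap.fst ℝ (ι → ℝ) ℝ) (Ms, ts) := hasStrictFDerivAt_fst.sub_const Ms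
      exact (ℓC.hasStrictFDerivAt).comp (Ms, ts) h4
    have h5 := ((h1.sub_const y₀).sub h2).prodMk h3
    exact h5
  have hinj : Function.Injective F'.toLinearMap := by
    rw [← LinearMap.ker_eq_bot, LinearMap.ker_eq_bot']
    rintro ⟨v, r⟩ hz
    have hz' : F' (v, r) = 0 := hz
    rw [hF'app] at hz'
    obtain ⟨h1, h2⟩ := Prod.ext_iff.mp hz'
    simp only at h1 h2
    have hr : r = 0 := by
      by_contra hr
      apply hη (r⁻¹ • v)
      rw [Matrix.mulVec_smul, sub_eq_zero.mp h1, smul_smul, inv_mul_cancel₀ hr, one_smul]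
    subst hr
    rw [zero_smul, sub_zero] at h1
    obtain ⟨r', rfl⟩ := hker v h1
    rw [dotProduct_smul, hℓx, smul_eq_mul, mul_one] at h2
    subst h2
    simp
  let e : ((ι → ℝ) × ℝ) ≃L[ℝ] ((ι → ℝ) × ℝ) :=
    (LinearEquiv.ofInjectiveEndo F'.toLinearMap hinj).toContinuousLinearEquiv
  have he : (e : ((ι → ℝ) × ℝ) →L[ℝ] ((ι → ℝ) × ℝ)) = F' := by
    ext z <;> rfl
  have hFe : HasStrictFDerivAt F (e : ((ι → ℝ) × ℝ) →L[ℝ] ((ι → ℝ) × ℝ)) (Ms, ts) := by
    rw [he]; exact hF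
  set Φ := hFe.toOpenPartialHomeomorph F with hΦ
  have hΦcoe : ∀ z, Φ z = F z := fun z => rfl
  have hsrc : (Ms, ts) ∈ Φ.source := hFe.mem_toOpenPartialHomeomorph_source
  have hF0 : F (Ms, ts) = (0, 0) := by
    show (qmap c Ms - y₀ - ts • η, ℓC (Ms - Ms)) = _
    rw [hg]
    simp
  have htgt : ((0 : ι → ℝ), (0 : ℝ)) ∈ Φ.target := by
    rw [← hF0]
    exact Φ.map_source hsrc
  have hopen : IsOpen {s : ℝ | ((0 : ι → ℝ), s) ∈ Φ.target} :=
    Φ.open_target.preimage (by fun_prop : Continuous fun s : ℝ => ((0 : ι → ℝ), s))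
  obtain ⟨ε, hε, hball⟩ := Metric.isOpen_iff.mp hopen 0 htgt
  have hmem : ∀ s ∈ Set.Ioo (-ε) ε, ((0 : ι → ℝ), s) ∈ Φ.target := by
    intro s hs
    apply hball
    rw [Metric.mem_ball, Real.dist_eq, sub_zero, abs_lt]
    exact hs
  have hcont : ContinuousOn (fun s : ℝ => Φ.symm ((0 : ι → ℝ), s)) (Set.Ioo (-ε) ε) :=
    Φ.continuousOn_symm.comp (by fun_prop : Continuous fun s : ℝ => ((0 : ι → ℝ), s)).continuousOn
      hmem
  refine ⟨ε, hε, fun s => (Φ.symm ((0 : ι → ℝ), s)).1, fun s => (Φ.symm ((0 : ι → ℝ), s)).2, ℓ,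
    continuous_fst.comp_continuousOn hcont, continuous_snd.comp_continuousOn hcont, ?_, ?_, ?_⟩
  · have h1 : Φ.symm ((0 : ι → ℝ), (0 : ℝ)) = (Ms, ts) := by
      rw [← hF0]
      exact Φ.left_inv hsrc
    show (Φ.symm ((0 : ι → ℝ), (0 : ℝ))).1 = Ms
    rw [h1]
  · have h1 : Φ.symm ((0 : ι → ℝ), (0 : ℝ)) = (Ms, ts) := by
      rw [← hF0]
      exact Φ.left_inv hsrc
    show (Φ.symm ((0 : ι → ℝ), (0 : ℝ))).2 = ts
    rw [h1]
  · intro s hs
    have h1 : F (Φ.symm ((0 : ι → ℝ), s)) = ((0 : ι → ℝ), s) := Φ.right_inv (hmem s hs)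
    obtain ⟨h2, h3⟩ := Prod.ext_iff.mp h1
    simp only at h2 h3
    constructor
    · have h4 := sub_eq_zero.mp h2
      rw [← h4]
      abel
    · exact h3

/-- The main lemma on quadratic maps. -/
theorem lemmaQ {S : Set ℝ} (hS : S.Countable) {c : ι → ι → ι → ℝ}
    (hc : ∀ k i j, c k i j ∈ FS S) {k₀ : ι} (hpos : ∀ M, 0 ≤ qmap c M k₀)
    (hproper : ∀ R : ℝ, Bornology.IsBounded {M | ∀ k, |qmap c M k| ≤ R})
    {M₁ : ι → ℝ} (hM₁ : (qjac c M₁).det ≠ 0)
    {ρ : Type*} [Finite ρ] (row : ρ → Finset ι) (hrow : ∀ r, 2 ≤ (row r).card) :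
    ∃ A B : ι → ℝ, A ≠ B ∧ qmap c A = qmap c B ∧ Free S A ∧ Free S B ∧
      ∀ r, ∃ j ∈ row r, 0 < A j * B j := by
  classical
  have hdetPF : (fun M => (qjac c M).det) ∈ PF S ι := PF.det (fun k j => qjac_PF hc k j)
  have hdet : ∀ M, Free S M → (qjac c M).det ≠ 0 := fun M hM => PF.ne_zero hdetPF hM₁ hM
  -- generic starting point
  obtain ⟨M₀, -, hM₀⟩ := exists_free hS (ι := ι) (U := Set.univ) isOpen_univ ⟨0, trivial⟩
  set y₀ := qmap c M₀ with hy₀
  set S₁ := S ∪ Set.range M₀ with hS₁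
  have hS₁c : S₁.Countable := hS.union (Set.countable_range _)
  -- generic direction
  obtain ⟨η, hηneg, hη⟩ := exists_free hS₁c (ι := ι) (U := {η | η k₀ < 0})
    (isOpen_lt (continuous_apply k₀) continuous_const)
    ⟨fun _ => -1, by show (-1 : ℝ) < 0; norm_num⟩
  have hηneg : η k₀ < 0 := hηneg
  set S₂ := S₁ ∪ Set.range η with hS₂
  have hS₂c : S₂.Countable := hS₁c.union (Set.countable_range _)
  -- derivations killing `S₁` kill `y₀`
  have hDy₀ : ∀ D : Derivation ℚ ℝ ℝ, (∀ s ∈ S₁, D s = 0) → ∀ k, D (y₀ k) = 0 := by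
    intro D hD k
    rw [hy₀, D_qmap hc (fun s hs => hD s (Or.inl hs))]
    have : (fun i => D (M₀ i)) = 0 := by
      funext i
      exact hD _ (Or.inr ⟨i, rfl⟩)
    rw [this, Matrix.mulVec_zero]
    rfl
  -- differentiate `g M = y₀ + t η`
  have hdiff : ∀ (M : ι → ℝ) (t : ℝ), qmap c M = y₀ + t • η → ∀ D : Derivation ℚ ℝ ℝ,
      (∀ s ∈ S₁, D s = 0) → qjac c M *ᵥ (fun i => D (M i)) =
        D t • η + t • (fun i => D (η i)) := by
    intro M t hM D hD
    funext k
    rw [← D_qmap hc (fun s hs => hD s (Or.inl hs)), hM]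
    simp only [Pi.add_apply, Pi.smul_apply, smul_eq_mul, map_add, Derivation.leibniz,
      hDy₀ D hD k]
    ring
  -- (★)
  have hstar : ∀ (M : ι → ℝ) (t : ℝ), qmap c M = y₀ + t • η → t ≠ 0 → ∀ a : ι → ℝ,
      ∃ D : Derivation ℚ ℝ ℝ, (∀ s ∈ S₁, D s = 0) ∧
        qjac c M *ᵥ (fun i => D (M i)) = D t • η + a := by
    intro M t hM ht a
    obtain ⟨D, hD, hDη⟩ := hη (fun i => t⁻¹ * a i)
    refine ⟨D, hD, ?_⟩
    rw [hdiff M t hM D hD]
    congr 1
    funext i
    simp only [Pi.smul_apply, smul_eq_mul, hDη]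
    rw [← mul_assoc, mul_inv_cancel₀ ht, one_mul]
  -- the last point of the ray in the image
  set T := y₀ k₀ / (- η k₀) with hT
  have htT : ∀ (M : ι → ℝ) (t : ℝ), qmap c M = y₀ + t • η → t ≤ T := by
    intro M t hM
    have h1 := hpos M
    rw [hM] at h1
    simp only [Pi.add_apply, Pi.smul_apply, smul_eq_mul] at h1
    rw [hT, le_div_iff₀ (by linarith)]
    linarith
  set K : Set ((ι → ℝ) × ℝ) := {z | 0 ≤ z.2 ∧ qmap c z.1 = y₀ + z.2 • η} with hK
  have hKclosed : IsClosed K := by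
    apply IsClosed.inter
    · exact isClosed_le continuous_const continuous_snd
    · exact isClosed_eq ((continuous_qmap c).comp continuous_fst)
        (continuous_const.add (continuous_snd.smul continuous_const))
  have hKbdd : Bornology.IsBounded K := by
    have h1 := hproper (∑ k, (|y₀ k| + T * |η k|))
    have h2 : K ⊆ {M | ∀ k, |qmap c M k| ≤ ∑ k, (|y₀ k| + T * |η k|)} ×ˢ Set.Icc 0 T := by
      rintro ⟨M, t⟩ ⟨ht, hM⟩
      simp only at ht hM
      have htT' := htT M t hM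
      refine ⟨fun k => ?_, ht, htT'⟩
      simp only
      rw [hM]
      have hT0 : 0 ≤ T := ht.trans htT'
      have h3 : |(y₀ + t • η) k| ≤ |y₀ k| + T * |η k| := by
        simp only [Pi.add_apply, Pi.smul_apply, smul_eq_mul]
        refine (abs_add_le _ _).trans ?_
        rw [abs_mul, abs_of_nonneg ht]
        gcongr
      refine h3.trans ?_
      exact Finset.single_le_sum (f := fun k => |y₀ k| + T * |η k|)
        (fun k _ => by positivity) (Finset.mem_univ k)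
    exact (h1.prod (Metric.isBounded_Icc 0 T)).subset h2
  have hKcomp : IsCompact K := Metric.isCompact_of_isClosed_isBounded hKclosed hKbdd
  have hKne : K.Nonempty := ⟨(M₀, 0), le_refl _, by simp [hy₀]⟩
  obtain ⟨⟨Ms, ts⟩, ⟨hts0, hMs⟩, hmax⟩ := hKcomp.exists_isMaxOn hKne continuous_snd.continuousOn
  simp only at hts0 hMs
  have hmax' : ∀ (M : ι → ℝ) (t : ℝ), 0 ≤ t → qmap c M = y₀ + t • η → t ≤ ts := by
    intro M t ht hM
    exact hmax (show (M, t) ∈ K from ⟨ht, hM⟩)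
  -- openness along the line
  have hopenline : ∀ (M : ι → ℝ) (t : ℝ), qmap c M = y₀ + t • η → (qjac c M).det ≠ 0 →
      ∃ M' t', t < t' ∧ qmap c M' = y₀ + t' • η := by
    intro M t hM hd
    have h1 := qmap_open hd
    have h2 : Set.range (qmap c) ∈ 𝓝 (qmap c M) := by
      rw [← h1]
      exact Filter.mem_map.mpr (Filter.mem_of_superset Filter.univ_mem
        (fun z _ => ⟨z, rfl⟩))
    have h3 : Filter.Tendsto (fun t' : ℝ => y₀ + t' • η) (𝓝 t) (𝓝 (qmap c M)) := by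
      rw [hM]
      exact (by fun_prop : Continuous fun t' : ℝ => y₀ + t' • η).tendsto t
    have h4 := h3 h2
    rw [Filter.mem_map, Metric.mem_nhds_iff] at h4
    obtain ⟨ε, hε, hb⟩ := h4
    have h5 : t + ε / 2 ∈ Metric.ball t ε := by
      rw [Metric.mem_ball, Real.dist_eq]
      rw [show t + ε / 2 - t = ε / 2 by ring, abs_of_pos (by linarith)]
      linarith
    obtain ⟨M', hM'⟩ := hb h5
    exact ⟨M', t + ε / 2, by linarith, hM'⟩
  have hts : 0 < ts := by
    obtain ⟨M', t', ht', hM'⟩ := hopenline M₀ 0 (by simp [hy₀]) (hdet M₀ hM₀)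
    exact lt_of_lt_of_le ht' (hmax' M' t' ht'.le hM')
  have hsing : ∀ (M : ι → ℝ), qmap c M = y₀ + ts • η → (qjac c M).det = 0 := by
    intro M hM
    by_contra hd
    obtain ⟨M', t', ht', hM'⟩ := hopenline M ts hM hd
    exact absurd (hmax' M' t' (hts.le.trans ht'.le) hM') (not_le.mpr ht')
  -- structure at singular points of the last fibre
  have hnotin : ∀ (M : ι → ℝ), qmap c M = y₀ + ts • η → ∀ v, qjac c M *ᵥ v ≠ η := by
    intro M hM v hv
    have hsurj : Function.Surjective (qjac c M).mulVec := by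
      intro a
      obtain ⟨D, -, hD⟩ := hstar M ts hM hts.ne' a
      refine ⟨(fun i => D (M i)) - D ts • v, ?_⟩
      rw [Matrix.mulVec_sub, Matrix.mulVec_smul, hv, hD]
      abel
    rw [Matrix.mulVec_surjective_iff_isUnit, Matrix.isUnit_iff_isUnit_det, hsing M hM] at hsurj
    simp at hsurj
  have hkerdim : ∀ (M : ι → ℝ), qmap c M = y₀ + ts • η → ∀ x x' : ι → ℝ, x ≠ 0 →
      qjac c M *ᵥ x = 0 → qjac c M *ᵥ x' = 0 → ∃ r : ℝ, x' = r • x := by
    intro M hM x x' hx0 hx hx'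
    let L : ((ι → ℝ) × ℝ) →ₗ[ℝ] (ι → ℝ) :=
      (Matrix.toLin' (qjac c M)).coprod (LinearMap.toSpanSingleton ℝ (ι → ℝ) η)
    have hL : ∀ z, L z = qjac c M *ᵥ z.1 + z.2 • η := by
      intro z
      simp [L]
    have hLsurj : LinearMap.range L = ⊤ := by
      rw [LinearMap.range_eq_top]
      intro a
      obtain ⟨D, -, hD⟩ := hstar M ts hM hts.ne' a
      refine ⟨((fun i => D (M i)), - D ts), ?_⟩
      rw [hL, hD]
      simp only [neg_smul]
      abel
    have hrn := LinearMap.finrank_range_add_finrank_ker L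
    rw [hLsurj, finrank_top, Module.finrank_prod, Module.finrank_fintype_fun_eq_card,
      Module.finrank_self] at hrn
    have hk1 : Module.finrank ℝ (LinearMap.ker L) = 1 := by omega
    have hxk : (x, (0 : ℝ)) ∈ LinearMap.ker L := by
      rw [LinearMap.mem_ker, hL, hx]; simp
    have hxk' : (x', (0 : ℝ)) ∈ LinearMap.ker L := by
      rw [LinearMap.mem_ker, hL, hx']; simp
    obtain ⟨r, hr⟩ := (finrank_eq_one_iff_of_nonzero' (⟨(x, 0), hxk⟩ : LinearMap.ker L)
      (by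
        intro h
        have := congrArg Subtype.val h
        simp only [ZeroMemClass.coe_zero, Prod.mk_eq_zero] at this
        exact hx0 this.1)).mp hk1 ⟨(x', 0), hxk'⟩
    have h1 := congrArg Subtype.val hr
    simp only [SetLike.mk_smul_mk, Prod.smul_mk, smul_zero] at h1
    exact ⟨r, (Prod.ext_iff.mp h1).1.symm⟩
  -- a kernel vector
  obtain ⟨x, hx0, hx⟩ : ∃ x, x ≠ 0 ∧ qjac c Ms *ᵥ x = 0 := by
    obtain ⟨x, hx0, hx⟩ := Matrix.exists_mulVec_eq_zero_iff.mpr (hsing Ms hMs)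
    exact ⟨x, hx0, hx⟩
  -- no zero row
  have hrows : ∀ r, ∃ j ∈ row r, Ms j ≠ 0 := by
    intro r
    by_contra hcon
    push Not at hcon
    let L : (({j // j ∉ row r} → ℝ) × ℝ) →ₗ[ℝ] (ι → ℝ) :=
      ((Matrix.toLin' (qjac c Ms)) ∘ₗ
        { toFun := fun v j => if h : j ∉ row r then v ⟨j, h⟩ else 0
          map_add' := by
            intro v w
            funext j
            by_cases h : j ∈ row r <;> simp [h]
          map_smul' := by
            intro a v
            funext j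
            by_cases h : j ∈ row r <;> simp [h] }).coprod
        (LinearMap.toSpanSingleton ℝ (ι → ℝ) η)
    have hL : ∀ z, L z = qjac c Ms *ᵥ (fun j => if h : j ∉ row r then z.1 ⟨j, h⟩ else 0) +
        z.2 • η := by
      intro z
      simp only [L, LinearMap.coprod_apply, LinearMap.toSpanSingleton_apply]
      rfl
    have hLsurj : Function.Surjective L := by
      intro a
      obtain ⟨D, -, hD⟩ := hstar Ms ts hMs hts.ne' a
      refine ⟨((fun j => D (Ms j)), - D ts), ?_⟩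
      rw [hL]
      have h1 : (fun j => if h : j ∉ row r then
          ((fun j => D (Ms j)) : {j // j ∉ row r} → ℝ) ⟨j, h⟩ else 0) = fun i => D (Ms i) := by
        funext j
        by_cases h : j ∉ row r
        · simp [h]
        · simp only [h, dite_false]
          rw [hcon j (not_not.mp h)]
          simp
      rw [h1, hD]
      simp only [neg_smul]
      abel
    have hfr := LinearMap.finrank_le_finrank_of_injective
      (f := (LinearMap.exists_rightInverse_of_surjective L (LinearMap.range_eq_top.mpr hLsurj)).choose)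
      (by
        have h1 := (LinearMap.exists_rightInverse_of_surjective L
          (LinearMap.range_eq_top.mpr hLsurj)).choose_spec
        intro a b hab
        have h2 := congrArg L hab
        rw [← LinearMap.comp_apply, ← LinearMap.comp_apply, h1] at h2
        exact h2)
    rw [Module.finrank_prod, Module.finrank_fintype_fun_eq_card, Module.finrank_fintype_fun_eq_card,
      Module.finrank_self] at hfr
    have h2 : Fintype.card {j // j ∉ row r} + (row r).card = Fintype.card ι := by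
      rw [Fintype.card_subtype_compl, Fintype.card_coe]
      have := (row r).card_le_univ
      omega
    have := hrow r
    omega
  choose jr hjr hjrne using hrows
  -- the local curve
  obtain ⟨ε, hε, γ, τ, ℓ, hγc, hτc, hγ0, hτ0, hγτ⟩ := local_curve c hMs (hnotin Ms hMs) hx0
    (fun x' hx' => hkerdim Ms hMs x x' hx0 hx hx')
  have h0mem : (0 : ℝ) ∈ Set.Ioo (-ε) ε := by constructor <;> linarith
  have hIoo : Set.Ioo (-ε) ε ∈ 𝓝 (0 : ℝ) := Ioo_mem_nhds h0mem.1 h0mem.2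
  have hγat : ContinuousAt γ 0 := hγc.continuousAt hIoo
  have hτat : ContinuousAt τ 0 := hτc.continuousAt hIoo
  -- shrink
  have hgood : ∀ᶠ s in 𝓝 (0 : ℝ), 0 < τ s ∧ ∀ r, 0 < γ s (jr r) * Ms (jr r) := by
    have h1 : ∀ᶠ s in 𝓝 (0 : ℝ), 0 < τ s := by
      have : 0 < τ 0 := by rw [hτ0]; exact hts
      exact hτat.eventually (lt_mem_nhds this)
    have h2 : ∀ r, ∀ᶠ s in 𝓝 (0 : ℝ), 0 < γ s (jr r) * Ms (jr r) := by
      intro r
      have h3 : ContinuousAt (fun s => γ s (jr r) * Ms (jr r)) 0 :=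
        ((continuous_apply (jr r)).continuousAt.comp hγat).mul continuousAt_const
      have h4 : 0 < γ 0 (jr r) * Ms (jr r) := by
        rw [hγ0]
        exact mul_self_pos.mpr (hjrne r)
      exact h3.eventually (lt_mem_nhds h4)
    exact h1.and (Filter.eventually_all.mpr h2)
  obtain ⟨ε', hε', hball⟩ := Metric.mem_nhds_iff.mp hgood
  set δ := min ε ε' with hδ
  have hδpos : 0 < δ := lt_min hε hε'
  have hδmem : ∀ s ∈ Set.Ioo (-δ) δ, s ∈ Set.Ioo (-ε) ε ∧ 0 < τ s ∧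
      ∀ r, 0 < γ s (jr r) * Ms (jr r) := by
    intro s hs
    have h1 : |s| < δ := abs_lt.mpr hs
    refine ⟨abs_lt.mp (h1.trans_le (min_le_left _ _)), ?_⟩
    exact hball (by
      rw [Metric.mem_ball, Real.dist_eq, sub_zero]
      exact h1.trans_le (min_le_right _ _))
  have hτle : ∀ s ∈ Set.Ioo (-δ) δ, τ s ≤ ts := by
    intro s hs
    obtain ⟨h1, h2, -⟩ := hδmem s hs
    exact hmax' (γ s) (τ s) h2.le (hγτ s h1).1
  -- the curve is not constant on any interval
  have hnonconst : ∀ a b : ℝ, -δ ≤ a → b ≤ δ → a < b → ∃ s ∈ Set.Ioo a b, τ s < ts := by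
    intro a b ha hb hab
    by_contra hcon
    push Not at hcon
    set S₃ := S₂ ∪ (Set.range ℓ ∪ Set.range Ms) with hS₃
    have hS₃c : S₃.Countable :=
      hS₂c.union ((Set.countable_range _).union (Set.countable_range _))
    obtain ⟨s, hs, hsfree⟩ := exists_free_of_open hS₃c (U := Set.Ioo a b) isOpen_Ioo
      ⟨(a + b) / 2, by constructor <;> linarith⟩
    have hsδ : s ∈ Set.Ioo (-δ) δ := ⟨lt_of_le_of_lt ha hs.1, lt_of_lt_of_le hs.2 hb⟩
    have hsε := (hδmem s hsδ).1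
    have hτs : τ s = ts := le_antisymm (hτle s hsδ) (hcon s hs)
    set M := γ s with hM
    have hgM : qmap c M = y₀ + ts • η := by
      rw [← hτs]
      exact (hγτ s hsε).1
    have hℓM : ℓ ⬝ᵥ (M - Ms) = s := (hγτ s hsε).2
    obtain ⟨D₁, hD₁, hD₁s⟩ := hsfree (fun _ => 1)
    have hD₁s : D₁ s = 1 := hD₁s ()
    have hD₁S₁ : ∀ z ∈ S₁, D₁ z = 0 := fun z hz => hD₁ z (Or.inl (Or.inl hz))
    have hD₁η : (fun i => D₁ (η i)) = 0 := by
      funext i
      exact hD₁ _ (Or.inl (Or.inr ⟨i, rfl⟩))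
    have hD₁M : (fun i => D₁ (M i)) ≠ 0 := by
      intro h0
      have h1 := congrArg D₁ hℓM
      rw [D_dot, hD₁s] at h1
      have h2 : (fun i => D₁ (ℓ i)) = 0 := by
        funext i
        exact hD₁ _ (Or.inr (Or.inl ⟨i, rfl⟩))
      have h3 : (fun i => D₁ ((M - Ms) i)) = 0 := by
        funext i
        have e1 : D₁ (M i) = 0 := congrFun h0 i
        have e2 : D₁ (Ms i) = 0 := hD₁ _ (Or.inr (Or.inr ⟨i, rfl⟩))
        simp [e1, e2]
      rw [h2, h3] at h1
      simp at h1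
    have hJD₁ : qjac c M *ᵥ (fun i => D₁ (M i)) = 0 := by
      have h1 := hdiff M ts hgM D₁ hD₁S₁
      rw [hD₁η, smul_zero, add_zero] at h1
      have h2 : D₁ ts = 0 := by
        by_contra h2
        apply hnotin M hgM ((D₁ ts)⁻¹ • (fun i => D₁ (M i)))
        rw [Matrix.mulVec_smul, h1, smul_smul, inv_mul_cancel₀ h2, one_smul]
      rw [h1, h2, zero_smul]
    have hMfree : Free S M := by
      intro a
      obtain ⟨D₂, hD₂, hD₂J⟩ := hstar M ts hgM hts.ne' (qjac c M *ᵥ a)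
      have h1 : qjac c M *ᵥ ((fun i => D₂ (M i)) - a) = D₂ ts • η := by
        rw [Matrix.mulVec_sub, hD₂J]
        abel
      have h2 : D₂ ts = 0 := by
        by_contra h2
        apply hnotin M hgM ((D₂ ts)⁻¹ • ((fun i => D₂ (M i)) - a))
        rw [Matrix.mulVec_smul, h1, smul_smul, inv_mul_cancel₀ h2, one_smul]
      rw [h2, zero_smul] at h1
      obtain ⟨r, hr⟩ := hkerdim M hgM _ _ hD₁M hJD₁ h1
      refine ⟨D₂ - r • D₁, fun z hz => ?_, fun i => ?_⟩
      · simp [hD₂ z (Or.inl hz), hD₁S₁ z (Or.inl hz)]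
      · have := congrFun hr i
        simp only [Pi.sub_apply, Pi.smul_apply, smul_eq_mul] at this
        simp only [Derivation.coe_sub, Derivation.coe_smul, Pi.sub_apply, Pi.smul_apply,
          smul_eq_mul]
        linarith
    exact hdet M hMfree (hsing M hgM)
  obtain ⟨a, ha, hτa⟩ := hnonconst 0 δ (by linarith) le_rfl hδpos
  obtain ⟨b, hb, hτb⟩ := hnonconst (-δ) 0 le_rfl (by linarith) (by linarith)
  -- choose the height
  obtain ⟨t, ht, htfree⟩ := exists_free_of_open hS₂c (U := Set.Ioo (max (τ a) (τ b)) ts) isOpen_Ioo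
    (Set.nonempty_Ioo.mpr (max_lt hτa hτb))
  have hta : τ a < t := lt_of_le_of_lt (le_max_left _ _) ht.1
  have htb : τ b < t := lt_of_le_of_lt (le_max_right _ _) ht.1
  have ht0 : 0 < t := by
    have h1 := (hδmem a ⟨by linarith [ha.1], ha.2⟩).2.1
    linarith
  have hsubδ : Set.Icc 0 a ⊆ Set.Ioo (-ε) ε := fun s hs =>
    (hδmem s ⟨by linarith [hs.1], lt_of_le_of_lt hs.2 ha.2⟩).1
  have hsubδ' : Set.Icc b 0 ⊆ Set.Ioo (-ε) ε := fun s hs =>
    (hδmem s ⟨lt_of_lt_of_le hb.1 hs.1, by linarith [hs.2]⟩).1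
  obtain ⟨s₁, hs₁, hτs₁⟩ := intermediate_value_Icc' ha.1.le (hτc.mono hsubδ)
    (show t ∈ Set.Icc (τ a) (τ 0) from ⟨hta.le, by rw [hτ0]; exact ht.2.le⟩)
  obtain ⟨s₂, hs₂, hτs₂⟩ := intermediate_value_Icc hb.2.le (hτc.mono hsubδ')
    (show t ∈ Set.Icc (τ b) (τ 0) from ⟨htb.le, by rw [hτ0]; exact ht.2.le⟩)
  have hs₁ne : s₁ ≠ 0 := by
    rintro rfl
    rw [hτ0] at hτs₁
    exact absurd hτs₁ ht.2.ne'
  have hs₂ne : s₂ ≠ 0 := by
    rintro rfl
    rw [hτ0] at hτs₂
    exact absurd hτs₂ ht.2.ne'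
  have hs₁pos : 0 < s₁ := lt_of_le_of_ne hs₁.1 (Ne.symm hs₁ne)
  have hs₂neg : s₂ < 0 := lt_of_le_of_ne hs₂.2 hs₂ne
  have hg₁ : qmap c (γ s₁) = y₀ + t • η := by
    have := (hγτ s₁ (hsubδ hs₁)).1
    rwa [hτs₁] at this
  have hg₂ : qmap c (γ s₂) = y₀ + t • η := by
    have := (hγτ s₂ (hsubδ' hs₂)).1
    rwa [hτs₂] at this
  -- freeness
  have hyfree : ∀ b : ι → ℝ, ∃ D : Derivation ℚ ℝ ℝ, (∀ s ∈ S, D s = 0) ∧
      ∀ M : ι → ℝ, qmap c M = y₀ + t • η → qjac c M *ᵥ (fun i => D (M i)) = b := by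
    intro b
    obtain ⟨D, hD, hDη, hDt⟩ := hη.extend htfree (fun i => t⁻¹ * b i) 0
    refine ⟨D, fun s hs => hD s (Or.inl hs), fun M hM => ?_⟩
    rw [hdiff M t hM D hD, hDt, zero_smul, zero_add]
    funext i
    simp only [Pi.smul_apply, smul_eq_mul, hDη]
    rw [← mul_assoc, mul_inv_cancel₀ ht0.ne', one_mul]
  have hMfree : ∀ M : ι → ℝ, qmap c M = y₀ + t • η → Free S M := by
    intro M hM
    have hsurj : Function.Surjective (qjac c M).mulVec := by
      intro b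
      obtain ⟨D, -, hD⟩ := hyfree b
      exact ⟨_, hD M hM⟩
    rw [Matrix.mulVec_surjective_iff_isUnit] at hsurj
    have hinj : Function.Injective (qjac c M).mulVec := Matrix.mulVec_injective_iff_isUnit.mpr hsurj
    intro a
    obtain ⟨D, hDS, hD⟩ := hyfree (qjac c M *ᵥ a)
    refine ⟨D, hDS, fun i => ?_⟩
    exact congrFun (hinj (hD M hM)) i
  refine ⟨γ s₁, γ s₂, ?_, by rw [hg₁, hg₂], hMfree _ hg₁, hMfree _ hg₂, ?_⟩
  · intro heq
    have h1 := (hγτ s₁ (hsubδ hs₁)).2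
    have h2 := (hγτ s₂ (hsubδ' hs₂)).2
    rw [heq, h2] at h1
    linarith
  · intro r
    refine ⟨jr r, hjr r, ?_⟩
    have h1 := (hδmem s₁ ⟨by linarith, lt_of_le_of_lt hs₁.2 ha.2⟩).2.2 r
    have h2 := (hδmem s₂ ⟨lt_of_lt_of_le hb.1 hs₂.1, by linarith⟩).2.2 r
    have h3 : 0 < (γ s₁ (jr r) * γ s₂ (jr r)) * (Ms (jr r) * Ms (jr r)) := by
      have := mul_pos h1 h2
      calc (0 : ℝ) < (γ s₁ (jr r) * Ms (jr r)) * (γ s₂ (jr r) * Ms (jr r)) := this
        _ = _ := by ring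
    exact (pos_iff_pos_of_mul_pos h3).mpr (mul_self_pos.mpr (hjrne r))

end Pool.Agent.Lib.P6a51b6
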