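import Pool.Agent.Lib.P6a51b6.GenLin

/-!
# Easy consequences of generic global rigidity: infinitesimal rigidity and connectivity
-/

set_option autoImplicit false

namespace Pool.Agent.Lib.P6a51b6

open scoped Matrix

/-- Perturbing a free family by a small transcendental multiple of an arbitrary family. -/
theorem Free.perturb {ι : Type*} [Fintype ι] [DecidableEq ι] {a : ι → ℝ} (ha : Free ∅ a)
    (m : ι → ℝ) : ∃ ε > 0, ∀ t : ℝ, |t| < ε →
      Free (Set.range a ∪ Set.range m) (fun _ : Unit => t) → Free ∅ (fun i => a i + t * m i) := by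
  have hD : ∀ j : ι, ∃ D : Derivation ℚ ℝ ℝ, ∀ i, D (a i) = if i = j then 1 else 0 := by
    intro j
    obtain ⟨D, -, hD⟩ := ha (fun i => if i = j then 1 else 0)
    exact ⟨D, hD⟩
  choose D hD using hD
  let N : Matrix ι ι ℝ := Matrix.of fun i j => D j (m i)
  have hcont : Continuous (fun t : ℝ => (1 + t • N).det) := by fun_prop
  have hopen : IsOpen {t : ℝ | (1 + t • N).det ≠ 0} := isOpen_ne_fun hcont continuous_const
  have h0 : (0 : ℝ) ∈ {t : ℝ | (1 + t • N).det ≠ 0} := by simp
  obtain ⟨ε, hε, hball⟩ := Metric.isOpen_iff.mp hopen 0 h0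
  refine ⟨ε, hε, fun t ht hfree => ?_⟩
  have hdet : (1 + t • N).det ≠ 0 := hball (by simpa using ht)
  obtain ⟨D₀, h1, h2⟩ := hfree (fun _ => 1)
  have h2 : D₀ t = 1 := h2 ()
  intro b
  -- solve for the coefficients
  have hunit : IsUnit (1 + t • N).det := isUnit_iff_ne_zero.mpr hdet
  set c : ι → ℝ := (1 + t • N)⁻¹ *ᵥ b with hc
  have hcb : (1 + t • N) *ᵥ c = b := by
    rw [hc, Matrix.mulVec_mulVec, Matrix.mul_nonsing_inv _ hunit, Matrix.one_mulVec]
  refine ⟨∑ j, c j • (D j - (D j t) • D₀), fun x hx => absurd hx (Set.notMem_empty x), ?_⟩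
  intro i
  have hsum : ∀ (s : Finset ι) (x : ℝ), (∑ j ∈ s, c j • (D j - (D j t) • D₀) :
      Derivation ℚ ℝ ℝ) x = ∑ j ∈ s, c j * (D j x - D j t * D₀ x) := by
    intro s x
    induction s using Finset.induction_on with
    | empty => simp
    | insert a s ha ih =>
      rw [Finset.sum_insert ha, Finset.sum_insert ha, Derivation.add_apply, ih]
      simp
  rw [hsum]
  have hterm : ∀ j, D j (a i + t * m i) - D j t * D₀ (a i + t * m i) =
      (1 + t • N) i j := by
    intro j
    have e1 : D₀ (a i) = 0 := h1 _ (Or.inl ⟨i, rfl⟩)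
    have e2 : D₀ (m i) = 0 := h1 _ (Or.inr ⟨i, rfl⟩)
    simp only [map_add, Derivation.leibniz, smul_eq_mul, e1, e2, h2, hD, Matrix.add_apply,
      Matrix.smul_apply, Matrix.one_apply, N, Matrix.of_apply]
    ring
  simp only [hterm]
  rw [← hcb]
  simp only [Matrix.mulVec, dotProduct]
  exact Finset.sum_congr rfl (fun j _ => mul_comm _ _)

variable {V : Type*} [Fintype V] {d : ℕ}

theorem exists_generic (V : Type*) [Fintype V] (d : ℕ) : ∃ p : V → Fin d → ℝ, Generic p := by
  obtain ⟨a, -, ha⟩ := exists_free (S := ∅) Set.countable_empty (ι := V × Fin d)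
    (U := Set.univ) isOpen_univ ⟨0, trivial⟩
  refine ⟨fun u i => a (u, i), ?_⟩
  rw [generic_iff_free]
  exact ha

theorem sq_add_smul (x y : Fin d → ℝ) (t : ℝ) :
    sq (x + t • y) = sq x + 2 * t * (x ⬝ᵥ y) + t ^ 2 * sq y := by
  unfold sq
  simp only [add_dotProduct, dotProduct_add, smul_dotProduct, dotProduct_smul, smul_eq_mul]
  rw [dotProduct_comm y x]
  ring

/-- T1: generically globally rigid graphs are infinitesimally rigid at generic placements. -/
theorem infRigid_of_GR {G : SimpleGraph V} (hG : GR G d) {p : V → Fin d → ℝ} (hp : Generic p) :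
    InfRigid G p := by
  classical
  intro m hm u v
  by_contra hne
  obtain ⟨ε, hε, hpert⟩ := (generic_iff_free.mp hp).perturb (fun x : V × Fin d => m x.1 x.2)
  obtain ⟨t, ht, hfree⟩ := exists_free_of_open
    (S := Set.range (fun x : V × Fin d => p x.1 x.2) ∪ Set.range (fun x : V × Fin d => m x.1 x.2))
    ((Set.countable_range _).union (Set.countable_range _)) (U := Set.Ioo 0 ε) isOpen_Ioo
    ⟨ε / 2, by constructor <;> linarith⟩
  have ht' : |t| < ε := by rw [abs_of_pos ht.1]; exact ht.2
  set P : V → Fin d → ℝ := fun u => p u + t • m u with hP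
  have hPgen : Generic P := by
    rw [generic_iff_free]
    exact hpert t ht' hfree
  have hequiv : EquivFw G P (fun u => p u + (-t) • m u) := by
    intro a b hab
    have e1 : p a + (-t) • m a - (p b + (-t) • m b) = (p a - p b) + (-t) • (m a - m b) := by
      rw [smul_sub]; abel
    have e2 : P a - P b = (p a - p b) + t • (m a - m b) := by
      rw [smul_sub]; simp only [hP]; abel
    rw [e1, e2, sq_add_smul, sq_add_smul, hm a b hab]
    ring
  have hcongr := hG P hPgen _ hequiv u v
  have e1 : p u + (-t) • m u - (p v + (-t) • m v) = (p u - p v) + (-t) • (m u - m v) := by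
    rw [smul_sub]; abel
  have e2 : P u - P v = (p u - p v) + t • (m u - m v) := by
    rw [smul_sub]; simp only [hP]; abel
  rw [e1, e2, sq_add_smul, sq_add_smul] at hcongr
  have h1 : t * ((p u - p v) ⬝ᵥ (m u - m v)) = 0 := by linarith
  rcases mul_eq_zero.mp h1 with h | h
  · exact ht.1.ne' h
  · exact hne h

/-- T2: a generically globally rigid graph cannot be separated by `d` vertices. -/
theorem connOff_of_GR {G : SimpleGraph V} (hG : GR G d) {Z : Finset V} (hd : 0 < d)
    (hZ : Z.card = d) : ConnOff G (Z : Set V) := by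
  classical
  intro P hP a b ha hb hPa
  by_contra hPb
  obtain ⟨p, hp⟩ := exists_generic V d
  -- a hyperplane through the points of `Z`
  let L : (Option (Fin d) → ℝ) →ₗ[ℝ] (Z → ℝ) :=
    { toFun := fun y z => (fun i => y (some i)) ⬝ᵥ p z + y none
      map_add' := by
        intro x y
        funext z
        simp only [Pi.add_apply, dotProduct, add_mul, Finset.sum_add_distrib]
        ring
      map_smul' := by
        intro r y
        funext z
        simp only [Pi.smul_apply, smul_eq_mul, dotProduct, RingHom.id_apply, mul_add,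
          Finset.mul_sum, mul_assoc] }
  have hlt : Module.finrank ℝ (Z → ℝ) < Module.finrank ℝ (Option (Fin d) → ℝ) := by
    rw [Module.finrank_fintype_fun_eq_card, Module.finrank_fintype_fun_eq_card]
    simp [hZ]
  obtain ⟨y, hy, hy0⟩ := Submodule.exists_mem_ne_zero_of_ne_bot
    (LinearMap.ker_ne_bot_of_finrank_lt (f := L) hlt)
  rw [LinearMap.mem_ker] at hy
  set f : Fin d → ℝ := fun i => y (some i) with hf
  set β : ℝ := y none with hβ
  have hfz : ∀ z ∈ Z, f ⬝ᵥ p z + β = 0 := fun z hz => congrFun hy ⟨z, hz⟩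
  have hf0 : f ≠ 0 := by
    intro h0
    obtain ⟨z, hz⟩ : Z.Nonempty := by
      rw [← Finset.card_pos]; omega
    have h1 := hfz z hz
    rw [h0, zero_dotProduct, zero_add] at h1
    apply hy0
    funext o
    cases o with
    | none => exact h1
    | some i => exact congrFun h0 i
  have hff : f ⬝ᵥ f ≠ 0 := fun h => hf0 (dotProduct_self_eq_zero.mp h)
  have hout : ∀ u, u ∉ Z → f ⬝ᵥ p u + β ≠ 0 := by
    intro u hu h
    apply hf0
    refine (hp.affine_zero (X := insert u Z) ?_ (b := f) (β := β) ?_).1
    · rw [Finset.card_insert_of_notMem hu]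
      omega
    · intro w hw
      rcases Finset.mem_insert.mp hw with rfl | hw
      · exact h
      · exact hfz w hw
  -- reflection
  set R : (Fin d → ℝ) → (Fin d → ℝ) := fun y => y + (-2 * (f ⬝ᵥ y + β) / (f ⬝ᵥ f)) • f with hR
  have hRiso : ∀ y y', sq (R y - R y') = sq (y - y') := by
    intro y y'
    have e : R y - R y' = (y - y') + (-2 * (f ⬝ᵥ (y - y')) / (f ⬝ᵥ f)) • f := by
      simp only [hR, dotProduct_sub]
      funext i
      simp only [Pi.sub_apply, Pi.add_apply, Pi.smul_apply, smul_eq_mul]
      ring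
    rw [e, sq_add_smul, dotProduct_comm (y - y') f]
    have : sq f = f ⬝ᵥ f := rfl
    rw [this]
    field_simp
    ring
  have hRfix : ∀ z ∈ Z, R (p z) = p z := by
    intro z hz
    simp [hR, hfz z hz]
  have hcross : ∀ y y', sq (R y - y') = sq (y - y') + 4 * (f ⬝ᵥ y + β) * (f ⬝ᵥ y' + β) / (f ⬝ᵥ f) := by
    intro y y'
    have e : R y - y' = (y - y') + (-2 * (f ⬝ᵥ y + β) / (f ⬝ᵥ f)) • f := by
      simp only [hR]
      abel
    rw [e, sq_add_smul, dotProduct_comm (y - y') f, dotProduct_sub]
    have : sq f = f ⬝ᵥ f := rfl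
    rw [this]
    field_simp
    ring
  set q : V → Fin d → ℝ := fun u => if P u then R (p u) else p u with hq
  have hequiv : EquivFw G p q := by
    intro u w huw
    by_cases hPu : P u
    · by_cases hPw : P w
      · simp only [hq, hPu, hPw, if_true]
        exact hRiso _ _
      · have h1 : u ∈ Z ∨ w ∈ Z := by
          by_contra hcon
          push Not at hcon
          exact hPw (hP u w (by simpa using hcon.1) (by simpa using hcon.2) huw hPu)
        simp only [hq, hPu, hPw, if_true, if_false]
        rcases h1 with h1 | h1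
        · rw [hRfix u h1]
        · rw [← hRiso (p u) (p w), hRfix w h1]
    · by_cases hPw : P w
      · have h1 : u ∈ Z ∨ w ∈ Z := by
          by_contra hcon
          push Not at hcon
          exact hPu (hP w u (by simpa using hcon.2) (by simpa using hcon.1) huw.symm hPw)
        simp only [hq, hPu, hPw, if_true, if_false]
        rcases h1 with h1 | h1
        · rw [← hRiso (p u) (p w), hRfix u h1]
        · rw [hRfix w h1]
      · simp only [hq, hPu, hPw, if_false]
  have hcongr := hG p hp q hequiv a b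
  simp only [hq, hPa, hPb, if_true, if_false] at hcongr
  rw [hcross] at hcongr
  have h1 := hout a (by simpa using ha)
  have h2 := hout b (by simpa using hb)
  have h3 : 4 * (f ⬝ᵥ p a + β) * (f ⬝ᵥ p b + β) / (f ⬝ᵥ f) = 0 := by linarith
  have h4 : 4 * (f ⬝ᵥ p a + β) * (f ⬝ᵥ p b + β) / (f ⬝ᵥ f) ≠ 0 :=
    div_ne_zero (mul_ne_zero (mul_ne_zero (by norm_num) h1) h2) hff
  exact h4 h3

end Pool.Agent.Lib.P6a51b6
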