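import Pool.Agent.Lib.P6a51b6.Energy
import Pool.Agent.Lib.P6a51b6.Simple
import Pool.Agent.Lib.P6a51b6.LemmaQ

/-!
# The kernel of a generic stress
-/

set_option autoImplicit false

namespace Pool.Agent.Lib.P6a51b6

open scoped Matrix

variable {V : Type*} [Fintype V] [DecidableEq V] {d : ℕ}

/-- all coordinates lie in the kernel of the Laplacian -/
def InK (w : V → V → ℝ) (q : V → Fin d → ℝ) : Prop := ∀ i, Lap w (fun v => q v i) = 0

theorem InK.add {w : V → V → ℝ} {q r : V → Fin d → ℝ} (hq : InK w q) (hr : InK w r) :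
    InK w (q + r) := by
  intro i
  have h1 : (fun v => (q + r) v i) = (fun v => q v i) + (fun v => r v i) := rfl
  rw [h1, Lap_add, hq i, hr i, add_zero]

theorem InK.smul {w : V → V → ℝ} {q : V → Fin d → ℝ} (hq : InK w q) (a : ℝ) :
    InK w (a • q) := by
  intro i
  have h1 : (fun v => (a • q) v i) = a • (fun v => q v i) := rfl
  rw [h1, Lap_smul, hq i, smul_zero]

theorem InK.mulVec {w : V → V → ℝ} {q : V → Fin d → ℝ} (hq : InK w q)
    (A : Matrix (Fin d) (Fin d) ℝ) (c : Fin d → ℝ) : InK w (fun u => A *ᵥ q u + c) := by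
  intro i
  have h1 : (fun v => (A *ᵥ q v + c) i) = (fun v => (A *ᵥ q v) i) + (fun _ => c i) := rfl
  rw [h1, Lap_add, Lap_const, add_zero]
  funext u
  have h2 : ∀ j, Lap w (fun v => q v j) u = 0 := fun j => congrFun (hq j) u
  simp only [Lap] at h2 ⊢
  have h3 : ∑ v, w u v * ((A *ᵥ q u) i - (A *ᵥ q v) i) =
      ∑ j, A i j * ∑ v, w u v * (q u j - q v j) := by
    simp only [Finset.mul_sum, Matrix.mulVec, dotProduct]
    rw [Finset.sum_comm]
    refine Finset.sum_congr rfl fun v _ => ?_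
    rw [← Finset.sum_sub_distrib, Finset.mul_sum]
    exact Finset.sum_congr rfl fun j _ => by ring
  rw [h3]
  simp only [h2, mul_zero, Finset.sum_const_zero]
  rfl

theorem IsStress.inK {G : SimpleGraph V} {p : V → Fin d → ℝ} {w : V → V → ℝ}
    (hw : IsStress G p w) : InK w p := hw.eq

/-- derivatives of the stress are orthogonal to measurements of the kernel -/
theorem deriv_orth {G : SimpleGraph V} {p : V → Fin d → ℝ} {w : V → V → ℝ}
    (hw : IsStress G p w) {q r : V → Fin d → ℝ} (hq : InK w q) (hr : InK w r)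
    (D : Derivation ℚ ℝ ℝ) : ∑ u, ∑ v, D (w u v) * Bm G q r (u, v) = 0 := by
  have h1 : ∀ u v, ¬ G.Adj u v → D (w u v) = 0 := by
    intro u v h
    rw [hw.supp u v h, map_zero]
  rw [pair_Bm (w := fun u v => D (w u v)) (fun u v => by rw [hw.symm u v]) h1]
  have h2 : ∀ i, ∑ u, r u i * Lap (fun u v => D (w u v)) (fun v => q v i) u = 0 := by
    intro i
    have h3 : ∀ u, Lap (fun u v => D (w u v)) (fun v => q v i) u =
        - Lap w (fun v => D (q v i)) u := by
      intro u
      have h4 := D_Lap D w (fun v => q v i) u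
      rw [congrFun (hq i) u, Pi.zero_apply, map_zero] at h4
      linarith
    simp only [h3, mul_neg, Finset.sum_neg_distrib]
    rw [Lap_symm hw.symm, hr i]
    simp
  simp only [h2, Finset.sum_const_zero, mul_zero]

/-- A symmetric supported function orthogonal to all derivatives of the stress is a measurement
of an element of the kernel. -/
theorem exists_inK {G : SimpleGraph V} {p : V → Fin d → ℝ} {w : V → V → ℝ}
    (hp : Generic p) (hw : IsStress G p w)
    (hder : ∀ σ, IsStress G p σ → ∃ D : Derivation ℚ ℝ ℝ,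
      (∀ u i, D (p u i) = 0) ∧ ∀ u v, D (w u v) = σ u v)
    {y : V × V → ℝ} (hsymm : ∀ u v, y (u, v) = y (v, u))
    (hsupp : ∀ u v, ¬ G.Adj u v → y (u, v) = 0)
    (horth : ∀ D : Derivation ℚ ℝ ℝ, ∑ u, ∑ v, D (w u v) * y (u, v) = 0) :
    ∃ m : V → Fin d → ℝ, InK w m ∧ y = Bm G p m := by
  obtain ⟨m, hm⟩ := exists_measurement (G := G) (p := p) hsymm hsupp (by
    intro σ hσ
    obtain ⟨D, -, hD⟩ := hder σ hσ
    simp only [← hD]
    exact horth D)
  refine ⟨m, ?_, hm⟩
  -- `⟨Dp, Ω m⟩ = 0` for all `D`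
  have h1 : ∀ D : Derivation ℚ ℝ ℝ, ∑ i, ∑ u, D (p u i) * Lap w (fun v => m v i) u = 0 := by
    intro D
    have h2 := horth D
    rw [hm, pair_Bm (w := fun u v => D (w u v)) (fun u v => by rw [hw.symm u v])
      (fun u v h => by rw [hw.supp u v h, map_zero])] at h2
    have h3 : ∀ i, ∑ u, m u i * Lap (fun u v => D (w u v)) (fun v => p v i) u =
        - ∑ u, D (p u i) * Lap w (fun v => m v i) u := by
      intro i
      have h4 : ∀ u, Lap (fun u v => D (w u v)) (fun v => p v i) u =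
          - Lap w (fun v => D (p v i)) u := by
        intro u
        have h5 := D_Lap D w (fun v => p v i) u
        rw [congrFun (hw.eq i) u, Pi.zero_apply, map_zero] at h5
        linarith
      simp only [h4, mul_neg, Finset.sum_neg_distrib]
      rw [Lap_symm hw.symm]
    simp only [h3, Finset.sum_neg_distrib] at h2
    linarith
  intro i
  funext u
  obtain ⟨D, hD⟩ := hp.exists_deriv (fun u' i' => if u' = u ∧ i' = i then 1 else 0)
  have h2 := h1 D
  simp only [hD] at h2
  rw [Finset.sum_eq_single i, Finset.sum_eq_single u] at h2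
  · simpa using h2
  · intro u' _ hu'
    simp [hu']
  · intro h; exact absurd (Finset.mem_univ _) h
  · intro i' _ hi'
    simp [hi']
  · intro h; exact absurd (Finset.mem_univ _) h

/-- All the data about the kernel of a generic stress. -/
structure Frame (G : SimpleGraph V) (p : V → Fin d → ℝ) (w : V → V → ℝ) (X₀ X₁ : Finset V)
    (P : V → V → ℝ) : Prop where
  gen : Generic p
  inf : InfRigid G p
  aff : AffSpan p
  stress : IsStress G p w
  der : ∀ σ, IsStress G p σ → ∃ D : Derivation ℚ ℝ ℝ,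
    (∀ u i, D (p u i) = 0) ∧ ∀ u v, D (w u v) = σ u v
  card₀ : X₀.card = d + 1
  kerP : ∀ x ∈ X₁, Lap w (P x) = 0
  P₀ : ∀ x ∈ X₁, ∀ u ∈ X₀, P x u = 0
  P₁ : ∀ x ∈ X₁, ∀ y ∈ X₁, P x y = if x = y then 1 else 0
  gen_ker : ∀ κ : V → ℝ, Lap w κ = 0 → ∃ (b : Fin d → ℝ) (β : ℝ) (γ : V → ℝ),
    ∀ u, κ u = b ⬝ᵥ p u + β + ∑ x ∈ X₁, γ x * P x u
  derP : ∀ D : Derivation ℚ ℝ ℝ, (∀ u v, D (w u v) = 0) → ∀ x ∈ X₁, ∀ u, D (P x u) = 0
  ne : X₁.Nonempty

/-- interpolation by affine functions at `d+1` generic points -/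
theorem Generic.interp {p : V → Fin d → ℝ} (hp : Generic p) {X₀ : Finset V}
    (hX₀ : X₀.card = d + 1) (κ : V → ℝ) :
    ∃ (b : Fin d → ℝ) (β : ℝ), ∀ u ∈ X₀, b ⬝ᵥ p u + β = κ u := by
  let L : (Option (Fin d) → ℝ) →ₗ[ℝ] (X₀ → ℝ) :=
    { toFun := fun y z => (fun i => y (some i)) ⬝ᵥ p z + y none
      map_add' := by
        intro x y
        funext z
        simp only [Pi.add_apply, dotProduct, add_mul, Finset.sum_add_distrib]
        ring
      map_smul' := by
        intro r y
        funext z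
        simp only [Pi.smul_apply, smul_eq_mul, dotProduct, RingHom.id_apply, mul_add,
          Finset.mul_sum, mul_assoc] }
  have hinj : Function.Injective L := by
    rw [← LinearMap.ker_eq_bot, LinearMap.ker_eq_bot']
    intro y hy
    obtain ⟨h1, h2⟩ := hp.affine_zero (X := X₀) (by omega) (b := fun i => y (some i))
      (β := y none) (fun u hu => congrFun hy ⟨u, hu⟩)
    funext o
    cases o with
    | none => exact h2
    | some i => exact congrFun h1 i
  have hsurj : Function.Surjective L := by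
    rw [← LinearMap.injective_iff_surjective_of_finrank_eq_finrank]
    · exact hinj
    · rw [Module.finrank_fintype_fun_eq_card, Module.finrank_fintype_fun_eq_card]
      simp [hX₀]
  obtain ⟨y, hy⟩ := hsurj (fun z => κ z)
  exact ⟨fun i => y (some i), y none, fun u hu => congrFun hy ⟨u, hu⟩⟩

/-- uniqueness of the representation -/
theorem Frame.uniq {G : SimpleGraph V} {p : V → Fin d → ℝ} {w : V → V → ℝ} {X₀ X₁ : Finset V}
    {P : V → V → ℝ} (F : Frame G p w X₀ X₁ P) {b : Fin d → ℝ} {β : ℝ} {γ : V → ℝ}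
    (h : ∀ u, b ⬝ᵥ p u + β + ∑ x ∈ X₁, γ x * P x u = 0) : b = 0 ∧ β = 0 ∧ ∀ x ∈ X₁, γ x = 0 := by
  have h1 := F.gen.affine_zero (X := X₀) (by rw [F.card₀]) (b := b) (β := β) (by
    intro u hu
    have h2 := h u
    rw [Finset.sum_eq_zero] at h2
    · simpa using h2
    · intro x hx
      rw [F.P₀ x hx u hu, mul_zero])
  refine ⟨h1.1, h1.2, fun y hy => ?_⟩
  have h2 := h y
  rw [h1.1, h1.2, Finset.sum_eq_single y] at h2
  · rw [F.P₁ y hy y hy] at h2
    simpa using h2
  · intro x hx hxy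
    rw [F.P₁ x hx y hy, if_neg hxy, mul_zero]
  · intro h; exact absurd hy h

/-- Existence of the frame. -/
theorem exists_frame {G : SimpleGraph V} {p : V → Fin d → ℝ} {w : V → V → ℝ} (hp : Generic p)
    (hinf : InfRigid G p) (hn : d + 2 ≤ Fintype.card V) (hw : IsStress G p w)
    (hder : ∀ σ, IsStress G p σ → ∃ D : Derivation ℚ ℝ ℝ,
      (∀ u i, D (p u i) = 0) ∧ ∀ u v, D (w u v) = σ u v)
    (hmax : ¬ MaxStress p w) : ∃ X₀ X₁ P, Frame G p w X₀ X₁ P := by
  classical
  obtain ⟨X₀, -, hX₀⟩ := Finset.exists_subset_card_eq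
    (show d + 1 ≤ (Finset.univ : Finset V).card by rw [Finset.card_univ]; omega)
  let K₁ : Submodule ℝ (V → ℝ) :=
    { carrier := {x | Lap w x = 0 ∧ ∀ u ∈ X₀, x u = 0}
      add_mem' := by
        rintro x y ⟨hx1, hx2⟩ ⟨hy1, hy2⟩
        refine ⟨by rw [Lap_add, hx1, hy1, add_zero], fun u hu => ?_⟩
        rw [Pi.add_apply, hx2 u hu, hy2 u hu, add_zero]
      zero_mem' := ⟨Lap_const w 0, fun _ _ => rfl⟩
      smul_mem' := by
        rintro r x ⟨hx1, hx2⟩
        refine ⟨by rw [Lap_smul, hx1, smul_zero], fun u hu => ?_⟩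
        rw [Pi.smul_apply, hx2 u hu, smul_zero] }
  have hK₁ : ∀ x, x ∈ K₁ ↔ Lap w x = 0 ∧ ∀ u ∈ X₀, x u = 0 := fun x => Iff.rfl
  obtain ⟨X₁, hX₁inj, hX₁surj⟩ := exists_coord K₁
  have hPex : ∀ x : V, ∃ z ∈ K₁, ∀ y ∈ X₁, z y = if x = y then 1 else 0 :=
    fun x => hX₁surj (fun y => if x = y then 1 else 0)
  choose P hPK hP using hPex
  -- affine functions are in the kernel
  have haff : ∀ (b : Fin d → ℝ) (β : ℝ), Lap w (fun u => b ⬝ᵥ p u + β) = 0 := by
    intro b β
    funext u
    have h2 : ∀ j, Lap w (fun v => p v j) u = 0 := fun j => congrFun (hw.eq j) u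
    simp only [Lap] at h2 ⊢
    have h3 : ∑ v, w u v * (b ⬝ᵥ p u + β - (b ⬝ᵥ p v + β)) =
        ∑ j, b j * ∑ v, w u v * (p u j - p v j) := by
      simp only [Finset.mul_sum, dotProduct]
      rw [Finset.sum_comm]
      refine Finset.sum_congr rfl fun v _ => ?_
      rw [add_sub_add_right_eq_sub, ← Finset.sum_sub_distrib, Finset.mul_sum]
      exact Finset.sum_congr rfl fun j _ => by ring
    rw [h3]
    simp [h2]
  have hdecomp : ∀ κ : V → ℝ, Lap w κ = 0 → ∃ (b : Fin d → ℝ) (β : ℝ) (γ : V → ℝ),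
      ∀ u, κ u = b ⬝ᵥ p u + β + ∑ x ∈ X₁, γ x * P x u := by
    intro κ hκ
    obtain ⟨b, β, hbβ⟩ := hp.interp hX₀ κ
    set κ₁ : V → ℝ := κ - (fun u => b ⬝ᵥ p u + β) with hκ₁
    have hκ₁K : κ₁ ∈ K₁ := by
      refine ⟨?_, fun u hu => ?_⟩
      · have : κ₁ = κ + (-1 : ℝ) • (fun u => b ⬝ᵥ p u + β) := by
          rw [hκ₁]; simp [sub_eq_add_neg]
        rw [this, Lap_add, Lap_smul, hκ, haff, smul_zero, add_zero]
      · rw [hκ₁, Pi.sub_apply, hbβ u hu, sub_self]
    refine ⟨b, β, κ₁, fun u => ?_⟩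
    have h1 : κ₁ - ∑ x ∈ X₁, κ₁ x • P x = 0 := by
      apply hX₁inj
      · exact K₁.sub_mem hκ₁K (K₁.sum_mem fun x _ => K₁.smul_mem _ (hPK x))
      · intro y hy
        rw [Pi.sub_apply, Finset.sum_apply, Finset.sum_eq_single y]
        · simp [hP y y hy]
        · intro x _ hxy
          simp [hP x y hy, hxy]
        · intro h; exact absurd hy h
    have h2 := congrFun (sub_eq_zero.mp h1) u
    rw [Finset.sum_apply] at h2
    simp only [Pi.smul_apply, smul_eq_mul] at h2
    rw [← h2, hκ₁, Pi.sub_apply]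
    ring
  refine ⟨X₀, X₁, P, hp, hinf, hp.affSpan (by omega), hw, hder, hX₀, fun x _ => (hPK x).1,
    fun x _ => (hPK x).2, fun x _ y hy => hP x y hy, hdecomp, ?_, ?_⟩
  · intro D hD x _ u
    have h1 : (fun v => D (P x v)) = 0 := by
      apply hX₁inj
      · refine ⟨?_, fun u hu => ?_⟩
        · funext u
          have h2 := D_Lap D w (P x) u
          rw [congrFun (hPK x).1 u, Pi.zero_apply, map_zero] at h2
          have h3 : Lap (fun u v => D (w u v)) (P x) u = 0 := by
            simp [Lap, hD]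
          rw [h3, zero_add] at h2
          exact h2.symm
        · simp only
          rw [(hPK x).2 u hu, map_zero]
      · intro y hy
        show D (P x y) = 0
        rw [hP x y hy]
        by_cases h : x = y <;> simp [h]
    exact congrFun h1 u
  · by_contra hne
    rw [Finset.not_nonempty_iff_eq_empty] at hne
    apply hmax
    intro κ hκ
    obtain ⟨b, β, γ, hu⟩ := hdecomp κ hκ
    refine ⟨b, β, fun u => ?_⟩
    rw [hu u, hne, Finset.sum_empty, add_zero]

end Pool.Agent.Lib.P6a51b6
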