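import Pool.Agent.Lib.P6a51b6.Deriv
import Pool.Agent.Lib.P6a51b6.Basic

/-!
# Free families, constants, polynomial functions
-/

set_option autoImplicit false

namespace Pool.Agent.Lib.P6a51b6

open MvPolynomial

/-- The constants: real numbers killed by all derivations killing `S`. -/
def FS (S : Set ℝ) : Subfield ℝ where
  carrier := {x | ∀ D : Derivation ℚ ℝ ℝ, (∀ s ∈ S, D s = 0) → D x = 0}
  mul_mem' := by
    intro a b ha hb D hD
    rw [Derivation.leibniz, ha D hD, hb D hD]
    simp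
  one_mem' := by
    intro D _
    simp
  add_mem' := by
    intro a b ha hb D hD
    rw [map_add, ha D hD, hb D hD, add_zero]
  zero_mem' := by
    intro D _
    simp
  neg_mem' := by
    intro a ha D hD
    rw [map_neg, ha D hD, neg_zero]
  inv_mem' := by
    intro a ha D hD
    rw [Derivation.leibniz_inv, ha D hD]
    simp

theorem mem_FS {S : Set ℝ} {x : ℝ} :
    x ∈ FS S ↔ ∀ D : Derivation ℚ ℝ ℝ, (∀ s ∈ S, D s = 0) → D x = 0 := Iff.rfl

theorem subset_FS (S : Set ℝ) : S ⊆ FS S := fun x hx _ hD => hD x hx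

theorem FS_mono {S T : Set ℝ} (h : S ⊆ T) : FS S ≤ FS T :=
  fun _ hx D hD => hx D (fun s hs => hD s (h hs))

theorem Free.mono {S T : Set ℝ} (h : S ⊆ T) {ι : Type*} {a : ι → ℝ} (ha : Free T a) : Free S a :=
  fun b => (ha b).imp fun _ hD => ⟨fun x hx => hD.1 x (h hx), hD.2⟩

theorem Free.comp {S : Set ℝ} {ι κ : Type*} {a : ι → ℝ} (ha : Free S a) (f : κ → ι)
    (hf : Function.Injective f) : Free S (a ∘ f) := by
  classical
  intro b
  obtain ⟨D, h1, h2⟩ := ha (fun i => if h : ∃ k, f k = i then b h.choose else 0)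
  refine ⟨D, h1, fun k => ?_⟩
  have hex : ∃ k', f k' = f k := ⟨k, rfl⟩
  simp only [Function.comp, h2, hex, dif_pos]
  congr 1
  exact hf hex.choose_spec

theorem free_of_algebraicIndependent_adjoin {S : Set ℝ} {ι : Type*} {a : ι → ℝ}
    (h : AlgebraicIndependent (IntermediateField.adjoin ℚ S) a) : Free S a := by
  intro b
  obtain ⟨D, hD⟩ := exists_derivation h b
  refine ⟨D.restrictScalars ℚ, fun x hx => ?_, fun i => hD i⟩
  have hx' : x ∈ IntermediateField.adjoin ℚ S := IntermediateField.subset_adjoin ℚ S hx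
  exact D.map_algebraMap (⟨x, hx'⟩ : IntermediateField.adjoin ℚ S)

theorem free_of_algebraicIndependent {ι : Type*} {a : ι → ℝ}
    (h : AlgebraicIndependent ℚ a) : Free ∅ a := by
  intro b
  obtain ⟨D, hD⟩ := exists_derivation h b
  exact ⟨D, fun x hx => absurd hx (Set.notMem_empty x), hD⟩

/-- Elements not free over a countable set form a countable set. -/
theorem countable_not_free {S : Set ℝ} (hS : S.Countable) :
    {x : ℝ | ¬ Free S (fun _ : Unit => x)}.Countable := by
  have hc : Countable (IntermediateField.adjoin ℚ S) := by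
    rw [← Cardinal.mk_le_aleph0_iff]
    have h := IntermediateField.lift_cardinalMk_adjoin_le ℚ S
    simp only [Cardinal.lift_id] at h
    refine h.trans ?_
    simp [hS]
  refine (Algebraic.countable (IntermediateField.adjoin ℚ S) ℝ).mono ?_
  intro x hx
  by_contra hcon
  apply hx
  apply free_of_algebraicIndependent_adjoin
  exact algebraicIndependent_unique_type_iff.mpr hcon

theorem exists_free_of_open {S : Set ℝ} (hS : S.Countable) {U : Set ℝ} (hU : IsOpen U)
    (hne : U.Nonempty) : ∃ x ∈ U, Free S (fun _ : Unit => x) := by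
  have h1 := (countable_not_free hS).dense_compl ℝ
  obtain ⟨x, hxU, hx⟩ := h1.inter_open_nonempty U hU hne
  exact ⟨x, hxU, by simpa using hx⟩

/-- Combine free families. -/
theorem Free.extend {S : Set ℝ} {ι : Type*} {a : ι → ℝ} (ha : Free S a) {x : ℝ}
    (hx : Free (S ∪ Set.range a) (fun _ : Unit => x)) (b : ι → ℝ) (c : ℝ) :
    ∃ D : Derivation ℚ ℝ ℝ, (∀ s ∈ S, D s = 0) ∧ (∀ i, D (a i) = b i) ∧ D x = c := by
  obtain ⟨D₁, h1, h2⟩ := ha b
  obtain ⟨D₂, h3, h4⟩ := hx (fun _ => 1)
  refine ⟨D₁ + (c - D₁ x) • D₂, fun s hs => ?_, fun i => ?_, ?_⟩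
  · simp [h1 s hs, h3 s (Or.inl hs)]
  · simp [h2 i, h3 (a i) (Or.inr ⟨i, rfl⟩)]
  · have := h4 ()
    simp only [Derivation.coe_add, Derivation.coe_smul, Pi.add_apply, Pi.smul_apply, smul_eq_mul]
    rw [this]
    ring

theorem Free.sum {S : Set ℝ} {ι κ : Type*} {a : ι → ℝ} (ha : Free S a) {c : κ → ℝ}
    (hc : Free (S ∪ Set.range a) c) : Free S (Sum.elim a c) := by
  intro b
  obtain ⟨D₁, h1, h2⟩ := ha (fun i => b (Sum.inl i))
  obtain ⟨D₂, h3, h4⟩ := hc (fun k => b (Sum.inr k) - D₁ (c k))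
  refine ⟨D₁ + D₂, fun s hs => ?_, ?_⟩
  · simp [h1 s hs, h3 s (Or.inl hs)]
  · rintro (i | k)
    · simp [h2 i, h3 (a i) (Or.inr ⟨i, rfl⟩)]
    · have := h4 k
      simp [this]

theorem exists_free_aux {S : Set ℝ} (hS : S.Countable) {ι : Type*} [Finite ι] [DecidableEq ι]
    (a₀ : ι → ℝ) {ε : ℝ} (hε : 0 < ε) (s : Finset ι) :
    ∃ a : ι → ℝ, (∀ i, |a i - a₀ i| < ε) ∧
      ∀ b : ι → ℝ, ∃ D : Derivation ℚ ℝ ℝ, (∀ x ∈ S, D x = 0) ∧ ∀ i ∈ s, D (a i) = b i := by
  induction s using Finset.induction_on with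
  | empty => exact ⟨a₀, fun i => by simpa using hε, fun b => ⟨0, by simp, by simp⟩⟩
  | insert i₀ s hi₀ ih =>
    obtain ⟨a, ha1, ha2⟩ := ih
    have hc : (S ∪ Set.range a).Countable := hS.union (Set.countable_range a)
    obtain ⟨x, hxU, hx⟩ := exists_free_of_open hc (U := Set.Ioo (a₀ i₀ - ε) (a₀ i₀ + ε)) isOpen_Ioo
      ⟨a₀ i₀, by constructor <;> linarith⟩
    refine ⟨Function.update a i₀ x, fun i => ?_, fun b => ?_⟩
    · by_cases h : i = i₀
      · subst h
        rw [Function.update_self, abs_lt]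
        constructor <;> linarith [hxU.1, hxU.2]
      · rw [Function.update_of_ne h]
        exact ha1 i
    · obtain ⟨D₁, h1, h2⟩ := ha2 b
      obtain ⟨D₂, h3, h4⟩ := hx (fun _ => 1)
      refine ⟨D₁ + (b i₀ - D₁ x) • D₂, fun s hs => ?_, fun i hi => ?_⟩
      · simp [h1 s hs, h3 s (Or.inl hs)]
      · by_cases h : i = i₀
        · subst h
          have := h4 ()
          simp only [Function.update_self, Derivation.coe_add, Derivation.coe_smul, Pi.add_apply,
            Pi.smul_apply, smul_eq_mul]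
          rw [this]
          ring
        · have hi' : i ∈ s := by simpa [h] using hi
          rw [Function.update_of_ne h]
          simp [h2 i hi', h3 (a i) (Or.inr ⟨i, rfl⟩)]

/-- Free families exist in every nonempty open set. -/
theorem exists_free {S : Set ℝ} (hS : S.Countable) {ι : Type*} [Fintype ι]
    {U : Set (ι → ℝ)} (hU : IsOpen U) (hne : U.Nonempty) : ∃ a ∈ U, Free S a := by
  classical
  obtain ⟨a₀, ha₀⟩ := hne
  obtain ⟨ε, hε, hball⟩ := Metric.isOpen_iff.mp hU a₀ ha₀
  obtain ⟨a, ha1, ha2⟩ := exists_free_aux hS a₀ hε Finset.univ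
  refine ⟨a, hball ?_, fun b => ?_⟩
  · rw [Metric.mem_ball, dist_pi_lt_iff hε]
    intro i
    rw [Real.dist_eq]
    exact ha1 i
  · obtain ⟨D, h1, h2⟩ := ha2 b
    exact ⟨D, h1, fun i => h2 i (Finset.mem_univ i)⟩

/-- A derivation applied to the value of a polynomial. -/
theorem derivation_aeval {F : Type*} [Field F] [Algebra F ℝ] {ι : Type*} [DecidableEq ι]
    {a : ι → ℝ} {D : Derivation ℚ ℝ ℝ} (hD : ∀ c : F, D (algebraMap F ℝ c) = 0) {i : ι}
    (hDa : ∀ j, D (a j) = if j = i then 1 else 0) (P : MvPolynomial ι F) :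
    D (aeval a P) = aeval a (pderiv i P) := by
  induction P using MvPolynomial.induction_on with
  | C c => simp [hD]
  | add p q hp hq => simp [hp, hq]
  | mul_X p j hp =>
    rw [map_mul, Derivation.leibniz, hp, aeval_X, hDa, pderiv_mul, map_add, map_mul, map_mul,
      aeval_X, pderiv_X]
    simp only [smul_eq_mul]
    by_cases h : j = i
    · subst h
      simp
      ring
    · have h' : i ≠ j := fun h' => h h'.symm
      simp [h]
      ring

theorem exists_pderiv_ne_zero {F : Type*} [Field F] [CharZero F] {ι : Type*}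
    {P : MvPolynomial ι F} (hP : ∀ c, P ≠ C c) : ∃ i, pderiv i P ≠ 0 := by
  classical
  by_contra hcon
  push Not at hcon
  apply hP (coeff 0 P)
  ext m
  rw [coeff_C]
  by_cases hm : (0 : ι →₀ ℕ) = m
  · simp [hm]
  · rw [if_neg hm]
    have hm' : m ≠ 0 := fun h => hm h.symm
    obtain ⟨i, hi⟩ := Finsupp.ne_iff.mp hm'
    have hi : m i ≠ 0 := hi
    have h1 := congrArg (coeff (m - Finsupp.single i 1)) (hcon i)
    rw [coeff_pderiv] at h1
    have h2 : m - Finsupp.single i 1 + Finsupp.single i 1 = m := by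
      apply tsub_add_cancel_of_le
      rw [Finsupp.single_le_iff]
      omega
    rw [h2] at h1
    simp only [coeff_zero, mul_eq_zero] at h1
    rcases h1 with h1 | h1
    · exact h1
    · exfalso
      exact Nat.cast_add_one_ne_zero _ h1

/-- Polynomials over the constants do not vanish on free families. -/
theorem aeval_ne_zero_of_free {F : Type*} [Field F] [Algebra F ℝ] {S : Set ℝ}
    (hF : ∀ c : F, algebraMap F ℝ c ∈ FS S) {ι : Type*} {a : ι → ℝ} (ha : Free S a)
    (P : MvPolynomial ι F) (hP : P ≠ 0) : aeval a P ≠ 0 := by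
  classical
  have hcz : CharZero F := by
    refine ⟨fun m n h => ?_⟩
    have h2 : (algebraMap F ℝ) (m : F) = (algebraMap F ℝ) (n : F) := by rw [h]
    simpa using h2
  induction hn : P.totalDegree using Nat.strong_induction_on generalizing P with
  | _ n ih =>
  by_cases hc : ∃ c, P = C c
  · obtain ⟨c, rfl⟩ := hc
    have hc0 : c ≠ 0 := fun h => hP (by rw [h, C_0])
    simpa using hc0
  · push Not at hc
    obtain ⟨i, hi⟩ := exists_pderiv_ne_zero hc
    have hdeg : (pderiv i P).totalDegree < n := by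
      have hpos : 0 < P.totalDegree := by
        rw [Nat.pos_iff_ne_zero]
        intro h
        rw [totalDegree_eq_zero_iff_eq_C] at h
        exact hc _ h
      rw [← hn]
      refine lt_of_le_of_lt (b := P.totalDegree - 1) ?_ (by omega)
      rw [totalDegree]
      refine Finset.sup_le ?_
      intro m hm
      rw [mem_support_iff, coeff_pderiv] at hm
      have hm' : coeff (m + Finsupp.single i 1) P ≠ 0 := left_ne_zero_of_mul hm
      have h3 := le_totalDegree (mem_support_iff.mpr hm')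
      rw [Finsupp.sum_add_index' (fun _ => rfl) (fun _ _ _ => rfl)] at h3
      simp only [Finsupp.sum_single_index] at h3
      omega
    have h1 := ih _ hdeg (pderiv i P) hi rfl
    obtain ⟨D, hD1, hD2⟩ := ha (fun j => if j = i then 1 else 0)
    rw [← derivation_aeval (fun c => hF c D hD1) hD2 P] at h1
    intro h0
    rw [h0] at h1
    simp at h1

theorem Free.algebraicIndependent {ι : Type*} {a : ι → ℝ} (ha : Free ∅ a) :
    AlgebraicIndependent ℚ a := by
  rw [algebraicIndependent_iff]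
  intro P hP
  by_contra hne
  exact aeval_ne_zero_of_free (S := ∅) (fun c D _ => D.map_algebraMap c) ha P hne hP

theorem free_iff_algebraicIndependent {ι : Type*} {a : ι → ℝ} :
    Free ∅ a ↔ AlgebraicIndependent ℚ a :=
  ⟨Free.algebraicIndependent, free_of_algebraicIndependent⟩

theorem generic_iff_free {V : Type*} {d : ℕ} {p : V → Fin d → ℝ} :
    Generic p ↔ Free ∅ (fun x : V × Fin d => p x.1 x.2) :=
  free_iff_algebraicIndependent.symm

/-- The ring of polynomial functions with coefficients in the constants of `S`. -/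
noncomputable def PF (S : Set ℝ) (ι : Type*) : Subring ((ι → ℝ) → ℝ) :=
  (RingHom.pi (fun x : ι → ℝ => (aeval x : MvPolynomial ι (FS S) →ₐ[FS S] ℝ).toRingHom)).range

theorem PF.const {S : Set ℝ} {ι : Type*} {c : ℝ} (hc : c ∈ FS S) :
    (fun _ => c : (ι → ℝ) → ℝ) ∈ PF S ι := by
  refine ⟨C ⟨c, hc⟩, ?_⟩
  funext x
  show aeval x (C ⟨c, hc⟩ : MvPolynomial ι (FS S)) = c
  rw [aeval_C]
  rfl

theorem PF.coord {S : Set ℝ} {ι : Type*} (i : ι) : (fun x => x i : (ι → ℝ) → ℝ) ∈ PF S ι := by
  refine ⟨X i, ?_⟩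
  funext x
  show aeval x (X i : MvPolynomial ι (FS S)) = x i
  rw [aeval_X]

theorem PF.ne_zero {S : Set ℝ} {ι : Type*} {f : (ι → ℝ) → ℝ} (hf : f ∈ PF S ι) {b : ι → ℝ}
    (hb : f b ≠ 0) {a : ι → ℝ} (ha : Free S a) : f a ≠ 0 := by
  obtain ⟨P, rfl⟩ := hf
  have hP : P ≠ 0 := by
    rintro rfl
    simp at hb
  exact aeval_ne_zero_of_free (F := FS S) (S := S) (fun c => c.2) ha P hP

end Pool.Agent.Lib.P6a51b6
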