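import Pool.Agent.Lib.P6a51b6.Free

/-!
# Generic points are in general position
-/

set_option autoImplicit false

namespace Pool.Agent.Lib.P6a51b6

open scoped Matrix

variable {V : Type*} {d : ℕ}

/-- Arbitrary values of a derivation on a generic placement. -/
theorem Generic.exists_deriv {p : V → Fin d → ℝ} (hp : Generic p) (m : V → Fin d → ℝ) :
    ∃ D : Derivation ℚ ℝ ℝ, ∀ u i, D (p u i) = m u i := by
  obtain ⟨D, -, hD⟩ := (generic_iff_free.mp hp) (fun x => m x.1 x.2)
  exact ⟨D, fun u i => hD (u, i)⟩

/-- At most `d + 1` generic points are affinely independent. -/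
theorem Generic.affIndep {p : V → Fin d → ℝ} (hp : Generic p) {X : Finset V}
    (hX : X.card ≤ d + 1) {c : V → ℝ} (h0 : ∑ u ∈ X, c u = 0)
    (h1 : ∀ i, ∑ u ∈ X, c u * p u i = 0) : ∀ u ∈ X, c u = 0 := by
  classical
  by_contra hcon
  push Not at hcon
  obtain ⟨u₀, hu₀, hc⟩ := hcon
  -- normalise
  set c' : V → ℝ := fun u => c u / c u₀ with hc'
  have hc'0 : c' u₀ = 1 := by simp [hc', hc]
  have h0' : ∑ u ∈ X, c' u = 0 := by
    simp only [hc', ← Finset.sum_div, h0, zero_div]
  have h1' : ∀ i, ∑ u ∈ X, c' u * p u i = 0 := by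
    intro i
    have : ∑ u ∈ X, c' u * p u i = (∑ u ∈ X, c u * p u i) / c u₀ := by
      rw [Finset.sum_div]
      exact Finset.sum_congr rfl (fun u _ => by simp only [hc']; ring)
    rw [this, h1 i, zero_div]
  -- another element
  obtain ⟨u₁, hu₁, hne⟩ : ∃ u₁ ∈ X, u₁ ≠ u₀ := by
    by_contra hno
    push Not at hno
    have hX1 : X = {u₀} := by
      ext u
      simp only [Finset.mem_singleton]
      exact ⟨fun hu => hno u hu, fun hu => hu ▸ hu₀⟩
    rw [hX1, Finset.sum_singleton, hc'0] at h0'
    exact one_ne_zero h0'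
  set Y : Finset V := (X.erase u₀).erase u₁ with hY
  have hYcard : Y.card + 2 = X.card := by
    have e1 : (X.erase u₀).card + 1 = X.card := Finset.card_erase_add_one hu₀
    have hu₁' : u₁ ∈ X.erase u₀ := Finset.mem_erase.mpr ⟨hne, hu₁⟩
    have e2 : Y.card + 1 = (X.erase u₀).card := Finset.card_erase_add_one hu₁'
    omega
  have hsumX : ∀ f : V → ℝ, ∑ u ∈ X, f u = f u₀ + (f u₁ + ∑ u ∈ Y, f u) := by
    intro f
    have hu₁' : u₁ ∈ X.erase u₀ := Finset.mem_erase.mpr ⟨hne, hu₁⟩
    rw [← Finset.add_sum_erase X f hu₀, ← Finset.add_sum_erase _ f hu₁']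
  have hspan : (⊤ : Submodule ℝ (Fin d → ℝ)) ≤
      Submodule.span ℝ (Y.image (fun u => p u - p u₁) : Set (Fin d → ℝ)) := by
    rintro e -
    obtain ⟨D, hD⟩ := hp.exists_deriv (fun u => if u = u₀ then e else 0)
    have hDc : ∑ u ∈ X, D (c' u) = 0 := by
      have := congrArg D h0'
      rw [map_sum, map_zero] at this
      exact this
    have hDc0 : D (c' u₀) = 0 := by rw [hc'0]; simp
    have hDp : ∀ i, ∑ u ∈ X, D (c' u) * p u i + e i = 0 := by
      intro i
      have := congrArg D (h1' i)
      rw [map_sum, map_zero] at this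
      simp only [Derivation.leibniz, smul_eq_mul, hD] at this
      rw [Finset.sum_add_distrib] at this
      have h3 : ∑ u ∈ X, c' u * (if u = u₀ then e else 0) i = e i := by
        rw [Finset.sum_eq_single u₀]
        · simp [hc'0]
        · intro u _ hu
          simp [hu]
        · intro h
          exact absurd hu₀ h
      rw [h3] at this
      rw [← this, add_comm]
      congr 1
      exact Finset.sum_congr rfl (fun u _ => by ring)
    have he : e = ∑ u ∈ Y, (- D (c' u)) • (p u - p u₁) := by
      ext i
      simp only [Finset.sum_apply, Pi.smul_apply, Pi.sub_apply, smul_eq_mul]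
      have h4 := hDp i
      rw [hsumX, hDc0] at h4
      rw [hsumX, hDc0] at hDc
      have h5 : ∑ u ∈ Y, -D (c' u) * (p u i - p u₁ i) =
          - (∑ u ∈ Y, D (c' u) * p u i) + (∑ u ∈ Y, D (c' u)) * p u₁ i := by
        rw [Finset.sum_mul, ← Finset.sum_neg_distrib, ← Finset.sum_add_distrib]
        exact Finset.sum_congr rfl (fun u _ => by ring)
      rw [h5]
      have h6 : ∑ u ∈ Y, D (c' u) = - D (c' u₁) := by linarith
      rw [h6]
      linarith
    rw [he]
    refine Submodule.sum_mem _ (fun u hu => Submodule.smul_mem _ _ (Submodule.subset_span ?_))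
    simp only [Finset.coe_image]
    exact ⟨u, hu, rfl⟩
  have hfr := Submodule.finrank_mono hspan
  rw [finrank_top, Module.finrank_fin_fun] at hfr
  have h7 := finrank_span_finset_le_card (R := ℝ) (Y.image (fun u => p u - p u₁))
  have h8 : (Y.image (fun u => p u - p u₁)).card ≤ Y.card := Finset.card_image_le
  unfold Set.finrank at h7
  omega

/-- An affine function vanishing at `d + 1` generic points vanishes. -/
theorem Generic.affine_zero {p : V → Fin d → ℝ} (hp : Generic p) {X : Finset V}
    (hX : d + 1 ≤ X.card) {b : Fin d → ℝ} {β : ℝ} (h : ∀ u ∈ X, b ⬝ᵥ p u + β = 0) :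
    b = 0 ∧ β = 0 := by
  classical
  obtain ⟨X', hX'X, hX'⟩ := Finset.exists_subset_card_eq hX
  -- the vectors `(p u, 1)` are linearly independent, hence span
  have hli : LinearIndependent ℝ (fun u : X' => (fun o : Option (Fin d) => o.elim 1 (p u))) := by
    rw [Fintype.linearIndependent_iff]
    intro g hg u
    have h2 := hp.affIndep (X := X') (by omega) (c := fun v => if h : v ∈ X' then g ⟨v, h⟩ else 0)
      (by
        have := congrFun hg none
        simp only [Finset.sum_apply, Pi.smul_apply, Option.elim_none, smul_eq_mul, mul_one,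
          Pi.zero_apply] at this
        rw [← Finset.sum_coe_sort, ← this]
        exact Finset.sum_congr rfl (fun u _ => by simp))
      (by
        intro i
        have := congrFun hg (some i)
        simp only [Finset.sum_apply, Pi.smul_apply, Option.elim_some, smul_eq_mul,
          Pi.zero_apply] at this
        rw [← Finset.sum_coe_sort, ← this]
        exact Finset.sum_congr rfl (fun u _ => by simp)) u.1 u.2
    simpa using h2
  have hspan := hli.span_eq_top_of_card_eq_finrank' (by
    rw [Module.finrank_fintype_fun_eq_card]; simp [hX'])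
  set φ : (Option (Fin d) → ℝ) →ₗ[ℝ] ℝ :=
    { toFun := fun y => (fun o : Option (Fin d) => o.elim β b) ⬝ᵥ y
      map_add' := fun _ _ => dotProduct_add _ _ _
      map_smul' := fun _ _ => dotProduct_smul _ _ _ } with hφ
  have hφ0 : φ = 0 := by
    apply LinearMap.ext_on_range hspan
    rintro ⟨u, hu⟩
    have := h u (hX'X hu)
    simp only [hφ, LinearMap.coe_mk, AddHom.coe_mk, dotProduct, Fintype.sum_option,
      Option.elim_none, Option.elim_some, mul_one, LinearMap.zero_apply]
    simp only [dotProduct] at this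
    linarith
  constructor
  · ext i
    have := LinearMap.congr_fun hφ0 (Pi.single (some i) 1)
    simpa [hφ] using this
  · have := LinearMap.congr_fun hφ0 (Pi.single none 1)
    simpa [hφ] using this

theorem Generic.affSpan [Fintype V] {p : V → Fin d → ℝ} (hp : Generic p)
    (hn : d + 1 ≤ Fintype.card V) : AffSpan p := fun b β h =>
  (hp.affine_zero (X := Finset.univ) (by simpa using hn) (b := b) (β := β)
    (fun u _ => h u)).1

end Pool.Agent.Lib.P6a51b6
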