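import Pool.Agent.Lib.P6a51b6.Rot

/-!
# Generic global rigidity implies a stress of maximal rank
-/

set_option autoImplicit false

namespace Pool.Agent.Lib.P6a51b6

open scoped Matrix

variable {V : Type*} [Fintype V] [DecidableEq V] {d : ℕ}
variable {G : SimpleGraph V} {p : V → Fin d → ℝ} {w : V → V → ℝ} {X₀ X₁ : Finset V}
  {P : V → V → ℝ}

/-- index type of a complement of the trivial motions -/
abbrev YIdx (d : ℕ) (X₀ X₁ : Finset V) := SIdx d X₁ ⊕ ({u : V // u ∉ X₀ ∧ u ∉ X₁} × Fin d)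

/-- the corresponding placements -/
def Yb (p : V → Fin d → ℝ) (X₀ X₁ : Finset V) (P : V → V → ℝ) : YIdx d X₀ X₁ → V → Fin d → ℝ :=
  Sum.elim (Qb p X₁ P) (fun x u k => if u = x.1 ∧ k = x.2 then 1 else 0)

theorem sum_Yb {X₀ X₁ : Finset V} (y : YIdx d X₀ X₁ → ℝ) (u : V) (k : Fin d) :
    (∑ b, y b • Yb p X₀ X₁ P b) u k = qM p X₁ P (fun a => y (Sum.inl a)) u k +
      (if h : u ∉ X₀ ∧ u ∉ X₁ then y (Sum.inr (⟨u, h⟩, k)) else 0) := by
  rw [Fintype.sum_sum_type, Pi.add_apply, Pi.add_apply]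
  congr 1
  simp only [Finset.sum_apply, Pi.smul_apply, smul_eq_mul, Yb, Sum.elim_inr]
  by_cases h : u ∉ X₀ ∧ u ∉ X₁
  · rw [dif_pos h, Finset.sum_eq_single (⟨u, h⟩, k)]
    · simp
    · rintro ⟨⟨u', hu'⟩, k'⟩ _ hne
      rw [if_neg, mul_zero]
      rintro ⟨h1, h2⟩
      apply hne
      simp only at h1 h2
      subst h1 h2
      rfl
    · intro h; exact absurd (Finset.mem_univ _) h
  · rw [dif_neg h]
    apply Finset.sum_eq_zero
    rintro ⟨⟨u', hu'⟩, k'⟩ _
    rw [if_neg, mul_zero]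
    rintro ⟨h1, h2⟩
    simp only at h1
    subst h1
    exact h hu'

theorem Bm_trivial {q : V → Fin d → ℝ} {S : Matrix (Fin d) (Fin d) ℝ} (hS : Sᵀ = -S)
    (c : Fin d → ℝ) : Bm G q (fun u => S *ᵥ q u + c) = 0 := by
  rw [Bm_eq_zero_iff]
  intro u v _
  have h4 : S *ᵥ q u + c - (S *ᵥ q v + c) = S *ᵥ (q u - q v) := by
    rw [Matrix.mulVec_sub]; abel
  simp only [h4]
  exact skew_quad hS _

/-- All motions of a free point of the slice lie in the kernel. -/
theorem Frame.motion_inK (F : Frame G p w X₀ X₁ P) {A : SIdx d X₁ → ℝ}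
    (hA : Free (FrameS p w) A) {m : V → Fin d → ℝ} (hm : Bm G (qM p X₁ P A) m = 0) :
    InK w m := by
  classical
  let R : (SIdx d X₁ → ℝ) → Matrix (V × V) (YIdx d X₀ X₁) ℝ := fun M =>
    Matrix.of fun x b => Bm G (qM p X₁ P M) (Yb p X₀ X₁ P b) x
  have hRmul : ∀ M y, R M *ᵥ y = Bm G (qM p X₁ P M) (∑ b, y b • Yb p X₀ X₁ P b) := by
    intro M y
    rw [Bm_sum_right]
    funext x
    simp only [Matrix.mulVec, dotProduct, R, Matrix.of_apply, Finset.sum_apply, Pi.smul_apply,
      smul_eq_mul]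
    exact Finset.sum_congr rfl fun b _ => mul_comm _ _
  -- polynomiality
  have hYconst : ∀ b u k, Yb p X₀ X₁ P b u k ∈ FS (FrameS p w) := by
    intro b u k
    rcases b with a | x
    · exact F.Qb_const a u k
    · simp only [Yb, Sum.elim_inr]
      split_ifs
      · exact Subfield.one_mem _
      · exact Subfield.zero_mem _
  have hBconst : ∀ a b x, Bm G (Qb p X₁ P a) (Yb p X₀ X₁ P b) x ∈ FS (FrameS p w) := by
    intro a b x
    by_cases h : G.Adj x.1 x.2
    · simp only [Bm, h, if_true, dotProduct, Pi.sub_apply]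
      exact Subfield.sum_mem _ fun i _ => Subfield.mul_mem _
        (Subfield.sub_mem _ (F.Qb_const _ _ _) (F.Qb_const _ _ _))
        (Subfield.sub_mem _ (hYconst _ _ _) (hYconst _ _ _))
    · simp only [Bm, h, if_false]
      exact Subfield.zero_mem _
  have hRPF : ∀ x b, (fun M => R M x b) ∈ PF (FrameS p w) (SIdx d X₁) := by
    intro x b
    have h1 : (fun M => R M x b) = ∑ a, (fun M : SIdx d X₁ → ℝ => M a) *
        (fun _ => Bm G (Qb p X₁ P a) (Yb p X₀ X₁ P b) x) := by
      funext M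
      simp only [R, Matrix.of_apply]
      rw [Bm_comm, Bm_qM]
      simp only [Finset.sum_apply, Pi.smul_apply, Pi.mul_apply, smul_eq_mul]
      exact Finset.sum_congr rfl fun a _ => by rw [Bm_comm]
    rw [h1]
    exact Subring.sum_mem _ fun a _ => Subring.mul_mem _ (PF.coord a) (PF.const (hBconst _ _ _))
  have hdetPF : (fun M => ((R M)ᵀ * R M).det) ∈ PF (FrameS p w) (SIdx d X₁) := by
    refine PF.det fun b b' => ?_
    have h1 : (fun M => ((R M)ᵀ * R M) b b') = ∑ x, (fun M => R M x b) * (fun M => R M x b') := by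
      funext M
      simp only [Matrix.mul_apply, Matrix.transpose_apply, Finset.sum_apply, Pi.mul_apply]
    rw [h1]
    exact Subring.sum_mem _ fun x _ => Subring.mul_mem _ (hRPF _ _) (hRPF _ _)
  -- injectivity at `p`
  have hp : qM p X₁ P (fromAB X₁ 1 0) = p := by
    rw [qM_fromAB Matrix.blockTriangular_one]
    funext u i
    simp [qAB]
  have hM₁ : ((R (fromAB X₁ 1 0))ᵀ * R (fromAB X₁ 1 0)).det ≠ 0 := by
    rw [gram_det_ne_zero]
    intro y hy
    rw [hRmul, hp, Bm_eq_zero_iff] at hy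
    obtain ⟨S, c, hS, hc⟩ := trivial_motion F.aff (F.inf _ hy)
    set M : SIdx d X₁ → ℝ := fun a => y (Sum.inl a) with hM
    have hsum := fun u k => sum_Yb (p := p) (P := P) y u k
    have hκ : InK w (fun u => (-1 : ℝ) • (S *ᵥ p u + c) + qM p X₁ P M u) := by
      have h1 := ((F.stress.inK.mulVec S c).smul (-1)).add (F.inK_qM M)
      exact h1
    have hκ0 := F.zero_of_coord hκ (by
      intro u hu
      have h1 := hc u
      have h2 : qM p X₁ P M u = S *ᵥ p u + c := by
        rw [← h1]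
        funext k
        rw [hsum u k, dif_neg, add_zero]
        rintro ⟨h3, h4⟩
        rcases hu with hu | hu
        · exact h3 hu
        · exact h4 hu
      rw [h2]
      funext k
      simp
      ring)
    have hqM : ∀ u, qM p X₁ P M u = S *ᵥ p u + c := by
      intro u
      have h1 := congrFun hκ0 u
      simp only [Pi.zero_apply, neg_smul, one_smul] at h1
      exact (neg_add_eq_zero.mp h1).symm
    have hM0 : M = 0 := F.slice_trivial hS hqM
    have hsc : ∀ u, S *ᵥ p u + c = 0 := by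
      intro u
      rw [← hqM u, hM0]
      simp [qM]
    funext b
    rcases b with a | ⟨⟨u, hu⟩, k⟩
    · exact congrFun hM0 a
    · have h1 := hsum u k
      rw [dif_pos hu, hc u, hsc u, hqM u, hsc u] at h1
      simp only [Pi.zero_apply, zero_add] at h1
      exact h1.symm
  have hdetA : ((R A)ᵀ * R A).det ≠ 0 := PF.ne_zero hdetPF hM₁ hA
  rw [gram_det_ne_zero] at hdetA
  -- decompose `m`
  obtain ⟨A', B', β', hint⟩ := F.interpK m
  obtain ⟨S₀, M', hS₀, hsplit⟩ := slice_split (p := p) (P := P) (A := A) hA.ne_zero A' B'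
  set κ : V → Fin d → ℝ := fun u => qAB p X₁ P A' B' u + β' with hκ
  set y : YIdx d X₀ X₁ → ℝ := Sum.elim M' (fun x => m x.1 x.2 - κ x.1 x.2) with hy
  have hsum : ∀ u k, (∑ b, y b • Yb p X₀ X₁ P b) u k = qM p X₁ P M' u k + (m u k - κ u k) := by
    intro u k
    rw [sum_Yb]
    congr 1
    by_cases h : u ∉ X₀ ∧ u ∉ X₁
    · rw [dif_pos h]
      rfl
    · rw [dif_neg h]
      have h1 : u ∈ X₀ ∨ u ∈ X₁ := by
        by_contra hcon
        push Not at hcon
        exact h hcon
      rw [hint u h1]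
      simp [hκ]
  have hm2 : m = (∑ b, y b • Yb p X₀ X₁ P b) + (fun u => S₀ *ᵥ (qM p X₁ P A u) + β') := by
    funext u k
    rw [Pi.add_apply, Pi.add_apply, hsum]
    have h1 := congrFun (hsplit u) k
    simp only [Pi.add_apply] at h1
    simp only [hκ, Pi.add_apply]
    rw [← h1]
    ring
  rw [hm2, Bm_add, Bm_trivial hS₀, add_zero, ← hRmul] at hm
  have hy0 := hdetA y hm
  have hmκ : m = κ := by
    funext u k
    by_cases h : u ∉ X₀ ∧ u ∉ X₁
    · have h1 := congrFun hy0 (Sum.inr (⟨u, h⟩, k))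
      simp only [hy, Sum.elim_inr, Pi.zero_apply] at h1
      linarith
    · have h1 : u ∈ X₀ ∨ u ∈ X₁ := by
        by_contra hcon
        push Not at hcon
        exact h hcon
      rw [hint u h1]
  rw [hmκ]
  have h1 := (F.inK_qAB A' B').add (F.stress.inK.mulVec 0 β')
  have h2 : qAB p X₁ P A' B' + (fun u => (0 : Matrix (Fin d) (Fin d) ℝ) *ᵥ p u + β') = κ := by
    funext u
    simp [hκ]
  rwa [h2] at h1

theorem orth_dot {O : Matrix (Fin d) (Fin d) ℝ} (hO : Oᵀ * O = 1) (x y : Fin d → ℝ) :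
    (O *ᵥ x) ⬝ᵥ (O *ᵥ y) = x ⬝ᵥ y := by
  rw [Matrix.dotProduct_mulVec, ← Matrix.mulVec_transpose, Matrix.mulVec_mulVec, hO,
    Matrix.one_mulVec]

theorem Bm_rot {q z : V → Fin d → ℝ} {O : Matrix (Fin d) (Fin d) ℝ} (hO : Oᵀ * O = 1)
    (c₀ : Fin d → ℝ) : Bm G (fun u => O *ᵥ q u + c₀) z = Bm G q (fun u => Oᵀ *ᵥ z u) := by
  have hO' : O * Oᵀ = 1 := mul_eq_one_comm.mp hO
  funext x
  by_cases h : G.Adj x.1 x.2
  · simp only [Bm, h, if_true]
    have e1 : O *ᵥ q x.1 + c₀ - (O *ᵥ q x.2 + c₀) = O *ᵥ (q x.1 - q x.2) := by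
      rw [Matrix.mulVec_sub]; abel
    have e2 : z x.1 - z x.2 = O *ᵥ (Oᵀ *ᵥ z x.1 - Oᵀ *ᵥ z x.2) := by
      rw [← Matrix.mulVec_sub, Matrix.mulVec_mulVec, hO', Matrix.one_mulVec]
    rw [e1, e2, orth_dot hO]
  · simp [Bm, h]

/-- The rotated free point of the slice is a generic placement. -/
theorem Frame.generic_rot (F : Frame G p w X₀ X₁ P) {A : SIdx d X₁ → ℝ}
    (hA : Free (FrameS p w) A)
    (hL : ∀ m, InK w m → ∃ v : SIdx d X₁ → ℝ, Bm G p m = Bm G (qM p X₁ P A) (qM p X₁ P v))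
    {O : Matrix (Fin d) (Fin d) ℝ} {c₀ : Fin d → ℝ} (hO : Oᵀ * O = 1)
    (hrot : ∀ κ : V → Fin d → ℝ, InK w κ → ∃ D : Derivation ℚ ℝ ℝ,
        (∀ s ∈ FrameS p w, D s = 0) ∧ ∀ u k, D ((O *ᵥ qM p X₁ P A u + c₀) k) = κ u k) :
    Generic (fun u => O *ᵥ qM p X₁ P A u + c₀) := by
  classical
  have hO' : O * Oᵀ = 1 := mul_eq_one_comm.mp hO
  set q' : V → Fin d → ℝ := fun u => O *ᵥ qM p X₁ P A u + c₀ with hq'
  have hq'K : InK w q' := (F.inK_qM A).mulVec O c₀
  rw [generic_iff_free]
  intro b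
  set t : V → Fin d → ℝ := fun u k => b (u, k) with ht
  let L : Derivation ℚ ℝ ℝ →ₗ[ℝ] (V × Fin d → ℝ) :=
    { toFun := fun D x => Lap (fun u v => D (w u v)) (fun v => q' v x.2) x.1
      map_add' := by
        intro D D'
        funext x
        simp only [Lap, Derivation.add_apply, add_mul, Finset.sum_add_distrib, Pi.add_apply]
      map_smul' := by
        intro r D
        funext x
        simp only [Lap, Derivation.smul_apply, smul_eq_mul, mul_assoc, Pi.smul_apply,
          RingHom.id_apply, Finset.mul_sum] }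
  have hmem : (fun x : V × Fin d => - Lap w (fun v => t v x.2) x.1) ∈ LinearMap.range L := by
    by_contra hcon
    obtain ⟨z, hz1, hz2⟩ := exists_sep hcon
    apply hz2
    set zz : V → Fin d → ℝ := fun u k => z (u, k) with hzz
    have hpairing : ∀ f : V × Fin d → ℝ, z ⬝ᵥ f = ∑ i, ∑ u, zz u i * f (u, i) := by
      intro f
      rw [dotProduct, Fintype.sum_prod_type, Finset.sum_comm]
    have horth : ∀ D : Derivation ℚ ℝ ℝ, ∑ u, ∑ v, D (w u v) * Bm G q' zz (u, v) = 0 := by
      intro D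
      rw [pair_Bm (w := fun u v => D (w u v)) (fun u v => by rw [F.stress.symm u v])
        (fun u v h => by rw [F.stress.supp u v h, map_zero])]
      have h1 := hz1 (L D) ⟨D, rfl⟩
      rw [hpairing] at h1
      have h2 : ∑ i, ∑ u, zz u i * Lap (fun u v => D (w u v)) (fun v => q' v i) u = 0 := h1
      rw [h2, mul_zero]
    obtain ⟨m', hm', hy⟩ := exists_inK F.gen F.stress F.der (y := Bm G q' zz) (Bm_symm G q' zz)
      (fun u v h => Bm_not_adj h) horth
    obtain ⟨v, hv⟩ := hL m' hm'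
    rw [hv, hq', Bm_rot hO] at hy
    have h3 : Bm G (qM p X₁ P A) ((fun u => Oᵀ *ᵥ zz u) + (-1 : ℝ) • qM p X₁ P v) = 0 := by
      rw [Bm_add, Bm_smul, hy]
      simp
    have h4 := F.motion_inK hA h3
    have h5 : InK w (fun u => Oᵀ *ᵥ zz u) := by
      have h6 := h4.add (F.inK_qM v)
      have h7 : (fun u => Oᵀ *ᵥ zz u) + (-1 : ℝ) • qM p X₁ P v + qM p X₁ P v =
          fun u => Oᵀ *ᵥ zz u := by
        simp
      rwa [h7] at h6
    have h6 : InK w zz := by
      have h7 := h5.mulVec O 0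
      have h8 : (fun u => O *ᵥ (Oᵀ *ᵥ zz u) + 0) = zz := by
        funext u
        rw [add_zero, Matrix.mulVec_mulVec, hO', Matrix.one_mulVec]
      rwa [h8] at h7
    rw [hpairing]
    simp only [mul_neg, Finset.sum_neg_distrib]
    have h9 : ∀ i, ∑ u, zz u i * Lap w (fun v => t v i) u = 0 := by
      intro i
      rw [Lap_symm F.stress.symm, h6 i]
      simp
    simp [h9]
  obtain ⟨D, hD⟩ := hmem
  -- correct by an element of the kernel
  have hκ : InK w (fun u k => t u k - D (q' u k)) := by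
    intro i
    funext u
    have h1 := D_Lap D w (fun v => q' v i) u
    rw [congrFun (hq'K i) u, Pi.zero_apply, map_zero] at h1
    have h2 : Lap (fun u v => D (w u v)) (fun v => q' v i) u = - Lap w (fun v => t v i) u :=
      congrFun hD (u, i)
    rw [h2] at h1
    have h3 : Lap w (fun v => t v i - D (q' v i)) u =
        Lap w (fun v => t v i) u - Lap w (fun v => D (q' v i)) u := by
      simp only [Lap]
      rw [← Finset.sum_sub_distrib]
      exact Finset.sum_congr rfl fun v _ => by ring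
    rw [h3, Pi.zero_apply]
    linarith
  obtain ⟨D', -, hD'⟩ := hrot _ hκ
  refine ⟨D + D', fun x hx => absurd hx (Set.notMem_empty x), ?_⟩
  rintro ⟨u, k⟩
  simp only [Derivation.add_apply]
  rw [hD' u k]
  simp only [ht, hq']
  ring

/-- Generic stress. -/
theorem exists_generic_stress (hp : Generic p) : ∃ w, IsStress G p w ∧
    ∀ σ, IsStress G p σ → ∃ D : Derivation ℚ ℝ ℝ,
      (∀ u i, D (p u i) = 0) ∧ ∀ u v, D (w u v) = σ u v := by
  classical
  let St : Submodule ℝ (V × V → ℝ) :=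
    { carrier := {w | IsStress G p (fun u v => w (u, v))}
      add_mem' := by
        rintro x y ⟨hx1, hx2, hx3⟩ ⟨hy1, hy2, hy3⟩
        refine ⟨fun u v => ?_, fun u v h => ?_, fun i => ?_⟩
        · simp only [Pi.add_apply]; rw [hx1 u v, hy1 u v]
        · simp only [Pi.add_apply]; rw [hx2 u v h, hy2 u v h, add_zero]
        · funext u
          have e1 := congrFun (hx3 i) u
          have e2 := congrFun (hy3 i) u
          simp only [Lap, Pi.zero_apply, Pi.add_apply, add_mul, Finset.sum_add_distrib] at e1 e2 ⊢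
          rw [e1, e2, add_zero]
      zero_mem' := by
        refine ⟨fun u v => rfl, fun u v h => rfl, fun i => ?_⟩
        funext u
        simp [Lap]
      smul_mem' := by
        rintro r x ⟨hx1, hx2, hx3⟩
        refine ⟨fun u v => ?_, fun u v h => ?_, fun i => ?_⟩
        · simp only [Pi.smul_apply]; rw [hx1 u v]
        · simp only [Pi.smul_apply]; rw [hx2 u v h, smul_zero]
        · funext u
          have e1 := congrFun (hx3 i) u
          simp only [Lap, Pi.zero_apply, Pi.smul_apply, smul_eq_mul, mul_assoc,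
            ← Finset.mul_sum] at e1 ⊢
          rw [e1, mul_zero] }
  obtain ⟨J, hJinj, hJsurj⟩ := exists_coord St
  obtain ⟨θ, -, hθ⟩ := exists_free (S := Set.range (fun x : V × Fin d => p x.1 x.2))
    (Set.countable_range _) (ι := V × V) (U := Set.univ) isOpen_univ ⟨0, trivial⟩
  obtain ⟨ω, hω, hωθ⟩ := hJsurj θ
  have hωs : IsStress G p (fun u v => ω (u, v)) := hω
  refine ⟨fun u v => ω (u, v), hωs, fun σ hσ => ?_⟩
  obtain ⟨D, hDp, hDθ⟩ := hθ (fun x => σ x.1 x.2)
  have hDp' : ∀ u i, D (p u i) = 0 := fun u i => hDp _ ⟨(u, i), rfl⟩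
  refine ⟨D, hDp', ?_⟩
  have hDω : (fun x => D (ω x)) ∈ St := by
    refine ⟨fun u v => ?_, fun u v h => ?_, fun i => ?_⟩
    · show D (ω (u, v)) = D (ω (v, u))
      rw [hωs.symm u v]
    · show D (ω (u, v)) = 0
      rw [hωs.supp u v h, map_zero]
    · funext u
      have h1 := D_Lap D (fun u v => ω (u, v)) (fun v => p v i) u
      rw [congrFun (hωs.eq i) u, Pi.zero_apply, map_zero] at h1
      have h2 : Lap (fun u v => ω (u, v)) (fun v => D (p v i)) u = 0 := by
        simp [Lap, hDp']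
      rw [h2, add_zero] at h1
      exact h1.symm
  have hσSt : (fun x : V × V => σ x.1 x.2) ∈ St := hσ
  have h1 : (fun x => D (ω x)) - (fun x : V × V => σ x.1 x.2) = 0 := by
    apply hJinj
    · exact St.sub_mem hDω hσSt
    · intro j hj
      simp only [Pi.sub_apply]
      rw [hωθ j hj, hDθ j, sub_self]
  intro u v
  have := congrFun (sub_eq_zero.mp h1) (u, v)
  exact this

/-- **Necessity.** If `G` is globally rigid at all generic placements, then at each generic
placement there is a stress of maximal rank. -/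
theorem ght (hd : 0 < d) (hn : d + 2 ≤ Fintype.card V) (hGR : GR G d) (hp : Generic p) :
    ∃ w, IsStress G p w ∧ MaxStress p w := by
  obtain ⟨w, hw, hder⟩ := exists_generic_stress (G := G) hp
  refine ⟨w, hw, ?_⟩
  by_contra hmax
  obtain ⟨X₀, X₁, P, F⟩ := exists_frame hp (infRigid_of_GR hGR hp) hn hw hder hmax
  obtain ⟨A, B, hAB, hmeas, hA, -, hr, hL⟩ := F.fold hd
  obtain ⟨O, c₀, hO, hrot⟩ := F.rotate hA
  have hgen := F.generic_rot hA hL hO hrot
  have hiso : ∀ M N : V → Fin d → ℝ, ∀ u v, sq (O *ᵥ M u + c₀ - (O *ᵥ M v + c₀)) =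
      sq (M u - M v) := by
    intro M _ u v
    have e1 : O *ᵥ M u + c₀ - (O *ᵥ M v + c₀) = O *ᵥ (M u - M v) := by
      rw [Matrix.mulVec_sub]; abel
    rw [e1]
    exact orth_dot hO _ _
  have hequiv : EquivFw G (fun u => O *ᵥ qM p X₁ P A u + c₀) (fun u => O *ᵥ qM p X₁ P B u + c₀) := by
    intro u v huv
    rw [hiso _ p, hiso _ p]
    have h1 := congrFun hmeas (u, v)
    rw [Bm_adj huv, Bm_adj huv] at h1
    exact h1.symm
  have hcongr := hGR _ hgen _ hequiv
  apply F.noncongr hAB hA hr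
  intro u v
  have h1 := hcongr u v
  rw [hiso _ p, hiso _ p] at h1
  exact h1

end Pool.Agent.Lib.P6a51b6
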