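import Pool.Agent.Lib.P6a51b6.DLin

/-!
# Step 4: the exceptional equation (E) has no solution
-/

set_option autoImplicit false

namespace Pool.Agent.Lib.P6a51b6

open scoped Matrix

variable {V : Type*} [Fintype V] [DecidableEq V] {d : ℕ}

/-- Normalised version. -/
theorem no_E_norm {H : SimpleGraph V} {p : V → Fin d → ℝ}
    (hp : Generic p) (hInf : InfRigid H p) {v : V} {A₁ C A₂ : Finset V}
    (hnbr : ∀ u, H.Adj v u ↔ u ∈ A₁ ∨ u ∈ C ∨ u ∈ A₂)
    (hd₁ : ∀ u ∈ A₁, u ∉ C) (hd₂ : ∀ u ∈ A₂, u ∉ C) (hd₃ : ∀ u ∈ A₁, u ∉ A₂)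
    (hcard : C.card + 1 = d) {u₀ : V} (hu₀ : u₀ ∈ A₁) (hA₂ : A₂.Nonempty)
    (hconn : ConnOff H (insert v (C : Set V)))
    {ν : Fin d → ℝ} (hνu : ν ⬝ᵥ (p u₀ - p v) = 1)
    (hνC : ∀ c ∈ C, ν ⬝ᵥ (p c - p v) = 0)
    {S : Matrix (Fin d) (Fin d) ℝ} (hS : S.IsSymm) (hSu : S *ᵥ (p u₀ - p v) = 0)
    {x : V → ℝ}
    (hE : ∀ u w, u ≠ v → w ≠ v → H.Adj u w →
      2 * (ν ⬝ᵥ (p u - p w)) * (x u - x w) = (p u - p w) ⬝ᵥ S *ᵥ (p u - p w))
    (hE₁ : ∀ a, a ∈ A₁ ∨ a ∈ C →
      2 * (ν ⬝ᵥ (p a - p v)) * (x a - 1) = (p a - p v) ⬝ᵥ S *ᵥ (p a - p v))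
    (hE₂ : ∀ a, a ∈ A₂ ∨ a ∈ C →
      2 * (ν ⬝ᵥ (p a - p v)) * (x a - 0) = (p a - p v) ⬝ᵥ S *ᵥ (p a - p v)) : False := by
  classical
  have hvC : v ∉ C := fun h => H.irrefl ((hnbr v).mpr (Or.inr (Or.inl h)))
  have hvA₁ : v ∉ A₁ := fun h => H.irrefl ((hnbr v).mpr (Or.inl h))
  have hvA₂ : v ∉ A₂ := fun h => H.irrefl ((hnbr v).mpr (Or.inr (Or.inr h)))
  have hu₀v : u₀ ≠ v := fun h => hvA₁ (h ▸ hu₀)
  have hu₀C : u₀ ∉ C := hd₁ u₀ hu₀
  -- orthogonality lemma
  have horth : ∀ (a : V), a ≠ v → a ∉ C → ∀ f : Fin d → ℝ, f ⬝ᵥ (p a - p v) = 0 →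
      (∀ c ∈ C, f ⬝ᵥ (p c - p v) = 0) → f = 0 := by
    intro a hav haC f hfa hfC
    refine (hp.affine_zero (X := insert v (insert a C)) ?_ (b := f) (β := - (f ⬝ᵥ p v)) ?_).1
    · rw [Finset.card_insert_of_notMem, Finset.card_insert_of_notMem haC]
      · omega
      · simp only [Finset.mem_insert, not_or]
        exact ⟨hav.symm, hvC⟩
    · intro u hu
      rw [Finset.mem_insert, Finset.mem_insert] at hu
      rcases hu with rfl | rfl | hu
      · ring
      · rw [dotProduct_sub] at hfa
        linarith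
      · have := hfC u hu
        rw [dotProduct_sub] at this
        linarith
  have hν : ν ≠ 0 := by
    rintro rfl
    simp at hνu
  -- derivations kill `ν`
  have hDν : ∀ D : Derivation ℚ ℝ ℝ, (∀ u, u = v ∨ u = u₀ ∨ u ∈ C → ∀ i, D (p u i) = 0) →
      (fun i => D (ν i)) = 0 := by
    intro D hD
    have h1 : ∀ u, u = v ∨ u = u₀ ∨ u ∈ C → (fun i => D ((p u - p v) i)) = 0 := by
      intro u hu
      funext i
      simp [hD u hu i, hD v (Or.inl rfl) i]
    apply horth u₀ hu₀v hu₀C
    · have := congrArg D hνu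
      rw [D_dot, h1 u₀ (Or.inr (Or.inl rfl)), dotProduct_zero, add_zero] at this
      simpa using this
    · intro c hc
      have := congrArg D (hνC c hc)
      rw [D_dot, h1 c (Or.inr (Or.inr hc)), dotProduct_zero, add_zero] at this
      simpa using this
  by_cases hS0 : S = 0
  · -- first case: `S = 0`
    subst hS0
    have hza : ∀ a, a ≠ v → a ∉ C → ν ⬝ᵥ (p a - p v) ≠ 0 := by
      intro a hav haC h
      exact hν (horth a hav haC ν h hνC)
    have hne : ∀ a b, a ≠ v → a ∉ C → b ≠ v → b ∉ C → a ≠ b → ν ⬝ᵥ (p a - p b) ≠ 0 := by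
      have key : ∀ a b, a ≠ v → a ∉ C → a ≠ u₀ → a ≠ b → ν ⬝ᵥ (p a - p b) ≠ 0 := by
        intro a b hav haC hau hab h
        obtain ⟨D, hD⟩ := hp.exists_deriv (fun u => if u = a then ν else 0)
        have h1 := hDν D (by
          rintro u (rfl | rfl | hu) i
          · rw [hD, if_neg (Ne.symm hav)]; rfl
          · rw [hD, if_neg (Ne.symm hau)]; rfl
          · rw [hD, if_neg (fun h : u = a => haC (h ▸ hu))]; rfl)
        have h2 := congrArg D h
        rw [D_dot, h1, zero_dotProduct, zero_add, map_zero] at h2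
        have h3 : (fun i => D ((p a - p b) i)) = ν := by
          funext i
          simp only [Pi.sub_apply, map_sub, hD, if_true, if_neg (Ne.symm hab), Pi.zero_apply,
            sub_zero]
        rw [h3] at h2
        exact hν (dotProduct_self_eq_zero.mp h2)
      intro a b hav haC hbv hbC hab
      by_cases hau : a = u₀
      · have hbu : b ≠ u₀ := fun h => hab (hau.trans h.symm)
        have := key b a hbv hbC hbu (Ne.symm hab)
        rw [← neg_sub, dotProduct_neg] at this
        exact fun h => this (by rw [h, neg_zero])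
      · exact key a b hav haC hau hab
    obtain ⟨a₂, ha₂⟩ := hA₂
    have ha₂v : a₂ ≠ v := fun h => hvA₂ (h ▸ ha₂)
    have hx1 : x u₀ = 1 := by
      have := hE₁ u₀ (Or.inl hu₀)
      simp only [Matrix.zero_mulVec, dotProduct_zero] at this
      rw [hνu] at this
      linarith
    have hx2 : x a₂ = 0 := by
      have := hE₂ a₂ (Or.inl ha₂)
      simp only [Matrix.zero_mulVec, dotProduct_zero, sub_zero] at this
      rcases mul_eq_zero.mp this with h | h
      · exfalso
        exact hza a₂ ha₂v (hd₂ a₂ ha₂) (by linarith)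
      · exact h
    have hfin := hconn (fun u => x u = 1) (by
      intro a b ha hb hab hxa
      simp only [Set.mem_insert_iff, Finset.mem_coe, not_or] at ha hb
      have h1 := hE a b ha.1 hb.1 hab
      simp only [Matrix.zero_mulVec, dotProduct_zero] at h1
      rcases mul_eq_zero.mp h1 with h | h
      · exfalso
        exact hne a b ha.1 ha.2 hb.1 hb.2 hab.ne (by linarith)
      · show x b = 1
        rw [← hxa]
        linarith) u₀ a₂ (by simp [hu₀v, hu₀C]) (by simp [ha₂v, hd₂ a₂ ha₂]) hx1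
    simp only [hx2] at hfin
    exact zero_ne_one hfin
  · -- second case: `S ≠ 0`
    set y : V → Fin d → ℝ := fun u => p u - p v with hy
    have hSC : ∀ c ∈ C, y c ⬝ᵥ S *ᵥ y c = 0 := by
      intro c hc
      have h1 := hE₁ c (Or.inr hc)
      have h2 := hνC c hc
      rw [h2] at h1
      simp only [mul_zero, zero_mul] at h1
      exact h1.symm
    obtain ⟨c, hc, c', hc', hσ⟩ : ∃ c ∈ C, ∃ c' ∈ C, y c ⬝ᵥ S *ᵥ y c' ≠ 0 := by
      by_contra hcon
      push Not at hcon
      apply hS0
      have hSc : ∀ c ∈ C, S *ᵥ y c = 0 := by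
        intro c hc
        apply horth u₀ hu₀v hu₀C
        · rw [dotProduct_comm]
          show y u₀ ⬝ᵥ S *ᵥ y c = 0
          rw [symm_dot hS, hSu, dotProduct_zero]
        · intro c' hc'
          rw [dotProduct_comm]
          exact hcon c' hc' c hc
      have hSf : ∀ f, S *ᵥ f = 0 := by
        intro f
        apply horth u₀ hu₀v hu₀C
        · rw [dotProduct_comm, symm_dot hS, hSu, dotProduct_zero]
        · intro c' hc'
          rw [dotProduct_comm, symm_dot hS, hSc c' hc', dotProduct_zero]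
      ext i j
      have := congrFun (hSf (Pi.single j 1)) i
      simpa [Matrix.mulVec_single_one] using this
    -- the movable vertices
    set V₁ : Finset V := Finset.univ \ (insert v (insert u₀ C)) with hV₁
    have hmemV₁ : ∀ w, w ∈ V₁ ↔ ¬ (w = v ∨ w = u₀ ∨ w ∈ C) := by
      intro w
      simp [hV₁]
    have hV₁ne : V₁.Nonempty := by
      obtain ⟨a₂, ha₂⟩ := hA₂
      refine ⟨a₂, (hmemV₁ a₂).mpr ?_⟩
      rintro (rfl | rfl | h)
      · exact hvA₂ ha₂
      · exact hd₃ _ hu₀ ha₂
      · exact hd₂ a₂ ha₂ h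
    -- main claim
    have main : ∀ D : Derivation ℚ ℝ ℝ, (∀ u, u ∉ V₁ → ∀ i, D (p u i) = 0) →
        (∀ w ∈ V₁, D (ν ⬝ᵥ y w) = 0) →
        (∀ w ∈ V₁, D (2 * (ν ⬝ᵥ y w) * x w - y w ⬝ᵥ S *ᵥ y w) = 0) →
        ∀ w ∈ V₁, S *ᵥ (fun i => D (p w i)) = 0 ∧ ν ⬝ᵥ (fun i => D (p w i)) = 0 := by
      intro D hD hz hφ
      have hDν' := hDν D (fun u hu => hD u (fun h => (hmemV₁ u).mp h hu))
      set y' : V → Fin d → ℝ := fun u i => D (y u i) with hy'
      have hy'p : ∀ w, (fun i => D (p w i)) = y' w := by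
        intro w
        funext i
        have := hD v (fun h => (hmemV₁ v).mp h (Or.inl rfl)) i
        simp [hy', hy, this]
      have hy'0 : ∀ u, u ∉ V₁ → y' u = 0 := by
        intro u hu
        rw [← hy'p]
        funext i
        exact hD u hu i
      have hznot : ∀ w, w ≠ v → D (ν ⬝ᵥ y w) = 0 := by
        intro w hwv
        by_cases hw : w ∈ V₁
        · exact hz w hw
        · rw [D_dot, hDν', zero_dotProduct, zero_add]
          show ν ⬝ᵥ y' w = 0
          rw [hy'0 w hw, dotProduct_zero]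
      set S' := S.map D with hS'
      have hS'symm : S'.IsSymm := map_isSymm D hS
      have hS'u : S' *ᵥ y u₀ = 0 := by
        have h1 : (fun i => D ((S *ᵥ y u₀) i)) = 0 := by
          funext i
          have := congrFun hSu i
          show D ((S *ᵥ (p u₀ - p v)) i) = 0
          rw [this]
          simp
        rw [D_mulVec] at h1
        have h2 : (fun i => D (y u₀ i)) = 0 :=
          hy'0 u₀ (fun h => (hmemV₁ u₀).mp h (Or.inr (Or.inl rfl)))
        rw [h2, Matrix.mulVec_zero, add_zero] at h1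
        exact h1
      have hxu : x u₀ = 1 := by
        have h1 := hE₁ u₀ (Or.inl hu₀)
        rw [hSu, hνu, dotProduct_zero] at h1
        linarith
      -- relation (a)
      have ha : ∀ w, w ≠ v → (ν ⬝ᵥ y w) * D (x w) =
          y w ⬝ᵥ S *ᵥ y' w + (1 / 2) * (y w ⬝ᵥ S' *ᵥ y w) := by
        intro w hwv
        by_cases hw : w ∈ V₁
        · have h1 := hφ w hw
          rw [map_sub, D_quad D hS, Derivation.leibniz, Derivation.leibniz, hz w hw] at h1
          simp only [smul_eq_mul, mul_zero] at h1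
          have h2 : D (2 : ℝ) = 0 := by
            have := D.map_natCast 2
            simpa using this
          rw [h2] at h1
          have h3 : (fun i => D (y w i)) = y' w := rfl
          rw [h3] at h1
          linarith
        · have hw' : w = u₀ ∨ w ∈ C := by
            by_contra hcon
            apply hw
            rw [hmemV₁]
            rintro (h | h | h)
            · exact hwv h
            · exact hcon (Or.inl h)
            · exact hcon (Or.inr h)
          rw [hy'0 w hw, Matrix.mulVec_zero, dotProduct_zero]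
          rcases hw' with rfl | hwC
          · rw [hS'u, dotProduct_zero, hxu]
            simp
          · have h1 := congrArg D (hSC w hwC)
            rw [D_quad D hS] at h1
            have h3 : (fun i => D (y w i)) = y' w := rfl
            rw [h3, hy'0 w hw, Matrix.mulVec_zero, dotProduct_zero] at h1
            have h2 : ν ⬝ᵥ y w = 0 := hνC w hwC
            rw [h2]
            simp only [mul_zero, add_zero, map_zero] at h1
            rw [h1]
            simp
      -- the motion
      set μ : V → Fin d → ℝ := fun w => if w = v then 0 else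
        D (x w) • ν - S *ᵥ y' w - (1 / 2 : ℝ) • (S' *ᵥ y w) with hμ
      have hμv : μ v = 0 := by simp [hμ]
      have hμw : ∀ w, w ≠ v → μ w = D (x w) • ν - S *ᵥ y' w - (1 / 2 : ℝ) • (S' *ᵥ y w) := by
        intro w hw
        simp [hμ, hw]
      have hyv : y v = 0 := by simp [hy]
      have hydiff : ∀ u w, p u - p w = y u - y w := by
        intro u w
        simp [hy]
      have hdiag : ∀ w, w ≠ v → y w ⬝ᵥ μ w = 0 := by
        intro w hw
        rw [hμw w hw, dotProduct_sub, dotProduct_sub, dotProduct_smul, dotProduct_smul]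
        have := ha w hw
        rw [dotProduct_comm ν] at this
        simp only [smul_eq_mul]
        linarith
      have hmot : IsMotion H p μ := by
        intro u w huw
        rw [hydiff]
        by_cases hu : u = v
        · subst hu
          have hw : w ≠ u := huw.ne'
          rw [hμv, hyv, zero_sub, zero_sub, neg_dotProduct, dotProduct_neg, neg_neg]
          exact hdiag w hw
        · by_cases hw : w = v
          · subst hw
            rw [hμv, hyv, sub_zero, sub_zero]
            exact hdiag u hu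
          · have h1 := congrArg D (hE u w hu hw huw)
            rw [hydiff, D_quad D hS] at h1
            have h2 : D (2 : ℝ) = 0 := by
              have := D.map_natCast 2
              simpa using this
            have h3 : D (ν ⬝ᵥ (y u - y w)) = 0 := by
              rw [dotProduct_sub, map_sub, hznot u hu, hznot w hw, sub_zero]
            have h4 : (fun i => D ((y u - y w) i)) = y' u - y' w := by
              funext i
              simp [hy']
            rw [Derivation.leibniz, Derivation.leibniz, h2, h3, h4] at h1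
            simp only [smul_eq_mul, mul_zero, add_zero, map_sub] at h1
            rw [hμw u hu, hμw w hw]
            have h5 : D (x u) • ν - S *ᵥ y' u - (1 / 2 : ℝ) • S' *ᵥ y u -
                (D (x w) • ν - S *ᵥ y' w - (1 / 2 : ℝ) • S' *ᵥ y w) =
                (D (x u) - D (x w)) • ν - S *ᵥ (y' u - y' w) -
                  (1 / 2 : ℝ) • (S' *ᵥ (y u - y w)) := by
              rw [Matrix.mulVec_sub S (y' u) (y' w), Matrix.mulVec_sub S' (y u) (y w), sub_smul,
                smul_sub]
              abel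
            rw [h5, dotProduct_sub, dotProduct_sub, dotProduct_smul, dotProduct_smul,
              dotProduct_comm _ ν]
            simp only [smul_eq_mul]
            linarith
      have hall := hInf μ hmot
      have hpair : ∀ u w, u ≠ v → w ≠ v → y u ⬝ᵥ μ w + y w ⬝ᵥ μ u = 0 := by
        intro u w hu hw
        have h1 := hall u w
        rw [hydiff] at h1
        simp only [sub_dotProduct, dotProduct_sub] at h1
        have h2 := hdiag u hu
        have h3 := hdiag w hw
        linarith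
      have hneV : ∀ c ∈ C, c ≠ v := fun c hc h => hvC (h ▸ hc)
      have hnotV₁C : ∀ c ∈ C, c ∉ V₁ := fun c hc h => (hmemV₁ c).mp h (Or.inr (Or.inr hc))
      have hμu₀ : μ u₀ = 0 := by
        rw [hμw u₀ hu₀v, hS'u, hy'0 u₀ (fun h => (hmemV₁ u₀).mp h (Or.inr (Or.inl rfl))), hxu]
        simp
      have hμc' : ∀ c ∈ C, μ c = D (x c) • ν - (1 / 2 : ℝ) • (S' *ᵥ y c) := by
        intro c hc
        rw [hμw c (hneV c hc), hy'0 c (hnotV₁C c hc)]
        simp
      have hxc : ∀ c ∈ C, D (x c) = 0 := by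
        intro c hc
        have h1 := hpair c u₀ (hneV c hc) hu₀v
        rw [hμu₀, dotProduct_zero, zero_add, hμc' c hc, dotProduct_sub, dotProduct_smul,
          dotProduct_smul, dotProduct_comm _ ν, symm_dot hS'symm, hS'u, dotProduct_zero] at h1
        have h2 : ν ⬝ᵥ y u₀ = 1 := hνu
        rw [h2] at h1
        simpa using h1
      have hμc : ∀ c ∈ C, μ c = - ((1 / 2 : ℝ) • (S' *ᵥ y c)) := by
        intro c hc
        rw [hμc' c hc, hxc c hc]
        simp
      have hS'c : ∀ c ∈ C, S' *ᵥ y c = 0 := by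
        intro c hc
        apply horth u₀ hu₀v hu₀C
        · rw [dotProduct_comm]
          show y u₀ ⬝ᵥ S' *ᵥ y c = 0
          rw [symm_dot hS'symm, hS'u, dotProduct_zero]
        · intro e he
          rw [dotProduct_comm]
          show y e ⬝ᵥ S' *ᵥ y c = 0
          have h1 := hpair e c (hneV e he) (hneV c hc)
          rw [hμc c hc, hμc e he, dotProduct_neg, dotProduct_neg, dotProduct_smul,
            dotProduct_smul, symm_dot hS'symm (y c) (y e)] at h1
          simp only [smul_eq_mul] at h1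
          linarith
      have hS'0 : ∀ f, S' *ᵥ f = 0 := by
        intro f
        apply horth u₀ hu₀v hu₀C
        · rw [dotProduct_comm]
          show y u₀ ⬝ᵥ S' *ᵥ f = 0
          rw [symm_dot hS'symm, hS'u, dotProduct_zero]
        · intro e he
          rw [dotProduct_comm]
          show y e ⬝ᵥ S' *ᵥ f = 0
          rw [symm_dot hS'symm, hS'c e he, dotProduct_zero]
      intro w hw
      have hwv : w ≠ v := fun h => (hmemV₁ w).mp hw (Or.inl h)
      have hμw' : μ w = D (x w) • ν - S *ᵥ y' w := by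
        rw [hμw w hwv, hS'0]
        simp
      have hxw : D (x w) = 0 := by
        have h1 := hpair w u₀ hwv hu₀v
        rw [hμu₀, dotProduct_zero, zero_add, hμw', dotProduct_sub, dotProduct_smul,
          dotProduct_comm _ ν, symm_dot hS] at h1
        have h2 : ν ⬝ᵥ y u₀ = 1 := hνu
        have h3 : S *ᵥ y u₀ = 0 := hSu
        rw [h2, h3, dotProduct_zero] at h1
        simpa using h1
      have hyw : S *ᵥ y' w = 0 := by
        apply horth u₀ hu₀v hu₀C
        · rw [dotProduct_comm]
          show y u₀ ⬝ᵥ S *ᵥ y' w = 0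
          have h3 : S *ᵥ y u₀ = 0 := hSu
          rw [symm_dot hS, h3, dotProduct_zero]
        · intro e he
          rw [dotProduct_comm]
          show y e ⬝ᵥ S *ᵥ y' w = 0
          have h1 := hpair w e hwv (hneV e he)
          rw [hμc e he, hS'c e he, hμw', hxw] at h1
          simpa using h1
      rw [hy'p]
      refine ⟨hyw, ?_⟩
      have h1 := hz w hw
      rw [D_dot, hDν', zero_dotProduct, zero_add] at h1
      exact h1
    -- dimension count
    set σ := y c ⬝ᵥ S *ᵥ y c' with hσdef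
    have hσ' : y c' ⬝ᵥ S *ᵥ y c = σ := by rw [hσdef, symm_dot hS]
    set vec : Fin 3 → Fin d → ℝ := ![y c', y c, y u₀] with hvec
    have hDex : ∀ j : V₁ × Fin 3, ∃ D : Derivation ℚ ℝ ℝ,
        ∀ u i, D (p u i) = if u = j.1 then vec j.2 i else 0 := by
      intro j
      obtain ⟨D, hD⟩ := hp.exists_deriv (fun u i => if u = j.1 then vec j.2 i else 0)
      exact ⟨D, hD⟩
    choose Dj hDj using hDex
    let Φ : (V₁ × Fin 3 → ℝ) →ₗ[ℝ] Derivation ℚ ℝ ℝ :=
      { toFun := fun t => ∑ j, t j • Dj j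
        map_add' := by
          intro s t
          simp only [Pi.add_apply, add_smul, Finset.sum_add_distrib]
        map_smul' := by
          intro r t
          simp only [Pi.smul_apply, smul_eq_mul, mul_smul, Finset.smul_sum, RingHom.id_apply] }
    let Ψ : Derivation ℚ ℝ ℝ →ₗ[ℝ] (V₁ × Fin 2 → ℝ) :=
      { toFun := fun D j => if j.2 = 0 then D (ν ⬝ᵥ y j.1) else
          D (2 * (ν ⬝ᵥ y j.1) * x j.1 - y j.1 ⬝ᵥ S *ᵥ y j.1)
        map_add' := by
          intro D D'
          funext j
          by_cases h : j.2 = 0 <;> simp [h]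
        map_smul' := by
          intro r D
          funext j
          by_cases h : j.2 = 0 <;> simp [h] }
    have hlt : Module.finrank ℝ (V₁ × Fin 2 → ℝ) < Module.finrank ℝ (V₁ × Fin 3 → ℝ) := by
      rw [Module.finrank_fintype_fun_eq_card, Module.finrank_fintype_fun_eq_card]
      simp only [Fintype.card_prod, Fintype.card_coe, Fintype.card_fin]
      have := hV₁ne.card_pos
      omega
    have hker : LinearMap.ker (Ψ ∘ₗ Φ) ≠ ⊥ := LinearMap.ker_ne_bot_of_finrank_lt hlt
    obtain ⟨t, ht, ht0⟩ := Submodule.exists_mem_ne_zero_of_ne_bot hker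
    rw [LinearMap.mem_ker] at ht
    set D : Derivation ℚ ℝ ℝ := Φ t with hDdef
    have hDp : ∀ u i, D (p u i) = ∑ j : V₁ × Fin 3, t j * (if u = j.1 then vec j.2 i else 0) := by
      intro u i
      show (∑ j, t j • Dj j : Derivation ℚ ℝ ℝ) (p u i) = _
      have : ∀ (s : Finset (V₁ × Fin 3)), (∑ j ∈ s, t j • Dj j : Derivation ℚ ℝ ℝ) (p u i) =
          ∑ j ∈ s, t j * (if u = j.1 then vec j.2 i else 0) := by
        intro s
        induction s using Finset.induction_on with
        | empty => simp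
        | insert a s ha ih =>
          rw [Finset.sum_insert ha, Finset.sum_insert ha, Derivation.add_apply, ih,
            Derivation.smul_apply, hDj, smul_eq_mul]
      exact this _
    have hDnot : ∀ u, u ∉ V₁ → ∀ i, D (p u i) = 0 := by
      intro u hu i
      rw [hDp]
      apply Finset.sum_eq_zero
      intro j _
      rw [if_neg (fun h : u = j.1 => hu (h ▸ j.1.2)), mul_zero]
    have hDw : ∀ (w : V) (hw : w ∈ V₁), (fun i => D (p w i)) =
        t (⟨w, hw⟩, 0) • y c' + t (⟨w, hw⟩, 1) • y c + t (⟨w, hw⟩, 2) • y u₀ := by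
      intro w hw
      funext i
      rw [hDp, Fintype.sum_prod_type]
      rw [Finset.sum_eq_single (⟨w, hw⟩ : V₁)]
      · simp only [if_true, Fin.sum_univ_three, hvec, Matrix.cons_val_zero, Matrix.cons_val_one,
          Matrix.cons_val_two, Matrix.head_cons, Matrix.tail_cons, Pi.add_apply, Pi.smul_apply,
          smul_eq_mul]
      · intro b _ hb
        apply Finset.sum_eq_zero
        intro k _
        have : w ≠ (b : V) := fun h => hb (Subtype.ext h.symm)
        simp [this]
      · intro h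
        exact absurd (Finset.mem_univ _) h
    have hcl := main D hDnot
      (by
        intro w hw
        have := congrFun ht (⟨w, hw⟩, 0)
        simpa [Ψ] using this)
      (by
        intro w hw
        have h1 := congrFun ht (⟨w, hw⟩, 1)
        have h2 : Ψ D (⟨w, hw⟩, 1) = D (2 * (ν ⬝ᵥ y w) * x w - y w ⬝ᵥ S *ᵥ y w) := by
          show (if (1 : Fin 2) = 0 then D (ν ⬝ᵥ y w) else
            D (2 * (ν ⬝ᵥ y w) * x w - y w ⬝ᵥ S *ᵥ y w)) = _
          rw [if_neg (by decide)]
        rw [← h2]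
        exact h1)
    apply ht0
    funext j
    obtain ⟨⟨w, hw⟩, k⟩ := j
    obtain ⟨h1, h2⟩ := hcl w hw
    rw [hDw w hw] at h1 h2
    have hSuy : S *ᵥ y u₀ = 0 := hSu
    have e0 : t (⟨w, hw⟩, 0) = 0 := by
      have := congrArg (fun f => y c ⬝ᵥ f) h1
      simp only [Matrix.mulVec_add, Matrix.mulVec_smul, hSuy, dotProduct_add, dotProduct_smul,
        hSC c hc, dotProduct_zero, smul_eq_mul, mul_zero, add_zero] at this
      rcases mul_eq_zero.mp this with h | h
      · exact h
      · exact absurd h hσ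
    have e1 : t (⟨w, hw⟩, 1) = 0 := by
      have := congrArg (fun f => y c' ⬝ᵥ f) h1
      simp only [Matrix.mulVec_add, Matrix.mulVec_smul, hSuy, dotProduct_add, dotProduct_smul,
        hSC c' hc', dotProduct_zero, smul_eq_mul, mul_zero, add_zero, zero_add] at this
      rw [hσ'] at this
      rcases mul_eq_zero.mp this with h | h
      · exact h
      · exact absurd h hσ
    have e2 : t (⟨w, hw⟩, 2) = 0 := by
      rw [e0, e1] at h2
      have h3 : ν ⬝ᵥ y u₀ = 1 := hνu
      simp only [zero_smul, zero_add, dotProduct_smul, h3, smul_eq_mul, mul_one] at h2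
      exact h2
    fin_cases k
    · exact e0
    · exact e1
    · exact e2

omit [Fintype V] [DecidableEq V] in
theorem vecMulVec_quad (a b y : Fin d → ℝ) :
    y ⬝ᵥ (Matrix.vecMulVec a b) *ᵥ y = (a ⬝ᵥ y) * (b ⬝ᵥ y) := by
  have h : (Matrix.vecMulVec a b) *ᵥ y = (b ⬝ᵥ y) • a := by
    funext i
    simp only [Matrix.mulVec, Matrix.vecMulVec_apply, dotProduct, Pi.smul_apply, smul_eq_mul,
      Finset.sum_mul]
    exact Finset.sum_congr rfl (fun j _ => by ring)
  rw [h, dotProduct_smul, dotProduct_comm y a, smul_eq_mul]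
  ring

/-- The exceptional equation (E) has no solution. -/
theorem no_E {H : SimpleGraph V} {p : V → Fin d → ℝ}
    (hp : Generic p) (hInf : InfRigid H p) {v : V} {A₁ C A₂ : Finset V}
    (hnbr : ∀ u, H.Adj v u ↔ u ∈ A₁ ∨ u ∈ C ∨ u ∈ A₂)
    (hd₁ : ∀ u ∈ A₁, u ∉ C) (hd₂ : ∀ u ∈ A₂, u ∉ C) (hd₃ : ∀ u ∈ A₁, u ∉ A₂)
    (hcard : C.card + 1 = d) (hA₁ : A₁.Nonempty) (hA₂ : A₂.Nonempty)
    (hconn : ConnOff H (insert v (C : Set V)))
    {ν : Fin d → ℝ} (hν : ν ≠ 0) (hνC : ∀ c ∈ C, ν ⬝ᵥ (p v - p c) = 0)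
    {S : Matrix (Fin d) (Fin d) ℝ} (hS : S.IsSymm)
    {x : V → ℝ} {x₁ x₂ : ℝ} (hx : x₁ - x₂ = 1)
    (hE : ∀ u w, u ≠ v → w ≠ v → H.Adj u w →
      2 * (ν ⬝ᵥ (p u - p w)) * (x u - x w) = (p u - p w) ⬝ᵥ S *ᵥ (p u - p w))
    (hE₁ : ∀ a, a ∈ A₁ ∨ a ∈ C →
      2 * (ν ⬝ᵥ (p v - p a)) * (x₁ - x a) = (p v - p a) ⬝ᵥ S *ᵥ (p v - p a))
    (hE₂ : ∀ a, a ∈ A₂ ∨ a ∈ C →
      2 * (ν ⬝ᵥ (p v - p a)) * (x₂ - x a) = (p v - p a) ⬝ᵥ S *ᵥ (p v - p a)) : False := by
  classical
  obtain ⟨u₀, hu₀⟩ := hA₁
  have hvC : v ∉ C := fun h => H.irrefl ((hnbr v).mpr (Or.inr (Or.inl h)))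
  have hvA₁ : v ∉ A₁ := fun h => H.irrefl ((hnbr v).mpr (Or.inl h))
  have hu₀v : u₀ ≠ v := fun h => hvA₁ (h ▸ hu₀)
  have hu₀C : u₀ ∉ C := hd₁ u₀ hu₀
  set y : Fin d → ℝ := p u₀ - p v with hy
  set α : ℝ := ν ⬝ᵥ y with hα
  have hα0 : α ≠ 0 := by
    intro h0
    apply hν
    refine (hp.affine_zero (X := insert v (insert u₀ C)) ?_ (b := ν) (β := - (ν ⬝ᵥ p v)) ?_).1
    · rw [Finset.card_insert_of_notMem, Finset.card_insert_of_notMem hu₀C]
      · omega
      · simp only [Finset.mem_insert, not_or]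
        exact ⟨hu₀v.symm, hvC⟩
    · intro u hu
      rw [Finset.mem_insert, Finset.mem_insert] at hu
      rcases hu with rfl | rfl | hu
      · ring
      · rw [hα, hy, dotProduct_sub] at h0
        linarith
      · have := hνC u hu
        rw [dotProduct_sub] at this
        linarith
  set ν' : Fin d → ℝ := α⁻¹ • ν with hν'
  set S₁ : Matrix (Fin d) (Fin d) ℝ := α⁻¹ • S with hS₁
  have hS₁symm : S₁.IsSymm := by
    unfold Matrix.IsSymm
    rw [hS₁, Matrix.transpose_smul, hS.eq]
  have hν'y : ν' ⬝ᵥ y = 1 := by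
    rw [hν', smul_dotProduct, smul_eq_mul]
    exact inv_mul_cancel₀ hα0
  set b : Fin d → ℝ := - (S₁ *ᵥ y) + ((1 / 2 : ℝ) * (y ⬝ᵥ S₁ *ᵥ y)) • ν' with hb
  have hby : b ⬝ᵥ y = - ((1 / 2 : ℝ) * (y ⬝ᵥ S₁ *ᵥ y)) := by
    rw [hb, add_dotProduct, neg_dotProduct, smul_dotProduct, hν'y, dotProduct_comm]
    simp only [smul_eq_mul]
    ring
  set S' : Matrix (Fin d) (Fin d) ℝ := S₁ + (Matrix.vecMulVec ν' b + Matrix.vecMulVec b ν') with hS'
  have hS'symm : S'.IsSymm := by
    unfold Matrix.IsSymm
    rw [hS', Matrix.transpose_add, Matrix.transpose_add, hS₁symm.eq, Matrix.transpose_vecMulVec,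
      Matrix.transpose_vecMulVec, add_comm (Matrix.vecMulVec b ν')]
  have hS'quad : ∀ z : Fin d → ℝ, z ⬝ᵥ S' *ᵥ z = α⁻¹ * (z ⬝ᵥ S *ᵥ z) +
      2 * (ν' ⬝ᵥ z) * (b ⬝ᵥ z) := by
    intro z
    rw [hS', Matrix.add_mulVec, Matrix.add_mulVec, dotProduct_add, dotProduct_add,
      vecMulVec_quad, vecMulVec_quad, hS₁, Matrix.smul_mulVec, dotProduct_smul, smul_eq_mul]
    ring
  have hS'y : S' *ᵥ y = 0 := by
    have h1 : (Matrix.vecMulVec ν' b) *ᵥ y = (b ⬝ᵥ y) • ν' := by
      funext i
      simp only [Matrix.mulVec, Matrix.vecMulVec_apply, dotProduct, Pi.smul_apply, smul_eq_mul,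
        Finset.sum_mul]
      exact Finset.sum_congr rfl (fun j _ => by ring)
    have h2 : (Matrix.vecMulVec b ν') *ᵥ y = (ν' ⬝ᵥ y) • b := by
      funext i
      simp only [Matrix.mulVec, Matrix.vecMulVec_apply, dotProduct, Pi.smul_apply, smul_eq_mul,
        Finset.sum_mul]
      exact Finset.sum_congr rfl (fun j _ => by ring)
    rw [hS', Matrix.add_mulVec, Matrix.add_mulVec, h1, h2, hby, hν'y, one_smul, hb]
    funext i
    simp only [Pi.add_apply, Pi.smul_apply, Pi.neg_apply, smul_eq_mul, Pi.zero_apply]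
    ring
  refine no_E_norm hp hInf hnbr hd₁ hd₂ hd₃ hcard hu₀ hA₂ hconn (ν := ν') hν'y ?_ hS'symm hS'y
    (x := fun u => x u + b ⬝ᵥ (p u - p v) - x₂) ?_ ?_ ?_
  · intro c hc
    rw [hν', smul_dotProduct]
    have := hνC c hc
    rw [dotProduct_sub] at this
    rw [dotProduct_sub, smul_eq_mul]
    have h2 : ν ⬝ᵥ p c - ν ⬝ᵥ p v = 0 := by linarith
    rw [h2, mul_zero]
  · intro u w hu hw huw
    rw [hS'quad, ← hE u w hu hw huw, hν', smul_dotProduct, smul_eq_mul]
    have h1 : b ⬝ᵥ (p u - p w) = b ⬝ᵥ (p u - p v) - b ⬝ᵥ (p w - p v) := by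
      rw [← dotProduct_sub]
      congr 1
      abel
    rw [h1]
    ring
  · intro a ha
    have h0 : p a - p v = - (p v - p a) := by abel
    rw [hS'quad, h0]
    simp only [dotProduct_neg, neg_dotProduct, Matrix.mulVec_neg, neg_neg]
    rw [← hE₁ a ha, hν', smul_dotProduct, smul_eq_mul]
    have h1 : x₂ = x₁ - 1 := by linarith
    rw [h1]
    ring
  · intro a ha
    have h0 : p a - p v = - (p v - p a) := by abel
    rw [hS'quad, h0]
    simp only [dotProduct_neg, neg_dotProduct, Matrix.mulVec_neg, neg_neg]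
    rw [← hE₂ a ha, hν', smul_dotProduct, smul_eq_mul]
    ring

end Pool.Agent.Lib.P6a51b6
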