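import Pool.Agent.Lib.P6a51b6.Fold

/-!
# Points of the slice with different parameters are not congruent
-/

set_option autoImplicit false

namespace Pool.Agent.Lib.P6a51b6

open scoped Matrix

variable {V : Type*} [Fintype V] [DecidableEq V] {d : ℕ}
variable {G : SimpleGraph V} {p : V → Fin d → ℝ} {w : V → V → ℝ} {X₀ X₁ : Finset V}
  {P : V → V → ℝ}

/-- rows of the parameter matrix -/
def rowM {X₁ : Finset V} (M : SIdx d X₁ → ℝ) (k : Fin d) : (Fin d ⊕ X₁) → ℝ :=
  Sum.elim (fun j => toA M k j) (fun x => toB M k x)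

/-- values of functionals on the kernel can be prescribed -/
theorem Frame.exists_functional (F : Frame G p w X₀ X₁ P) (ξ : (Fin d ⊕ X₁) → ℝ) :
    ∃ c : V → ℝ, ∑ u, c u = 0 ∧ (∀ j, ∑ u, c u * p u j = ξ (Sum.inl j)) ∧
      ∀ x : X₁, ∑ u, c u * P x u = ξ (Sum.inr x) := by
  classical
  let L : (V → ℝ) →ₗ[ℝ] (Option (Fin d ⊕ X₁) → ℝ) :=
    { toFun := fun c o => o.elim (∑ u, c u)
        (Sum.elim (fun j => ∑ u, c u * p u j) (fun x => ∑ u, c u * P x u))
      map_add' := by
        intro c c'
        funext o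
        rcases o with _ | j | x <;> simp [add_mul, Finset.sum_add_distrib]
      map_smul' := by
        intro r c
        funext o
        rcases o with _ | j | x <;> simp [mul_assoc, Finset.mul_sum] }
  have hsurj : ∀ y, y ∈ LinearMap.range L := by
    intro y
    by_contra hy
    obtain ⟨z, hz1, hz2⟩ := exists_sep hy
    apply hz2
    have h1 : ∀ u, (fun j => z (some (Sum.inl j))) ⬝ᵥ p u + z none +
        ∑ x ∈ X₁, (if h : x ∈ X₁ then z (some (Sum.inr ⟨x, h⟩)) else 0) * P x u = 0 := by
      intro u
      have h2 := hz1 (L (Pi.single u 1)) ⟨_, rfl⟩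
      simp only [dotProduct, Fintype.sum_option, Fintype.sum_sum_type, L, LinearMap.coe_mk,
        AddHom.coe_mk, Option.elim_none, Option.elim_some, Sum.elim_inl, Sum.elim_inr] at h2
      have h3 : ∀ f : V → ℝ, ∑ u', (Pi.single u (1 : ℝ) : V → ℝ) u' * f u' = f u := by
        intro f
        rw [Finset.sum_eq_single u]
        · simp
        · intro u' _ hu'
          simp [hu']
        · intro h; exact absurd (Finset.mem_univ _) h
      have h4 : ∑ u', (Pi.single u (1 : ℝ) : V → ℝ) u' = 1 := by
        have := h3 (fun _ => 1)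
        simpa using this
      simp only [h3, h4] at h2
      have h5 : ∑ x ∈ X₁, (if h : x ∈ X₁ then z (some (Sum.inr ⟨x, h⟩)) else 0) * P x u =
          ∑ x : X₁, z (some (Sum.inr x)) * P x u := by
        rw [← Finset.sum_coe_sort X₁]
        exact Finset.sum_congr rfl fun x _ => by simp
      rw [h5]
      simp only [dotProduct]
      linarith
    obtain ⟨h2, h3, h4⟩ := F.uniq h1
    have hz0 : z = 0 := by
      funext o
      rcases o with _ | j | x
      · exact h3
      · exact congrFun h2 j
      · have := h4 x x.2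
        simpa using this
    rw [hz0, zero_dotProduct]
  obtain ⟨c, hc⟩ := hsurj (fun o => o.elim 0 ξ)
  refine ⟨c, congrFun hc none, fun j => congrFun hc (some (Sum.inl j)),
    fun x => congrFun hc (some (Sum.inr x))⟩

theorem sum_sq_identity (c x : V → ℝ) (hc : ∑ u, c u = 0) :
    ∑ u, ∑ v, c u * c v * ((x u - x v) * (x u - x v)) = -2 * ((∑ u, c u * x u) * (∑ u, c u * x u)) := by
  have h1 : ∀ u v, c u * c v * ((x u - x v) * (x u - x v)) =
      (c u * x u * x u) * c v + c u * (c v * x v * x v) - 2 * ((c u * x u) * (c v * x v)) := by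
    intro u v; ring
  simp only [h1, Finset.sum_sub_distrib, Finset.sum_add_distrib, ← Finset.mul_sum,
    ← Finset.sum_mul, hc]
  ring

theorem Frame.gram_eq (F : Frame G p w X₀ X₁ P) {A B : SIdx d X₁ → ℝ}
    (h : CongrFw (qM p X₁ P A) (qM p X₁ P B)) (a b : Fin d ⊕ X₁) :
    ∑ k, rowM A k a * rowM A k b = ∑ k, rowM B k a * rowM B k b := by
  classical
  -- the value of a functional
  have hval : ∀ (M : SIdx d X₁ → ℝ) (c : V → ℝ) (ξ : (Fin d ⊕ X₁) → ℝ),
      (∀ j, ∑ u, c u * p u j = ξ (Sum.inl j)) → (∀ x : X₁, ∑ u, c u * P x u = ξ (Sum.inr x)) →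
      ∀ k, ∑ u, c u * qM p X₁ P M u k = ∑ o, rowM M k o * ξ o := by
    intro M c ξ h1 h2 k
    rw [qM_eq, Fintype.sum_sum_type]
    simp only [qAB, mul_add, Finset.sum_add_distrib, rowM, Sum.elim_inl, Sum.elim_inr, ← h1, ← h2]
    congr 1
    · simp only [Matrix.mulVec, dotProduct, Finset.mul_sum]
      rw [Finset.sum_comm]
      exact Finset.sum_congr rfl fun j _ => Finset.sum_congr rfl fun u _ => by ring
    · simp only [Finset.mul_sum]
      rw [Finset.sum_comm, ← Finset.sum_coe_sort X₁]
      exact Finset.sum_congr rfl fun x _ => Finset.sum_congr rfl fun u _ => by ring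
  have hsq : ∀ ξ : (Fin d ⊕ X₁) → ℝ, ∑ k, (∑ o, rowM A k o * ξ o) * (∑ o, rowM A k o * ξ o) =
      ∑ k, (∑ o, rowM B k o * ξ o) * (∑ o, rowM B k o * ξ o) := by
    intro ξ
    obtain ⟨c, hc0, hc1, hc2⟩ := F.exists_functional ξ
    have key : ∀ M : SIdx d X₁ → ℝ, ∑ u, ∑ v, c u * c v * sq (qM p X₁ P M u - qM p X₁ P M v) =
        -2 * ∑ k, (∑ o, rowM M k o * ξ o) * (∑ o, rowM M k o * ξ o) := by
      intro M
      have e1 : ∑ u, ∑ v, c u * c v * sq (qM p X₁ P M u - qM p X₁ P M v) =
          ∑ k, ∑ u, ∑ v, c u * c v * ((qM p X₁ P M u k - qM p X₁ P M v k) *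
            (qM p X₁ P M u k - qM p X₁ P M v k)) := by
        rw [Finset.sum_comm (s := (Finset.univ : Finset (Fin d)))]
        refine Finset.sum_congr rfl fun u _ => ?_
        rw [Finset.sum_comm (s := (Finset.univ : Finset (Fin d)))]
        refine Finset.sum_congr rfl fun v _ => ?_
        simp only [sq, dotProduct, Pi.sub_apply, Finset.mul_sum]
      rw [e1, Finset.mul_sum]
      refine Finset.sum_congr rfl fun k _ => ?_
      rw [sum_sq_identity c _ hc0, hval M c ξ hc1 hc2 k]
    have h1 := key A
    have h2 := key B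
    have h3 : ∑ u, ∑ v, c u * c v * sq (qM p X₁ P B u - qM p X₁ P B v) =
        ∑ u, ∑ v, c u * c v * sq (qM p X₁ P A u - qM p X₁ P A v) :=
      Finset.sum_congr rfl fun u _ => Finset.sum_congr rfl fun v _ => by rw [h u v]
    rw [h1, h2] at h3
    linarith
  -- polarise
  have hsingle : ∀ (M : SIdx d X₁ → ℝ) (k : Fin d) (a : Fin d ⊕ X₁) (r : ℝ),
      ∑ o, rowM M k o * (Pi.single a r : (Fin d ⊕ X₁) → ℝ) o = rowM M k a * r := by
    intro M k a r
    rw [Finset.sum_eq_single a]
    · simp
    · intro o _ ho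
      simp [ho]
    · intro h; exact absurd (Finset.mem_univ _) h
  have h1 := hsq (Pi.single a 1)
  have h2 := hsq (Pi.single b 1)
  have h3 := hsq (Pi.single a 1 + Pi.single b 1)
  simp only [Pi.add_apply, mul_add, Finset.sum_add_distrib, hsingle, mul_one, add_mul] at h1 h2 h3
  have h4 : ∀ M : SIdx d X₁ → ℝ, ∑ k, rowM M k b * rowM M k a = ∑ k, rowM M k a * rowM M k b :=
    fun M => Finset.sum_congr rfl fun k _ => mul_comm _ _
  rw [h4 A, h4 B] at h3
  linarith

theorem Frame.noncongr (F : Frame G p w X₀ X₁ P) {A B : SIdx d X₁ → ℝ} (hAB : A ≠ B)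
    (hA : Free (FrameS p w) A) (hr : ∀ r : Fin d, ∃ a, rowOf a = r ∧ 0 < A a * B a) :
    ¬ CongrFw (qM p X₁ P A) (qM p X₁ P B) := by
  classical
  intro h
  have hgram := F.gram_eq h
  have hne : ∀ a, A a ≠ 0 := by
    intro a h0
    obtain ⟨D, -, hD⟩ := hA (fun _ => 1)
    have := hD a
    rw [h0, map_zero] at this
    exact zero_ne_one this
  have hrows : ∀ (n : ℕ) (i : Fin d), (i : ℕ) = n → rowM A i = rowM B i := by
    intro n
    induction n using Nat.strong_induction_on with
    | _ n ih =>
      intro i hi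
      have hf : ∀ b, rowM A i (Sum.inl i) * rowM A i b = rowM B i (Sum.inl i) * rowM B i b := by
        intro b
        have h1 := hgram (Sum.inl i) b
        rw [← sub_eq_zero, ← Finset.sum_sub_distrib, Finset.sum_eq_single i] at h1
        · linarith
        · intro k _ hki
          rcases lt_or_gt_of_ne hki with hlt | hgt
          · rw [ih k (by rw [← hi]; exact hlt) k rfl, sub_self]
          · have e1 : rowM A k (Sum.inl i) = 0 :=
              toA_blockTriangular A (show id i < id k from hgt)
            have e2 : rowM B k (Sum.inl i) = 0 :=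
              toA_blockTriangular B (show id i < id k from hgt)
            rw [e1, e2]
            ring
        · intro h; exact absurd (Finset.mem_univ _) h
      have hii : rowM A i (Sum.inl i) = A (Sum.inl ⟨(i, i), le_refl i⟩) := by
        simp [rowM, toA]
      have haii : rowM A i (Sum.inl i) ≠ 0 := by rw [hii]; exact hne _
      have hsqr : rowM A i (Sum.inl i) * rowM A i (Sum.inl i) =
        rowM B i (Sum.inl i) * rowM B i (Sum.inl i) := hf _
      have hpm := mul_self_eq_mul_self_iff.mp hsqr
      -- the sign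
      obtain ⟨a, hai, hapos⟩ := hr i
      have hrow : ∃ o, rowM A i o = A a ∧ rowM B i o = B a := by
        rcases a with ⟨⟨i', j⟩, hij⟩ | ⟨i', x⟩
        · have hi' : i' = i := hai
          subst hi'
          have hij' : i' ≤ j := hij
          exact ⟨Sum.inl j, by simp [rowM, toA, hij'], by simp [rowM, toA, hij']⟩
        · have hi' : i' = i := hai
          subst hi'
          exact ⟨Sum.inr x, by simp [rowM, toB], by simp [rowM, toB]⟩
      obtain ⟨o, ho1, ho2⟩ := hrow
      have hEq : rowM B i (Sum.inl i) = rowM A i (Sum.inl i) := by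
        rcases hpm with hpm | hpm
        · exact hpm.symm
        · exfalso
          have h1 := hf o
          rw [hpm, ho1, ho2] at h1
          have hb : rowM B i (Sum.inl i) ≠ 0 := by
            intro h0
            rw [h0, neg_zero] at hpm
            exact haii hpm
          have h2 : rowM B i (Sum.inl i) * (A a + B a) = 0 := by linarith
          rcases mul_eq_zero.mp h2 with h3 | h3
          · exact hb h3
          · have h4 : B a = - A a := by linarith
            rw [h4] at hapos
            nlinarith [mul_self_nonneg (A a)]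
      funext b
      have h1 := hf b
      rw [hEq] at h1
      exact mul_left_cancel₀ haii h1
  apply hAB
  rw [← fromAB_toAB A, ← fromAB_toAB B]
  funext a
  rcases a with ⟨⟨i, j⟩, hij⟩ | ⟨i, x⟩
  · exact congrFun (hrows i i rfl) (Sum.inl j)
  · exact congrFun (hrows i i rfl) (Sum.inr x)

end Pool.Agent.Lib.P6a51b6
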