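import Pool.Agent.Lib.P6a51b6.GenLin

/-!
# Ranks of matrices of polynomial functions at free points
-/

set_option autoImplicit false

namespace Pool.Agent.Lib.P6a51b6

open scoped Matrix
open Module

theorem exists_cols {m n : Type*} [Fintype n] (A : Matrix m n ℝ) {r : ℕ}
    (hr : A.rank = r) : ∃ f : Fin r → n, LinearIndependent ℝ (A.submatrix id f).col := by
  rw [A.rank_eq_finrank_span_cols] at hr
  subst hr
  have hfin := Module.Finite.span_of_finite ℝ (Set.finite_range A.col)
  obtain ⟨g, hg1, -, hg2⟩ := Submodule.exists_fun_fin_finrank_span_eq ℝ (Set.range A.col)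
  choose f hf using hg1
  refine ⟨f, ?_⟩
  have : (A.submatrix id f).col = g := by
    funext i
    exact hf i
  rw [this]
  exact hg2

/-- A matrix of rank `r` has a nonzero `r × r` minor. -/
theorem exists_minor {m n : Type*} [Fintype m] [Fintype n] (A : Matrix m n ℝ) {r : ℕ}
    (hr : A.rank = r) :
    ∃ (e : Fin r → m) (f : Fin r → n), (A.submatrix e f).det ≠ 0 := by
  classical
  obtain ⟨f, hf⟩ := exists_cols A hr
  have hBr : (A.submatrix id f).rank = r := by
    rw [← Matrix.rank_transpose]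
    have h1 : LinearIndependent ℝ (A.submatrix id f)ᵀ.row := hf
    rw [h1.rank_matrix]
    simp
  obtain ⟨e, he⟩ := exists_cols (A.submatrix id f)ᵀ (r := r) (by rw [Matrix.rank_transpose, hBr])
  refine ⟨e, f, ?_⟩
  have h2 : LinearIndependent ℝ (A.submatrix e f).row := he
  rw [Matrix.linearIndependent_rows_iff_isUnit, Matrix.isUnit_iff_isUnit_det] at h2
  exact h2.ne_zero

/-- evaluation of polynomial functions -/
noncomputable def PF.ev (S : Set ℝ) (ι : Type*) (x : ι → ℝ) : PF S ι →+* ℝ :=
  (Pi.evalRingHom (fun _ => ℝ) x).comp (PF S ι).subtype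

theorem PF.ev_apply {S : Set ℝ} {ι : Type*} (x : ι → ℝ) (f : PF S ι) :
    PF.ev S ι x f = (f : (ι → ℝ) → ℝ) x := rfl

/-- The rank of a matrix of polynomial functions is maximal at free points. -/
theorem PF.rank_le {S : Set ℝ} {ι : Type*} {m n : Type*} [Fintype m] [Fintype n]
    (A : Matrix m n (PF S ι)) {a : ι → ℝ} (ha : Free S a) (b : ι → ℝ) :
    (A.map (PF.ev S ι b)).rank ≤ (A.map (PF.ev S ι a)).rank := by
  classical
  obtain ⟨e, f, hd⟩ := exists_minor (A.map (PF.ev S ι b)) rfl
  have h1 : ((A.submatrix e f).map (PF.ev S ι b)).det ≠ 0 := hd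
  have h2 : PF.ev S ι b (A.submatrix e f).det ≠ 0 := by
    rw [RingHom.map_det]
    exact h1
  have h3 : PF.ev S ι a (A.submatrix e f).det ≠ 0 := by
    rw [PF.ev_apply] at h2 ⊢
    exact PF.ne_zero (A.submatrix e f).det.2 h2 ha
  rw [RingHom.map_det] at h3
  have h4 : ((A.submatrix e f).map (PF.ev S ι a)).rank = _ := Matrix.rank_of_det_ne_zero h3
  rw [Fintype.card_fin] at h4
  rw [← h4]
  exact Matrix.rank_submatrix_le (A.map (PF.ev S ι a)) e f

theorem cramer_ker {K : Type*} [CommRing K] {r : ℕ} {n : Type*} [Fintype n] [DecidableEq n]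
    (B : Matrix (Fin r) n K) (f : Fin r → n) (C : n → K) :
    B *ᵥ ((B.submatrix id f).det • C - (1 : Matrix n n K).submatrix id f *ᵥ
      ((B.submatrix id f).adjugate *ᵥ (B *ᵥ C))) = 0 := by
  rw [Matrix.mulVec_sub, Matrix.mulVec_smul, Matrix.mulVec_mulVec]
  have h1 : B * (1 : Matrix n n K).submatrix id f = B.submatrix id f := by
    ext i j
    simp [Matrix.mul_apply, Matrix.one_apply]
  rw [h1, Matrix.mulVec_mulVec, Matrix.mul_adjugate, Matrix.smul_mulVec, Matrix.one_mulVec, sub_self]

/-- Polynomial parametrisation of the kernel. -/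
theorem exists_kernel_param {S : Set ℝ} {ι : Type*} {m n : Type*} [Fintype m] [Fintype n]
    (A : Matrix m n (PF S ι)) (b : ι → ℝ) (C : n → PF S ι) :
    ∃ (X : n → PF S ι) (δ : PF S ι), PF.ev S ι b δ ≠ 0 ∧
      (∀ q, (A.map (PF.ev S ι q)).rank ≤ (A.map (PF.ev S ι b)).rank → PF.ev S ι q δ ≠ 0 →
        A.map (PF.ev S ι q) *ᵥ (PF.ev S ι q ∘ X) = 0) ∧
      (∀ q, A.map (PF.ev S ι q) *ᵥ (PF.ev S ι q ∘ C) = 0 →
        PF.ev S ι q ∘ X = PF.ev S ι q δ • (PF.ev S ι q ∘ C)) := by
  classical
  obtain ⟨e, f, hd⟩ := exists_minor (A.map (PF.ev S ι b)) rfl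
  set B := A.submatrix e id with hB
  have hdet : ∀ q, PF.ev S ι q (B.submatrix id f).det = ((A.map (PF.ev S ι q)).submatrix e f).det := by
    intro q
    rw [RingHom.map_det]
    rfl
  refine ⟨(B.submatrix id f).det • C - (1 : Matrix n n (PF S ι)).submatrix id f *ᵥ
      ((B.submatrix id f).adjugate *ᵥ (B *ᵥ C)), (B.submatrix id f).det, ?_, ?_, ?_⟩
  · rw [hdet]
    exact hd
  · intro q hq hδ
    set φ := PF.ev S ι q with hφ
    set X := (B.submatrix id f).det • C - (1 : Matrix n n (PF S ι)).submatrix id f *ᵥ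
      ((B.submatrix id f).adjugate *ᵥ (B *ᵥ C)) with hX
    have h0 : B *ᵥ X = 0 := cramer_ker B f C
    have h1 : (B.map φ) *ᵥ (φ ∘ X) = 0 := by
      funext i
      rw [← RingHom.map_mulVec, h0]
      simp
    have hrB : (A.map φ).rank ≤ (B.map φ).rank := by
      have h4 : ((B.submatrix id f).map φ).rank = _ := Matrix.rank_of_det_ne_zero (by
        rw [hdet] at hδ
        exact hδ)
      rw [Fintype.card_fin] at h4
      exact (hq.trans h4.symm.le).trans (Matrix.rank_submatrix_le (B.map φ) id f)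
    have hker : LinearMap.ker (A.map φ).mulVecLin = LinearMap.ker (B.map φ).mulVecLin := by
      apply Submodule.eq_of_le_of_finrank_le
      · intro x hx
        rw [LinearMap.mem_ker, Matrix.mulVecLin_apply] at hx ⊢
        funext i
        exact congrFun hx (e i)
      · have k1 := LinearMap.finrank_range_add_finrank_ker (A.map φ).mulVecLin
        have k2 := LinearMap.finrank_range_add_finrank_ker (B.map φ).mulVecLin
        have k3 : (A.map φ).rank = finrank ℝ (LinearMap.range (A.map φ).mulVecLin) := rfl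
        have k4 : (B.map φ).rank = finrank ℝ (LinearMap.range (B.map φ).mulVecLin) := rfl
        omega
    have h2 : φ ∘ X ∈ LinearMap.ker (A.map φ).mulVecLin := by
      rw [hker, LinearMap.mem_ker, Matrix.mulVecLin_apply]
      exact h1
    rw [LinearMap.mem_ker, Matrix.mulVecLin_apply] at h2
    exact h2
  · intro q hq
    set φ := PF.ev S ι q with hφ
    have h1 : (B.map φ) *ᵥ (φ ∘ C) = 0 := by
      funext i
      exact congrFun hq (e i)
    have h2 : φ ∘ (B *ᵥ C) = 0 := by
      rw [← h1]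
      funext i
      exact RingHom.map_mulVec φ B C i
    funext j
    simp only [Function.comp_apply, Pi.sub_apply, Pi.smul_apply, smul_eq_mul, map_sub, map_mul]
    rw [RingHom.map_mulVec φ _ _ j]
    have h3 : φ ∘ ((B.submatrix id f).adjugate *ᵥ (B *ᵥ C)) = 0 := by
      funext i
      rw [Function.comp_apply, RingHom.map_mulVec φ _ _ i, h2]
      simp
    rw [h3]
    simp

end Pool.Agent.Lib.P6a51b6
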