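import Pool.Agent.Lib.P6a51b6.NonCongr

/-!
# Generic rotations, rigidity at free points of the slice
-/

set_option autoImplicit false

namespace Pool.Agent.Lib.P6a51b6

open scoped Matrix

section cayley

variable {n : Type*} [Fintype n] [DecidableEq n]

omit [DecidableEq n] in
theorem skew_quad {N : Matrix n n ℝ} (hN : Nᵀ = -N) (x : n → ℝ) : x ⬝ᵥ N *ᵥ x = 0 := by
  have h6 : x ⬝ᵥ N *ᵥ x = - (x ⬝ᵥ N *ᵥ x) := by
    conv_lhs => rw [Matrix.dotProduct_mulVec, ← Matrix.mulVec_transpose, hN,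
      Matrix.neg_mulVec, neg_dotProduct, dotProduct_comm]
  linarith

theorem skew_unit {N : Matrix n n ℝ} (hN : Nᵀ = -N) : IsUnit (1 + N).det := by
  rw [isUnit_iff_ne_zero]
  intro h
  rw [← Matrix.exists_mulVec_eq_zero_iff] at h
  obtain ⟨x, hx0, hx⟩ := h
  apply hx0
  rw [← dotProduct_self_eq_zero]
  have h1 : x ⬝ᵥ ((1 + N) *ᵥ x) = 0 := by rw [hx, dotProduct_zero]
  rw [Matrix.add_mulVec, dotProduct_add, Matrix.one_mulVec, skew_quad hN, add_zero] at h1
  exact h1

/-- Cayley transform -/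
noncomputable def cay (N : Matrix n n ℝ) : Matrix n n ℝ := (1 - N) * (1 + N)⁻¹

theorem cay_comm {N : Matrix n n ℝ} (hN : Nᵀ = -N) :
    (1 - N) * (1 + N)⁻¹ = (1 + N)⁻¹ * (1 - N) := by
  have hu := skew_unit hN
  have h1 : (1 + N) * (1 - N) = (1 - N) * (1 + N) := by noncomm_ring
  calc (1 - N) * (1 + N)⁻¹ = (1 + N)⁻¹ * ((1 + N) * (1 - N)) * (1 + N)⁻¹ := by
        rw [← Matrix.mul_assoc, Matrix.nonsing_inv_mul _ hu, Matrix.one_mul]
    _ = (1 + N)⁻¹ * ((1 - N) * (1 + N)) * (1 + N)⁻¹ := by rw [h1]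
    _ = (1 + N)⁻¹ * (1 - N) := by
        rw [Matrix.mul_assoc, Matrix.mul_assoc (1 - N), Matrix.mul_nonsing_inv _ hu,
          Matrix.mul_one]

theorem cay_mul {N : Matrix n n ℝ} (hN : Nᵀ = -N) : cay N * (1 + N) = 1 - N := by
  rw [cay, Matrix.mul_assoc, Matrix.nonsing_inv_mul _ (skew_unit hN), Matrix.mul_one]

theorem cay_orth {N : Matrix n n ℝ} (hN : Nᵀ = -N) : (cay N)ᵀ * cay N = 1 := by
  have hu := skew_unit hN
  have hN' : (-N)ᵀ = -(-N) := by rw [Matrix.transpose_neg, hN]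
  have hu' := skew_unit hN'
  have e1 : 1 + -N = 1 - N := by rw [sub_eq_add_neg]
  rw [e1] at hu'
  have h1 : (cay N)ᵀ = (1 - N)⁻¹ * (1 + N) := by
    rw [cay, Matrix.transpose_mul, Matrix.transpose_nonsing_inv, Matrix.transpose_add,
      Matrix.transpose_sub, Matrix.transpose_one, hN, sub_neg_eq_add, e1]
  rw [h1, cay, cay_comm hN, Matrix.mul_assoc, ← Matrix.mul_assoc (1 + N), Matrix.mul_nonsing_inv _ hu,
    Matrix.one_mul, Matrix.nonsing_inv_mul _ hu']

omit [DecidableEq n] in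
theorem D_mul (D : Derivation ℚ ℝ ℝ) (A B : Matrix n n ℝ) :
    (A * B).map D = A.map D * B + A * B.map D := by
  ext i j
  simp only [Matrix.map_apply, Matrix.mul_apply, Matrix.add_apply, map_sum, Derivation.leibniz,
    smul_eq_mul]
  rw [← Finset.sum_add_distrib]
  exact Finset.sum_congr rfl fun k _ => by ring

theorem D_one (D : Derivation ℚ ℝ ℝ) : (1 : Matrix n n ℝ).map D = 0 := by
  ext i j
  by_cases h : i = j <;> simp [h]

/-- derivative of the Cayley transform -/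
theorem D_cay {N S₀ : Matrix n n ℝ} (hN : Nᵀ = -N) {D : Derivation ℚ ℝ ℝ}
    (hD : N.map D = (-(1 / 2) : ℝ) • ((1 - N) * S₀ * (1 + N))) : (cay N).map D = cay N * S₀ := by
  have hu := skew_unit hN
  have h1 : (cay N).map D * (1 + N) + cay N * (N.map D) = - N.map D := by
    have h2 := D_mul D (cay N) (1 + N)
    rw [cay_mul hN] at h2
    have e1 : (1 - N).map D = - N.map D := by
      ext i j
      by_cases h : i = j <;> simp [h]
    have e2 : (1 + N).map D = N.map D := by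
      ext i j
      by_cases h : i = j <;> simp [h]
    rw [e1, e2] at h2
    exact h2.symm
  have h3 : (1 + cay N) * (1 - N) = (2 : ℝ) • cay N := by
    have e1 : cay N * (1 - N) = (1 - N) * ((1 - N) * (1 + N)⁻¹) := by
      rw [cay, Matrix.mul_assoc, ← cay_comm hN]
    rw [Matrix.add_mul, Matrix.one_mul, e1]
    have e2 : (1 - N) = (1 - N) * ((1 + N) * (1 + N)⁻¹) := by
      rw [Matrix.mul_nonsing_inv _ hu, Matrix.mul_one]
    nth_rewrite 1 [e2]
    rw [← Matrix.mul_add, ← Matrix.add_mul]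
    have e3 : (1 + N) + (1 - N) = (2 : ℝ) • (1 : Matrix n n ℝ) := by
      rw [two_smul]; abel
    rw [e3, Matrix.smul_mul, Matrix.one_mul, Matrix.mul_smul]
    rfl
  have h4 : (cay N).map D * (1 + N) = (cay N * S₀) * (1 + N) := by
    have h5 : (cay N).map D * (1 + N) = - ((1 + cay N) * (N.map D)) := by
      rw [Matrix.add_mul, Matrix.one_mul, neg_add, ← h1]
      abel
    rw [h5, hD, Matrix.mul_smul, neg_smul, neg_neg, ← Matrix.mul_assoc, ← Matrix.mul_assoc, h3,
      Matrix.smul_mul, Matrix.smul_mul, smul_smul]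
    norm_num
  have h5 := congrArg (fun X => X * (1 + N)⁻¹) h4
  simp only [Matrix.mul_assoc, Matrix.mul_nonsing_inv _ hu, Matrix.mul_one] at h5
  exact h5

end cayley

variable {V : Type*} [Fintype V] [DecidableEq V] {d : ℕ}
variable {G : SimpleGraph V} {p : V → Fin d → ℝ} {w : V → V → ℝ} {X₀ X₁ : Finset V}
  {P : V → V → ℝ}

theorem Free.ne_zero {S : Set ℝ} {ι : Type*} {a : ι → ℝ} (h : Free S a) (i : ι) : a i ≠ 0 := by
  intro h0
  obtain ⟨D, -, hD⟩ := h (fun _ => 1)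
  have := hD i
  rw [h0, map_zero] at this
  exact zero_ne_one this

/-- Splitting off a trivial motion of a nondegenerate point of the slice. -/
theorem slice_split {A : SIdx d X₁ → ℝ} (hA : ∀ a, A a ≠ 0) (A' : Matrix (Fin d) (Fin d) ℝ)
    (B' : Fin d → V → ℝ) : ∃ (S₀ : Matrix (Fin d) (Fin d) ℝ) (M' : SIdx d X₁ → ℝ), S₀ᵀ = -S₀ ∧
      ∀ u, S₀ *ᵥ (qM p X₁ P A u) + qM p X₁ P M' u = qAB p X₁ P A' B' u := by
  obtain ⟨S₀, hS₀, hT⟩ := exists_skew_slice (toA_blockTriangular A) (fun i => by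
    have : toA A i i = A (Sum.inl ⟨(i, i), le_refl i⟩) := by simp [toA]
    rw [this]
    exact hA _) A'
  refine ⟨S₀, fromAB X₁ (A' - S₀ * toA A) (fun k x => B' k x - ∑ l, S₀ k l * toB A l x), hS₀, ?_⟩
  intro u
  rw [qM_fromAB hT, qM_eq]
  funext k
  simp only [Pi.add_apply, qAB, Matrix.sub_mulVec, Pi.sub_apply, sub_mul, Finset.sum_sub_distrib]
  have h1 : (S₀ *ᵥ (fun k => (toA A *ᵥ p u) k + ∑ x ∈ X₁, toB A k x * P x u)) k =
      ((S₀ * toA A) *ᵥ p u) k + ∑ x ∈ X₁, (∑ l, S₀ k l * toB A l x) * P x u := by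
    rw [← Matrix.mulVec_mulVec]
    simp only [Matrix.mulVec, dotProduct, mul_add, Finset.sum_add_distrib]
    congr 1
    simp only [Finset.mul_sum, Finset.sum_mul]
    rw [Finset.sum_comm]
    exact Finset.sum_congr rfl fun x _ => Finset.sum_congr rfl fun l _ => by ring
  have h2 : (S₀ *ᵥ qAB p X₁ P (toA A) (toB A) u) k =
      (S₀ *ᵥ (fun k => (toA A *ᵥ p u) k + ∑ x ∈ X₁, toB A k x * P x u)) k := rfl
  rw [h2, h1]
  ring

/-- A generic rotation and translation: derivations killing the constants act transitively on the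
kernel. -/
theorem Frame.rotate (F : Frame G p w X₀ X₁ P) {A : SIdx d X₁ → ℝ}
    (hA : Free (FrameS p w) A) : ∃ (O : Matrix (Fin d) (Fin d) ℝ) (c₀ : Fin d → ℝ),
      Oᵀ * O = 1 ∧ ∀ κ : V → Fin d → ℝ, InK w κ → ∃ D : Derivation ℚ ℝ ℝ,
        (∀ s ∈ FrameS p w, D s = 0) ∧ ∀ u k, D ((O *ᵥ qM p X₁ P A u + c₀) k) = κ u k := by
  classical
  obtain ⟨θ, -, hθ⟩ := exists_free (S := FrameS p w ∪ Set.range A)
    ((FrameS_countable p w).union (Set.countable_range _)) (ι := (Fin d × Fin d) ⊕ Fin d)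
    (U := Set.univ) isOpen_univ ⟨0, trivial⟩
  have hjoint := hA.sum hθ
  let N : Matrix (Fin d) (Fin d) ℝ := Matrix.of fun i j =>
    if j < i then θ (Sum.inl (i, j)) else if i < j then - θ (Sum.inl (j, i)) else 0
  have hN : Nᵀ = -N := by
    ext i j
    simp only [Matrix.transpose_apply, Matrix.neg_apply, N, Matrix.of_apply]
    rcases lt_trichotomy i j with h | h | h
    · simp [h, not_lt.mpr h.le]
    · subst h; simp
    · simp [h, not_lt.mpr h.le]
  set O := cay N with hO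
  have hOO : Oᵀ * O = 1 := cay_orth hN
  have hOO' : O * Oᵀ = 1 := mul_eq_one_comm.mp hOO
  refine ⟨O, fun i => θ (Sum.inr i), hOO, fun κ hκ => ?_⟩
  -- rotate back
  have hκ' := hκ.mulVec Oᵀ 0
  obtain ⟨A', B', β', hdec⟩ := F.decomp hκ'
  obtain ⟨S₀, M', hS₀, hsplit⟩ := slice_split (p := p) (P := P) (A := A) hA.ne_zero A' B'
  set N' : Matrix (Fin d) (Fin d) ℝ := (-(1 / 2) : ℝ) • ((1 - N) * S₀ * (1 + N)) with hN'
  have hN'skew : N'ᵀ = -N' := by
    rw [hN', Matrix.transpose_smul, Matrix.transpose_mul, Matrix.transpose_mul,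
      Matrix.transpose_add, Matrix.transpose_sub, Matrix.transpose_one, hN, hS₀, sub_neg_eq_add,
      ← sub_eq_add_neg, Matrix.neg_mul, Matrix.mul_neg, smul_neg, Matrix.mul_assoc]
  obtain ⟨D, hDS, hD⟩ := hjoint (Sum.elim M' (Sum.elim (fun x => N' x.1 x.2) (O *ᵥ β')))
  have hDA : ∀ a, D (A a) = M' a := fun a => hD (Sum.inl a)
  have hDθ : ∀ i j, D (θ (Sum.inl (i, j))) = N' i j := fun i j => hD (Sum.inr (Sum.inl (i, j)))
  have hDc : ∀ i, D (θ (Sum.inr i)) = (O *ᵥ β') i := fun i => hD (Sum.inr (Sum.inr i))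
  have hDN : N.map D = N' := by
    ext i j
    have hsk : ∀ a b, N' b a = - N' a b := fun a b => congrFun (congrFun hN'skew a) b
    simp only [Matrix.map_apply, N, Matrix.of_apply]
    rcases lt_trichotomy i j with h | h | h
    · simp only [not_lt.mpr h.le, h, if_true, if_false, map_neg, hDθ]
      rw [hsk i j, neg_neg]
    · subst h
      have := hsk i i
      simp only [lt_irrefl, if_false, map_zero]
      linarith
    · simp only [h, if_true, hDθ]
  have hDO : O.map D = O * S₀ := D_cay hN hDN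
  refine ⟨D, hDS, fun u k => ?_⟩
  have h1 : D ((O *ᵥ qM p X₁ P A u + fun i => θ (Sum.inr i)) k) =
      ((O.map D) *ᵥ qM p X₁ P A u + O *ᵥ (fun i => D (qM p X₁ P A u i))) k + (O *ᵥ β') k := by
    rw [Pi.add_apply, map_add, hDc]
    congr 1
    exact congrFun (D_mulVec D O (qM p X₁ P A u)) k
  rw [h1, hDO]
  have h2 : (fun i => D (qM p X₁ P A u i)) = qM p X₁ P M' u := by
    funext i
    rw [F.D_qM hDS]
    congr 1
    congr 1
    funext a
    exact hDA a
  rw [h2, ← Matrix.mulVec_mulVec, ← Matrix.mulVec_add, ← Pi.add_apply, ← Matrix.mulVec_add, hsplit,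
    ← hdec u, add_zero, Matrix.mulVec_mulVec, hOO', Matrix.one_mulVec]

/-- an element of the kernel vanishing on the coordinate set vanishes -/
theorem Frame.zero_of_coord (F : Frame G p w X₀ X₁ P) {κ : V → Fin d → ℝ} (hκ : InK w κ)
    (h : ∀ u, u ∈ X₀ ∨ u ∈ X₁ → κ u = 0) : κ = 0 := by
  obtain ⟨A, B, β, hdec⟩ := F.decomp hκ
  have h1 : ∀ k, A k = 0 ∧ β k = 0 := by
    intro k
    apply F.gen.affine_zero (X := X₀) (by rw [F.card₀])
    intro u hu
    have h2 := h u (Or.inl hu)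
    rw [hdec u] at h2
    have h3 := congrFun h2 k
    simp only [qAB, Pi.add_apply, Pi.zero_apply] at h3
    rw [Finset.sum_eq_zero (fun x hx => by rw [F.P₀ x hx u hu, mul_zero])] at h3
    simp only [Matrix.mulVec] at h3
    linarith
  have hA : A = 0 := by
    funext k
    exact (h1 k).1
  have hβ : β = 0 := by
    funext k
    exact (h1 k).2
  have hB : ∀ k, ∀ x ∈ X₁, B k x = 0 := by
    intro k y hy
    have h2 := h y (Or.inr hy)
    rw [hdec y] at h2
    have h3 := congrFun h2 k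
    simp only [qAB, Pi.add_apply, Pi.zero_apply, hA, hβ, Matrix.zero_mulVec] at h3
    rw [Finset.sum_eq_single y] at h3
    · rw [F.P₁ y hy y hy] at h3
      simpa using h3
    · intro x hx hxy
      rw [F.P₁ x hx y hy, if_neg hxy, mul_zero]
    · intro h; exact absurd hy h
  funext u k
  rw [hdec u]
  simp only [qAB, Pi.add_apply, hA, hβ, Matrix.zero_mulVec, Pi.zero_apply]
  rw [Finset.sum_eq_zero (fun x hx => by rw [hB k x hx, zero_mul])]
  ring

/-- interpolation in the kernel -/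
theorem Frame.interpK (F : Frame G p w X₀ X₁ P) (m : V → Fin d → ℝ) :
    ∃ (A : Matrix (Fin d) (Fin d) ℝ) (B : Fin d → V → ℝ) (β : Fin d → ℝ),
      ∀ u, u ∈ X₀ ∨ u ∈ X₁ → m u = qAB p X₁ P A B u + β := by
  have h1 : ∀ k, ∃ (b : Fin d → ℝ) (β : ℝ), ∀ u ∈ X₀, b ⬝ᵥ p u + β = m u k :=
    fun k => F.gen.interp F.card₀ (fun u => m u k)
  choose b β hb using h1
  refine ⟨Matrix.of b, fun k x => m x k - (b k ⬝ᵥ p x + β k), β, ?_⟩
  intro u hu
  funext k
  simp only [qAB, Pi.add_apply, Matrix.mulVec, Matrix.of_apply]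
  by_cases hu0 : u ∈ X₀
  · rw [Finset.sum_eq_zero (fun x hx => by rw [F.P₀ x hx u hu0, mul_zero]), ← hb k u hu0]
    ring
  · have hu1 : u ∈ X₁ := hu.resolve_left hu0
    rw [Finset.sum_eq_single u]
    · rw [F.P₁ u hu1 u hu1, if_pos rfl]
      have h2 : (fun j => b k j) = b k := rfl
      rw [h2]
      ring
    · intro x hx hxy
      rw [F.P₁ x hx u hu1, if_neg hxy, mul_zero]
    · intro h; exact absurd hu1 h

end Pool.Agent.Lib.P6a51b6
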