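import Pool.Agent.Lib.P6a51b6.Frame

/-!
# The triangular slice
-/

set_option autoImplicit false

namespace Pool.Agent.Lib.P6a51b6

open scoped Matrix

variable {V : Type*} [Fintype V] [DecidableEq V] {d : ℕ}

/-- index type of the triangular slice -/
abbrev SIdx (d : ℕ) (X₁ : Finset V) := {ij : Fin d × Fin d // ij.1 ≤ ij.2} ⊕ (Fin d × X₁)

/-- the triangular matrix part -/
def toA {X₁ : Finset V} (M : SIdx d X₁ → ℝ) : Matrix (Fin d) (Fin d) ℝ :=
  Matrix.of fun i j => if h : i ≤ j then M (Sum.inl ⟨(i, j), h⟩) else 0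

/-- the other part -/
def toB {X₁ : Finset V} (M : SIdx d X₁ → ℝ) : Fin d → V → ℝ :=
  fun i x => if h : x ∈ X₁ then M (Sum.inr (i, ⟨x, h⟩)) else 0

/-- index vector of a pair -/
def fromAB (X₁ : Finset V) (A : Matrix (Fin d) (Fin d) ℝ) (B : Fin d → V → ℝ) : SIdx d X₁ → ℝ :=
  Sum.elim (fun ij => A ij.1.1 ij.1.2) (fun ix => B ix.1 ix.2)

/-- the placement of a pair -/
def qAB (p : V → Fin d → ℝ) (X₁ : Finset V) (P : V → V → ℝ) (A : Matrix (Fin d) (Fin d) ℝ)
    (B : Fin d → V → ℝ) : V → Fin d → ℝ :=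
  fun u k => (A *ᵥ p u) k + ∑ x ∈ X₁, B k x * P x u

/-- basis placements of the slice -/
def Qb (p : V → Fin d → ℝ) (X₁ : Finset V) (P : V → V → ℝ) : SIdx d X₁ → V → Fin d → ℝ :=
  Sum.elim (fun ij u k => if k = ij.1.1 then p u ij.1.2 else 0)
    (fun ix u k => if k = ix.1 then P ix.2 u else 0)

/-- the placement of an index vector -/
def qM (p : V → Fin d → ℝ) (X₁ : Finset V) (P : V → V → ℝ) (M : SIdx d X₁ → ℝ) :
    V → Fin d → ℝ := ∑ a, M a • Qb p X₁ P a

theorem toA_blockTriangular {X₁ : Finset V} (M : SIdx d X₁ → ℝ) :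
    (toA M).BlockTriangular id := by
  intro i j hij
  have hij : j < i := hij
  simp [toA, not_le.mpr hij]

theorem toA_fromAB {X₁ : Finset V} {A : Matrix (Fin d) (Fin d) ℝ} (hA : A.BlockTriangular id)
    (B : Fin d → V → ℝ) : toA (fromAB X₁ A B) = A := by
  ext i j
  by_cases h : i ≤ j
  · simp [toA, fromAB, h]
  · rw [hA (show id j < id i from not_le.mp h)]
    simp [toA, h]

theorem toB_fromAB {X₁ : Finset V} (A : Matrix (Fin d) (Fin d) ℝ)
    (B : Fin d → V → ℝ) (i : Fin d) {x : V} (hx : x ∈ X₁) : toB (fromAB X₁ A B) i x = B i x := by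
  simp [toB, fromAB, hx]

theorem sum_subtype_dite {α : Type*} [Fintype α] {Q : α → Prop} [DecidablePred Q]
    (f : {x // Q x} → ℝ) : ∑ x, f x = ∑ x, if h : Q x then f ⟨x, h⟩ else 0 := by
  have h1 : ∑ x : {x // Q x}, f x = ∑ x : {x // Q x}, (if h : Q x.1 then f ⟨x.1, h⟩ else 0) :=
    Finset.sum_congr rfl fun x _ => by simp [x.2]
  rw [h1, ← Finset.sum_subtype (Finset.univ.filter Q) (by simp)
    (fun x => if h : Q x then f ⟨x, h⟩ else 0), Finset.sum_filter]
  refine Finset.sum_congr rfl fun x _ => ?_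
  by_cases h : Q x <;> simp [h]

theorem qM_eq {p : V → Fin d → ℝ} {X₁ : Finset V} {P : V → V → ℝ} (M : SIdx d X₁ → ℝ) :
    qM p X₁ P M = qAB p X₁ P (toA M) (toB M) := by
  funext u k
  simp only [qM, Finset.sum_apply, Pi.smul_apply, smul_eq_mul, Fintype.sum_sum_type, qAB]
  congr 1
  · rw [sum_subtype_dite, Fintype.sum_prod_type]
    rw [Finset.sum_eq_single k]
    · simp only [Matrix.mulVec, dotProduct, toA, Matrix.of_apply, Qb, Sum.elim_inl]
      refine Finset.sum_congr rfl fun j _ => ?_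
      by_cases h : k ≤ j <;> simp [h]
    · intro i _ hik
      apply Finset.sum_eq_zero
      intro j _
      by_cases h : i ≤ j
      · simp [h, Qb, Ne.symm hik]
      · simp [h]
    · intro h; exact absurd (Finset.mem_univ _) h
  · rw [Fintype.sum_prod_type, Finset.sum_eq_single k]
    · simp only [Qb, Sum.elim_inr, if_true]
      rw [← Finset.sum_coe_sort X₁ (fun x => toB M k x * P x u)]
      exact Finset.sum_congr rfl fun x _ => by simp [toB]
    · intro i _ hik
      apply Finset.sum_eq_zero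
      intro j _
      simp [Qb, Ne.symm hik]
    · intro h; exact absurd (Finset.mem_univ _) h

theorem fromAB_toAB {X₁ : Finset V} (M : SIdx d X₁ → ℝ) : fromAB X₁ (toA M) (toB M) = M := by
  funext a
  rcases a with ⟨⟨i, j⟩, h⟩ | ⟨i, ⟨x, hx⟩⟩
  · have h' : i ≤ j := h
    simp [fromAB, toA, h']
  · simp [fromAB, toB, hx]

theorem qAB_congr {p : V → Fin d → ℝ} {X₁ : Finset V} {P : V → V → ℝ}
    {A : Matrix (Fin d) (Fin d) ℝ} {B B' : Fin d → V → ℝ} (h : ∀ i, ∀ x ∈ X₁, B i x = B' i x) :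
    qAB p X₁ P A B = qAB p X₁ P A B' := by
  funext u k
  simp only [qAB]
  congr 1
  exact Finset.sum_congr rfl fun x hx => by rw [h k x hx]

theorem qM_fromAB {p : V → Fin d → ℝ} {X₁ : Finset V} {P : V → V → ℝ}
    {A : Matrix (Fin d) (Fin d) ℝ} (hA : A.BlockTriangular id) (B : Fin d → V → ℝ) :
    qM p X₁ P (fromAB X₁ A B) = qAB p X₁ P A B := by
  rw [qM_eq, toA_fromAB hA]
  exact qAB_congr fun i x hx => toB_fromAB A B i hx

/-- Any matrix can be made triangular by subtracting a skew multiple of a nonsingular triangular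
matrix. -/
theorem exists_skew_slice {A₁ : Matrix (Fin d) (Fin d) ℝ} (hA₁ : A₁.BlockTriangular id)
    (hdiag : ∀ i, A₁ i i ≠ 0) (A : Matrix (Fin d) (Fin d) ℝ) :
    ∃ S : Matrix (Fin d) (Fin d) ℝ, Sᵀ = -S ∧ (A - S * A₁).BlockTriangular id := by
  have hdet : IsUnit A₁.det := by
    rw [Matrix.det_of_isUpperTriangular hA₁]
    exact isUnit_iff_ne_zero.mpr (Finset.prod_ne_zero_iff.mpr fun i _ => hdiag i)
  set C := A * A₁⁻¹ with hC
  let S : Matrix (Fin d) (Fin d) ℝ := Matrix.of fun i j =>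
    if j < i then C i j else if i < j then - C j i else 0
  have hS : Sᵀ = -S := by
    ext i j
    simp only [Matrix.transpose_apply, Matrix.neg_apply, S, Matrix.of_apply]
    rcases lt_trichotomy i j with h | h | h
    · simp [h, not_lt.mpr h.le]
    · subst h; simp
    · simp [h, not_lt.mpr h.le]
  have hCS : (C - S).BlockTriangular id := by
    intro i j hij
    have hij : j < i := hij
    simp [S, hij]
  refine ⟨S, hS, ?_⟩
  have h1 : A - S * A₁ = (C - S) * A₁ := by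
    rw [Matrix.sub_mul, hC, Matrix.mul_assoc, Matrix.nonsing_inv_mul _ hdet, Matrix.mul_one]
  rw [h1]
  exact hCS.mul hA₁

section frame

variable {G : SimpleGraph V} {p : V → Fin d → ℝ} {w : V → V → ℝ} {X₀ X₁ : Finset V}
  {P : V → V → ℝ}

theorem Frame.inK_P (F : Frame G p w X₀ X₁ P) (B : Fin d → V → ℝ) :
    InK w (fun u k => ∑ x ∈ X₁, B k x * P x u : V → Fin d → ℝ) := by
  intro i
  have h1 : (fun v => ∑ x ∈ X₁, B i x * P x v) = ∑ x ∈ X₁, B i x • P x := by
    funext v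
    simp [Finset.sum_apply]
  rw [h1]
  have h2 : ∑ x ∈ X₁, B i x • P x ∈ kerLap w :=
    Submodule.sum_mem _ fun x hx => Submodule.smul_mem _ _ (F.kerP x hx)
  exact h2

theorem Frame.inK_qAB (F : Frame G p w X₀ X₁ P) (A : Matrix (Fin d) (Fin d) ℝ)
    (B : Fin d → V → ℝ) : InK w (qAB p X₁ P A B) := by
  have h1 := F.stress.inK.mulVec A 0
  have h2 := h1.add (F.inK_P B)
  have h3 : (fun u => A *ᵥ p u + 0) + (fun u k => ∑ x ∈ X₁, B k x * P x u : V → Fin d → ℝ) =
      qAB p X₁ P A B := by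
    funext u k
    simp [qAB]
  rwa [h3] at h2

theorem Frame.inK_qM (F : Frame G p w X₀ X₁ P) (M : SIdx d X₁ → ℝ) : InK w (qM p X₁ P M) := by
  rw [qM_eq]
  exact F.inK_qAB _ _

theorem Frame.decomp (F : Frame G p w X₀ X₁ P) {κ : V → Fin d → ℝ} (hκ : InK w κ) :
    ∃ (A : Matrix (Fin d) (Fin d) ℝ) (B : Fin d → V → ℝ) (β : Fin d → ℝ),
      ∀ u, κ u = qAB p X₁ P A B u + β := by
  choose b β γ h using fun i => F.gen_ker _ (hκ i)
  refine ⟨Matrix.of b, γ, β, fun u => ?_⟩
  funext k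
  have := h k u
  simp only [qAB, Pi.add_apply]
  rw [this]
  simp only [Matrix.mulVec, Matrix.of_apply]
  ring

/-- uniqueness of the parameters -/
theorem Frame.uniqAB (F : Frame G p w X₀ X₁ P) {A : Matrix (Fin d) (Fin d) ℝ}
    {B : Fin d → V → ℝ} {β : Fin d → ℝ} (h : ∀ u, qAB p X₁ P A B u + β = 0) :
    A = 0 ∧ (∀ i, ∀ x ∈ X₁, B i x = 0) ∧ β = 0 := by
  have h1 : ∀ i, (A i) = 0 ∧ β i = 0 ∧ ∀ x ∈ X₁, B i x = 0 := by
    intro i
    apply F.uniq
    intro u
    have := congrFun (h u) i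
    simp only [qAB, Pi.add_apply, Pi.zero_apply, Matrix.mulVec] at this
    linarith
  refine ⟨?_, fun i x hx => (h1 i).2.2 x hx, ?_⟩
  · funext i
    exact (h1 i).1
  · funext i
    exact (h1 i).2.1

/-- a triangular skew matrix vanishes -/
theorem skew_triangular_zero {A : Matrix (Fin d) (Fin d) ℝ} (hA : A.BlockTriangular id)
    (hskew : Aᵀ = -A) : A = 0 := by
  have h1 : ∀ i j, A j i = - A i j := fun i j => congrFun (congrFun hskew i) j
  ext i j
  rcases lt_trichotomy i j with h | h | h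
  · have h2 := hA (show id i < id j from h)
    have h3 := h1 j i
    rw [h2] at h3
    simpa using h3
  · subst h
    have := h1 i i
    simp only [Matrix.zero_apply]
    linarith
  · exact hA (show id j < id i from h)

/-- The slice is transversal to the trivial motions. -/
theorem Frame.slice_trivial (F : Frame G p w X₀ X₁ P) {M : SIdx d X₁ → ℝ}
    {S : Matrix (Fin d) (Fin d) ℝ} (hS : Sᵀ = -S) {c : Fin d → ℝ}
    (h : ∀ u, qM p X₁ P M u = S *ᵥ p u + c) : M = 0 := by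
  have h1 : ∀ u, qAB p X₁ P (toA M - S) (toB M) u + (-c) = 0 := by
    intro u
    have h2 := h u
    rw [qM_eq] at h2
    funext k
    have h3 := congrFun h2 k
    simp only [qAB, Pi.add_apply, Matrix.sub_mulVec, Pi.sub_apply, Pi.neg_apply,
      Pi.zero_apply] at h3 ⊢
    linarith
  obtain ⟨h2, h3, -⟩ := F.uniqAB h1
  have h4 : toA M = S := sub_eq_zero.mp h2
  have h5 : toA M = 0 := skew_triangular_zero (toA_blockTriangular M) (by rw [h4, hS])
  rw [← fromAB_toAB M]
  funext a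
  rcases a with a | ⟨i, x⟩
  · simp [fromAB, h5]
  · simp [fromAB, h3 i x x.2]

theorem Frame.slice_inj (F : Frame G p w X₀ X₁ P) {M : SIdx d X₁ → ℝ}
    (h : Bm G p (qM p X₁ P M) = 0) : M = 0 := by
  rw [Bm_eq_zero_iff] at h
  obtain ⟨S, c, hS, hc⟩ := trivial_motion F.aff (F.inf _ h)
  exact F.slice_trivial hS hc

theorem qM_add {X₁ : Finset V} (M N : SIdx d X₁ → ℝ) :
    qM p X₁ P (M + N) = qM p X₁ P M + qM p X₁ P N := by
  simp only [qM, Pi.add_apply, add_smul, Finset.sum_add_distrib]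

theorem qM_smul {X₁ : Finset V} (r : ℝ) (M : SIdx d X₁ → ℝ) :
    qM p X₁ P (r • M) = r • qM p X₁ P M := by
  simp only [qM, Pi.smul_apply, smul_eq_mul, mul_smul, Finset.smul_sum]

/-- the set of constants -/
def FrameS (p : V → Fin d → ℝ) (w : V → V → ℝ) : Set ℝ :=
  Set.range (fun x : V × Fin d => p x.1 x.2) ∪ Set.range (fun x : V × V => w x.1 x.2)

theorem FrameS_countable (p : V → Fin d → ℝ) (w : V → V → ℝ) : (FrameS p w).Countable :=
  (Set.countable_range _).union (Set.countable_range _)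

theorem FrameS_kill {p : V → Fin d → ℝ} {w : V → V → ℝ} {D : Derivation ℚ ℝ ℝ}
    (hD : ∀ s ∈ FrameS p w, D s = 0) : (∀ u i, D (p u i) = 0) ∧ ∀ u v, D (w u v) = 0 :=
  ⟨fun u i => hD _ (Or.inl ⟨(u, i), rfl⟩), fun u v => hD _ (Or.inr ⟨(u, v), rfl⟩)⟩

theorem Frame.D_Qb (F : Frame G p w X₀ X₁ P) {D : Derivation ℚ ℝ ℝ}
    (hD : ∀ s ∈ FrameS p w, D s = 0) (a : SIdx d X₁) (u : V) (k : Fin d) :
    D (Qb p X₁ P a u k) = 0 := by
  obtain ⟨h1, h2⟩ := FrameS_kill hD
  rcases a with a | ⟨i, x⟩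
  · simp only [Qb, Sum.elim_inl]
    split_ifs
    · exact h1 _ _
    · simp
  · simp only [Qb, Sum.elim_inr]
    split_ifs
    · exact F.derP D h2 x x.2 u
    · simp

theorem Frame.Qb_const (F : Frame G p w X₀ X₁ P) (a : SIdx d X₁) (u : V) (k : Fin d) :
    Qb p X₁ P a u k ∈ FS (FrameS p w) := fun _ hD => F.D_Qb hD a u k

theorem Frame.D_qM (F : Frame G p w X₀ X₁ P) {D : Derivation ℚ ℝ ℝ}
    (hD : ∀ s ∈ FrameS p w, D s = 0) (M : SIdx d X₁ → ℝ) (u : V) (k : Fin d) :
    D (qM p X₁ P M u k) = qM p X₁ P (fun a => D (M a)) u k := by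
  simp only [qM, Finset.sum_apply, Pi.smul_apply, smul_eq_mul, map_sum, Derivation.leibniz,
    F.D_Qb hD, mul_zero, zero_add]
  exact Finset.sum_congr rfl fun a _ => mul_comm _ _

end frame

end Pool.Agent.Lib.P6a51b6
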