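import Pool.Agent.Lib.P6a51b6.RankPF

/-!
# Stability of kernels under small perturbations
-/

set_option autoImplicit false

namespace Pool.Agent.Lib.P6a51b6

open scoped Matrix Topology
open Module Filter

theorem tendsto_det {r : ℕ} {α : Type*} {l : Filter α} {A : α → Matrix (Fin r) (Fin r) ℝ}
    {A₀ : Matrix (Fin r) (Fin r) ℝ}
    (h : ∀ i j, Tendsto (fun t => A t i j) l (𝓝 (A₀ i j))) :
    Tendsto (fun t => (A t).det) l (𝓝 A₀.det) := by
  have h1 : Tendsto A l (𝓝 A₀) := tendsto_pi_nhds.mpr fun i => tendsto_pi_nhds.mpr fun j => h i j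
  exact ((continuous_id.matrix_det).tendsto A₀).comp h1

theorem tendsto_adjugate {r : ℕ} {α : Type*} {l : Filter α} {A : α → Matrix (Fin r) (Fin r) ℝ}
    {A₀ : Matrix (Fin r) (Fin r) ℝ}
    (h : ∀ i j, Tendsto (fun t => A t i j) l (𝓝 (A₀ i j))) (i j : Fin r) :
    Tendsto (fun t => (A t).adjugate i j) l (𝓝 (A₀.adjugate i j)) := by
  have h1 : Tendsto A l (𝓝 A₀) := tendsto_pi_nhds.mpr fun i => tendsto_pi_nhds.mpr fun j => h i j
  have h2 : Tendsto (fun t => (A t).adjugate) l (𝓝 A₀.adjugate) :=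
    ((continuous_id.matrix_adjugate).tendsto A₀).comp h1
  exact tendsto_pi_nhds.mp (tendsto_pi_nhds.mp h2 i) j

theorem tendsto_mulVec {m n : Type*} [Fintype n] {α : Type*} {l : Filter α}
    {A : α → Matrix m n ℝ} {A₀ : Matrix m n ℝ} {x : α → n → ℝ} {x₀ : n → ℝ}
    (h : ∀ i j, Tendsto (fun t => A t i j) l (𝓝 (A₀ i j)))
    (hx : ∀ j, Tendsto (fun t => x t j) l (𝓝 (x₀ j))) (i : m) :
    Tendsto (fun t => (A t *ᵥ x t) i) l (𝓝 ((A₀ *ᵥ x₀) i)) := by
  simp only [Matrix.mulVec, dotProduct]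
  exact tendsto_finsetSum _ fun j _ => (h i j).mul (hx j)

/-- The rank is lower semicontinuous. -/
theorem rank_lsc {m n : Type*} [Fintype m] [Fintype n] {α : Type*} {l : Filter α}
    {A : α → Matrix m n ℝ} {A₀ : Matrix m n ℝ}
    (h : ∀ i j, Tendsto (fun t => A t i j) l (𝓝 (A₀ i j))) :
    ∀ᶠ t in l, A₀.rank ≤ (A t).rank := by
  obtain ⟨e, f, hd⟩ := exists_minor A₀ rfl
  have h1 : Tendsto (fun t => ((A t).submatrix e f).det) l (𝓝 (A₀.submatrix e f).det) :=
    tendsto_det fun i j => h (e i) (f j)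
  filter_upwards [h1.eventually_ne hd] with t ht
  have h4 := Matrix.rank_of_det_ne_zero ht
  rw [Fintype.card_fin] at h4
  rw [← h4]
  exact Matrix.rank_submatrix_le (A t) e f

theorem rank_add_finrank_ker {m n : Type*} [Fintype n] (A : Matrix m n ℝ) :
    A.rank + finrank ℝ (LinearMap.ker A.mulVecLin) = Fintype.card n := by
  have := LinearMap.finrank_range_add_finrank_ker A.mulVecLin
  rw [Module.finrank_fintype_fun_eq_card] at this
  exact this

/-- The nullity is upper semicontinuous. -/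
theorem nullity_usc {m n : Type*} [Fintype m] [Fintype n] {α : Type*} {l : Filter α}
    {A : α → Matrix m n ℝ} {A₀ : Matrix m n ℝ}
    (h : ∀ i j, Tendsto (fun t => A t i j) l (𝓝 (A₀ i j))) :
    ∀ᶠ t in l, finrank ℝ (LinearMap.ker (A t).mulVecLin) ≤
      finrank ℝ (LinearMap.ker A₀.mulVecLin) := by
  filter_upwards [rank_lsc h] with t ht
  have h1 := rank_add_finrank_ker (A t)
  have h2 := rank_add_finrank_ker A₀
  omega

/-- Kernel vectors of a matrix of locally maximal rank are limits of kernel vectors. -/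
theorem ker_approx {m n : Type*} [Fintype m] [Fintype n] {α : Type*} {l : Filter α}
    {A : α → Matrix m n ℝ} {A₀ : Matrix m n ℝ}
    (h : ∀ i j, Tendsto (fun t => A t i j) l (𝓝 (A₀ i j)))
    (hr : ∀ᶠ t in l, (A t).rank ≤ A₀.rank) {C : n → ℝ} (hC : A₀ *ᵥ C = 0) :
    ∃ X : α → n → ℝ, (∀ᶠ t in l, A t *ᵥ X t = 0) ∧
      ∀ j, Tendsto (fun t => X t j) l (𝓝 (C j)) := by
  classical
  obtain ⟨r, hr0⟩ : ∃ r, A₀.rank = r := ⟨_, rfl⟩
  obtain ⟨e, f, hd⟩ := exists_minor A₀ hr0
  rw [hr0] at hr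
  set B : α → Matrix (Fin r) n ℝ := fun t => (A t).submatrix e id with hB
  set B₀ : Matrix (Fin r) n ℝ := A₀.submatrix e id with hB₀
  have hBt : ∀ i j, Tendsto (fun t => B t i j) l (𝓝 (B₀ i j)) := fun i j => h (e i) j
  have hdt : Tendsto (fun t => ((B t).submatrix id f).det) l (𝓝 (B₀.submatrix id f).det) :=
    tendsto_det fun i j => hBt i (f j)
  have hd0 : (B₀.submatrix id f).det ≠ 0 := hd
  have hBC : B₀ *ᵥ C = 0 := by
    funext i
    exact congrFun hC (e i)
  refine ⟨fun t => C - (((B t).submatrix id f).det)⁻¹ • ((1 : Matrix n n ℝ).submatrix id f *ᵥ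
      (((B t).submatrix id f).adjugate *ᵥ (B t *ᵥ C))), ?_, ?_⟩
  · filter_upwards [hdt.eventually_ne hd0, hr] with t ht hrt
    have h0 := cramer_ker (B t) f C
    rw [Matrix.mulVec_sub, Matrix.mulVec_smul] at h0
    have h1 : B t *ᵥ (C - (((B t).submatrix id f).det)⁻¹ • ((1 : Matrix n n ℝ).submatrix id f *ᵥ
      (((B t).submatrix id f).adjugate *ᵥ (B t *ᵥ C)))) = 0 := by
      rw [Matrix.mulVec_sub, Matrix.mulVec_smul, ← sub_eq_zero.mp h0, smul_smul,
        inv_mul_cancel₀ ht, one_smul, sub_self]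
    have hrB : (A t).rank ≤ (B t).rank := by
      have h4 := Matrix.rank_of_det_ne_zero ht
      rw [Fintype.card_fin] at h4
      exact (hrt.trans h4.symm.le).trans (Matrix.rank_submatrix_le (B t) id f)
    have hker : LinearMap.ker (A t).mulVecLin = LinearMap.ker (B t).mulVecLin := by
      apply Submodule.eq_of_le_of_finrank_le
      · intro x hx
        rw [LinearMap.mem_ker, Matrix.mulVecLin_apply] at hx ⊢
        funext i
        exact congrFun hx (e i)
      · have k1 := rank_add_finrank_ker (A t)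
        have k2 := rank_add_finrank_ker (B t)
        omega
    have h2 : (C - (((B t).submatrix id f).det)⁻¹ • ((1 : Matrix n n ℝ).submatrix id f *ᵥ
      (((B t).submatrix id f).adjugate *ᵥ (B t *ᵥ C)))) ∈ LinearMap.ker (A t).mulVecLin := by
      rw [hker, LinearMap.mem_ker, Matrix.mulVecLin_apply]
      exact h1
    rw [LinearMap.mem_ker, Matrix.mulVecLin_apply] at h2
    exact h2
  · intro j
    have k1 : ∀ i, Tendsto (fun t => (B t *ᵥ C) i) l (𝓝 ((B₀ *ᵥ C) i)) :=
      tendsto_mulVec hBt fun j => tendsto_const_nhds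
    have k2 : ∀ i, Tendsto (fun t => (((B t).submatrix id f).adjugate *ᵥ (B t *ᵥ C)) i) l
        (𝓝 (((B₀.submatrix id f).adjugate *ᵥ (B₀ *ᵥ C)) i)) :=
      tendsto_mulVec (fun i j => tendsto_adjugate (fun i j => hBt i (f j)) i j) k1
    have k3 : Tendsto (fun t => ((1 : Matrix n n ℝ).submatrix id f *ᵥ
      (((B t).submatrix id f).adjugate *ᵥ (B t *ᵥ C))) j) l
        (𝓝 (((1 : Matrix n n ℝ).submatrix id f *ᵥ
          ((B₀.submatrix id f).adjugate *ᵥ (B₀ *ᵥ C))) j)) :=
      tendsto_mulVec (A := fun _ => (1 : Matrix n n ℝ).submatrix id f)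
        (fun i j => tendsto_const_nhds) k2 j
    have k4 := (tendsto_const_nhds (x := C j)).sub ((hdt.inv₀ hd0).mul k3)
    rw [hBC, Matrix.mulVec_zero, Matrix.mulVec_zero, Pi.zero_apply, mul_zero, sub_zero] at k4
    exact k4

end Pool.Agent.Lib.P6a51b6
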