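import Pool.Agent.Lib.P6a51b6.SplitDefs
import Pool.Agent.Lib.P6a51b6.Stab
import Pool.Agent.Lib.P6a51b6.Energy

/-!
# Infinitesimal rigidity and stresses near the coincident placement
-/

set_option autoImplicit false

namespace Pool.Agent.Lib.P6a51b6

open scoped Matrix Topology
open Module Filter

section general

variable {V : Type*} [Fintype V] [DecidableEq V] {d : ℕ} {G : SimpleGraph V}

omit [Fintype V] [DecidableEq V] in
theorem finrank_affMap {q : V → Fin d → ℝ} (haff : AffSpan q) (u₀ : V) :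
    finrank ℝ (LinearMap.range (affMap q)) = d + 1 := by
  rw [LinearMap.finrank_range_of_inj (affMap_injective haff u₀)]
  simp

theorem range_affMap_le {p : V → Fin d → ℝ} {w : V → V → ℝ} (hw : IsStress G p w) :
    LinearMap.range (affMap p) ≤ LinearMap.ker (lapMat w).mulVecLin := by
  rintro _ ⟨⟨b, β⟩, rfl⟩
  rw [mem_ker_lapMat]
  have h1 : (affMap p (b, β)) = (∑ i, b i • (fun v => p v i)) + fun _ => β := by
    funext u
    simp only [affMap, LinearMap.coe_mk, AddHom.coe_mk, Pi.add_apply, Finset.sum_apply,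
      Pi.smul_apply, smul_eq_mul, dotProduct]
  have h2 : ∀ s : Finset (Fin d), Lap w (∑ i ∈ s, b i • (fun v => p v i)) = 0 := by
    intro s
    induction s using Finset.induction_on with
    | empty =>
      rw [Finset.sum_empty]
      exact Lap_const w 0
    | insert a s ha ih =>
      rw [Finset.sum_insert ha, Lap_add, ih, Lap_smul, hw.eq, smul_zero, add_zero]
  rw [h1, Lap_add, h2, Lap_const, add_zero]

theorem maxStress_of_nullity {p : V → Fin d → ℝ} (haff : AffSpan p) {w : V → V → ℝ}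
    (hw : IsStress G p w) (u₀ : V)
    (h : finrank ℝ (LinearMap.ker (lapMat w).mulVecLin) ≤ d + 1) : MaxStress p w := by
  have heq := Submodule.eq_of_le_of_finrank_le (range_affMap_le hw)
    (by rw [finrank_affMap haff u₀]; exact h)
  intro x hx
  rw [← mem_ker_lapMat, ← heq] at hx
  obtain ⟨⟨b, β⟩, h5⟩ := hx
  exact ⟨b, β, fun u => (congrFun h5 u).symm⟩

theorem nullity_of_maxStress {p : V → Fin d → ℝ} (haff : AffSpan p) {w : V → V → ℝ}
    (u₀ : V) (h : MaxStress p w) :
    finrank ℝ (LinearMap.ker (lapMat w).mulVecLin) ≤ d + 1 := by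
  rw [← finrank_affMap haff u₀]
  apply Submodule.finrank_mono
  intro x hx
  rw [mem_ker_lapMat] at hx
  obtain ⟨b, β, hb⟩ := h x hx
  exact ⟨(b, β), funext fun u => (hb u).symm⟩

/-- The rigidity matrix for general directions. -/
def dirMat (E : V → V → Prop) [DecidableRel E] (δ : V → V → Fin d → ℝ) :
    Matrix (V × V) (V × Fin d) ℝ :=
  fun e x => if E e.1 e.2 then
    δ e.1 e.2 x.2 * ((if x.1 = e.1 then 1 else 0) - (if x.1 = e.2 then 1 else 0)) else 0

theorem dirMat_mulVec (E : V → V → Prop) [DecidableRel E] (δ : V → V → Fin d → ℝ)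
    (m : V × Fin d → ℝ) (e : V × V) :
    (dirMat E δ *ᵥ m) e = if E e.1 e.2 then
      (δ e.1 e.2) ⬝ᵥ (fun i => m (e.1, i) - m (e.2, i)) else 0 := by
  simp only [Matrix.mulVec, dotProduct, dirMat]
  split_ifs with h
  · rw [Fintype.sum_prod_type_right]
    refine Finset.sum_congr rfl (fun i _ => ?_)
    have h1 : ∀ x : V, (δ e.1 e.2 i) *
        ((if x = e.1 then 1 else 0) - (if x = e.2 then 1 else 0)) * m (x, i) =
        (if x = e.1 then (δ e.1 e.2 i) * m (x, i) else 0) -
        (if x = e.2 then (δ e.1 e.2 i) * m (x, i) else 0) := by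
      intro x
      split_ifs <;> ring
    simp only [h1, Finset.sum_sub_distrib, Finset.sum_ite_eq', Finset.mem_univ, if_true]
    ring
  · simp

theorem vecMul_dirMat (E : V → V → Prop) [DecidableRel E] (hE : ∀ a b, E a b → E b a)
    (δ : V → V → Fin d → ℝ) (hδ : ∀ a b, δ b a = - δ a b)
    (w : V × V → ℝ) (u : V) (i : Fin d) :
    (w ᵥ* dirMat E δ) (u, i) = ∑ v, ((if E u v then w (u, v) + w (v, u) else 0)) * δ u v i := by
  simp only [Matrix.vecMul, dotProduct, dirMat]
  rw [Fintype.sum_prod_type]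
  have h1 : ∀ x y : V, w (x, y) * (if E x y then (δ x y i) *
        ((if u = x then 1 else 0) - (if u = y then 1 else 0)) else 0) =
        (if u = x then (if E x y then w (x, y) * (δ x y i) else 0) else 0) -
        (if u = y then (if E x y then w (x, y) * (δ x y i) else 0) else 0) := by
    intro x y
    split_ifs <;> ring
  simp only [h1, Finset.sum_sub_distrib]
  rw [Finset.sum_comm]
  simp only [Finset.sum_ite_eq, Finset.mem_univ, if_true]
  rw [← Finset.sum_sub_distrib]
  refine Finset.sum_congr rfl (fun v _ => ?_)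
  by_cases h : E u v
  · rw [if_pos h, if_pos (hE _ _ h), if_pos h, hδ u v, Pi.neg_apply]
    ring
  · rw [if_neg h, if_neg (fun h' => h (hE _ _ h')), if_neg h]
    ring

theorem mem_ker_dirMat {E : V → V → Prop} [DecidableRel E] {δ : V → V → Fin d → ℝ}
    {m : V × Fin d → ℝ} : m ∈ LinearMap.ker (dirMat E δ).mulVecLin ↔
      ∀ u v, E u v → (δ u v) ⬝ᵥ (fun i => m (u, i) - m (v, i)) = 0 := by
  rw [LinearMap.mem_ker, Matrix.mulVecLin_apply]
  constructor
  · intro h u v huv
    have := congrFun h (u, v)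
    rw [dirMat_mulVec] at this
    simpa [huv] using this
  · intro h
    funext e
    rw [dirMat_mulVec]
    split_ifs with he
    · exact h _ _ he
    · rfl

end general

section split

variable {V : Type*} [Fintype V] [DecidableEq V] {d : ℕ} {H : SimpleGraph V} {v : V}
  {A₁ C A₂ : Finset V} {G : SimpleGraph (Option V)} {p : V → Fin d → ℝ}

omit [Fintype V] in
theorem dir_neg (p : V → Fin d → ℝ) (v : V) (z : Fin d → ℝ) (t : ℝ) (x y : Option V) :
    dir p v z t y x = - dir p v z t x y := by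
  unfold dir
  by_cases h1 : x = some v ∧ y = none
  · have h2 : ¬ (y = some v ∧ x = none) := by
      rintro ⟨h, -⟩
      rw [h1.2] at h
      exact absurd h (by simp)
    rw [if_neg h2, if_pos ⟨h1.2, h1.1⟩, if_pos h1]
  · by_cases h2 : x = none ∧ y = some v
    · rw [if_pos ⟨h2.2, h2.1⟩, if_neg h1, if_pos h2, neg_neg]
    · rw [if_neg (fun h => h2 ⟨h.2, h.1⟩), if_neg (fun h => h1 ⟨h.2, h.1⟩), if_neg h1, if_neg h2]
      abel

omit [Fintype V] in
theorem dir_of_ne {p : V → Fin d → ℝ} {v : V} {z : Fin d → ℝ} {t : ℝ} {x y : Option V}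
    (h1 : ¬ (x = some v ∧ y = none)) (h2 : ¬ (x = none ∧ y = some v)) :
    dir p v z t x y = pt p v z t x - pt p v z t y := by
  unfold dir
  rw [if_neg h1, if_neg h2]

omit [Fintype V] in
theorem dir_bridge (p : V → Fin d → ℝ) (v : V) (z : Fin d → ℝ) (t : ℝ) :
    dir p v z t (some v) none = z := by
  simp [dir]

omit [Fintype V] in
theorem dir_bridge' (p : V → Fin d → ℝ) (v : V) (z : Fin d → ℝ) (t : ℝ) :
    dir p v z t none (some v) = -z := by
  simp [dir]

omit [Fintype V] in
theorem pt_some (p : V → Fin d → ℝ) {v u : V} (hu : u ≠ v) (z : Fin d → ℝ) (t : ℝ) :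
    pt p v z t (some u) = p u := by
  simp [pt, hu]

omit [Fintype V] in
theorem affSpan_pt (haff : AffSpan p) (v : V) (z : Fin d → ℝ) (t : ℝ) :
    AffSpan (pt p v z t) := by
  intro b β h
  apply haff b β
  intro u
  by_cases hu : u = v
  · have := h none
    rw [pt_none] at this
    rw [hu]
    exact this
  · have := h (some u)
    rw [pt_some p hu] at this
    exact this

omit [Fintype V] in
theorem tendsto_pt (p : V → Fin d → ℝ) (v : V) (z : Fin d → ℝ) (x : Option V) (i : Fin d) :
    Tendsto (fun t => pt p v z t x i) (𝓝[≠] 0) (𝓝 (pt p v z 0 x i)) := by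
  have h : Continuous (fun t : ℝ => pt p v z t x i) := by
    unfold pt
    split_ifs <;> simp only [Pi.add_apply, Pi.smul_apply, smul_eq_mul] <;> fun_prop
  exact (h.tendsto 0).mono_left nhdsWithin_le_nhds

omit [Fintype V] in
theorem tendsto_dir (p : V → Fin d → ℝ) (v : V) (z : Fin d → ℝ) (x y : Option V) (i : Fin d) :
    Tendsto (fun t => dir p v z t x y i) (𝓝[≠] 0) (𝓝 (dir p v z 0 x y i)) := by
  unfold dir
  split_ifs
  · exact tendsto_const_nhds
  · exact tendsto_const_nhds
  · simp only [Pi.sub_apply]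
    exact (tendsto_pt p v z x i).sub (tendsto_pt p v z y i)

omit [Fintype V] [DecidableEq V] in
theorem IsSplit.not_mem (hs : IsSplit H v A₁ C A₂ G d) : v ∉ A₁ ∧ v ∉ C ∧ v ∉ A₂ :=
  ⟨fun h => H.irrefl ((hs.nbr v).mpr (Or.inl h)),
   fun h => H.irrefl ((hs.nbr v).mpr (Or.inr (Or.inl h))),
   fun h => H.irrefl ((hs.nbr v).mpr (Or.inr (Or.inr h)))⟩

omit [Fintype V] in
/-- A vector orthogonal to all `p v - p c` and to `p v - p a` vanishes. -/
theorem orth_zero (hs : IsSplit H v A₁ C A₂ G d) (hp : Generic p) {a : V} (ha : a ∈ A₁)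
    {f : Fin d → ℝ} (hfa : f ⬝ᵥ (p v - p a) = 0) (hfC : ∀ c ∈ C, f ⬝ᵥ (p v - p c) = 0) :
    f = 0 := by
  obtain ⟨hvA₁, hvC, hvA₂⟩ := hs.not_mem
  have hav : a ≠ v := fun h => hvA₁ (h ▸ ha)
  have haC : a ∉ C := hs.disj₁ a ha
  refine (hp.affine_zero (X := insert v (insert a C)) (b := f) (β := - (f ⬝ᵥ p v)) ?_ ?_).1
  · rw [Finset.card_insert_of_notMem, Finset.card_insert_of_notMem haC, hs.card]
    rw [Finset.mem_insert]
    rintro (h | h)
    · exact hav h.symm
    · exact hvC h
  · intro u hu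
    rw [Finset.mem_insert, Finset.mem_insert] at hu
    rcases hu with rfl | rfl | hu
    · ring
    · rw [dotProduct_sub] at hfa
      linarith
    · have := hfC u hu
      rw [dotProduct_sub] at this
      linarith

omit [Fintype V] in
/-- A vector orthogonal to all `p v - p c` is a multiple of `ν`. -/
theorem orth_line (hs : IsSplit H v A₁ C A₂ G d) (hp : Generic p) (hA₁ : A₁.Nonempty)
    {ν : Fin d → ℝ} (hν : ν ≠ 0) (hνC : ∀ c ∈ C, ν ⬝ᵥ (p v - p c) = 0)
    {y : Fin d → ℝ} (hy : ∀ c ∈ C, y ⬝ᵥ (p v - p c) = 0) : ∃ s : ℝ, y = s • ν := by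
  obtain ⟨a, ha⟩ := hA₁
  have hα : ν ⬝ᵥ (p v - p a) ≠ 0 := fun h => hν (orth_zero hs hp ha h hνC)
  refine ⟨(y ⬝ᵥ (p v - p a)) / (ν ⬝ᵥ (p v - p a)), ?_⟩
  rw [← sub_eq_zero]
  apply orth_zero hs hp ha
  · rw [sub_dotProduct, smul_dotProduct, smul_eq_mul, div_mul_cancel₀ _ hα, sub_self]
  · intro c hc
    rw [sub_dotProduct, smul_dotProduct, hy c hc, hνC c hc, smul_zero, sub_zero]

/-- Motions of the degenerate framework are trivial. -/
theorem ker_dirMat_zero_le [DecidableRel G.Adj] (hs : IsSplit H v A₁ C A₂ G d) (hp : Generic p)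
    (hInf : InfRigid H p) (hA₁ : A₁.Nonempty)
    {ν : Fin d → ℝ} (hν : ν ≠ 0) (hνC : ∀ c ∈ C, ν ⬝ᵥ (p v - p c) = 0)
    {z : Fin d → ℝ} (hz : z ⬝ᵥ ν ≠ 0) :
    LinearMap.ker (dirMat G.Adj (dir p v z 0)).mulVecLin ≤
      LinearMap.ker (rigMat (fun _ _ : Option V => True) (pt p v z 0)).mulVecLin := by
  obtain ⟨hvA₁, hvC, hvA₂⟩ := hs.not_mem
  intro m hm
  rw [mem_ker_dirMat] at hm
  rw [mem_ker_rigMat]
  set M : Option V → Fin d → ℝ := fun x i => m (x, i) with hM
  have hm' : ∀ x y, G.Adj x y → dir p v z 0 x y ⬝ᵥ (M x - M y) = 0 := fun x y h => hm x y h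
  have hne : ∀ u : V, u ≠ v → ¬ (some v = some v ∧ some u = (none : Option V)) := by simp
  have h1 : ∀ a, a ∈ A₁ ∨ a ∈ C → (p v - p a) ⬝ᵥ (M (some v) - M (some a)) = 0 := by
    intro a ha
    have hav : a ≠ v := by
      rintro rfl
      rcases ha with h | h
      · exact hvA₁ h
      · exact hvC h
    have h := hm' _ _ ((hs.adj₁ a hav).mpr ha)
    rw [dir_of_ne (by simp) (by simp), pt_zero, pt_zero] at h
    exact h
  have h2 : ∀ a, a ∈ A₂ ∨ a ∈ C → (p v - p a) ⬝ᵥ (M none - M (some a)) = 0 := by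
    intro a ha
    have hav : a ≠ v := by
      rintro rfl
      rcases ha with h | h
      · exact hvA₂ h
      · exact hvC h
    have h := hm' _ _ ((hs.adj₂ a hav).mpr ha)
    rw [dir_of_ne (by simp) (by simpa using hav), pt_zero, pt_zero] at h
    exact h
  have h3 : ∃ s : ℝ, M (some v) - M none = s • ν := by
    apply orth_line hs hp hA₁ hν hνC
    intro c hc
    have e1 := h1 c (Or.inr hc)
    have e2 := h2 c (Or.inr hc)
    have e3 : M (some v) - M none = (M (some v) - M (some c)) - (M none - M (some c)) := by abel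
    rw [dotProduct_comm, e3, dotProduct_sub, e1, e2, sub_zero]
  have h4 : M (some v) = M none := by
    obtain ⟨s, hs'⟩ := h3
    have h := hm' _ _ hs.bridge.symm
    rw [dir_bridge, hs', dotProduct_smul, smul_eq_mul] at h
    have h5 : s = 0 := (mul_eq_zero.mp h).resolve_right hz
    rw [h5, zero_smul, sub_eq_zero] at hs'
    exact hs'
  have h5 : ∀ x, M x = M (some (x.getD v)) := by
    intro x
    cases x with
    | none => exact h4.symm
    | some u => rfl
  have h6 : IsMotion H p (fun u => M (some u)) := by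
    have key : ∀ a, H.Adj v a → (p v - p a) ⬝ᵥ (M (some v) - M (some a)) = 0 := by
      intro a ha
      rcases (hs.nbr a).mp ha with h | h | h
      · exact h1 a (Or.inl h)
      · exact h1 a (Or.inr h)
      · rw [h4]
        exact h2 a (Or.inl h)
    intro u w huw
    by_cases hu : u = v
    · subst hu
      exact key w huw
    · by_cases hw : w = v
      · subst hw
        have := key u huw.symm
        rw [← neg_sub (p u), ← neg_sub (M (some u)), neg_dotProduct, dotProduct_neg,
          neg_neg] at this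
        exact this
      · have h := hm' _ _ ((hs.adj₃ u w hu hw).mpr huw)
        rw [dir_of_ne (by simp) (by simp), pt_zero, pt_zero] at h
        exact h
  intro x y _
  have h7 := hInf _ h6 (x.getD v) (y.getD v)
  rw [pt_zero, pt_zero]
  have h8 : (fun i => m (x, i) - m (y, i)) = M (some (x.getD v)) - M (some (y.getD v)) := by
    rw [← h5, ← h5]
    rfl
  rw [h8]
  exact h7

/-- Trivial motions are in the kernel. -/
theorem le_ker_dirMat [DecidableRel G.Adj] (p : V → Fin d → ℝ) (v : V) (z : Fin d → ℝ) {t : ℝ}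
    (ht : t ≠ 0) :
    LinearMap.ker (rigMat (fun _ _ : Option V => True) (pt p v z t)).mulVecLin ≤
      LinearMap.ker (dirMat G.Adj (dir p v z t)).mulVecLin := by
  intro m hm
  rw [mem_ker_rigMat] at hm
  rw [mem_ker_dirMat]
  have hz : z ⬝ᵥ (fun i => m (some v, i) - m (none, i)) = 0 := by
    have h := hm (some v) none trivial
    rw [pt_some_self, pt_none, add_sub_cancel_left, smul_dotProduct, smul_eq_mul] at h
    exact (mul_eq_zero.mp h).resolve_left ht
  intro x y _
  by_cases h1 : x = some v ∧ y = none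
  · rw [h1.1, h1.2, dir_bridge]
    exact hz
  · by_cases h2 : x = none ∧ y = some v
    · rw [h2.1, h2.2, dir_bridge', neg_dotProduct]
      have h3 : (fun i => m (none, i) - m (some v, i)) =
          - (fun i => m (some v, i) - m (none, i)) := by
        funext i
        simp
      rw [h3, dotProduct_neg, hz]
      simp
    · rw [dir_of_ne h1 h2]
      exact hm x y trivial

theorem finrank_ker_dirMat [DecidableRel G.Adj] (hs : IsSplit H v A₁ C A₂ G d) (hp : Generic p)
    (haff : AffSpan p) (hInf : InfRigid H p) (hA₁ : A₁.Nonempty)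
    {ν : Fin d → ℝ} (hν : ν ≠ 0) (hνC : ∀ c ∈ C, ν ⬝ᵥ (p v - p c) = 0)
    {z : Fin d → ℝ} (hz : z ⬝ᵥ ν ≠ 0) {t : ℝ} (ht : t ≠ 0) :
    finrank ℝ (LinearMap.ker (dirMat G.Adj (dir p v z 0)).mulVecLin) ≤
      finrank ℝ (LinearMap.ker (rigMat (fun _ _ : Option V => True) (pt p v z t)).mulVecLin) ∧
    finrank ℝ (LinearMap.ker (rigMat (fun _ _ : Option V => True) (pt p v z t)).mulVecLin) ≤
      finrank ℝ (LinearMap.ker (dirMat G.Adj (dir p v z t)).mulVecLin) := by
  have h1 := Submodule.finrank_mono (ker_dirMat_zero_le hs hp hInf hA₁ hν hνC hz)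
  have h2 := Submodule.finrank_mono (le_ker_dirMat (G := G) p v z ht)
  rw [finrank_triv (affSpan_pt haff v z 0) none] at h1
  rw [finrank_triv (affSpan_pt haff v z t) none] at h2 ⊢
  exact ⟨h1, h2⟩

omit [Fintype V] in
theorem tendsto_dirMat [DecidableRel G.Adj] (p : V → Fin d → ℝ) (v : V) (z : Fin d → ℝ)
    (e : Option V × Option V) (x : Option V × Fin d) :
    Tendsto (fun t => dirMat G.Adj (dir p v z t) e x) (𝓝[≠] 0)
      (𝓝 (dirMat G.Adj (dir p v z 0) e x)) := by
  unfold dirMat
  by_cases h : G.Adj e.1 e.2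
  · simp only [h, if_true]
    exact (tendsto_dir p v z e.1 e.2 x.2).mul tendsto_const_nhds
  · simp only [h, if_false]
    exact tendsto_const_nhds

/-- **(A1)** nearby placements are infinitesimally rigid. -/
theorem infRigid_small (hs : IsSplit H v A₁ C A₂ G d) (hp : Generic p)
    (haff : AffSpan p) (hInf : InfRigid H p) (hA₁ : A₁.Nonempty)
    {ν : Fin d → ℝ} (hν : ν ≠ 0) (hνC : ∀ c ∈ C, ν ⬝ᵥ (p v - p c) = 0)
    {z : Fin d → ℝ} (hz : z ⬝ᵥ ν ≠ 0) :
    ∀ᶠ t in 𝓝[≠] (0 : ℝ), InfRigid G (pt p v z t) ∧ AffSpan (pt p v z t) := by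
  classical
  have h1 := nullity_usc (l := 𝓝[≠] (0 : ℝ)) (tendsto_dirMat (G := G) p v z)
  filter_upwards [h1, self_mem_nhdsWithin] with t ht ht0
  have ht0' : t ≠ 0 := ht0
  refine ⟨?_, affSpan_pt haff v z t⟩
  obtain ⟨h2, h3⟩ := finrank_ker_dirMat hs hp haff hInf hA₁ hν hνC hz ht0'
  have heq := Submodule.eq_of_le_of_finrank_le (le_ker_dirMat (G := G) p v z ht0')
    (ht.trans h2)
  intro m hm x y
  have h4 : (fun x : Option V × Fin d => m x.1 x.2) ∈
      LinearMap.ker (dirMat G.Adj (dir p v z t)).mulVecLin := by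
    rw [mem_ker_dirMat]
    have hz : z ⬝ᵥ (m (some v) - m none) = 0 := by
      have h := hm _ _ hs.bridge.symm
      rw [pt_some_self, pt_none, add_sub_cancel_left, smul_dotProduct, smul_eq_mul] at h
      exact (mul_eq_zero.mp h).resolve_left ht0'
    intro x y hxy
    show dir p v z t x y ⬝ᵥ (m x - m y) = 0
    by_cases h1 : x = some v ∧ y = none
    · rw [h1.1, h1.2, dir_bridge]
      exact hz
    · by_cases h2 : x = none ∧ y = some v
      · rw [h2.1, h2.2, dir_bridge', neg_dotProduct, ← neg_sub, dotProduct_neg, hz]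
        simp
      · rw [dir_of_ne h1 h2]
        exact hm x y hxy
  rw [← heq, mem_ker_rigMat] at h4
  exact h4 x y trivial

/-- **(A2)** a stress of the degenerate framework is a limit of stresses of nearby ones. -/
theorem exists_path (hs : IsSplit H v A₁ C A₂ G d) (hp : Generic p)
    (haff : AffSpan p) (hInf : InfRigid H p) (hA₁ : A₁.Nonempty)
    {ν : Fin d → ℝ} (hν : ν ≠ 0) (hνC : ∀ c ∈ C, ν ⬝ᵥ (p v - p c) = 0)
    {z : Fin d → ℝ} (hz : z ⬝ᵥ ν ≠ 0) {W₀ : Option V → Option V → ℝ}
    (hW₀ : KerF G p v z 0 W₀) :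
    ∃ W : ℝ → Option V → Option V → ℝ,
      (∀ x y, Tendsto (fun t => W t x y) (𝓝[≠] 0) (𝓝 (W₀ x y))) ∧
      ∀ᶠ t in 𝓝[≠] (0 : ℝ), KerF G p v z t (W t) := by
  classical
  have hsymmE : ∀ a b, G.Adj a b → G.Adj b a := fun a b h => h.symm
  obtain ⟨X, hX1, hX2⟩ := ker_approx (l := 𝓝[≠] (0 : ℝ))
    (A := fun t => (dirMat G.Adj (dir p v z t))ᵀ) (A₀ := (dirMat G.Adj (dir p v z 0))ᵀ)
    (C := fun e => W₀ e.1 e.2 / 2)
    (fun i j => tendsto_dirMat (G := G) p v z j i)
    (by
      filter_upwards [self_mem_nhdsWithin] with t ht0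
      have ht0' : t ≠ 0 := ht0
      rw [Matrix.rank_transpose, Matrix.rank_transpose]
      obtain ⟨h2, h3⟩ := finrank_ker_dirMat hs hp haff hInf hA₁ hν hνC hz ht0'
      have k1 := rank_add_finrank_ker (dirMat G.Adj (dir p v z t))
      have k2 := rank_add_finrank_ker (dirMat G.Adj (dir p v z 0))
      omega)
    (by
      rw [Matrix.mulVec_transpose]
      funext x
      obtain ⟨x, i⟩ := x
      rw [vecMul_dirMat G.Adj hsymmE _ (dir_neg p v z 0)]
      have h := congrFun (hW₀.force x) i
      rw [Finset.sum_apply, Pi.zero_apply] at h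
      rw [Pi.zero_apply]
      refine Eq.trans ?_ h
      refine Finset.sum_congr rfl fun y _ => ?_
      rw [Pi.smul_apply, smul_eq_mul]
      by_cases hxy : G.Adj x y
      · rw [if_pos hxy, hW₀.symm y x]
        ring
      · rw [if_neg hxy, hW₀.supp x y hxy])
  refine ⟨fun t x y => if G.Adj x y then X t (x, y) + X t (y, x) else 0, ?_, ?_⟩
  · intro x y
    by_cases hxy : G.Adj x y
    · simp only [hxy, if_true]
      have := (hX2 (x, y)).add (hX2 (y, x))
      rw [hW₀.symm y x] at this
      simpa using this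
    · simp only [hxy, if_false, hW₀.supp x y hxy]
      exact tendsto_const_nhds
  · filter_upwards [hX1] with t ht
    rw [Matrix.mulVec_transpose] at ht
    refine ⟨⟨?_, ?_⟩, ?_⟩
    · intro x y
      by_cases hxy : G.Adj x y
      · rw [if_pos hxy, if_pos hxy.symm, add_comm]
      · rw [if_neg hxy, if_neg (fun h => hxy h.symm)]
    · intro x y hxy
      rw [if_neg hxy]
    · intro x
      funext i
      have h := congrFun ht (x, i)
      rw [vecMul_dirMat G.Adj hsymmE _ (dir_neg p v z t)] at h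
      rw [Finset.sum_apply]
      exact h

theorem isStress_scal {z : Fin d → ℝ} {t : ℝ} (ht : t ≠ 0) {W : Option V → Option V → ℝ}
    (h : KerF G p v z t W) : IsStress G (pt p v z t) (scal v t W) := by
  refine ⟨?_, ?_, ?_⟩
  · intro x y
    unfold scal
    by_cases h1 : (x = some v ∧ y = none) ∨ (x = none ∧ y = some v)
    · have h2 : (y = some v ∧ x = none) ∨ (y = none ∧ x = some v) := by tauto
      rw [if_pos h1, if_pos h2, h.symm]
    · have h2 : ¬ ((y = some v ∧ x = none) ∨ (y = none ∧ x = some v)) := by tauto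
      rw [if_neg h1, if_neg h2, h.symm]
  · intro x y hxy
    unfold scal
    rw [h.supp x y hxy, zero_div, ite_self]
  · intro i
    funext x
    have h1 := congrFun (h.force x) i
    rw [Finset.sum_apply, Pi.zero_apply] at h1
    rw [Pi.zero_apply]
    refine Eq.trans ?_ h1
    unfold Lap
    refine Finset.sum_congr rfl fun y _ => ?_
    rw [Pi.smul_apply, smul_eq_mul]
    unfold scal
    by_cases h1 : x = some v ∧ y = none
    · rw [if_pos (Or.inl h1), h1.1, h1.2, dir_bridge]
      simp only [pt_some_self, pt_none, Pi.add_apply, Pi.smul_apply, smul_eq_mul, add_sub_cancel_left]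
      field_simp
    · by_cases h2 : x = none ∧ y = some v
      · rw [if_pos (Or.inr h2), h2.1, h2.2, dir_bridge']
        simp only [pt_some_self, pt_none, Pi.add_apply, Pi.smul_apply, smul_eq_mul, Pi.neg_apply]
        field_simp
        ring
      · rw [if_neg (by tauto), dir_of_ne h1 h2, Pi.sub_apply]

end split

end Pool.Agent.Lib.P6a51b6
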