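import Pool.Agent.Lib.P6a51b6.SplitDefs

/-!
# Lifting stresses to the degenerate split framework
-/

set_option autoImplicit false

namespace Pool.Agent.Lib.P6a51b6

open scoped Matrix Topology
open Filter Module

variable {V : Type*} {d : ℕ}

variable [Fintype V] [DecidableEq V] {H : SimpleGraph V} {G : SimpleGraph (Option V)}
  {p : V → Fin d → ℝ} {v : V} {A₁ C A₂ : Finset V} {z ν : Fin d → ℝ} {t : ℝ}

/-- (A3) every stress lifts. -/
theorem exists_lift (hs : IsSplit H v A₁ C A₂ G d) (hA₁ : A₁.Nonempty) (hp : Generic p)
    (hν : ν ≠ 0) (hνC : ∀ c ∈ C, ν ⬝ᵥ (p v - p c) = 0) (hz : z ⬝ᵥ ν ≠ 0)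
    {w : V → V → ℝ} (hw : IsStress H p w) :
    ∃ W₀, KerF G p v z 0 W₀ ∧ proj v W₀ = w := by
  obtain ⟨a₀, ha₀⟩ := hA₁
  have hvC : v ∉ C := fun h => H.irrefl ((hs.nbr v).mpr (Or.inr (Or.inl h)))
  have hvA₁ : v ∉ A₁ := fun h => H.irrefl ((hs.nbr v).mpr (Or.inl h))
  have hvA₂ : v ∉ A₂ := fun h => H.irrefl ((hs.nbr v).mpr (Or.inr (Or.inr h)))
  have ha₀v : a₀ ≠ v := fun h => hvA₁ (h ▸ ha₀)
  -- solve for the weights at `C` and the bridge
  obtain ⟨α, μ, hαμ⟩ : ∃ (α : V → ℝ) (μ : ℝ), ∑ c ∈ C, α c • (p v - p c) + μ • z =
      - ∑ a ∈ A₁, w v a • (p v - p a) := by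
    set L : ((V → ℝ) × ℝ) →ₗ[ℝ] (Fin d → ℝ) :=
      { toFun := fun x => ∑ c ∈ C, x.1 c • (p v - p c) + x.2 • z
        map_add' := fun x y => by
          simp only [Prod.fst_add, Prod.snd_add, Pi.add_apply, add_smul, Finset.sum_add_distrib]
          abel
        map_smul' := fun s x => by
          simp only [Prod.smul_fst, Prod.smul_snd, Pi.smul_apply, smul_eq_mul, mul_smul,
            RingHom.id_apply, smul_add, Finset.smul_sum] } with hL
    have hmem : - ∑ a ∈ A₁, w v a • (p v - p a) ∈ LinearMap.range L := by
      by_contra hcon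
      obtain ⟨f, hf, hfy⟩ := exists_sep hcon
      have hfC : ∀ c ∈ C, f ⬝ᵥ (p v - p c) = 0 := by
        intro c hc
        have h1 := hf _ ⟨(Pi.single c 1, 0), rfl⟩
        rw [hL, LinearMap.coe_mk, AddHom.coe_mk] at h1
        simp only [zero_smul, add_zero] at h1
        rw [Finset.sum_eq_single c] at h1
        · simpa using h1
        · intro b _ hb
          simp [hb]
        · intro h
          exact absurd hc h
      have hfz : f ⬝ᵥ z = 0 := by
        have h1 := hf _ ⟨(0, 1), rfl⟩
        rw [hL, LinearMap.coe_mk, AddHom.coe_mk] at h1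
        simpa using h1
      obtain ⟨s, hs'⟩ := perp_unique hp hs.card hvC ha₀v (hs.disj₁ a₀ ha₀) hν hνC hfC
      rw [hs', smul_dotProduct, smul_eq_mul, dotProduct_comm ν z] at hfz
      rcases mul_eq_zero.mp hfz with h | h
      · apply hfy
        rw [hs', h, zero_smul, zero_dotProduct]
      · exact hz h
    obtain ⟨x, hx⟩ := hmem
    exact ⟨x.1, x.2, hx⟩
  set row1 : V → ℝ := fun a => if a ∈ A₁ then w v a else if a ∈ C then α a else 0 with hrow1
  set row2 : V → ℝ := fun a => if a ∈ A₂ then w v a else if a ∈ C then w v a - α a else 0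
    with hrow2
  have hrow : ∀ u, row1 u + row2 u = w v u := by
    intro u
    simp only [hrow1, hrow2]
    by_cases h1 : u ∈ A₁
    · rw [if_pos h1, if_neg (hs.disj₃ u h1), if_neg (hs.disj₁ u h1), add_zero]
    · by_cases h2 : u ∈ A₂
      · rw [if_neg h1, if_pos h2, if_neg (hs.disj₂ u h2), zero_add]
      · by_cases h3 : u ∈ C
        · rw [if_neg h1, if_neg h2, if_pos h3, if_pos h3]
          ring
        · rw [if_neg h1, if_neg h2, if_neg h3, if_neg h3, hw.supp v u (by rw [hs.nbr]; tauto),
            add_zero]
  set W₀ : Option V → Option V → ℝ := fun x y =>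
    x.elim (y.elim 0 (fun u => if u = v then μ else row2 u))
      (fun u => y.elim (if u = v then μ else row2 u) (fun u' =>
        if u = v then (if u' = v then 0 else row1 u') else (if u' = v then row1 u else w u u')))
    with hW₀
  have hproj : proj v W₀ = w := by
    funext u u'
    by_cases h : u = v <;> by_cases h' : u' = v
    · subst h h'
      simp [proj, hw.supp u' u' H.irrefl]
    · subst h
      simp only [proj, hW₀, if_true, h', if_false, Option.elim_some, Option.elim_none]
      exact hrow u'
    · subst h'
      simp only [proj, hW₀, if_true, h, if_false, Option.elim_some, Option.elim_none]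
      rw [hw.symm]
      exact hrow u
    · simp only [proj, hW₀, h, h', if_false, Option.elim_some]
  have hr1 : ∀ u, u ≠ v → ¬ G.Adj (some v) (some u) → row1 u = 0 := by
    intro u hu h
    rw [hs.adj₁ u hu] at h
    push Not at h
    simp only [hrow1, if_neg h.1, if_neg h.2]
  have hr2 : ∀ u, u ≠ v → ¬ G.Adj none (some u) → row2 u = 0 := by
    intro u hu h
    rw [hs.adj₂ u hu] at h
    push Not at h
    simp only [hrow2, if_neg h.1, if_neg h.2]
  have hss : SymSupp G W₀ := by
    constructor
    · rintro (_ | u) (_ | u')
      · rfl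
      · rfl
      · rfl
      · simp only [hW₀, Option.elim_some]
        by_cases h : u = v <;> by_cases h' : u' = v
        · simp [h, h']
        · simp [h, h']
        · simp [h, h']
        · simp only [h, h', if_false]
          exact hw.symm u u'
    · rintro (_ | u) (_ | u') hxy
      · rfl
      · simp only [hW₀, Option.elim_some, Option.elim_none]
        by_cases h' : u' = v
        · subst h'
          exact absurd hs.bridge hxy
        · rw [if_neg h']
          exact hr2 u' h' hxy
      · simp only [hW₀, Option.elim_some, Option.elim_none]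
        by_cases h' : u = v
        · subst h'
          exact absurd hs.bridge.symm hxy
        · rw [if_neg h']
          exact hr2 u h' (fun h => hxy h.symm)
      · simp only [hW₀, Option.elim_some]
        by_cases h : u = v <;> by_cases h' : u' = v
        · simp [h, h']
        · subst h
          simp only [h', if_true, if_false]
          exact hr1 u' h' hxy
        · subst h'
          simp only [h, if_true, if_false]
          exact hr1 u h (fun h => hxy h.symm)
        · simp only [h, h', if_false]
          apply hw.supp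
          rw [← hs.adj₃ u u' h h']
          exact hxy
  have hforce_v : ∑ y, W₀ (some v) y • dir p v z 0 (some v) y = 0 := by
    rw [Fintype.sum_option, dir_some_none]
    have h1 : W₀ (some v) none = μ := by simp [hW₀]
    have h2 : ∑ u, W₀ (some v) (some u) • dir p v z 0 (some v) (some u) =
        ∑ a ∈ A₁, w v a • (p v - p a) + ∑ c ∈ C, α c • (p v - p c) := by
      have h3 : ∀ u, W₀ (some v) (some u) • dir p v z 0 (some v) (some u) =
          (if u ∈ A₁ then w v u • (p v - p u) else 0) +
          (if u ∈ C then α u • (p v - p u) else 0) := by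
        intro u
        rw [dir_of_not (by simp)]
        simp only [pt_zero, Option.getD_some]
        by_cases huv : u = v
        · subst huv
          simp [hvA₁, hvC]
        · have h4 : W₀ (some v) (some u) = row1 u := by simp [hW₀, huv]
          rw [h4]
          simp only [hrow1]
          by_cases h5 : u ∈ A₁
          · simp [h5, hs.disj₁ u h5]
          · by_cases h6 : u ∈ C
            · simp [h5, h6]
            · simp [h5, h6]
      simp only [h3, Finset.sum_add_distrib]
      rw [Finset.sum_ite_mem, Finset.sum_ite_mem, Finset.univ_inter, Finset.univ_inter]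
    rw [h1, h2]
    have h5 : μ • z + (∑ a ∈ A₁, w v a • (p v - p a) + ∑ c ∈ C, α c • (p v - p c)) =
        (∑ c ∈ C, α c • (p v - p c) + μ • z) + ∑ a ∈ A₁, w v a • (p v - p a) := by abel
    rw [h5, hαμ, neg_add_cancel]
  refine ⟨W₀, ⟨hss, ?_⟩, hproj⟩
  rintro (_ | u)
  · funext i
    rw [force_zero_apply]
    have h1 := congrFun hforce_v i
    rw [force_zero_apply] at h1
    have h2 := Lap_some_add_none (v := v) W₀ (fun u => p u i)
    rw [hproj, hw.eq i] at h2
    have h3 := hss.symm none (some v)
    simp only [if_true, Pi.zero_apply] at h1 h2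
    simp only [reduceCtorEq, if_false, if_true, Pi.zero_apply]
    rw [h3]
    linarith
  · by_cases huv : u = v
    · subst huv
      exact hforce_v
    · funext i
      rw [force_zero_apply, Lap_some_ne W₀ (fun u => p u i) huv, hproj, hw.eq i]
      simp [huv]

end Pool.Agent.Lib.P6a51b6
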