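import Pool.Agent.Lib.P6a51b6.SplitA
import Pool.Agent.Lib.P6a51b6.SplitLift

/-!
# The case of a stress with nonzero bridge force
-/

set_option autoImplicit false

namespace Pool.Agent.Lib.P6a51b6

open scoped Matrix Topology
open Module Filter

theorem tendsto_lapMat {U : Type*} [Fintype U] [DecidableEq U] {α : Type*} {l : Filter α}
    {W : α → U → U → ℝ} {W₀ : U → U → ℝ}
    (h : ∀ x y, Tendsto (fun t => W t x y) l (𝓝 (W₀ x y))) (x y : U) :
    Tendsto (fun t => lapMat (W t) x y) l (𝓝 (lapMat W₀ x y)) := by
  unfold lapMat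
  by_cases hxy : x = y
  · simp only [hxy, if_true]
    exact (tendsto_finsetSum _ fun z _ => h y z).sub (h y y)
  · simp only [hxy, if_false]
    exact tendsto_const_nhds.sub (h x y)

section

variable {V : Type*} [Fintype V] [DecidableEq V] {d : ℕ} {H : SimpleGraph V} {v : V}
  {A₁ C A₂ : Finset V} {G : SimpleGraph (Option V)} {p : V → Fin d → ℝ}

omit [DecidableEq V] in
theorem IsStress.add_smul {w w' : V → V → ℝ} (hw : IsStress H p w) (hw' : IsStress H p w')
    (ε : ℝ) : IsStress H p (fun x y => w x y + ε * w' x y) where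
  symm x y := by rw [hw.symm x y, hw'.symm x y]
  supp x y h := by rw [hw.supp x y h, hw'.supp x y h, mul_zero, add_zero]
  eq i := by
    funext u
    have h1 := congrFun (hw.eq i) u
    have h2 := congrFun (hw'.eq i) u
    simp only [Lap, Pi.zero_apply] at h1 h2 ⊢
    have h3 : ∑ y, (w u y + ε * w' u y) * (p u i - p y i) =
        ∑ y, w u y * (p u i - p y i) + ε * ∑ y, w' u y * (p u i - p y i) := by
      rw [Finset.mul_sum, ← Finset.sum_add_distrib]
      exact Finset.sum_congr rfl fun y _ => by ring
    rw [h3, h1, h2, mul_zero, add_zero]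

/-- A stress of maximal rank with nonzero bridge force. -/
theorem exists_max_ne (haff : AffSpan p) {ν : Fin d → ℝ} {w w' : V → V → ℝ}
    (hw : IsStress H p w) (hmax : MaxStress p w) (hw' : IsStress H p w')
    (hl : ν ⬝ᵥ ∑ a ∈ A₁, w' v a • (p v - p a) ≠ 0) :
    ∃ w'', IsStress H p w'' ∧ MaxStress p w'' ∧ ν ⬝ᵥ ∑ a ∈ A₁, w'' v a • (p v - p a) ≠ 0 := by
  by_cases h0 : ν ⬝ᵥ ∑ a ∈ A₁, w v a • (p v - p a) = 0
  · have hlim : ∀ x y, Tendsto (fun ε : ℝ => w x y + ε * w' x y) (𝓝[≠] 0) (𝓝 (w x y)) := by
      intro x y
      have hc : Continuous (fun ε : ℝ => w x y + ε * w' x y) := by fun_prop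
      have := (hc.tendsto 0).mono_left (nhdsWithin_le_nhds (s := {0}ᶜ))
      simpa using this
    have h1 := nullity_usc (tendsto_lapMat hlim)
    have h2 : ∀ᶠ t in 𝓝[≠] (0:ℝ), t ≠ 0 := self_mem_nhdsWithin
    obtain ⟨ε, h3, hε⟩ := (h1.and h2).exists
    have hst := hw.add_smul hw' ε
    refine ⟨_, hst, maxStress_of_nullity haff hst v (h3.trans (nullity_of_maxStress haff v hmax)),
      ?_⟩
    have h4 : ∑ a ∈ A₁, (w v a + ε * w' v a) • (p v - p a) =
        ∑ a ∈ A₁, w v a • (p v - p a) + ε • ∑ a ∈ A₁, w' v a • (p v - p a) := by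
      rw [Finset.smul_sum, ← Finset.sum_add_distrib]
      exact Finset.sum_congr rfl fun a _ => by rw [add_smul, mul_smul]
    rw [h4, dotProduct_add, h0, zero_add, dotProduct_smul, smul_eq_mul]
    exact mul_ne_zero hε hl
  · exact ⟨w, hw, hmax, h0⟩

/-- weights without the bridge -/
def cutW (v : V) (W : Option V → Option V → ℝ) : Option V → Option V → ℝ := fun x y =>
  if (x = some v ∧ y = none) ∨ (x = none ∧ y = some v) then 0 else W x y

omit [Fintype V] in
theorem cutW_scal (v : V) (t : ℝ) (W : Option V → Option V → ℝ) :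
    cutW v (scal v t W) = cutW v W := by
  funext x y
  unfold cutW scal
  split_ifs <;> rfl

theorem Lap_cutW (v : V) (W : Option V → Option V → ℝ) (f : Option V → ℝ) (x : Option V) :
    Lap W f x = Lap (cutW v W) f x + (if x = some v then W (some v) none * (f (some v) - f none)
      else if x = none then W none (some v) * (f none - f (some v)) else 0) := by
  have h1 : ∀ y, W x y * (f x - f y) = cutW v W x y * (f x - f y) +
      (if x = some v ∧ y = none then W x y * (f x - f y) else 0) +
      (if x = none ∧ y = some v then W x y * (f x - f y) else 0) := by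
    intro y
    unfold cutW
    by_cases h : (x = some v ∧ y = none) ∨ (x = none ∧ y = some v)
    · rcases h with ⟨rfl, rfl⟩ | ⟨rfl, rfl⟩ <;> simp
    · rw [if_neg h]
      rw [not_or] at h
      rw [if_neg h.1, if_neg h.2]
      simp
  unfold Lap
  rw [Finset.sum_congr rfl fun y _ => h1 y, Finset.sum_add_distrib, Finset.sum_add_distrib,
    add_assoc]
  congr 1
  by_cases hx : x = some v
  · subst hx
    simp
  · by_cases hx' : x = none
    · subst hx'
      simp
    · simp [hx, hx']

/-- The row-reduced Laplacian. -/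
def Theta (v : V) (t : ℝ) (W : Option V → Option V → ℝ) : Matrix (Option V) (Option V) ℝ :=
  fun x y => if x = some v then t * lapMat (cutW v W) (some v) y +
      W (some v) none * ((if y = some v then 1 else 0) - (if y = none then 1 else 0))
    else if x = none then lapMat (cutW v W) (some v) y + lapMat (cutW v W) none y
    else lapMat (cutW v W) x y

theorem Theta_mulVec (v : V) (t : ℝ) (W : Option V → Option V → ℝ) (f : Option V → ℝ)
    (x : Option V) : (Theta v t W *ᵥ f) x =
      if x = some v then t * Lap (cutW v W) f (some v) + W (some v) none * (f (some v) - f none)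
      else if x = none then Lap (cutW v W) f (some v) + Lap (cutW v W) f none
      else Lap (cutW v W) f x := by
  have hL : ∀ x, Lap (cutW v W) f x = ∑ y, lapMat (cutW v W) x y * f y := by
    intro x
    rw [← lapMat_mulVec]
    rfl
  simp only [Matrix.mulVec, dotProduct, Theta, hL]
  by_cases hx : x = some v
  · subst hx
    simp only [if_true, Finset.mul_sum]
    have h1 : ∀ y, (t * lapMat (cutW v W) (some v) y +
        W (some v) none * ((if y = some v then 1 else 0) - (if y = none then 1 else 0))) * f y =
        t * (lapMat (cutW v W) (some v) y * f y) +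
        ((if y = some v then W (some v) none * f y else 0) -
          (if y = none then W (some v) none * f y else 0)) := by
      intro y
      split_ifs <;> ring
    rw [Finset.sum_congr rfl fun y _ => h1 y, Finset.sum_add_distrib, Finset.sum_sub_distrib,
      Finset.sum_ite_eq', Finset.sum_ite_eq']
    simp only [Finset.mem_univ, if_true]
    ring
  · by_cases hx' : x = none
    · subst hx'
      simp only [reduceCtorEq, if_false, if_true, add_mul, Finset.sum_add_distrib]
    · simp only [hx, hx', if_false]

theorem tendsto_Theta {W : ℝ → Option V → Option V → ℝ} {W₀ : Option V → Option V → ℝ}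
    (h : ∀ x y, Tendsto (fun t => W t x y) (𝓝[≠] 0) (𝓝 (W₀ x y))) (v : V) (x y : Option V) :
    Tendsto (fun t => Theta v t (W t) x y) (𝓝[≠] (0:ℝ)) (𝓝 (Theta v 0 W₀ x y)) := by
  have hcut : ∀ x y, Tendsto (fun t => cutW v (W t) x y) (𝓝[≠] (0:ℝ)) (𝓝 (cutW v W₀ x y)) := by
    intro x y
    unfold cutW
    split_ifs
    · exact tendsto_const_nhds
    · exact h x y
  have hL := tendsto_lapMat hcut
  have ht : Tendsto (fun t : ℝ => t) (𝓝[≠] (0:ℝ)) (𝓝 0) := tendsto_id.mono_left nhdsWithin_le_nhds
  unfold Theta
  by_cases hx : x = some v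
  · simp only [hx, if_true]
    exact (ht.mul (hL (some v) y)).add ((h _ _).mul tendsto_const_nhds)
  · by_cases hx' : x = none
    · simp only [hx', reduceCtorEq, if_false, if_true]
      exact (hL (some v) y).add (hL none y)
    · simp only [hx, hx', if_false]
      exact hL x y

theorem ker_Theta_zero {W₀ : Option V → Option V → ℝ} (hmax : MaxStress p (proj v W₀))
    (hμ : W₀ (some v) none ≠ 0) (z : Fin d → ℝ) :
    LinearMap.ker (Theta v 0 W₀).mulVecLin ≤ LinearMap.range (affMap (pt p v z 0)) := by
  intro f hf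
  rw [LinearMap.mem_ker, Matrix.mulVecLin_apply] at hf
  have h1 : f (some v) = f none := by
    have := congrFun hf (some v)
    rw [Theta_mulVec] at this
    simp only [if_true, zero_mul, zero_add, Pi.zero_apply] at this
    have h2 := (mul_eq_zero.mp this).resolve_left hμ
    linarith
  have hfx : ∀ x, f x = f (some (x.getD v)) := by
    intro x
    cases x with
    | none => exact h1.symm
    | some u => rfl
  have hff : (fun y : Option V => (fun u => f (some u)) (y.getD v)) = f := by
    funext x
    exact (hfx x).symm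
  have hcut : ∀ x, Lap W₀ f x = Lap (cutW v W₀) f x := by
    intro x
    rw [Lap_cutW v, h1]
    simp
  have h2 : Lap (proj v W₀) (fun u => f (some u)) = 0 := by
    funext u
    by_cases hu : u = v
    · subst hu
      rw [← Lap_some_add_none, hff, hcut, hcut]
      have := congrFun hf none
      rw [Theta_mulVec] at this
      simpa using this
    · rw [← Lap_some_ne W₀ _ hu, hff, hcut]
      have := congrFun hf (some u)
      rw [Theta_mulVec] at this
      simpa [hu] using this
  obtain ⟨b, β, hb⟩ := hmax _ h2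
  refine ⟨(b, β), ?_⟩
  funext x
  rw [hfx x, hb]
  simp only [affMap, LinearMap.coe_mk, AddHom.coe_mk, pt_zero]

theorem ker_le_Theta {W : Option V → Option V → ℝ} (hsymm : ∀ x y, W x y = W y x) {t : ℝ}
    (ht : t ≠ 0) :
    LinearMap.ker (lapMat (scal v t W)).mulVecLin ≤ LinearMap.ker (Theta v t W).mulVecLin := by
  intro f hf
  rw [mem_ker_lapMat] at hf
  rw [LinearMap.mem_ker, Matrix.mulVecLin_apply]
  have h0 : ∀ x, Lap (cutW v W) f x + (if x = some v then W (some v) none / t *
      (f (some v) - f none) else if x = none then W none (some v) / t * (f none - f (some v))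
        else 0) = 0 := by
    intro x
    have h := congrFun hf x
    rw [Lap_cutW v, cutW_scal] at h
    simpa [scal] using h
  have e1 := h0 (some v)
  have e2 := h0 none
  simp only [if_true] at e1
  simp only [reduceCtorEq, if_false, if_true, hsymm none (some v)] at e2
  funext x
  rw [Theta_mulVec]
  by_cases hx : x = some v
  · subst hx
    simp only [if_true, Pi.zero_apply]
    have e3 : t * (Lap (cutW v W) f (some v) + W (some v) none / t * (f (some v) - f none)) = 0 := by
      rw [e1, mul_zero]
    rw [mul_add, ← mul_assoc, mul_div_cancel₀ _ ht] at e3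
    exact e3
  · by_cases hx' : x = none
    · subst hx'
      simp only [reduceCtorEq, if_false, if_true, Pi.zero_apply]
      have e4 : W (some v) none / t * (f none - f (some v)) =
          - (W (some v) none / t * (f (some v) - f none)) := by ring
      rw [e4] at e2
      linarith
    · simp only [hx, hx', if_false, Pi.zero_apply]
      have := h0 x
      simpa [hx, hx'] using this

/-- **Case 1**: some stress has a nonzero bridge force. -/
theorem case_one (hs : IsSplit H v A₁ C A₂ G d) (hp : Generic p)
    (haff : AffSpan p) (hInf : InfRigid H p) (hA₁ : A₁.Nonempty)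
    {ν : Fin d → ℝ} (hν : ν ≠ 0) (hνC : ∀ c ∈ C, ν ⬝ᵥ (p v - p c) = 0)
    {w w' : V → V → ℝ} (hw : IsStress H p w) (hmax : MaxStress p w) (hw' : IsStress H p w')
    (hl : ν ⬝ᵥ ∑ a ∈ A₁, w' v a • (p v - p a) ≠ 0) :
    ∃ (p₁ : Option V → Fin d → ℝ) (w₁ : Option V → Option V → ℝ),
      InfRigid G p₁ ∧ AffSpan p₁ ∧ IsStress G p₁ w₁ ∧ MaxStress p₁ w₁ := by
  obtain ⟨w'', hw'', hmax'', hl''⟩ := exists_max_ne haff hw hmax hw' hl
  have hz : ν ⬝ᵥ ν ≠ 0 := by
    intro h
    exact hν (dotProduct_self_eq_zero.mp h)
  obtain ⟨W₀, hW₀, hproj⟩ := exists_lift hs hA₁ hp hν hνC hz hw''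
  have hμ : W₀ (some v) none ≠ 0 := by
    intro h
    have h1 := hW₀.mu_eq hs hνC
    rw [h, zero_mul, hproj] at h1
    exact hl'' (by linarith)
  obtain ⟨W, hW1, hW2⟩ := exists_path hs hp haff hInf hA₁ hν hνC hz hW₀
  have h1 := nullity_usc (tendsto_Theta hW1 v)
  have h2 : ∀ᶠ t in 𝓝[≠] (0:ℝ), t ≠ 0 := self_mem_nhdsWithin
  have h3 := infRigid_small hs hp haff hInf hA₁ hν hνC hz
  obtain ⟨t, hWt, hth, ht, hir, haf⟩ := (hW2.and (h1.and (h2.and h3))).exists
  have hst := isStress_scal ht hWt
  refine ⟨_, _, hir, haf, hst, maxStress_of_nullity haf hst none ?_⟩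
  have k1 := Submodule.finrank_mono (ker_le_Theta (v := v) hWt.symm ht)
  have k2 := Submodule.finrank_mono (ker_Theta_zero (hproj ▸ hmax'') hμ ν)
  rw [finrank_affMap (affSpan_pt haff v ν 0) none] at k2
  exact k1.trans (hth.trans k2)

end

end Pool.Agent.Lib.P6a51b6
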