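import Pool.Agent.Lib.P6a51b6.SplitConcl
import Pool.Agent.Lib.P6a51b6.SplitLift
import Pool.Agent.Lib.P6a51b6.Energy

/-!
# The case where the bridge carries no stress in the limit
-/

set_option autoImplicit false

namespace Pool.Agent.Lib.P6a51b6

open scoped Matrix Topology
open Filter Module

variable {V : Type*} {d : ℕ}

theorem sum_Lap_symm {U : Type*} [Fintype U] {w : U → U → ℝ} (hw : ∀ x y, w x y = w y x)
    (X Y : U → ℝ) : ∑ x, Y x * Lap w X x = ∑ x, X x * Lap w Y x := by
  have h1 : ∀ X Y : U → ℝ, ∑ x, Y x * Lap w X x =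
      ∑ x, ∑ y, w x y * (X x * Y x) - ∑ x, ∑ y, w x y * (Y x * X y) := by
    intro X Y
    rw [← Finset.sum_sub_distrib]
    refine Finset.sum_congr rfl fun x _ => ?_
    unfold Lap
    rw [Finset.mul_sum, ← Finset.sum_sub_distrib]
    exact Finset.sum_congr rfl fun y _ => by ring
  rw [h1, h1]
  congr 1
  · exact Finset.sum_congr rfl fun x _ => Finset.sum_congr rfl fun y _ => by ring
  · rw [Finset.sum_comm]
    exact Finset.sum_congr rfl fun x _ => Finset.sum_congr rfl fun y _ => by rw [hw]; ring

/-- antisymmetrisation -/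
theorem sum_antisymm {U : Type*} [Fintype U] {g : U → U → Fin d → ℝ}
    (hg : ∀ x y, g y x = - g x y) (m : U → Fin d → ℝ) :
    2 * ∑ x, m x ⬝ᵥ ∑ y, g x y = ∑ x, ∑ y, (m x - m y) ⬝ᵥ g x y := by
  have h1 : ∑ x, m x ⬝ᵥ ∑ y, g x y = ∑ x, ∑ y, m x ⬝ᵥ g x y := by
    refine Finset.sum_congr rfl fun x _ => ?_
    rw [dotProduct_sum]
  have h2 : ∑ x, ∑ y, m y ⬝ᵥ g x y = - ∑ x, ∑ y, m x ⬝ᵥ g x y := by
    rw [Finset.sum_comm, ← Finset.sum_neg_distrib]
    refine Finset.sum_congr rfl fun x _ => ?_
    rw [← Finset.sum_neg_distrib]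
    refine Finset.sum_congr rfl fun y _ => ?_
    rw [hg x y, dotProduct_neg]
  simp only [sub_dotProduct, Finset.sum_sub_distrib]
  rw [h1, h2]
  ring

variable [Fintype V] [DecidableEq V] {H : SimpleGraph V} {G : SimpleGraph (Option V)}
  {p : V → Fin d → ℝ} {v : V} {A₁ C A₂ : Finset V} {z ν : Fin d → ℝ} {t : ℝ}

theorem KerF.change_z {W₀ : Option V → Option V → ℝ} (hW : KerF G p v z 0 W₀)
    (h0 : W₀ (some v) none = 0) (z' : Fin d → ℝ) : KerF G p v z' 0 W₀ where
  toSymSupp := hW.toSymSupp
  force := by
    intro x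
    have h0' : W₀ none (some v) = 0 := by rw [hW.symm, h0]
    funext i
    have h1 := congrFun (hW.force x) i
    rw [force_zero_apply, h0, h0'] at h1
    rw [force_zero_apply, h0, h0']
    simpa using h1

/-- weights with prescribed value on the bridge -/
def bw (v : V) (κ : ℝ) (W : Option V → Option V → ℝ) : Option V → Option V → ℝ := fun x y =>
  if (x = some v ∧ y = none) ∨ (x = none ∧ y = some v) then κ else W x y

theorem Lap_bw {W₀ : Option V → Option V → ℝ} (h0 : W₀ (some v) none = 0)
    (h0' : W₀ none (some v) = 0) (κ : ℝ) (X : Option V → ℝ) (x : Option V) :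
    Lap (bw v κ W₀) X x = Lap W₀ X x + κ * (X (some v) - X none) *
      ((if x = some v then 1 else 0) - (if x = none then 1 else 0)) := by
  unfold Lap
  have h1 : ∀ y, bw v κ W₀ x y * (X x - X y) = W₀ x y * (X x - X y) +
      ((if x = some v ∧ y = none then κ * (X (some v) - X none) else 0) +
      (if x = none ∧ y = some v then κ * (X none - X (some v)) else 0)) := by
    intro y
    by_cases h : (x = some v ∧ y = none) ∨ (x = none ∧ y = some v)
    · rcases h with ⟨rfl, rfl⟩ | ⟨rfl, rfl⟩
      · simp [bw, h0]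
      · simp [bw, h0']
    · have h2 := h
      rw [not_or] at h2
      rw [bw, if_neg h, if_neg h2.1, if_neg h2.2]
      ring
  simp only [h1, Finset.sum_add_distrib]
  congr 1
  by_cases hx : x = some v
  · subst hx
    simp
  · by_cases hx' : x = none
    · subst hx'
      simp
      ring
    · simp [hx, hx']

/-- the exceptional motion -/
theorem exists_special_motion (hs : IsSplit H v A₁ C A₂ G d) (hA₁ : A₁.Nonempty) (hp : Generic p)
    (hν : ν ≠ 0) (hνC : ∀ c ∈ C, ν ⬝ᵥ (p v - p c) = 0)
    (hlam : ∀ w', IsStress H p w' → ν ⬝ᵥ ∑ a ∈ A₁, w' v a • (p v - p a) = 0) :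
    ∃ m : Option V → Fin d → ℝ,
      (∀ x y, G.Adj x y → ¬ ((x = some v ∧ y = none) ∨ (x = none ∧ y = some v)) →
        (m x - m y) ⬝ᵥ (p (x.getD v) - p (y.getD v)) = 0) ∧ m (some v) - m none = ν := by
  classical
  obtain ⟨a₀, ha₀⟩ := hA₁
  have hvC : v ∉ C := fun h => H.irrefl ((hs.nbr v).mpr (Or.inr (Or.inl h)))
  have hvA₁ : v ∉ A₁ := fun h => H.irrefl ((hs.nbr v).mpr (Or.inl h))
  have ha₀v : a₀ ≠ v := fun h => hvA₁ (h ▸ ha₀)
  have hνν : ν ⬝ᵥ ν ≠ 0 := by
    rw [Ne, dotProduct_self_eq_zero]
    exact hν
  set L : (Option V → Fin d → ℝ) →ₗ[ℝ] (Option V × Option V → ℝ) :=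
    { toFun := fun m e => if G.Adj e.1 e.2 then (m e.1 - m e.2) ⬝ᵥ dir p v ν 0 e.1 e.2 else 0
      map_add' := fun m m' => by
        funext e
        simp only [Pi.add_apply]
        split_ifs
        · rw [← add_dotProduct]
          congr 1
          abel
        · simp
      map_smul' := fun s m => by
        funext e
        simp only [Pi.smul_apply, RingHom.id_apply, smul_eq_mul]
        split_ifs
        · rw [← smul_eq_mul, ← smul_dotProduct, smul_sub]
        · simp } with hL
  set b : Option V × Option V → ℝ := fun e =>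
    if (e.1 = some v ∧ e.2 = none) ∨ (e.1 = none ∧ e.2 = some v) then 1 else 0 with hb
  have hmem : b ∈ LinearMap.range L := by
    by_contra hcon
    obtain ⟨f, hf, hfb⟩ := exists_sep hcon
    set g : Option V → Option V → ℝ := fun x y => if G.Adj x y then f (x, y) else 0 with hg
    set W : Option V → Option V → ℝ := fun x y => g x y + g y x with hW
    have hker : KerF G p v ν 0 W := by
      refine ⟨⟨fun x y => by simp only [hW]; ring, ?_⟩, ?_⟩
      · intro x y h
        simp only [hW, hg, if_neg h, if_neg (fun h' : G.Adj y x => h h'.symm), add_zero]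
      · -- test against every `m`
        have hall : ∀ m : Option V → Fin d → ℝ,
            ∑ x, m x ⬝ᵥ ∑ y, W x y • dir p v ν 0 x y = 0 := by
          intro m
          have h1 := sum_antisymm (g := fun x y => W x y • dir p v ν 0 x y) (fun x y => by
            simp only [hW]
            rw [dir_antisymm x y, smul_neg, add_comm]) m
          have h2 : ∑ x, ∑ y, (m x - m y) ⬝ᵥ (W x y • dir p v ν 0 x y) =
              2 * ∑ x, ∑ y, g x y * ((m x - m y) ⬝ᵥ dir p v ν 0 x y) := by
            have h3 : ∑ x, ∑ y, g y x * ((m x - m y) ⬝ᵥ dir p v ν 0 x y) =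
                ∑ x, ∑ y, g x y * ((m x - m y) ⬝ᵥ dir p v ν 0 x y) := by
              rw [Finset.sum_comm]
              refine Finset.sum_congr rfl fun x _ => Finset.sum_congr rfl fun y _ => ?_
              rw [dir_antisymm x y, dotProduct_neg, ← neg_dotProduct, neg_sub]
            simp only [dotProduct_smul, smul_eq_mul, hW, add_mul, Finset.sum_add_distrib]
            rw [h3]
            ring
          have h4 : ∑ x, ∑ y, g x y * ((m x - m y) ⬝ᵥ dir p v ν 0 x y) = 0 := by
            have h5 := hf _ ⟨m, rfl⟩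
            rw [dotProduct, Fintype.sum_prod_type] at h5
            refine Eq.trans ?_ h5
            refine Finset.sum_congr rfl fun x _ => Finset.sum_congr rfl fun y _ => ?_
            simp only [hg, hL, LinearMap.coe_mk, AddHom.coe_mk]
            split_ifs <;> simp
          rw [h2, h4] at h1
          linarith
        intro x
        have h6 := hall (fun x' => if x' = x then ∑ y, W x y • dir p v ν 0 x y else 0)
        rw [Finset.sum_eq_single x] at h6
        · simp only [if_true] at h6
          exact dotProduct_self_eq_zero.mp h6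
        · intro y _ hy
          simp [hy]
        · intro h
          exact absurd (Finset.mem_univ x) h
    have h1 := hker.mu_eq hs hνC
    rw [hlam _ (hker.isStress_proj hs), neg_zero] at h1
    have h2 : W (some v) none = 0 := by
      rcases mul_eq_zero.mp h1 with h | h
      · exact h
      · exact absurd h hνν
    apply hfb
    have h3 : f ⬝ᵥ b = f (some v, none) + f (none, some v) := by
      rw [dotProduct, Fintype.sum_prod_type]
      have h4 : ∀ x y, f (x, y) * b (x, y) = (if x = some v ∧ y = none then f (some v, none) else 0)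
          + (if x = none ∧ y = some v then f (none, some v) else 0) := by
        intro x y
        by_cases h : (x = some v ∧ y = none) ∨ (x = none ∧ y = some v)
        · rcases h with ⟨rfl, rfl⟩ | ⟨rfl, rfl⟩ <;> simp [hb]
        · simp only [hb, if_neg h]
          rw [not_or] at h
          rw [if_neg h.1, if_neg h.2]
          ring
      simp only [h4, Finset.sum_add_distrib]
      congr 1
      · rw [Finset.sum_eq_single (some v)]
        · simp
        · intro y _ hy
          simp [hy]
        · intro h
          exact absurd (Finset.mem_univ _) h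
      · rw [Finset.sum_eq_single none]
        · simp
        · intro y _ hy
          simp [hy]
        · intro h
          exact absurd (Finset.mem_univ _) h
    rw [h3]
    simp only [hW, hg, if_pos hs.bridge, if_pos hs.bridge.symm] at h2
    exact h2
  obtain ⟨m, hm⟩ := hmem
  have hm1 : ∀ x y, G.Adj x y → (m x - m y) ⬝ᵥ dir p v ν 0 x y = b (x, y) := by
    intro x y hxy
    have h1 := congrFun hm (x, y)
    simp only [hL, LinearMap.coe_mk, AddHom.coe_mk, if_pos hxy] at h1
    exact h1
  have hm2 : ∀ x y, G.Adj x y → ¬ ((x = some v ∧ y = none) ∨ (x = none ∧ y = some v)) →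
      (m x - m y) ⬝ᵥ (p (x.getD v) - p (y.getD v)) = 0 := by
    intro x y hxy h
    have h1 := hm1 x y hxy
    rw [dir_of_not h] at h1
    simp only [pt_zero, hb, if_neg h] at h1
    exact h1
  have hm3 : (m (some v) - m none) ⬝ᵥ ν = 1 := by
    have h1 := hm1 (some v) none hs.bridge.symm
    simpa [hb] using h1
  have hm4 : ∀ c ∈ C, (m (some v) - m none) ⬝ᵥ (p v - p c) = 0 := by
    intro c hc
    have hcv : c ≠ v := fun h => hvC (h ▸ hc)
    have h1 := hm2 (some v) (some c) ((hs.adj₁ c hcv).mpr (Or.inr hc)) (by simp)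
    have h2 := hm2 none (some c) ((hs.adj₂ c hcv).mpr (Or.inr hc)) (by simp [hcv])
    simp only [Option.getD_some, Option.getD_none] at h1 h2
    have h3 : m (some v) - m none = (m (some v) - m (some c)) - (m none - m (some c)) := by abel
    rw [h3, sub_dotProduct, h1, h2, sub_zero]
  obtain ⟨s, hs'⟩ := perp_unique hp hs.card hvC ha₀v (hs.disj₁ a₀ ha₀) hν hνC hm4
  have hs0 : s ≠ 0 := by
    rintro rfl
    rw [hs', zero_smul, zero_dotProduct] at hm3
    exact zero_ne_one hm3
  refine ⟨fun x => s⁻¹ • m x, ?_, ?_⟩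
  · intro x y hxy h
    simp only
    rw [← smul_sub, smul_dotProduct, hm2 x y hxy h, smul_zero]
  · simp only
    rw [← smul_sub, hs', smul_smul, inv_mul_cancel₀ hs0, one_smul]

theorem pairing {m : Option V → Fin d → ℝ}
    (hm : ∀ x y, G.Adj x y → ¬ ((x = some v ∧ y = none) ∨ (x = none ∧ y = some v)) →
      (m x - m y) ⬝ᵥ (p (x.getD v) - p (y.getD v)) = 0) (hmν : m (some v) - m none = ν)
    {W : Option V → Option V → ℝ} (hW : KerF G p v z t W) :
    W (some v) none * (z ⬝ᵥ ν) =
      - t * ∑ u, W (some v) (some u) * (z ⬝ᵥ (m (some v) - m (some u))) := by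
  have h1 := sum_antisymm (g := fun x y => W x y • dir p v z t x y) (fun x y => by
    rw [hW.symm y x, dir_antisymm x y, smul_neg]) m
  have h2 : ∑ x, m x ⬝ᵥ ∑ y, W x y • dir p v z t x y = 0 := by
    refine Finset.sum_eq_zero fun x _ => ?_
    rw [hW.force x, dotProduct_zero]
  rw [h2, mul_zero] at h1
  set F : Option V → ℝ := fun y => y.elim (W (some v) none * (z ⬝ᵥ ν))
    (fun u => t * (W (some v) (some u) * (z ⬝ᵥ (m (some v) - m (some u))))) with hF
  have hterm : ∀ x y, (m x - m y) ⬝ᵥ (W x y • dir p v z t x y) =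
      (if x = some v then F y else 0) + (if y = some v then F x else 0) := by
    intro x y
    rw [dotProduct_smul, smul_eq_mul]
    by_cases h : (x = some v ∧ y = none) ∨ (x = none ∧ y = some v)
    · rcases h with ⟨rfl, rfl⟩ | ⟨rfl, rfl⟩
      · rw [dir_some_none, hmν, dotProduct_comm]
        simp [hF]
      · rw [dir_none_some, dotProduct_neg, ← neg_dotProduct, neg_sub, hmν, dotProduct_comm,
          hW.symm]
        simp [hF]
    · rw [dir_of_not h]
      by_cases hxy : G.Adj x y
      · have h3 := hm x y hxy h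
        have h4 : pt p v z t x - pt p v z t y = (p (x.getD v) - p (y.getD v)) +
            ((if x = some v then t else 0) - (if y = some v then t else 0)) • z := by
          unfold pt
          rw [sub_smul]
          abel
        rw [h4, dotProduct_add, h3, zero_add, dotProduct_smul, smul_eq_mul]
        by_cases hx : x = some v
        · by_cases hy : y = some v
          · subst hx hy
            simp [hF]
          · subst hx
            have hy' : y ≠ none := fun h' => h (Or.inl ⟨rfl, h'⟩)
            obtain ⟨u, rfl⟩ := Option.ne_none_iff_exists'.mp hy'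
            rw [if_pos rfl, if_neg hy, if_pos rfl, if_neg hy]
            simp only [hF, Option.elim_some]
            rw [dotProduct_comm z]
            ring
        · by_cases hy : y = some v
          · subst hy
            have hx' : x ≠ none := fun h' => h (Or.inr ⟨h', rfl⟩)
            obtain ⟨u, rfl⟩ := Option.ne_none_iff_exists'.mp hx'
            rw [if_neg hx, if_pos rfl, if_neg hx, if_pos rfl]
            simp only [hF, Option.elim_some]
            rw [dotProduct_comm z, ← neg_sub (m (some v)) (m (some u)), neg_dotProduct,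
              hW.symm (some u) (some v)]
            ring
          · rw [if_neg hx, if_neg hy, if_neg hx, if_neg hy]
            ring
      · rw [hW.supp x y hxy, zero_mul]
        by_cases hx : x = some v
        · by_cases hy : y = some v
          · subst hx hy
            simp [hF]
          · subst hx
            have hy' : y ≠ none := fun h' => h (Or.inl ⟨rfl, h'⟩)
            obtain ⟨u, rfl⟩ := Option.ne_none_iff_exists'.mp hy'
            rw [if_pos rfl, if_neg hy]
            simp only [hF, Option.elim_some]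
            rw [hW.supp _ _ hxy]
            ring
        · by_cases hy : y = some v
          · subst hy
            have hx' : x ≠ none := fun h' => h (Or.inr ⟨h', rfl⟩)
            obtain ⟨u, rfl⟩ := Option.ne_none_iff_exists'.mp hx'
            rw [if_neg hx, if_pos rfl]
            simp only [hF, Option.elim_some]
            rw [hW.symm, hW.supp _ _ hxy]
            ring
          · rw [if_neg hx, if_neg hy, add_zero]
  have h5 : ∑ x, ∑ y, (m x - m y) ⬝ᵥ (W x y • dir p v z t x y) = 2 * ∑ y, F y := by
    simp only [hterm, Finset.sum_add_distrib]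
    rw [Finset.sum_comm (f := fun x y => if x = some v then F y else 0)]
    simp only [Finset.sum_ite_eq', Finset.mem_univ, if_true]
    ring
  rw [h5, Fintype.sum_option] at h1
  simp only [hF, Option.elim_none, Option.elim_some] at h1
  rw [← Finset.mul_sum] at h1
  linarith

/-- If the Laplacian of the limit has too large a kernel, there is a kernel vector separating the
two new vertices. -/
theorem exists_bad {w : V → V → ℝ} (hmax : MaxStress p w)
    {W₀ : Option V → Option V → ℝ} (h0 : W₀ (some v) none = 0) (h0' : W₀ none (some v) = 0)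
    (hproj : proj v W₀ = w) (κ : ℝ)
    (hbad : ¬ Fintype.card (Option V) ≤ (lapMat (bw v κ W₀)).rank + (d + 1)) :
    ∃ X : Option V → ℝ, Lap (bw v κ W₀) X = 0 ∧ X (some v) - X none = 1 := by
  by_contra hcon
  push Not at hcon
  have hall : ∀ X : Option V → ℝ, Lap (bw v κ W₀) X = 0 → X (some v) = X none := by
    intro X hX
    by_contra hne
    have hne' : X (some v) - X none ≠ 0 := sub_ne_zero.mpr hne
    apply hcon ((X (some v) - X none)⁻¹ • X)
    · rw [Lap_smul, hX, smul_zero]
    · simp only [Pi.smul_apply, smul_eq_mul]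
      rw [← mul_sub, inv_mul_cancel₀ hne']
  -- the kernel embeds into the affine functions of `p`
  have h1 : ∀ X : Option V → ℝ, Lap (bw v κ W₀) X = 0 →
      ∃ (b : Fin d → ℝ) (β : ℝ), ∀ x, X x = b ⬝ᵥ p (x.getD v) + β := by
    intro X hX
    have hX0 : ∀ x, Lap W₀ X x = 0 := by
      intro x
      have := Lap_bw h0 h0' κ X x
      rw [hX, hall X hX] at this
      simp only [Pi.zero_apply, sub_self, mul_zero, zero_mul, add_zero] at this
      exact this.symm
    set f : V → ℝ := fun u => X (some u) with hf
    have hXf : X = fun y => f (y.getD v) := by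
      funext y
      cases y with
      | none => simp only [Option.getD_none, hf]; exact (hall X hX).symm
      | some u => rfl
    have hLf : Lap w f = 0 := by
      rw [← hproj]
      funext u
      by_cases hu : u = v
      · subst hu
        rw [← Lap_some_add_none, ← hXf, hX0, hX0]
        simp
      · rw [← Lap_some_ne W₀ f hu, ← hXf, hX0]
        rfl
    obtain ⟨b, β, hb⟩ := hmax f hLf
    exact ⟨b, β, fun x => by rw [hXf]; exact hb _⟩
  have h2 : LinearMap.ker (lapMat (bw v κ W₀)).mulVecLin ≤
      LinearMap.range (affMap (fun x : Option V => p (x.getD v))) := by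
    intro X hX
    rw [mem_ker_lapMat] at hX
    obtain ⟨b, β, hb⟩ := h1 X hX
    refine ⟨(b, β), ?_⟩
    funext x
    exact (hb x).symm
  have h3 := Submodule.finrank_mono h2
  have h4 : finrank ℝ (LinearMap.range (affMap (fun x : Option V => p (x.getD v)))) ≤ d + 1 := by
    have := LinearMap.finrank_range_le (affMap (fun x : Option V => p (x.getD v)))
    simpa using this
  have h5 := LinearMap.finrank_range_add_finrank_ker (lapMat (bw v κ W₀)).mulVecLin
  have h6 : (lapMat (bw v κ W₀)).rank =
    finrank ℝ (LinearMap.range (lapMat (bw v κ W₀)).mulVecLin) := rfl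
  rw [Module.finrank_fintype_fun_eq_card] at h5
  omega

/-- at most one bad value -/
theorem bad_unique {W₀ : Option V → Option V → ℝ} (hsymm : ∀ x y, W₀ x y = W₀ y x)
    (h0 : W₀ (some v) none = 0) (h0' : W₀ none (some v) = 0) {κ κ' : ℝ} {X X' : Option V → ℝ}
    (hX : Lap (bw v κ W₀) X = 0) (hX1 : X (some v) - X none = 1)
    (hX' : Lap (bw v κ' W₀) X' = 0) (hX1' : X' (some v) - X' none = 1) : κ = κ' := by
  have hval : ∀ {κ : ℝ} {X : Option V → ℝ}, Lap (bw v κ W₀) X = 0 → X (some v) - X none = 1 →
      ∀ Y : Option V → ℝ, Y (some v) - Y none = 1 → ∑ x, Y x * Lap W₀ X x = - κ := by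
    intro κ X hX hX1 Y hY1
    have h1 : ∀ x, Y x * Lap W₀ X x = (if x = none then κ * Y none else 0) -
        (if x = some v then κ * Y (some v) else 0) := by
      intro x
      have := Lap_bw h0 h0' κ X x
      rw [hX, hX1] at this
      simp only [Pi.zero_apply] at this
      have h2 : Lap W₀ X x = - (κ * 1 * ((if x = some v then 1 else 0) -
        (if x = none then 1 else 0))) := by linarith
      rw [h2]
      by_cases hx : x = some v
      · subst hx
        simp
        ring
      · by_cases hx' : x = none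
        · subst hx'
          simp
          ring
        · simp [hx, hx']
    simp only [h1, Finset.sum_sub_distrib, Finset.sum_ite_eq', Finset.mem_univ, if_true]
    have h3 : Y (some v) = 1 + Y none := by linarith
    rw [h3]
    ring
  have e1 := hval hX hX1 X' hX1'
  have e2 := hval hX' hX1' X hX1
  have e3 := sum_Lap_symm hsymm X X'
  rw [e1, e2] at e3
  linarith

/-- The case in which no stress sees the bridge. -/
theorem split_case2 (hs : IsSplit H v A₁ C A₂ G d) (hA₁ : A₁.Nonempty) (hA₂ : A₂.Nonempty)
    (hp : Generic p) (hInf : InfRigid H p) (hconn : ConnOff H (insert v (C : Set V)))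
    (hν : ν ≠ 0) (hνC : ∀ c ∈ C, ν ⬝ᵥ (p v - p c) = 0)
    {w : V → V → ℝ} (hw : IsStress H p w) (hmax : MaxStress p w)
    (hlam : ∀ w', IsStress H p w' → ν ⬝ᵥ ∑ a ∈ A₁, w' v a • (p v - p a) = 0)
    (hsmall : ∀ z : Fin d → ℝ, z ⬝ᵥ ν ≠ 0 →
      ∀ᶠ t in 𝓝[≠] (0:ℝ), InfRigid G (pt p v z t) ∧ AffSpan (pt p v z t))
    (hpath : ∀ z : Fin d → ℝ, z ⬝ᵥ ν ≠ 0 → ∀ W₀, KerF G p v z 0 W₀ →
      ∃ W : ℝ → Option V → Option V → ℝ,
        (∀ x y, Tendsto (fun t => W t x y) (𝓝[≠] (0:ℝ)) (𝓝 (W₀ x y))) ∧
        ∀ᶠ t in 𝓝[≠] (0:ℝ), KerF G p v z t (W t)) :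
    ∃ (p₁ : Option V → Fin d → ℝ) (w₁ : Option V → Option V → ℝ),
      InfRigid G p₁ ∧ AffSpan p₁ ∧ IsStress G p₁ w₁ ∧ MaxStress p₁ w₁ := by
  classical
  have hvC : v ∉ C := fun h => H.irrefl ((hs.nbr v).mpr (Or.inr (Or.inl h)))
  have hvA₁ : v ∉ A₁ := fun h => H.irrefl ((hs.nbr v).mpr (Or.inl h))
  have hvA₂ : v ∉ A₂ := fun h => H.irrefl ((hs.nbr v).mpr (Or.inr (Or.inr h)))
  have hνν : ν ⬝ᵥ ν ≠ 0 := by
    rw [Ne, dotProduct_self_eq_zero]
    exact hν
  obtain ⟨m, hm, hmν⟩ := exists_special_motion hs hA₁ hp hν hνC hlam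
  obtain ⟨W₀, hW₀, hproj⟩ := exists_lift hs hA₁ hp hν hνC hνν hw
  have h0 : W₀ (some v) none = 0 := by
    have h1 := hW₀.mu_eq hs hνC
    rw [hlam _ (hW₀.isStress_proj hs), neg_zero] at h1
    exact (mul_eq_zero.mp h1).resolve_right hνν
  have h0' : W₀ none (some v) = 0 := by rw [hW₀.symm, h0]
  set ρ : Fin d → ℝ := fun i => Lap W₀ (fun x => m x i) (some v) with hρ
  -- `ρ` as a sum
  have hρz : ∀ z : Fin d → ℝ, ∑ u, W₀ (some v) (some u) * (z ⬝ᵥ (m (some v) - m (some u))) =
      z ⬝ᵥ ρ := by
    intro z
    have h1 : ∀ i, ρ i = ∑ u, W₀ (some v) (some u) * (m (some v) i - m (some u) i) := by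
      intro i
      simp only [hρ, Lap]
      rw [Fintype.sum_option, h0]
      ring
    simp only [dotProduct, h1, Finset.mul_sum, Pi.sub_apply]
    rw [Finset.sum_comm]
    exact Finset.sum_congr rfl fun i _ => Finset.sum_congr rfl fun u _ => by ring
  by_cases hgood : ∃ z : Fin d → ℝ, z ⬝ᵥ ν ≠ 0 ∧
      Fintype.card (Option V) ≤ (lapMat (bw v (-(z ⬝ᵥ ρ) / (z ⬝ᵥ ν)) W₀)).rank + (d + 1)
  · obtain ⟨z, hz, hrank⟩ := hgood
    obtain ⟨W, hWlim, hWker⟩ := hpath z hz W₀ (hW₀.change_z h0 z)
    have hne : ∀ᶠ t in 𝓝[≠] (0:ℝ), t ≠ 0 := self_mem_nhdsWithin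
    -- the weight on the bridge
    have hbr : Tendsto (fun t => W t (some v) none / t) (𝓝[≠] (0:ℝ))
        (𝓝 (-(z ⬝ᵥ ρ) / (z ⬝ᵥ ν))) := by
      have h1 : Tendsto (fun t => - (∑ u, W t (some v) (some u) *
          (z ⬝ᵥ (m (some v) - m (some u)))) / (z ⬝ᵥ ν)) (𝓝[≠] (0:ℝ))
          (𝓝 (-(z ⬝ᵥ ρ) / (z ⬝ᵥ ν))) := by
        rw [← hρz z]
        refine Tendsto.div_const ?_ _
        refine Tendsto.neg ?_
        exact tendsto_finsetSum _ fun u _ => (hWlim _ _).mul_const _
      refine h1.congr' ?_
      filter_upwards [hWker, hne] with t hk ht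
      have h2 := pairing hm hmν hk
      rw [div_eq_div_iff hz ht, h2]
      ring
    have hscal : ∀ x y, Tendsto (fun t => scal v t (W t) x y) (𝓝[≠] (0:ℝ))
        (𝓝 (bw v (-(z ⬝ᵥ ρ) / (z ⬝ᵥ ν)) W₀ x y)) := by
      intro x y
      by_cases h : (x = some v ∧ y = none) ∨ (x = none ∧ y = some v)
      · simp only [scal, bw, if_pos h]
        rcases h with ⟨rfl, rfl⟩ | ⟨rfl, rfl⟩
        · exact hbr
        · refine hbr.congr' ?_
          filter_upwards [hWker] with t hk
          rw [hk.symm]
      · simp only [scal, bw, if_neg h]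
        exact hWlim x y
    refine concl (hsmall z hz) hWker (B := fun _ => 1)
      (A₀ := lapMat (bw v (-(z ⬝ᵥ ρ) / (z ⬝ᵥ ν)) W₀)) ?_ hrank
    intro x y
    simp only [mul_one]
    unfold lapMat
    refine Tendsto.sub ?_ (hscal x y)
    by_cases hxy : x = y
    · simp only [if_pos hxy]
      exact tendsto_finsetSum _ fun u _ => hscal x u
    · simp only [if_neg hxy]
      exact tendsto_const_nhds
  · exfalso
    push Not at hgood
    have hbadz : ∀ z : Fin d → ℝ, z ⬝ᵥ ν ≠ 0 →
        ∃ X : Option V → ℝ, Lap (bw v (-(z ⬝ᵥ ρ) / (z ⬝ᵥ ν)) W₀) X = 0 ∧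
          X (some v) - X none = 1 := fun z hz =>
      exists_bad hmax h0 h0' hproj _ (not_le.mpr (hgood z hz))
    obtain ⟨X₁, hX₁, hX₁'⟩ := hbadz ν hνν
    set κ : ℝ := -(ν ⬝ᵥ ρ) / (ν ⬝ᵥ ν) with hκ
    have hz0 : ∀ z : Fin d → ℝ, z ⬝ᵥ ν ≠ 0 → z ⬝ᵥ (ρ + κ • ν) = 0 := by
      intro z hz
      obtain ⟨X₂, hX₂, hX₂'⟩ := hbadz z hz
      have h1 := bad_unique hW₀.symm h0 h0' hX₂ hX₂' hX₁ hX₁'
      rw [dotProduct_add, dotProduct_smul, smul_eq_mul, ← h1]
      field_simp
      ring
    have hρκ : ρ + κ • ν = 0 := by
      have h2 : ∀ y : Fin d → ℝ, y ⬝ᵥ (ρ + κ • ν) = 0 := by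
        intro y
        by_cases hy : y ⬝ᵥ ν = 0
        · have h3 := hz0 (y + ν) (by rw [add_dotProduct, hy, zero_add]; exact hνν)
          rw [add_dotProduct, hz0 ν hνν, add_zero] at h3
          exact h3
        · exact hz0 y hy
      exact dotProduct_self_eq_zero.mp (h2 _)
    -- the motion is in the kernel away from the bridge
    have hW₀eq : ∀ i x, Lap W₀ (fun y => p (y.getD v) i) x = 0 := by
      intro i x
      have h1 := congrFun (hW₀.force x) i
      rw [force_zero_apply, h0, h0'] at h1
      simpa using h1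
    have hΩ : ∀ a : V → Fin d → ℝ,
        ∑ i, ∑ x, a (x.getD v) i * Lap W₀ (fun y => m y i) x = 0 := by
      intro a
      obtain ⟨D, hD⟩ := hp.exists_deriv a
      have h1 : ∀ i x, Lap (fun x y => D (W₀ x y)) (fun y => p (y.getD v) i) x +
          Lap W₀ (fun y => a (y.getD v) i) x = 0 := by
        intro i x
        have h2 := congrArg D (hW₀eq i x)
        rw [D_Lap, map_zero] at h2
        simpa only [hD] using h2
      have h2 : ∑ i, ∑ x, m x i * Lap (fun x y => D (W₀ x y)) (fun y => p (y.getD v) i) x = 0 := by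
        have h3 := energy_vec (w := fun x y => D (W₀ x y)) (fun x y => by rw [hW₀.symm])
          (fun y : Option V => p (y.getD v)) m
        have h4 : ∑ x, ∑ y, D (W₀ x y) * ((p (x.getD v) - p (y.getD v)) ⬝ᵥ (m x - m y)) = 0 := by
          refine Finset.sum_eq_zero fun x _ => Finset.sum_eq_zero fun y _ => ?_
          by_cases h : (x = some v ∧ y = none) ∨ (x = none ∧ y = some v)
          · rcases h with ⟨rfl, rfl⟩ | ⟨rfl, rfl⟩
            · simp [h0]
            · simp [h0']
          · by_cases hxy : G.Adj x y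
            · rw [dotProduct_comm, hm x y hxy h, mul_zero]
            · rw [hW₀.supp x y hxy, map_zero, zero_mul]
        rw [h4] at h3
        linarith
      have h5 : ∑ i, ∑ x, m x i * Lap W₀ (fun y => a (y.getD v) i) x = 0 := by
        have h6 : ∑ i, ∑ x, (m x i * Lap (fun x y => D (W₀ x y)) (fun y => p (y.getD v) i) x +
            m x i * Lap W₀ (fun y => a (y.getD v) i) x) = 0 := by
          refine Finset.sum_eq_zero fun i _ => Finset.sum_eq_zero fun x _ => ?_
          rw [← mul_add, h1, mul_zero]
        simp only [Finset.sum_add_distrib] at h6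
        rw [h2, zero_add] at h6
        exact h6
      rw [← h5]
      refine Finset.sum_congr rfl fun i _ => ?_
      exact sum_Lap_symm hW₀.symm _ _
    have hrow : ∀ (u₀ : V) (i₀ : Fin d), Lap W₀ (fun y => m y i₀) (some u₀) +
        (if u₀ = v then Lap W₀ (fun y => m y i₀) none else 0) = 0 := by
      intro u₀ i₀
      have h1 := hΩ (fun u i => if u = u₀ ∧ i = i₀ then 1 else 0)
      rw [Finset.sum_eq_single i₀] at h1
      · rw [Fintype.sum_option, Finset.sum_eq_single u₀] at h1
        · simp only [Option.getD_none, Option.getD_some, and_true, if_true, one_mul] at h1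
          rw [add_comm]
          by_cases hu : u₀ = v
          · subst hu
            simpa using h1
          · rw [if_neg (fun h => hu h.symm)] at h1
            rw [if_neg hu]
            simpa using h1
        · intro u _ hu
          simp [hu]
        · intro h
          exact absurd (Finset.mem_univ _) h
      · intro i _ hi
        refine Finset.sum_eq_zero fun x _ => ?_
        simp [hi]
      · intro h
        exact absurd (Finset.mem_univ _) h
    have hmi : ∀ i, m (some v) i - m none i = ν i := fun i => congrFun hmν i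
    have hρi : ∀ i, Lap W₀ (fun y => m y i) (some v) + κ * ν i = 0 := fun i => congrFun hρκ i
    have hY : ∀ i, Lap (bw v κ W₀) (fun x => m x i) = 0 := by
      intro i
      funext x
      rw [Lap_bw h0 h0', hmi i, Pi.zero_apply]
      rcases x with _ | u
      · have h1 := hrow v i
        rw [if_pos rfl] at h1
        have h2 := hρi i
        simp only [reduceCtorEq, if_false, if_true, zero_sub]
        linarith
      · by_cases hu : u = v
        · subst hu
          have h2 := hρi i
          simp only [if_true, reduceCtorEq, if_false, sub_zero]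
          linarith
        · have h1 := hrow u i
          rw [if_neg hu] at h1
          simp only [Option.some.injEq, hu, if_false, reduceCtorEq, sub_zero, mul_zero]
          exact h1
    -- the scalar function
    set X : Option V → ℝ := fun x => (ν ⬝ᵥ m x) / (ν ⬝ᵥ ν) with hX
    have hX1 : X (some v) - X none = 1 := by
      simp only [hX]
      rw [← sub_div, ← dotProduct_sub, hmν, div_self hνν]
    have hXLap : Lap (bw v κ W₀) X = 0 := by
      have h1 : X = ∑ i, (ν i / (ν ⬝ᵥ ν)) • (fun x => m x i) := by
        funext x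
        rw [Finset.sum_apply]
        simp only [hX, Pi.smul_apply, smul_eq_mul]
        rw [dotProduct, Finset.sum_div]
        exact Finset.sum_congr rfl fun i _ => by ring
      have h2 : X ∈ kerLap (bw v κ W₀) := by
        rw [h1]
        refine Submodule.sum_mem _ fun i _ => Submodule.smul_mem _ _ ?_
        exact hY i
      exact h2
    have hZ : ∀ i, ∃ (b : Fin d → ℝ) (β : ℝ), ∀ x : Option V,
        m x i - ν i * X x = b ⬝ᵥ p (x.getD v) + β := by
      intro i
      set Z : Option V → ℝ := fun x => m x i - ν i * X x with hZdef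
      have hZeq : Z (some v) = Z none := by
        simp only [hZdef]
        have h1 := hmi i
        have h2 : X (some v) = X none + 1 := by linarith
        rw [h2]
        linarith
      have hZLap : Lap (bw v κ W₀) Z = 0 := by
        have h1 : Z = (fun x => m x i) + (- ν i) • X := by
          funext x
          simp only [hZdef, Pi.add_apply, Pi.smul_apply, smul_eq_mul]
          ring
        rw [h1, Lap_add, Lap_smul, hY i, hXLap, smul_zero, add_zero]
      have hZ0 : ∀ x, Lap W₀ Z x = 0 := by
        intro x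
        have := Lap_bw h0 h0' κ Z x
        rw [hZLap, hZeq] at this
        simp only [Pi.zero_apply, sub_self, mul_zero, zero_mul, add_zero] at this
        exact this.symm
      set f : V → ℝ := fun u => Z (some u) with hf
      have hZf : Z = fun y => f (y.getD v) := by
        funext y
        cases y with
        | none => simp only [Option.getD_none, hf]; exact hZeq.symm
        | some u => rfl
      have hLf : Lap w f = 0 := by
        rw [← hproj]
        funext u
        by_cases hu : u = v
        · subst hu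
          rw [← Lap_some_add_none, ← hZf, hZ0, hZ0]
          simp
        · rw [← Lap_some_ne W₀ f hu, ← hZf, hZ0]
          rfl
      obtain ⟨b, β, hb⟩ := hmax f hLf
      refine ⟨b, β, fun x => ?_⟩
      have h3 : Z x = f (x.getD v) := congrFun hZf x
      rw [← hb, ← h3]
    choose M τ hMτ using hZ
    set Mm : Matrix (Fin d) (Fin d) ℝ := Matrix.of M with hMm
    have hmx : ∀ x y : Option V, m x - m y =
        (X x - X y) • ν + Mm *ᵥ (p (x.getD v) - p (y.getD v)) := by
      intro x y
      funext i
      have h1 := hMτ i x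
      have h2 := hMτ i y
      simp only [Pi.sub_apply, Pi.add_apply, Pi.smul_apply, smul_eq_mul, Matrix.mulVec, hMm,
        Matrix.of_apply, dotProduct_sub]
      linarith
    set S : Matrix (Fin d) (Fin d) ℝ := -(Mm + Mmᵀ) with hS
    have hSsymm : S.IsSymm := by
      unfold Matrix.IsSymm
      rw [hS, Matrix.transpose_neg, Matrix.transpose_add, Matrix.transpose_transpose, add_comm]
    have hSq : ∀ y : Fin d → ℝ, y ⬝ᵥ S *ᵥ y = - 2 * (y ⬝ᵥ Mm *ᵥ y) := by
      intro y
      have h1 : y ⬝ᵥ Mmᵀ *ᵥ y = y ⬝ᵥ Mm *ᵥ y := by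
        rw [Matrix.dotProduct_mulVec, Matrix.vecMul_transpose, dotProduct_comm]
      rw [hS, Matrix.neg_mulVec, Matrix.add_mulVec, dotProduct_neg, dotProduct_add, h1]
      ring
    have hE : ∀ x y, G.Adj x y → ¬ ((x = some v ∧ y = none) ∨ (x = none ∧ y = some v)) →
        2 * (ν ⬝ᵥ (p (x.getD v) - p (y.getD v))) * (X x - X y) =
          (p (x.getD v) - p (y.getD v)) ⬝ᵥ S *ᵥ (p (x.getD v) - p (y.getD v)) := by
      intro x y hxy h
      have h1 := hm x y hxy h
      rw [hmx, add_dotProduct, smul_dotProduct, smul_eq_mul,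
        dotProduct_comm (Mm *ᵥ _) _] at h1
      rw [hSq]
      linarith
    refine no_E hp hInf hs.nbr hs.disj₁ hs.disj₂ hs.disj₃ hs.card hA₁ hA₂ hconn hν hνC hSsymm
      (x := fun u => X (some u)) hX1 ?_ ?_ ?_
    · intro u w' hu hw' huw
      exact hE (some u) (some w') ((hs.adj₃ u w' hu hw').mpr huw) (by simp)
    · intro a ha
      have hav : a ≠ v := by
        rintro rfl
        rcases ha with h | h
        · exact hvA₁ h
        · exact hvC h
      exact hE (some v) (some a) ((hs.adj₁ a hav).mpr ha) (by simp)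
    · intro a ha
      have hav : a ≠ v := by
        rintro rfl
        rcases ha with h | h
        · exact hvA₂ h
        · exact hvC h
      exact hE none (some a) ((hs.adj₂ a hav).mpr ha) (by simp [hav])

end Pool.Agent.Lib.P6a51b6
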