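import Pool.Agent.Lib.P6a51b6.SplitDefs

/-!
# From limits of Laplacians to maximal stresses
-/

set_option autoImplicit false

namespace Pool.Agent.Lib.P6a51b6

open scoped Matrix Topology
open Filter Module

variable {V : Type*} {d : ℕ}

theorem rank_eventually {m n : Type*} [Fintype m] [Fintype n] {l : Filter ℝ}
    {A : ℝ → Matrix m n ℝ} {A₀ : Matrix m n ℝ}
    (h : ∀ i j, Tendsto (fun t => A t i j) l (𝓝 (A₀ i j))) : ∀ᶠ t in l, A₀.rank ≤ (A t).rank := by
  classical
  obtain ⟨e, f, hd⟩ := exists_minor A₀ rfl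
  have h1 : Tendsto (fun t => ((A t).submatrix e f).det) l (𝓝 ((A₀.submatrix e f).det)) := by
    have h2 : Continuous (fun M : Matrix (Fin A₀.rank) (Fin A₀.rank) ℝ => M.det) :=
      Continuous.matrix_det continuous_id
    exact (h2.tendsto _).comp (tendsto_pi_nhds.mpr fun i => tendsto_pi_nhds.mpr fun j => h _ _)
  filter_upwards [h1.eventually_ne hd] with t ht
  have h4 : ((A t).submatrix e f).rank = _ := Matrix.rank_of_det_ne_zero ht
  rw [Fintype.card_fin] at h4
  rw [← h4]
  exact Matrix.rank_submatrix_le (A t) e f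

theorem Lap_affine {U : Type*} [Fintype U] {K : SimpleGraph U} {q : U → Fin d → ℝ}
    {w : U → U → ℝ} (hw : IsStress K q w) (b : Fin d → ℝ) (β : ℝ) :
    Lap w (fun u => b ⬝ᵥ q u + β) = 0 := by
  funext u
  have h1 : ∀ i, ∑ y, w u y * (q u i - q y i) = 0 := fun i => congrFun (hw.eq i) u
  have h2 : Lap w (fun u => b ⬝ᵥ q u + β) u = ∑ i, b i * ∑ y, w u y * (q u i - q y i) := by
    unfold Lap
    simp only [Finset.mul_sum]
    rw [Finset.sum_comm]
    refine Finset.sum_congr rfl fun y _ => ?_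
    simp only [dotProduct, add_sub_add_right_eq_sub, ← Finset.sum_sub_distrib, Finset.mul_sum]
    exact Finset.sum_congr rfl fun i _ => by ring
  rw [h2]
  simp [h1]

theorem maxStress_of_rank {U : Type*} [Fintype U] [DecidableEq U] (u₀ : U) {K : SimpleGraph U}
    {q : U → Fin d → ℝ} (haff : AffSpan q) {w : U → U → ℝ} (hw : IsStress K q w)
    (hrank : Fintype.card U ≤ (lapMat w).rank + (d + 1)) : MaxStress q w := by
  intro x hx
  have h1 : LinearMap.range (affMap q) ≤ LinearMap.ker (lapMat w).mulVecLin := by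
    rintro _ ⟨y, rfl⟩
    rw [mem_ker_lapMat]
    exact Lap_affine hw y.1 y.2
  have h2 : finrank ℝ (LinearMap.range (affMap q)) = d + 1 := by
    rw [LinearMap.finrank_range_of_inj (affMap_injective haff u₀)]
    simp
  have h3 := LinearMap.finrank_range_add_finrank_ker (lapMat w).mulVecLin
  have h4 : (lapMat w).rank = finrank ℝ (LinearMap.range (lapMat w).mulVecLin) := rfl
  rw [Module.finrank_fintype_fun_eq_card] at h3
  have h5 : LinearMap.range (affMap q) = LinearMap.ker (lapMat w).mulVecLin :=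
    Submodule.eq_of_le_of_finrank_le h1 (by omega)
  have h6 : x ∈ LinearMap.range (affMap q) := by
    rw [h5, mem_ker_lapMat]
    exact hx
  obtain ⟨y, rfl⟩ := h6
  exact ⟨y.1, y.2, fun u => rfl⟩

variable [Fintype V] [DecidableEq V] {H : SimpleGraph V} {G : SimpleGraph (Option V)}
  {p : V → Fin d → ℝ} {v : V} {A₁ C A₂ : Finset V} {z ν : Fin d → ℝ} {t : ℝ}

theorem KerF.isStress_scal {W : Option V → Option V → ℝ} (hW : KerF G p v z t W) (ht : t ≠ 0) :
    IsStress G (pt p v z t) (scal v t W) where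
  symm := by
    intro x y
    unfold scal
    rw [hW.symm x y]
    have h : ((x = some v ∧ y = none) ∨ (x = none ∧ y = some v)) ↔
        ((y = some v ∧ x = none) ∨ (y = none ∧ x = some v)) := by tauto
    by_cases h1 : (x = some v ∧ y = none) ∨ (x = none ∧ y = some v)
    · rw [if_pos h1, if_pos (h.mp h1)]
    · rw [if_neg h1, if_neg (fun h2 => h1 (h.mpr h2))]
  supp := by
    intro x y h
    unfold scal
    rw [hW.supp x y h]
    simp
  eq := by
    intro i
    funext x
    have h0 := congrFun (hW.force x) i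
    rw [Finset.sum_apply] at h0
    refine Eq.trans ?_ h0
    unfold Lap
    refine Finset.sum_congr rfl fun y _ => ?_
    by_cases h : (x = some v ∧ y = none) ∨ (x = none ∧ y = some v)
    · rcases h with ⟨rfl, rfl⟩ | ⟨rfl, rfl⟩
      · simp [scal]
        field_simp
      · simp [scal]
        field_simp
    · rw [dir_of_not h, scal, if_neg h]
      simp

/-- The final step: a limit with a Laplacian of large rank suffices. -/
theorem concl (hsmall : ∀ᶠ t in 𝓝[≠] (0:ℝ), InfRigid G (pt p v z t) ∧ AffSpan (pt p v z t))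
    {W : ℝ → Option V → Option V → ℝ} (hW : ∀ᶠ t in 𝓝[≠] (0:ℝ), KerF G p v z t (W t))
    {B : ℝ → Matrix (Option V) (Option V) ℝ} {A₀ : Matrix (Option V) (Option V) ℝ}
    (hlim : ∀ x y, Tendsto (fun t => (lapMat (scal v t (W t)) * B t) x y) (𝓝[≠] (0:ℝ))
      (𝓝 (A₀ x y)))
    (hrank : Fintype.card (Option V) ≤ A₀.rank + (d + 1)) :
    ∃ (p₁ : Option V → Fin d → ℝ) (w₁ : Option V → Option V → ℝ),
      InfRigid G p₁ ∧ AffSpan p₁ ∧ IsStress G p₁ w₁ ∧ MaxStress p₁ w₁ := by
  have h1 := rank_eventually hlim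
  have h2 : ∀ᶠ t in 𝓝[≠] (0:ℝ), t ≠ 0 := self_mem_nhdsWithin
  obtain ⟨t, ⟨hi, ha⟩, hWt, hr, ht⟩ := (hsmall.and (hW.and (h1.and h2))).exists
  have h3 := hWt.isStress_scal ht
  refine ⟨_, _, hi, ha, h3, maxStress_of_rank none ha h3 ?_⟩
  have h4 : (lapMat (scal v t (W t)) * B t).rank ≤ (lapMat (scal v t (W t))).rank :=
    Matrix.rank_mul_le_left _ _
  omega

end Pool.Agent.Lib.P6a51b6
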