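import Pool.Agent.Lib.P6a51b6.SplitA
import Pool.Agent.Lib.P6a51b6.SplitB
import Pool.Agent.Lib.P6a51b6.SplitC

/-!
# A good framework of the split graph
-/

set_option autoImplicit false

namespace Pool.Agent.Lib.P6a51b6

open scoped Matrix Topology
open Filter Module

/-- T5 -/
theorem split_data {V : Type*} [Fintype V] [DecidableEq V] {d : ℕ} {H : SimpleGraph V} {v : V}
    {A₁ C A₂ : Finset V} {G : SimpleGraph (Option V)} (hs : IsSplit H v A₁ C A₂ G d)
    (hA₁ : A₁.Nonempty) (hA₂ : A₂.Nonempty) {p : V → Fin d → ℝ} (hp : Generic p)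
    (haff : AffSpan p)
    (hInf : InfRigid H p) (hconn : ConnOff H (insert v (C : Set V)))
    {w : V → V → ℝ} (hw : IsStress H p w) (hmax : MaxStress p w) :
    ∃ (p₁ : Option V → Fin d → ℝ) (w₁ : Option V → Option V → ℝ),
      InfRigid G p₁ ∧ AffSpan p₁ ∧ IsStress G p₁ w₁ ∧ MaxStress p₁ w₁ := by
  classical
  obtain ⟨ν, hν, hνC⟩ := exists_nu p v hs.card
  by_cases h : ∃ w2, IsStress H p w2 ∧ ν ⬝ᵥ ∑ a ∈ A₁, w2 v a • (p v - p a) ≠ 0
  · obtain ⟨w2, hw2, hlam⟩ := h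
    exact case_one hs hp haff hInf hA₁ hν hνC hw hmax hw2 hlam
  · push Not at h
    exact split_case2 hs hA₁ hA₂ hp hInf hconn hν hνC hw hmax h
      (fun z hz => infRigid_small hs hp haff hInf hA₁ hν hνC hz)
      (fun z hz W₀ hW₀ => exists_path hs hp haff hInf hA₁ hν hνC hz hW₀)

end Pool.Agent.Lib.P6a51b6
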