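import Pool.Agent.Lib.P6a51b6.Trivial

/-!
# Connelly's sufficiency theorem with transfer of stresses
-/

set_option autoImplicit false

namespace Pool.Agent.Lib.P6a51b6

open scoped Matrix
open Module

/-! ### Derivations and dot products -/

section

variable {d : ℕ}

theorem deriv_dot (D : Derivation ℚ ℝ ℝ) (x y : Fin d → ℝ) :
    D (x ⬝ᵥ y) = (fun i => D (x i)) ⬝ᵥ y + x ⬝ᵥ (fun i => D (y i)) := by
  simp only [dotProduct, map_sum, Derivation.leibniz, smul_eq_mul]
  rw [← Finset.sum_add_distrib]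
  exact Finset.sum_congr rfl (fun i _ => by ring)

theorem deriv_mulVec (D : Derivation ℚ ℝ ℝ) (M : Matrix (Fin d) (Fin d) ℝ) (x : Fin d → ℝ) :
    (fun i => D ((M *ᵥ x) i)) = (fun i j => D (M i j)) *ᵥ x + M *ᵥ (fun i => D (x i)) := by
  funext i
  exact deriv_dot D (M i) x

theorem deriv_sq (D : Derivation ℚ ℝ ℝ) (x : Fin d → ℝ) :
    D (sq x) = 2 * (x ⬝ᵥ (fun i => D (x i))) := by
  unfold sq
  rw [deriv_dot, dotProduct_comm (fun i => D (x i))]
  ring

end

variable {V : Type*} [Fintype V] [DecidableEq V] {d : ℕ} {G : SimpleGraph V}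

/-! ### Ranks -/

/-- The generic placement. -/
noncomputable def PFpt (V : Type*) (d : ℕ) : V → Fin d → PF ∅ (V × Fin d) :=
  fun u i => ⟨fun x => x (u, i), PF.coord (u, i)⟩

theorem rank_rigMat_le (E : V → V → Prop) [DecidableRel E] {p : V → Fin d → ℝ} (hp : Generic p)
    (q : V → Fin d → ℝ) : (rigMat E q).rank ≤ (rigMat E p).rank := by
  have h := PF.rank_le (rigMat E (PFpt V d)) (generic_iff_free.mp hp) (fun x => q x.1 x.2)
  rw [rigMat_map, rigMat_map] at h
  exact h

theorem ker_eq_of_infRigid [DecidableRel G.Adj] {p : V → Fin d → ℝ} (h : InfRigid G p) :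
    LinearMap.ker (rigMat G.Adj p).mulVecLin =
      LinearMap.ker (rigMat (fun _ _ : V => True) p).mulVecLin := by
  ext m
  rw [mem_ker_rigMat, mem_ker_rigMat]
  constructor
  · intro hm u v _
    exact h (fun u i => m (u, i)) hm u v
  · intro hm u v _
    exact hm u v trivial

theorem infRigid_transfer [DecidableRel G.Adj] {p p₁ : V → Fin d → ℝ} (hp : Generic p)
    (haff : AffSpan p) (h₁ : InfRigid G p₁) (haff₁ : AffSpan p₁) (u₀ : V) :
    InfRigid G p ∧ (rigMat G.Adj p).rank = (rigMat G.Adj p₁).rank := by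
  have k1 := LinearMap.finrank_range_add_finrank_ker (rigMat G.Adj p).mulVecLin
  have k2 := LinearMap.finrank_range_add_finrank_ker (rigMat G.Adj p₁).mulVecLin
  have k3 : (rigMat G.Adj p).rank = finrank ℝ (LinearMap.range (rigMat G.Adj p).mulVecLin) := rfl
  have k4 : (rigMat G.Adj p₁).rank = finrank ℝ (LinearMap.range (rigMat G.Adj p₁).mulVecLin) := rfl
  have k5 := rank_rigMat_le G.Adj hp p₁
  have k6 := finrank_triv haff₁ u₀
  have k7 := finrank_triv haff u₀
  rw [ker_eq_of_infRigid h₁, k6] at k2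
  have hle : LinearMap.ker (rigMat (fun _ _ : V => True) p).mulVecLin ≤
      LinearMap.ker (rigMat G.Adj p).mulVecLin := by
    intro m hm
    rw [mem_ker_rigMat] at hm ⊢
    intro u v _
    exact hm u v trivial
  have heq := Submodule.eq_of_le_of_finrank_le hle (by rw [k7]; omega)
  constructor
  · intro m hm u v
    have h2 : (fun x : V × Fin d => m x.1 x.2) ∈ LinearMap.ker (rigMat G.Adj p).mulVecLin := by
      rw [mem_ker_rigMat]
      exact fun u v huv => hm u v huv
    rw [← heq, mem_ker_rigMat] at h2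
    exact h2 u v trivial
  · rw [← heq, k7] at k1
    omega

/-! ### The conic at infinity -/

theorem conic {p : V → Fin d → ℝ} (hp : Generic p) (hInf : InfRigid G p)
    (hn : d + 2 ≤ Fintype.card V) {S : Matrix (Fin d) (Fin d) ℝ} (hS : Sᵀ = S)
    (h : ∀ u v, G.Adj u v → (p u - p v) ⬝ᵥ (S *ᵥ (p u - p v)) = 0) : S = 0 := by
  have haff : AffSpan p := hp.affSpan (by omega)
  have hne : Nonempty V := Fintype.card_pos_iff.mp (by omega)
  obtain ⟨u₀⟩ := hne
  have key : ∀ a : Fin d → ℝ, S *ᵥ a = 0 := by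
    intro a
    obtain ⟨D, hD⟩ := hp.exists_deriv (fun u => if u = u₀ then a else 0)
    set DS : Matrix (Fin d) (Fin d) ℝ := fun i j => D (S i j) with hDS
    set m : V → Fin d → ℝ := fun u => DS *ᵥ p u + (2 : ℝ) • (S *ᵥ (if u = u₀ then a else 0)) with hm
    have hDp : ∀ u v, (fun i => D ((p u - p v) i)) =
        (if u = u₀ then a else 0) - (if v = u₀ then a else 0) := by
      intro u v
      funext i
      simp only [Pi.sub_apply, map_sub, hD]
    have hmot : IsMotion G p m := by
      intro u v huv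
      have h1 := congrArg D (h u v huv)
      rw [map_zero, deriv_dot, deriv_mulVec] at h1
      rw [← hDS, hDp] at h1
      set y := p u - p v with hy
      set z := (if u = u₀ then a else 0) - (if v = u₀ then a else 0) with hz
      have h2 : m u - m v = DS *ᵥ y + (2 : ℝ) • (S *ᵥ z) := by
        rw [hm, hy, hz]
        simp only [Matrix.mulVec_sub, smul_sub]
        abel
      rw [h2, dotProduct_add, dotProduct_smul]
      rw [dotProduct_add] at h1
      have h3 : z ⬝ᵥ (S *ᵥ y) = y ⬝ᵥ (S *ᵥ z) := by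
        rw [Matrix.dotProduct_mulVec, ← Matrix.mulVec_transpose, hS, dotProduct_comm]
      rw [h3] at h1
      rw [smul_eq_mul]
      linarith
    obtain ⟨A, -, c, hc⟩ := trivial_motion_at haff u₀ (hInf m hmot)
    have hz : ∀ i, (fun j => A i j - DS i j) = 0 ∧ c i = 0 := by
      intro i
      apply hp.affine_zero (X := Finset.univ.erase u₀)
      · rw [Finset.card_erase_of_mem (Finset.mem_univ _), Finset.card_univ]
        omega
      · intro u hu
        have hu' : u ≠ u₀ := (Finset.mem_erase.mp hu).1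
        have := congrFun (hc u) i
        simp only [hm, hu', if_false, Matrix.mulVec_zero, smul_zero, Pi.add_apply,
          Pi.zero_apply, add_zero] at this
        have h4 : (fun j => A i j - DS i j) ⬝ᵥ p u = (A *ᵥ p u) i - (DS *ᵥ p u) i := by
          simp only [Matrix.mulVec, dotProduct, sub_mul, Finset.sum_sub_distrib]
        rw [h4, this]
        ring
    funext i
    have h5 := congrFun (hc u₀) i
    have h6 : (A *ᵥ p u₀) i = (DS *ᵥ p u₀) i := by
      have h7 : A i = DS i := by
        funext j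
        have := congrFun (hz i).1 j
        simp only [Pi.zero_apply] at this
        linarith
      simp only [Matrix.mulVec, h7]
    simp only [hm, if_true, Pi.add_apply, Pi.smul_apply, smul_eq_mul, (hz i).2, h6] at h5
    rw [Pi.zero_apply]
    linarith
  ext i j
  have := congrFun (key (Pi.single j 1)) i
  simpa using this

/-! ### Stresses -/

theorem vecMul_stress [DecidableRel G.Adj] (q : V → Fin d → ℝ) {w : V → V → ℝ}
    (hsymm : ∀ u v, w u v = w v u) (hsupp : ∀ u v, ¬ G.Adj u v → w u v = 0) (u : V) (i : Fin d) :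
    ((fun e : V × V => w e.1 e.2) ᵥ* rigMat G.Adj q) (u, i) = 2 * Lap w (fun v => q v i) u := by
  rw [vecMul_rigMat]
  unfold Lap
  rw [Finset.mul_sum]
  refine Finset.sum_congr rfl (fun v _ => ?_)
  by_cases h : G.Adj u v
  · have h' : G.Adj v u := h.symm
    simp only [h, h', if_true]
    rw [hsymm v u]
    ring
  · have h' : ¬ G.Adj v u := fun h' => h h'.symm
    simp only [h, h', if_false]
    rw [hsupp u v h]
    ring

theorem connelly {p : V → Fin d → ℝ} (hp : Generic p) (hInf : InfRigid G p)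
    (hn : d + 2 ≤ Fintype.card V) {w : V → V → ℝ} (hw : IsStress G p w) (hmax : MaxStress p w) :
    GRAt G p := by
  classical
  intro q hq
  have hrange : LinearMap.range (rigMat G.Adj p).mulVecLin ≤
      LinearMap.range (rigMat G.Adj q).mulVecLin := by
    rintro _ ⟨m, rfl⟩
    obtain ⟨D, hD⟩ := hp.exists_deriv (fun u i => m (u, i))
    refine ⟨fun x => D (q x.1 x.2), ?_⟩
    rw [Matrix.mulVecLin_apply, Matrix.mulVecLin_apply]
    funext e
    rw [rigMat_mulVec, rigMat_mulVec]
    split_ifs with he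
    · have h1 := congrArg D (hq _ _ he)
      rw [deriv_sq, deriv_sq] at h1
      have h2 : (fun i => D ((q e.1 - q e.2) i)) =
          (fun i => D (q e.1 i) - D (q e.2 i)) := by
        funext i
        simp
      have h3 : (fun i => D ((p e.1 - p e.2) i)) =
          (fun i => m (e.1, i) - m (e.2, i)) := by
        funext i
        simp [hD]
      rw [h2, h3] at h1
      linarith
    · rfl
  have heq := Submodule.eq_of_le_of_finrank_le hrange (rank_rigMat_le G.Adj hp q)
  set W : V × V → ℝ := fun e => w e.1 e.2 with hW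
  have hWp : W ᵥ* rigMat G.Adj p = 0 := by
    funext x
    obtain ⟨u, i⟩ := x
    rw [hW, vecMul_stress p hw.symm hw.supp, hw.eq i]
    simp
  have hWq : W ᵥ* rigMat G.Adj q = 0 := by
    funext x
    have h1 : (rigMat G.Adj q) *ᵥ (Pi.single x 1) ∈ LinearMap.range (rigMat G.Adj p).mulVecLin := by
      rw [heq]
      exact ⟨_, rfl⟩
    obtain ⟨m, hm⟩ := h1
    rw [Matrix.mulVecLin_apply] at hm
    have h2 : W ⬝ᵥ (rigMat G.Adj q *ᵥ (Pi.single x 1)) = 0 := by
      rw [← hm, Matrix.dotProduct_mulVec, hWp, zero_dotProduct]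
    rw [Matrix.dotProduct_mulVec] at h2
    simpa using h2
  have hlap : ∀ i, Lap w (fun v => q v i) = 0 := by
    intro i
    funext u
    have := congrFun hWq (u, i)
    rw [hW, vecMul_stress q hw.symm hw.supp] at this
    simp only [Pi.zero_apply] at this ⊢
    linarith
  choose M β hM using fun i => hmax _ (hlap i)
  have hq2 : ∀ u, q u = (M : Matrix (Fin d) (Fin d) ℝ) *ᵥ p u + β := by
    intro u
    funext i
    exact hM i u
  set S : Matrix (Fin d) (Fin d) ℝ := (Matrix.of M)ᵀ * (Matrix.of M) - 1 with hSdef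
  have hsqd : ∀ u v, sq (q u - q v) - sq (p u - p v) = (p u - p v) ⬝ᵥ (S *ᵥ (p u - p v)) := by
    intro u v
    have h1 : q u - q v = (Matrix.of M) *ᵥ (p u - p v) := by
      rw [hq2, hq2, Matrix.mulVec_sub]
      show _ = (M : Matrix (Fin d) (Fin d) ℝ) *ᵥ p u - (M : Matrix (Fin d) (Fin d) ℝ) *ᵥ p v
      abel
    rw [h1, hSdef, Matrix.sub_mulVec, dotProduct_sub, Matrix.one_mulVec, ← Matrix.mulVec_mulVec]
    unfold sq
    rw [Matrix.dotProduct_mulVec (p u - p v), ← Matrix.mulVec_transpose, Matrix.transpose_transpose]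
  have hS0 : S = 0 := by
    apply conic hp hInf hn
    · rw [hSdef, Matrix.transpose_sub, Matrix.transpose_mul, Matrix.transpose_transpose,
        Matrix.transpose_one]
    · intro u v huv
      rw [← hsqd, hq u v huv, sub_self]
  intro u v
  have := hsqd u v
  rw [hS0, Matrix.zero_mulVec, dotProduct_zero] at this
  linarith

/-! ### Transfer of stresses -/

/-- Laplacian matrix -/
def lapMat {K : Type*} [CommRing K] (W : V → V → K) : Matrix V V K :=
  fun u v => (if u = v then ∑ z, W u z else 0) - W u v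

theorem lapMat_map {K L : Type*} [CommRing K] [CommRing L] (W : V → V → K) (φ : K →+* L) :
    (lapMat W).map φ = lapMat (fun u v => φ (W u v)) := by
  ext u v
  simp only [lapMat, Matrix.map_apply]
  split_ifs <;> simp

theorem lapMat_mulVec (W : V → V → ℝ) (x : V → ℝ) : lapMat W *ᵥ x = Lap W x := by
  funext u
  simp only [Matrix.mulVec, dotProduct, lapMat, Lap, sub_mul, mul_sub, Finset.sum_sub_distrib,
    ite_mul, zero_mul, Finset.sum_ite_eq, Finset.mem_univ, if_true, Finset.sum_mul]

theorem mem_ker_lapMat {W : V → V → ℝ} {x : V → ℝ} :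
    x ∈ LinearMap.ker (lapMat W).mulVecLin ↔ Lap W x = 0 := by
  rw [LinearMap.mem_ker, Matrix.mulVecLin_apply, lapMat_mulVec]

/-- symmetrised weights supported on the edges -/
def symW {K : Type*} [CommRing K] (G : SimpleGraph V) [DecidableRel G.Adj] (X : V × V → K) :
    V → V → K := fun u v => if G.Adj u v then X (u, v) + X (v, u) else 0

/-- affine functions of `q` -/
def affMap (q : V → Fin d → ℝ) : ((Fin d → ℝ) × ℝ) →ₗ[ℝ] (V → ℝ) where
  toFun := fun x u => x.1 ⬝ᵥ q u + x.2
  map_add' := by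
    intro x y
    funext u
    simp only [Prod.fst_add, add_dotProduct, Prod.snd_add, Pi.add_apply]
    ring
  map_smul' := by
    intro c x
    funext u
    simp only [Prod.smul_fst, smul_dotProduct, Prod.smul_snd, Pi.smul_apply, smul_eq_mul,
      RingHom.id_apply]
    ring

omit [Fintype V] [DecidableEq V] in
theorem affMap_injective {q : V → Fin d → ℝ} (haff : AffSpan q) (u₀ : V) :
    Function.Injective (affMap q) := by
  rw [← LinearMap.ker_eq_bot, LinearMap.ker_eq_bot']
  rintro ⟨b, β⟩ h
  have hb : b = 0 := haff b β (fun u => congrFun h u)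
  subst hb
  have := congrFun h u₀
  simp only [affMap, LinearMap.coe_mk, AddHom.coe_mk, zero_dotProduct, zero_add,
    Pi.zero_apply] at this
  subst this
  rfl

theorem exists_maxStress [DecidableRel G.Adj] {p p₁ : V → Fin d → ℝ} (hp : Generic p)
    (haff : AffSpan p) (u₀ : V) (hrank : (rigMat G.Adj p).rank = (rigMat G.Adj p₁).rank)
    {w₁ : V → V → ℝ} (hw₁ : IsStress G p₁ w₁) (hmax : MaxStress p₁ w₁) :
    ∃ w, IsStress G p w ∧ MaxStress p w := by
  -- free parameters
  obtain ⟨c, -, hc⟩ := exists_free (S := ∅ ∪ Set.range (fun x : V × Fin d => p x.1 x.2))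
    (Set.Countable.union Set.countable_empty (Set.countable_range _)) (ι := V × V)
    (U := Set.univ) isOpen_univ Set.univ_nonempty
  have ha := Free.sum (generic_iff_free.mp hp) hc
  set a : (V × Fin d) ⊕ (V × V) → ℝ := Sum.elim (fun x : V × Fin d => p x.1 x.2) c with hadef
  set b : (V × Fin d) ⊕ (V × V) → ℝ :=
    Sum.elim (fun x : V × Fin d => p₁ x.1 x.2) (fun e => w₁ e.1 e.2) with hbdef
  set P : V → Fin d → PF ∅ ((V × Fin d) ⊕ (V × V)) :=
    fun u i => ⟨fun x => x (Sum.inl (u, i)), PF.coord _⟩ with hP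
  set C : V × V → PF ∅ ((V × Fin d) ⊕ (V × V)) :=
    fun e => ⟨fun x => x (Sum.inr e), PF.coord _⟩ with hC
  obtain ⟨X, δ, hδ, hX1, hX2⟩ := exists_kernel_param (rigMat G.Adj P)ᵀ b C
  have hmapa : (rigMat G.Adj P)ᵀ.map (PF.ev ∅ _ a) = (rigMat G.Adj p)ᵀ := by
    rw [Matrix.transpose_map, rigMat_map]
    rfl
  have hmapb : (rigMat G.Adj P)ᵀ.map (PF.ev ∅ _ b) = (rigMat G.Adj p₁)ᵀ := by
    rw [Matrix.transpose_map, rigMat_map]
    rfl
  have hδa : PF.ev ∅ _ a δ ≠ 0 := by
    rw [PF.ev_apply] at hδ ⊢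
    exact PF.ne_zero δ.2 hδ ha
  have hXa : (rigMat G.Adj p)ᵀ *ᵥ (PF.ev ∅ _ a ∘ X) = 0 := by
    rw [← hmapa]
    apply hX1 a _ hδa
    rw [hmapa, hmapb, Matrix.rank_transpose, Matrix.rank_transpose, hrank]
  have hCb : (PF.ev ∅ _ b ∘ C) = fun e : V × V => w₁ e.1 e.2 := rfl
  have hXb : PF.ev ∅ _ b ∘ X = PF.ev ∅ _ b δ • (fun e : V × V => w₁ e.1 e.2) := by
    rw [← hCb]
    apply hX2
    rw [hmapb, hCb, Matrix.mulVec_transpose]
    funext x
    obtain ⟨u, i⟩ := x
    rw [vecMul_stress p₁ hw₁.symm hw₁.supp, hw₁.eq i]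
    simp
  set w : V → V → ℝ := symW G (PF.ev ∅ _ a ∘ X) with hw
  have hsymm : ∀ u v, w u v = w v u := by
    intro u v
    simp only [hw, symW, G.adj_comm v u]
    split_ifs <;> ring
  have hsupp : ∀ u v, ¬ G.Adj u v → w u v = 0 := by
    intro u v h
    simp only [hw, symW, h, if_false]
  have hstress : IsStress G p w := by
    refine ⟨hsymm, hsupp, fun i => ?_⟩
    funext u
    have h1 := congrFun hXa (u, i)
    rw [Matrix.mulVec_transpose, vecMul_rigMat] at h1
    rw [Pi.zero_apply] at h1 ⊢
    rw [← h1]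
    unfold Lap
    refine Finset.sum_congr rfl (fun v _ => ?_)
    congr 1
    simp only [hw, symW, G.adj_comm v u]
    split_ifs <;> simp
  refine ⟨w, hstress, ?_⟩
  -- ranks of the Laplacians
  have hr := PF.rank_le (lapMat (symW G X)) ha b
  rw [lapMat_map, lapMat_map] at hr
  have hWa : (fun u v => PF.ev ∅ _ a (symW G X u v)) = w := by
    funext u v
    simp only [hw, symW, Function.comp_apply]
    split_ifs <;> simp
  have hWb : (fun u v => PF.ev ∅ _ b (symW G X u v)) =
      fun u v => (2 * PF.ev ∅ _ b δ) * w₁ u v := by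
    funext u v
    have h1 : PF.ev ∅ _ b (symW G X u v) =
        if G.Adj u v then (PF.ev ∅ _ b ∘ X) (u, v) + (PF.ev ∅ _ b ∘ X) (v, u) else 0 := by
      simp only [symW, Function.comp_apply]
      split_ifs <;> simp
    rw [h1, hXb]
    split_ifs with h
    · simp only [Pi.smul_apply, smul_eq_mul]
      rw [hw₁.symm v u]
      ring
    · rw [hw₁.supp u v h, mul_zero]
  rw [hWa, hWb] at hr
  set t := 2 * PF.ev ∅ _ b δ with ht
  have ht0 : t ≠ 0 := mul_ne_zero two_ne_zero hδ
  have k1 := LinearMap.finrank_range_add_finrank_ker (lapMat w).mulVecLin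
  have k2 := LinearMap.finrank_range_add_finrank_ker (lapMat (fun u v => t * w₁ u v)).mulVecLin
  have k3 : (lapMat w).rank = finrank ℝ (LinearMap.range (lapMat w).mulVecLin) := rfl
  have k4 : (lapMat (fun u v => t * w₁ u v)).rank =
    finrank ℝ (LinearMap.range (lapMat (fun u v => t * w₁ u v)).mulVecLin) := rfl
  have k5 : LinearMap.ker (lapMat (fun u v => t * w₁ u v)).mulVecLin ≤
      LinearMap.range (affMap p₁) := by
    intro x hx
    rw [mem_ker_lapMat] at hx
    have hx' : Lap w₁ x = 0 := by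
      funext u
      have := congrFun hx u
      simp only [Lap, mul_assoc, ← Finset.mul_sum, Pi.zero_apply, mul_eq_zero, ht0,
        false_or] at this
      exact this
    obtain ⟨β, γ, h⟩ := hmax x hx'
    exact ⟨(β, γ), funext fun u => (h u).symm⟩
  have k6 := Submodule.finrank_mono k5
  have k7 := LinearMap.finrank_range_le (affMap p₁)
  have k8 := LinearMap.finrank_range_of_inj (affMap_injective haff u₀)
  have k9 : LinearMap.range (affMap p) ≤ LinearMap.ker (lapMat w).mulVecLin := by
    rintro _ ⟨x, rfl⟩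
    rw [mem_ker_lapMat]
    have h1 : affMap p x = fun v => (∑ i, x.1 i * p v i) + x.2 := rfl
    rw [h1]
    funext u
    have h2 : Lap w (fun v => (∑ i, x.1 i * p v i) + x.2) u =
        ∑ i, x.1 i * Lap w (fun v => p v i) u := by
      unfold Lap
      simp only [Finset.mul_sum]
      rw [Finset.sum_comm]
      refine Finset.sum_congr rfl (fun v _ => ?_)
      have h3 : (∑ i, x.1 i * p u i) + x.2 - ((∑ i, x.1 i * p v i) + x.2) =
          ∑ i, x.1 i * (p u i - p v i) := by
        simp only [mul_sub, Finset.sum_sub_distrib]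
        ring
      rw [h3, Finset.mul_sum]
      exact Finset.sum_congr rfl (fun i _ => by ring)
    rw [h2]
    simp [hstress.eq]
  have k10 := Submodule.eq_of_le_of_finrank_le k9 (by rw [k8]; omega)
  intro x hx
  have h4 : x ∈ LinearMap.range (affMap p) := by
    rw [k10, mem_ker_lapMat]
    exact hx
  obtain ⟨⟨β, γ⟩, h5⟩ := h4
  exact ⟨β, γ, fun u => (congrFun h5 u).symm⟩

/-- **Sufficiency**: one infinitesimally rigid framework with a stress of maximal rank makes the
graph globally rigid. -/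
theorem sufficiency {V : Type*} [Fintype V] [DecidableEq V] {d : ℕ} {G : SimpleGraph V}
    (hn : d + 2 ≤ Fintype.card V) {p₁ : V → Fin d → ℝ} (hInf : InfRigid G p₁)
    (haff : AffSpan p₁) {w₁ : V → V → ℝ} (hw₁ : IsStress G p₁ w₁) (hmax : MaxStress p₁ w₁) :
    GR G d := by
  classical
  intro p hp
  have hne : Nonempty V := Fintype.card_pos_iff.mp (by omega)
  obtain ⟨u₀⟩ := hne
  have haffp : AffSpan p := hp.affSpan (by omega)
  obtain ⟨h1, h2⟩ := infRigid_transfer hp haffp hInf haff u₀
  obtain ⟨w, hw, hwm⟩ := exists_maxStress hp haffp u₀ h2 hw₁ hmax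
  exact connelly hp h1 hn hw hwm

end Pool.Agent.Lib.P6a51b6
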