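import Pool.Agent.Lib.P6a51b6.NoE
import Pool.Agent.Lib.P6a51b6.Coord
import Pool.Agent.Lib.P6a51b6.Sufficiency

/-!
# The degenerating family of placements of the split graph
-/

set_option autoImplicit false

namespace Pool.Agent.Lib.P6a51b6

open scoped Matrix Topology
open Filter

variable {V : Type*} {d : ℕ}

/-- the placement of the split graph in which `some v` is moved by `t • z` from `p v` and `none` is
placed at `p v`. -/
def pt [DecidableEq V] (p : V → Fin d → ℝ) (v : V) (z : Fin d → ℝ) (t : ℝ) :
    Option V → Fin d → ℝ :=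
  fun x => p (x.getD v) + (if x = some v then t else 0) • z

/-- edge directions -/
def dir [DecidableEq V] (p : V → Fin d → ℝ) (v : V) (z : Fin d → ℝ) (t : ℝ) (x y : Option V) :
    Fin d → ℝ :=
  if x = some v ∧ y = none then z else if x = none ∧ y = some v then -z
  else pt p v z t x - pt p v z t y

/-- symmetric weights supported on the edges -/
structure SymSupp (G : SimpleGraph (Option V)) (W : Option V → Option V → ℝ) : Prop where
  symm : ∀ x y, W x y = W y x
  supp : ∀ x y, ¬ G.Adj x y → W x y = 0

/-- kernel of the degenerate equilibrium map -/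
structure KerF [Fintype V] [DecidableEq V] (G : SimpleGraph (Option V)) (p : V → Fin d → ℝ) (v : V)
    (z : Fin d → ℝ) (t : ℝ) (W : Option V → Option V → ℝ) : Prop extends SymSupp G W where
  force : ∀ x, ∑ y, W x y • dir p v z t x y = 0

/-- weights on the contracted graph -/
def proj [DecidableEq V] (v : V) (W : Option V → Option V → ℝ) : V → V → ℝ := fun u u' =>
  if u = v then (if u' = v then 0 else W (some v) (some u') + W none (some u'))
  else (if u' = v then W (some u) (some v) + W (some u) none else W (some u) (some u'))

/-- scaled weights -/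
noncomputable def scal [DecidableEq V] (v : V) (t : ℝ) (W : Option V → Option V → ℝ) :
    Option V → Option V → ℝ := fun x y =>
  if (x = some v ∧ y = none) ∨ (x = none ∧ y = some v) then W x y / t else W x y

section basic

variable [DecidableEq V] {p : V → Fin d → ℝ} {v : V} {z : Fin d → ℝ} {t : ℝ}

@[simp] theorem pt_none : pt p v z t none = p v := by simp [pt]

@[simp] theorem pt_some_self : pt p v z t (some v) = p v + t • z := by simp [pt]

theorem pt_some_ne {u : V} (hu : u ≠ v) : pt p v z t (some u) = p u := by simp [pt, hu]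

@[simp] theorem pt_zero (x : Option V) : pt p v z 0 x = p (x.getD v) := by simp [pt]

@[simp] theorem dir_some_none : dir p v z t (some v) none = z := by simp [dir]

@[simp] theorem dir_none_some : dir p v z t none (some v) = -z := by simp [dir]

theorem dir_of_not {x y : Option V} (h : ¬ ((x = some v ∧ y = none) ∨ (x = none ∧ y = some v))) :
    dir p v z t x y = pt p v z t x - pt p v z t y := by
  rw [not_or] at h
  rw [dir, if_neg h.1, if_neg h.2]

theorem dir_antisymm (x y : Option V) : dir p v z t y x = - dir p v z t x y := by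
  by_cases h : (x = some v ∧ y = none) ∨ (x = none ∧ y = some v)
  · rcases h with ⟨rfl, rfl⟩ | ⟨rfl, rfl⟩ <;> simp
  · rw [dir_of_not h, dir_of_not, neg_sub]
    rintro (h1 | h1)
    · exact h (Or.inr ⟨h1.2, h1.1⟩)
    · exact h (Or.inl ⟨h1.2, h1.1⟩)

end basic

section

variable [Fintype V] [DecidableEq V] {H : SimpleGraph V} {G : SimpleGraph (Option V)}
  {p : V → Fin d → ℝ} {v : V} {A₁ C A₂ : Finset V} {z ν : Fin d → ℝ} {t : ℝ}

/-- The force at `t = 0` in terms of Laplacians. -/
theorem force_zero_apply (W : Option V → Option V → ℝ) (x : Option V) (i : Fin d) :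
    (∑ y, W x y • dir p v z 0 x y) i = Lap W (fun y => p (y.getD v) i) x +
      (if x = some v then W (some v) none * z i else if x = none then - (W none (some v) * z i)
        else 0) := by
  have h1 : ∀ y, (W x y • dir p v z 0 x y) i = W x y * (p (x.getD v) i - p (y.getD v) i) +
      (if x = some v ∧ y = none then W x y * z i else 0) +
      (if x = none ∧ y = some v then - (W x y * z i) else 0) := by
    intro y
    by_cases h : (x = some v ∧ y = none) ∨ (x = none ∧ y = some v)
    · rcases h with ⟨rfl, rfl⟩ | ⟨rfl, rfl⟩ <;> simp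
    · rw [dir_of_not h]
      rw [not_or] at h
      rw [if_neg h.1, if_neg h.2]
      simp
  rw [Finset.sum_apply]
  simp only [h1, Finset.sum_add_distrib, Lap]
  rw [add_assoc]
  congr 1
  by_cases hx : x = some v
  · subst hx
    simp
  · by_cases hx' : x = none
    · subst hx'
      simp
    · simp [hx, hx']

/-- Laplacian of a function with equal values at `some v` and `none`. -/
theorem Lap_some_ne (W : Option V → Option V → ℝ) (f : V → ℝ) {u : V} (hu : u ≠ v) :
    Lap W (fun y => f (y.getD v)) (some u) = Lap (proj v W) f u := by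
  unfold Lap
  rw [Fintype.sum_option]
  simp only [Option.getD_none, Option.getD_some, proj, if_neg hu]
  have h1 : ∀ u', (if u' = v then W (some u) (some v) + W (some u) none
      else W (some u) (some u')) * (f u - f u') = W (some u) (some u') * (f u - f u') +
      (if u' = v then W (some u) none * (f u - f v) else 0) := by
    intro u'
    by_cases h : u' = v
    · subst h
      simp
      ring
    · simp [h]
  simp only [h1, Finset.sum_add_distrib, Finset.sum_ite_eq', Finset.mem_univ, if_true]
  ring

theorem Lap_some_add_none (W : Option V → Option V → ℝ) (f : V → ℝ) :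
    Lap W (fun y => f (y.getD v)) (some v) + Lap W (fun y => f (y.getD v)) none =
      Lap (proj v W) f v := by
  unfold Lap
  rw [Fintype.sum_option, Fintype.sum_option]
  simp only [Option.getD_none, Option.getD_some, proj, if_true, sub_self, mul_zero, zero_add]
  rw [← Finset.sum_add_distrib]
  refine Finset.sum_congr rfl fun u' _ => ?_
  by_cases h : u' = v
  · subst h
    simp
  · simp [h]
    ring

/-- (P1) -/
theorem KerF.isStress_proj (hs : IsSplit H v A₁ C A₂ G d) {W : Option V → Option V → ℝ}
    (hW : KerF G p v z 0 W) : IsStress H p (proj v W) where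
  symm := by
    intro u u'
    unfold proj
    by_cases h : u = v <;> by_cases h' : u' = v
    · simp [h, h']
    · simp only [h, h', if_true, if_false]
      rw [hW.symm (some v), hW.symm none]
    · simp only [h, h', if_true, if_false]
      rw [hW.symm (some v), hW.symm none]
    · simp only [h, h', if_false]
      rw [hW.symm]
  supp := by
    intro u u' huu'
    have hv : ∀ u', u' ≠ v → ¬ H.Adj v u' → W (some v) (some u') = 0 ∧ W none (some u') = 0 := by
      intro u' hu' h
      rw [hs.nbr] at h
      push Not at h
      constructor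
      · apply hW.supp
        rw [hs.adj₁ u' hu']
        tauto
      · apply hW.supp
        rw [hs.adj₂ u' hu']
        tauto
    unfold proj
    by_cases h : u = v <;> by_cases h' : u' = v
    · simp [h, h']
    · simp only [h, h', if_true, if_false]
      obtain ⟨h1, h2⟩ := hv u' h' (h ▸ huu')
      rw [h1, h2, add_zero]
    · simp only [h, h', if_true, if_false]
      obtain ⟨h1, h2⟩ := hv u h (fun h3 => huu' (h' ▸ h3.symm))
      rw [hW.symm, h1, hW.symm, h2, add_zero]
    · simp only [h, h', if_false]
      apply hW.supp
      rw [hs.adj₃ u u' h h']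
      exact huu'
  eq := by
    intro i
    funext u
    have hf : ∀ x, (∑ y, W x y • dir p v z 0 x y) i = 0 := fun x => by
      rw [hW.force x]
      rfl
    simp only [force_zero_apply] at hf
    by_cases h : u = v
    · subst h
      rw [← Lap_some_add_none]
      have h1 := hf (some u)
      have h2 := hf none
      have h3 := hW.symm none (some u)
      simp only [if_true] at h1
      simp only [reduceCtorEq, if_false, if_true] at h2
      rw [h3] at h2
      simp only [Pi.zero_apply]
      linarith
    · rw [← Lap_some_ne W _ h]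
      have h1 := hf (some u)
      simp only [Option.some.injEq, h, if_false, reduceCtorEq, add_zero] at h1
      exact h1

/-- (P2) -/
theorem KerF.mu_eq (hs : IsSplit H v A₁ C A₂ G d) (hνC : ∀ c ∈ C, ν ⬝ᵥ (p v - p c) = 0)
    {W : Option V → Option V → ℝ} (hW : KerF G p v z 0 W) :
    W (some v) none * (z ⬝ᵥ ν) = - (ν ⬝ᵥ ∑ a ∈ A₁, proj v W v a • (p v - p a)) := by
  have h0 := congrArg (fun f => ν ⬝ᵥ f) (hW.force (some v))
  simp only [dotProduct_zero] at h0
  rw [Fintype.sum_option] at h0
  simp only [dir_some_none, dotProduct_add, dotProduct_sum, dotProduct_smul, smul_eq_mul] at h0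
  rw [dotProduct_sum]
  simp only [dotProduct_smul, smul_eq_mul]
  have h1 : ∑ u, W (some v) (some u) * ν ⬝ᵥ dir p v z 0 (some v) (some u) =
      ∑ a ∈ A₁, proj v W v a * ν ⬝ᵥ (p v - p a) := by
    symm
    rw [← Finset.sum_subset (Finset.subset_univ A₁)]
    · refine Finset.sum_congr rfl fun a ha => ?_
      have hav : a ≠ v := by
        rintro rfl
        exact H.irrefl ((hs.nbr a).mpr (Or.inl ha))
      have h2 : W none (some a) = 0 := by
        apply hW.supp
        rw [hs.adj₂ a hav]
        rintro (h | h)
        · exact hs.disj₃ a ha h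
        · exact hs.disj₁ a ha h
      have h3 : dir p v z 0 (some v) (some a) = p v - p a := by
        rw [dir_of_not (by simp)]
        simp
      rw [h3]
      simp [proj, hav, h2]
    · intro u _ hu
      by_cases huv : u = v
      · subst huv
        rw [dir_of_not (by simp)]
        simp
      · by_cases huC : u ∈ C
        · have h3 : dir p v z 0 (some v) (some u) = p v - p u := by
            rw [dir_of_not (by simp)]
            simp
          rw [h3, hνC u huC, mul_zero]
        · rw [hW.supp (some v) (some u) (by rw [hs.adj₁ u huv]; tauto), zero_mul]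
  rw [h1] at h0
  rw [dotProduct_comm z ν]
  linarith

/-- vectors orthogonal to the directions `p v - p c` are multiples of `ν`. -/
theorem perp_unique (hp : Generic p) (hcard : C.card + 1 = d) (hvC : v ∉ C) {a : V} (hav : a ≠ v)
    (haC : a ∉ C) (hν : ν ≠ 0) (hνC : ∀ c ∈ C, ν ⬝ᵥ (p v - p c) = 0) {f : Fin d → ℝ}
    (hf : ∀ c ∈ C, f ⬝ᵥ (p v - p c) = 0) : ∃ s : ℝ, f = s • ν := by
  have horth : ∀ f : Fin d → ℝ, f ⬝ᵥ (p a - p v) = 0 →
      (∀ c ∈ C, f ⬝ᵥ (p v - p c) = 0) → f = 0 := by
    intro f hfa hfC
    refine (hp.affine_zero (X := insert v (insert a C)) ?_ (b := f) (β := - (f ⬝ᵥ p v)) ?_).1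
    · rw [Finset.card_insert_of_notMem, Finset.card_insert_of_notMem haC]
      · omega
      · simp only [Finset.mem_insert, not_or]
        exact ⟨hav.symm, hvC⟩
    · intro u hu
      rw [Finset.mem_insert, Finset.mem_insert] at hu
      rcases hu with rfl | rfl | hu
      · ring
      · rw [dotProduct_sub] at hfa
        linarith
      · have := hfC u hu
        rw [dotProduct_sub] at this
        linarith
  have hνa : ν ⬝ᵥ (p a - p v) ≠ 0 := fun h => hν (horth ν h hνC)
  refine ⟨(f ⬝ᵥ (p a - p v)) / (ν ⬝ᵥ (p a - p v)), ?_⟩
  rw [← sub_eq_zero]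
  apply horth
  · rw [sub_dotProduct, smul_dotProduct, smul_eq_mul, div_mul_cancel₀ _ hνa, sub_self]
  · intro c hc
    rw [sub_dotProduct, smul_dotProduct, hf c hc, hνC c hc, smul_zero, sub_zero]

/-- a nonzero normal vector -/
theorem exists_nu (p : V → Fin d → ℝ) (v : V) (hcard : C.card + 1 = d) :
    ∃ ν : Fin d → ℝ, ν ≠ 0 ∧ ∀ c ∈ C, ν ⬝ᵥ (p v - p c) = 0 := by
  set φ : (Fin d → ℝ) →ₗ[ℝ] (C → ℝ) :=
    { toFun := fun f c => f ⬝ᵥ (p v - p c)
      map_add' := fun f g => by
        funext c
        simp only [add_dotProduct, Pi.add_apply]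
      map_smul' := fun s f => by
        funext c
        simp only [smul_dotProduct, Pi.smul_apply, RingHom.id_apply] } with hφ
  have h1 : LinearMap.ker φ ≠ ⊥ := by
    apply LinearMap.ker_ne_bot_of_finrank_lt
    simp
    omega
  obtain ⟨ν, hν, hν0⟩ := (Submodule.ne_bot_iff _).mp h1
  refine ⟨ν, hν0, fun c hc => ?_⟩
  exact congrFun (LinearMap.mem_ker.mp hν) ⟨c, hc⟩

end

end Pool.Agent.Lib.P6a51b6
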