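import Pool.Agent.Lib.P6a51b6.RankPF

/-!
# Trivial motions and the rigidity matrix
-/

set_option autoImplicit false

namespace Pool.Agent.Lib.P6a51b6

open scoped Matrix
open Module

variable {V : Type*} [Fintype V] {d : ℕ}

theorem exists_skew {y μ : V → Fin d → ℝ}
    (hspan : ∀ b : Fin d → ℝ, (∀ u, b ⬝ᵥ y u = 0) → b = 0)
    (h : ∀ u v, y u ⬝ᵥ μ v + μ u ⬝ᵥ y v = 0) :
    ∃ A : Matrix (Fin d) (Fin d) ℝ, Aᵀ = -A ∧ ∀ u, μ u = A *ᵥ y u := by
  classical
  set Y : Matrix (Fin d) V ℝ := fun i u => y u i with hY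
  set M : Matrix (Fin d) V ℝ := fun i u => μ u i with hM
  have hYM : Yᵀ * M + Mᵀ * Y = 0 := by
    ext u v
    exact h u v
  set G := Y * Yᵀ with hG
  have hinj : IsUnit G := by
    rw [← Matrix.mulVec_injective_iff_isUnit]
    intro b b' hbb
    rw [← sub_eq_zero]
    have h0 : G *ᵥ (b - b') = 0 := by
      rw [Matrix.mulVec_sub, sub_eq_zero]
      exact hbb
    apply hspan
    have h1 : (Yᵀ *ᵥ (b - b')) ⬝ᵥ (Yᵀ *ᵥ (b - b')) = 0 := by
      have : (b - b') ⬝ᵥ (G *ᵥ (b - b')) = 0 := by rw [h0, dotProduct_zero]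
      rw [hG, ← Matrix.mulVec_mulVec, Matrix.dotProduct_mulVec, ← Matrix.mulVec_transpose] at this
      exact this
    have h2 : Yᵀ *ᵥ (b - b') = 0 := dotProduct_self_eq_zero.mp h1
    intro u
    have := congrFun h2 u
    rw [dotProduct_comm]
    exact this
  have hdet : IsUnit G.det := (Matrix.isUnit_iff_isUnit_det G).mp hinj
  have hGM : G * M = - (Y * Mᵀ * Y) := by
    have := congrArg (fun N => Y * N) hYM
    simp only [Matrix.mul_add, Matrix.mul_zero] at this
    rw [hG, Matrix.mul_assoc, Matrix.mul_assoc]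
    exact eq_neg_of_add_eq_zero_left this
  set A := -(G⁻¹ * (Y * Mᵀ)) with hA
  have hAY : A * Y = M := by
    have : G * (A * Y) = G * M := by
      rw [hGM, hA, Matrix.neg_mul, Matrix.mul_neg, ← Matrix.mul_assoc G, ← Matrix.mul_assoc G,
        Matrix.mul_nonsing_inv _ hdet, Matrix.one_mul]
    have h3 := congrArg (fun N => G⁻¹ * N) this
    simp only [← Matrix.mul_assoc, Matrix.nonsing_inv_mul _ hdet, Matrix.one_mul] at h3
    exact h3
  have hskew : A + Aᵀ = 0 := by
    have h4 : Yᵀ * (A + Aᵀ) * Y = 0 := by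
      rw [Matrix.mul_add, Matrix.add_mul, Matrix.mul_assoc, hAY, ← Matrix.transpose_mul, hAY]
      exact hYM
    have h5 : G * (A + Aᵀ) * G = 0 := by
      have : Y * (Yᵀ * (A + Aᵀ) * Y) * Yᵀ = 0 := by rw [h4]; simp
      rw [← this, hG]
      simp only [Matrix.mul_assoc]
    have h6 : G⁻¹ * (G * (A + Aᵀ) * G) * G⁻¹ = 0 := by rw [h5]; simp
    rw [Matrix.mul_assoc G, ← Matrix.mul_assoc G⁻¹, Matrix.nonsing_inv_mul _ hdet, Matrix.one_mul,
      Matrix.mul_assoc, Matrix.mul_nonsing_inv _ hdet, Matrix.mul_one] at h6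
    exact h6
  refine ⟨A, ?_, fun u => ?_⟩
  · rw [add_comm] at hskew
    exact eq_neg_of_add_eq_zero_left hskew
  · funext i
    exact (congrFun (congrFun hAY i) u).symm

/-- An infinitesimal motion of the complete graph is trivial. -/
theorem trivial_motion_at {p m : V → Fin d → ℝ} (haff : AffSpan p) (u₀ : V)
    (h : ∀ u v, (p u - p v) ⬝ᵥ (m u - m v) = 0) :
    ∃ A : Matrix (Fin d) (Fin d) ℝ, Aᵀ = -A ∧ ∃ c : Fin d → ℝ, ∀ u, m u = A *ᵥ p u + c := by
  obtain ⟨A, hA, hA2⟩ := exists_skew (y := fun u => p u - p u₀) (μ := fun u => m u - m u₀)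
    (by
      intro b hb
      apply haff b (-(b ⬝ᵥ p u₀))
      intro u
      have := hb u
      rw [dotProduct_sub] at this
      linarith)
    (by
      intro u v
      have h1 := h u u₀
      have h2 := h v u₀
      have h3 := h u v
      have h4 : p u - p v = (p u - p u₀) - (p v - p u₀) := by abel
      have h5 : m u - m v = (m u - m u₀) - (m v - m u₀) := by abel
      rw [h4, h5, sub_dotProduct, dotProduct_sub _ (m u - m u₀), dotProduct_sub _ (m u - m u₀),
        h1, h2, dotProduct_comm (p v - p u₀)] at h3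
      linarith)
  refine ⟨A, hA, m u₀ - A *ᵥ p u₀, fun u => ?_⟩
  have := hA2 u
  simp only [Matrix.mulVec_sub] at this
  rw [← sub_eq_zero] at this ⊢
  rw [← this]
  abel

/-- The rigidity matrix. -/
def rigMat {K : Type*} [CommRing K] {V : Type*} [DecidableEq V] (E : V → V → Prop)
    [DecidableRel E] (p : V → Fin d → K) : Matrix (V × V) (V × Fin d) K :=
  fun e x => if E e.1 e.2 then
    (p e.1 x.2 - p e.2 x.2) * ((if x.1 = e.1 then 1 else 0) - (if x.1 = e.2 then 1 else 0)) else 0

theorem rigMat_map {K L : Type*} [CommRing K] [CommRing L] {V : Type*} [DecidableEq V]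
    (E : V → V → Prop) [DecidableRel E] (p : V → Fin d → K) (φ : K →+* L) :
    (rigMat E p).map φ = rigMat E (fun u i => φ (p u i)) := by
  ext e x
  simp only [rigMat, Matrix.map_apply]
  split_ifs <;> simp

theorem rigMat_mulVec [DecidableEq V] (E : V → V → Prop) [DecidableRel E] (p : V → Fin d → ℝ)
    (m : V × Fin d → ℝ) (e : V × V) :
    (rigMat E p *ᵥ m) e = if E e.1 e.2 then
      (p e.1 - p e.2) ⬝ᵥ (fun i => m (e.1, i) - m (e.2, i)) else 0 := by
  simp only [Matrix.mulVec, dotProduct, rigMat]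
  split_ifs with h
  · rw [Fintype.sum_prod_type_right]
    refine Finset.sum_congr rfl (fun i _ => ?_)
    have h1 : ∀ x : V, (p e.1 i - p e.2 i) *
        ((if x = e.1 then 1 else 0) - (if x = e.2 then 1 else 0)) * m (x, i) =
        (if x = e.1 then (p e.1 i - p e.2 i) * m (x, i) else 0) -
        (if x = e.2 then (p e.1 i - p e.2 i) * m (x, i) else 0) := by
      intro x
      split_ifs <;> ring
    simp only [h1, Finset.sum_sub_distrib, Finset.sum_ite_eq', Finset.mem_univ, if_true]
    simp only [Pi.sub_apply]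
    ring
  · simp

theorem vecMul_rigMat [DecidableEq V] (E : V → V → Prop) [DecidableRel E] (p : V → Fin d → ℝ)
    (w : V × V → ℝ) (u : V) (i : Fin d) :
    (w ᵥ* rigMat E p) (u, i) = ∑ v, ((if E u v then w (u, v) else 0) +
      (if E v u then w (v, u) else 0)) * (p u i - p v i) := by
  simp only [Matrix.vecMul, dotProduct, rigMat]
  rw [Fintype.sum_prod_type]
  have h1 : ∀ x y : V, w (x, y) * (if E x y then (p x i - p y i) *
        ((if u = x then 1 else 0) - (if u = y then 1 else 0)) else 0) =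
        (if u = x then (if E x y then w (x, y) * (p x i - p y i) else 0) else 0) -
        (if u = y then (if E x y then w (x, y) * (p x i - p y i) else 0) else 0) := by
    intro x y
    split_ifs <;> ring
  simp only [h1, Finset.sum_sub_distrib]
  rw [Finset.sum_comm]
  simp only [Finset.sum_ite_eq, Finset.mem_univ, if_true]
  rw [← Finset.sum_sub_distrib]
  refine Finset.sum_congr rfl (fun v _ => ?_)
  split_ifs <;> ring

/-- skew matrices -/
def Skew (d : ℕ) : Submodule ℝ (Matrix (Fin d) (Fin d) ℝ) where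
  carrier := {A | Aᵀ = -A}
  add_mem' := by
    intro A B hA hB
    show (A + B)ᵀ = -(A + B)
    rw [Matrix.transpose_add, show Aᵀ = -A from hA, show Bᵀ = -B from hB, neg_add]
  zero_mem' := by
    show (0 : Matrix (Fin d) (Fin d) ℝ)ᵀ = -0
    simp
  smul_mem' := by
    intro c A hA
    show (c • A)ᵀ = -(c • A)
    rw [Matrix.transpose_smul, show Aᵀ = -A from hA, smul_neg]

/-- trivial motions -/
def trivMap (p : V → Fin d → ℝ) : (Skew d × (Fin d → ℝ)) →ₗ[ℝ] (V × Fin d → ℝ) where
  toFun := fun x y => (x.1.1 *ᵥ p y.1) y.2 + x.2 y.2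
  map_add' := by
    intro x x'
    funext y
    simp only [Prod.fst_add, Submodule.coe_add, Matrix.add_mulVec, Prod.snd_add, Pi.add_apply]
    ring
  map_smul' := by
    intro c x
    funext y
    simp only [Prod.smul_fst, Submodule.coe_smul, Matrix.smul_mulVec, Prod.smul_snd,
      Pi.smul_apply, smul_eq_mul, RingHom.id_apply]
    ring

/-- the space of infinitesimal motions -/
theorem mem_ker_rigMat [DecidableEq V] {E : V → V → Prop} [DecidableRel E] {p : V → Fin d → ℝ}
    {m : V × Fin d → ℝ} : m ∈ LinearMap.ker (rigMat E p).mulVecLin ↔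
      ∀ u v, E u v → (p u - p v) ⬝ᵥ (fun i => m (u, i) - m (v, i)) = 0 := by
  rw [LinearMap.mem_ker, Matrix.mulVecLin_apply]
  constructor
  · intro h u v huv
    have := congrFun h (u, v)
    rw [rigMat_mulVec] at this
    simpa [huv] using this
  · intro h
    funext e
    rw [rigMat_mulVec]
    split_ifs with he
    · exact h _ _ he
    · rfl

theorem skew_dot {A : Matrix (Fin d) (Fin d) ℝ} (hA : Aᵀ = -A) (x : Fin d → ℝ) :
    x ⬝ᵥ (A *ᵥ x) = 0 := by
  have h1 : x ⬝ᵥ (A *ᵥ x) = x ⬝ᵥ (Aᵀ *ᵥ x) := by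
    rw [Matrix.dotProduct_mulVec x A, ← Matrix.mulVec_transpose, dotProduct_comm]
  rw [hA, Matrix.neg_mulVec, dotProduct_neg] at h1
  linarith

theorem range_trivMap_le [DecidableEq V] (E : V → V → Prop) [DecidableRel E]
    (p : V → Fin d → ℝ) :
    LinearMap.range (trivMap p) ≤ LinearMap.ker (rigMat E p).mulVecLin := by
  rintro _ ⟨x, rfl⟩
  rw [mem_ker_rigMat]
  intro u v _
  have h1 : (fun i => trivMap p x (u, i) - trivMap p x (v, i)) = x.1.1 *ᵥ (p u - p v) := by
    funext i
    simp only [trivMap, LinearMap.coe_mk, AddHom.coe_mk, Matrix.mulVec_sub, Pi.sub_apply]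
    ring
  rw [h1]
  exact skew_dot x.1.2 _

omit [Fintype V] in
theorem trivMap_injective {p : V → Fin d → ℝ} (haff : AffSpan p) (u₀ : V) :
    Function.Injective (trivMap p) := by
  rw [← LinearMap.ker_eq_bot, LinearMap.ker_eq_bot']
  rintro ⟨⟨A, hA⟩, c⟩ h
  have h1 : ∀ i, A i = 0 := by
    intro i
    apply haff (A i) (c i)
    intro u
    exact congrFun h (u, i)
  have hA0 : A = 0 := by
    ext i j
    rw [h1 i]
    rfl
  have hc : c = 0 := by
    funext i
    have := congrFun h (u₀, i)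
    simp only [trivMap, LinearMap.coe_mk, AddHom.coe_mk, hA0, Matrix.zero_mulVec, Pi.zero_apply,
      zero_add] at this
    exact this
  subst hA0 hc
  rfl

theorem range_trivMap_eq [DecidableEq V] {p : V → Fin d → ℝ} (haff : AffSpan p) (u₀ : V) :
    LinearMap.range (trivMap p) =
      LinearMap.ker (rigMat (fun _ _ : V => True) p).mulVecLin := by
  apply le_antisymm (range_trivMap_le _ p)
  intro m hm
  rw [mem_ker_rigMat] at hm
  obtain ⟨A, hA, c, hc⟩ := trivial_motion_at (m := fun u i => m (u, i)) haff u₀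
    (fun u v => hm u v trivial)
  refine ⟨(⟨A, hA⟩, c), ?_⟩
  funext y
  obtain ⟨u, i⟩ := y
  exact (congrFun (hc u) i).symm

theorem finrank_triv [DecidableEq V] {p : V → Fin d → ℝ} (haff : AffSpan p) (u₀ : V) :
    finrank ℝ (LinearMap.ker (rigMat (fun _ _ : V => True) p).mulVecLin) =
      finrank ℝ (Skew d × (Fin d → ℝ)) := by
  rw [← range_trivMap_eq haff u₀]
  exact LinearMap.finrank_range_of_inj (trivMap_injective haff u₀)

end Pool.Agent.Lib.P6a51b6
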